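import Pool.Agent.H34.P0.Grp

/-!
# The special elements and classes
-/

set_option autoImplicit false

namespace P0N

open Finset Polynomial

variable {R : Type} [CommRing R] {S : Type} [CommRing S]

/-! ### the elements -/

/-- `eta_2` -/
def eta2 (xi : ℕ → S) (X : S) : S := xi 2 - X * xi 1
/-- `eta_3` -/
def eta3 (xi : ℕ → S) (X : S) : S := xi 3 - X ^ 3 * xi 2
/-- `eta_4` -/
def eta4 (xi : ℕ → S) (X : S) : S := xi 4 - X ^ 9 * xi 3
/-- `eta_5` -/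
def eta5 (xi : ℕ → S) (X : S) : S := xi 5 - X ^ 27 * xi 4
/-- `eta_31` -/
def eta31 (xi : ℕ → S) (X : S) : S := eta3 xi X ^ 3 + (X - xi 1 ^ 3) * eta2 xi X ^ 9
/-- `eta'_41` -/
def eta41 (xi : ℕ → S) (X Y : S) : S :=
  eta4 xi X ^ 3 + (X - xi 1 ^ 3) * eta3 xi X ^ 9 + (X - xi 1 ^ 3) ^ 4 * eta2 xi X ^ 27
    - Y ^ 3 * eta2 xi X ^ 3

/-- `X` is a 0-cochain with `d X = - xi_1^3` -/
structure IsX (B : Cos S) (xi : ℕ → S) (X : S) : Prop where
  supp : Supp B 0 X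
  rel : B.act (sh 1) X = X - xi 1 ^ 3

/-- `Y` is a 0-cochain with `d Y = - eta_2^9` -/
structure IsY (B : Cos S) (xi : ℕ → S) (X Y : S) : Prop where
  supp : Supp B 0 Y
  rel : B.act (sh 1) Y = Y - eta2 xi X ^ 9

/-- `W` is a 0-cochain with `d W = - eta_31^9` -/
structure IsW (B : Cos S) (xi : ℕ → S) (X W : S) : Prop where
  supp : Supp B 0 W
  rel : B.act (sh 1) W = W - eta31 xi X ^ 9

/-- the 2-cochain `u ∪ u^2 + u^2 ∪ u` -/
def bR (B : Cos S) (u : S) : S := u * B.act (sh 1) (u ^ 2) + u ^ 2 * B.act (sh 1) u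

/-- the class `b(u)` of a 1-cocycle `u` -/
noncomputable def bc (B : Cos S) [CharP S 3] (u : S) : Hev B := cls B 2 (bR B u)

/-- the class of a 0-cocycle -/
noncomputable def c0 (B : Cos S) [CharP S 3] (c : S) : Hev B := cls B 0 c

/-- `((a + b + c)^3 - a^3 - b^3 - c^3) / 3` -/
def om3 (a b c : S) : S :=
  a ^ 2 * b + a * b ^ 2 + a ^ 2 * c + a * c ^ 2 + b ^ 2 * c + b * c ^ 2 + 2 * (a * b * c)

/-- the 2-cochain `b_30` -/
def b30R (B : Cos S) (xi : ℕ → S) (X Y : S) : S :=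
  om3 (eta3 xi X) (B.act (sh 1) (eta3 xi X)) (eta2 xi X ^ 3 * B.act (sh 1) (xi 1))
    + bR B (eta2 xi X ^ 3) * B.act (sh 2) X - Y * bR B (xi 1)

/-- the class `b_30` -/
noncomputable def b30 (B : Cos S) [CharP S 3] (xi : ℕ → S) (X Y : S) : Hev B :=
  cls B 2 (b30R B xi X Y)

/-- the class `f = b_42 b_20^27 - b_32 b_30^27` of degree 56 -/
noncomputable def fcl (B : Cos S) [CharP S 3] (xi : ℕ → S) (X Y : S) : Hev B :=
  bc B (eta41 xi X Y ^ 3) * bc B (eta2 xi X) ^ 27 - bc B (eta31 xi X ^ 3) * b30 B xi X Y ^ 27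

/-- the 1-cocycle `z` annihilates the even class `β` -/
def AnnH (B : Cos S) [CharP S 3] (z : S) (β : Hev B) : Prop :=
  ∃ a : ↥(Coch B), a ∈ (cochDGA B).Z ∧ (cochDGA B).cl a = β ∧ ∃ k, sg B 1 z * a = dC B k

end P0N
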