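import Pool.Agent.H34.P0.Cls
import Pool.Agent.H34.P0.Elts

/-!
# The operation `b` on 1-cocycles, classes of 0-cocycles
-/

set_option autoImplicit false

namespace P0N

open Finset

variable {R : Type} [CommRing R] {S : Type} [CommRing S]

/-! ### auxiliary formulas -/

theorem BC_cup0 (B : Cos S) (c f : S) : cup B 0 c f = c * f := by
  unfold cup
  rw [act_sh_zero]

theorem BC_d1 {B : Cos S} {f : S} (hf : Supp B 1 f) :
    d B 1 f = B.act (sh 1) f - B.act (face 1) f + f := by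
  have h0 : B.act (face 0) f = B.act (sh 1) f := hf.act_congr fun i _ => by simp
  have h2 : B.act (face 2) f = f := hf.act_eq _ fun i hi => by
    rw [face_apply, if_pos (by omega)]
  rw [d_apply]
  simp only [Finset.sum_range_succ, Finset.sum_range_zero]
  rw [h0, h2]
  ring

theorem BC_d0 {B : Cos S} {w : S} (hw : Supp B 0 w) : d B 0 w = B.act (sh 1) w - w := by
  have h0 : B.act (face 0) w = B.act (sh 1) w := hw.act_congr fun i _ => by simp
  have h2 : B.act (face 1) w = w := hw.act_eq _ fun i hi => by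
    rw [face_apply, if_pos (by omega)]
  rw [d_apply]
  simp only [Finset.sum_range_succ, Finset.sum_range_zero]
  rw [h0, h2]
  ring

theorem BC_rel {B : Cos S} {u : S} (hu : Coc B 1 u) :
    B.act (face 1) u = u + B.act (sh 1) u := by
  have h := hu.2
  rw [BC_d1 hu.1] at h
  linear_combination -h

theorem BC_sh1 {B : Cos S} {c : S} (hc : Coc B 0 c) : B.act (sh 1) c = c := by
  have h := hc.2
  rw [BC_d0 hc.1] at h
  linear_combination h

theorem BC_three {S : Type} [CommRing S] [CharP S 3] : (3 : S) = 0 := by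
  exact_mod_cast CharP.cast_eq_zero S 3

theorem BC_supp {B : Cos S} {u : S} (hu : Supp B 1 u) : Supp B 2 (bR B u) :=
  (hu.cup (hu.pow 2)).add ((hu.pow 2).cup hu)

theorem bR_coc {B : Cos S} [CharP S 3] {u : S} (hu : Coc B 1 u) : Coc B 2 (bR B u) := by
  refine ⟨BC_supp hu.1, ?_⟩
  have e : bR B u = cup B 1 u (u ^ 2) + cup B 1 (u ^ 2) u := rfl
  have hd : d B 1 (u ^ 2) = u * B.act (sh 1) u := by
    rw [BC_d1 (hu.1.pow 2), map_pow, map_pow, BC_rel hu]
    have h3 : (3 : S) = 0 := BC_three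
    linear_combination (-(u * B.act (sh 1) u)) * h3
  have h1 := d_cup B 1 1 u (u ^ 2) hu.1
  have h2 := d_cup B 1 1 (u ^ 2) u (hu.1.pow 2)
  rw [hu.2, hd] at h1
  rw [hu.2, hd] at h2
  rw [e, map_add]
  refine (congrArg₂ (· + ·) h1 h2).trans ?_
  simp only [cup, map_mul, act_sh_sh, map_zero]
  ring

/-- `b(u)` is `u ∪ u^2 + u^2 ∪ u` in the DG ring -/
theorem sg_bR {B : Cos S} {u : S} (hu : Supp B 1 u) :
    sg B 2 (bR B u) = sg B 1 u * sg B 1 (u ^ 2) + sg B 1 (u ^ 2) * sg B 1 u := by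
  rw [sg_mul hu (hu.pow 2), sg_mul (hu.pow 2) hu, ← sg_add (hu.cup (hu.pow 2))
    ((hu.pow 2).cup hu)]
  rfl

theorem bc_add {B : Cos S} [CharP S 3] {u v : S} (hu : Coc B 1 u) (hv : Coc B 1 v) :
    bc B (u + v) = bc B u + bc B v := by
  have hf : Supp B 1 (u ^ 2 * v + u * v ^ 2) :=
    ((hu.1.pow 2).mul hv.1).add (hu.1.mul (hv.1.pow 2))
  have e : bR B (u + v) = bR B u + bR B v - d B 1 (u ^ 2 * v + u * v ^ 2) := by
    rw [BC_d1 hf]
    unfold bR
    simp only [map_add, map_mul, map_pow, BC_rel hu, BC_rel hv]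
    ring
  have h0 : cls B 2 (d B 1 (u ^ 2 * v + u * v ^ 2)) = 0 := cls_bdry even_two hf
  unfold bc
  rw [e, cls_sub even_two ((bR_coc hu).add (bR_coc hv)) (Coc.bdry hf),
    cls_add even_two (bR_coc hu) (bR_coc hv), h0, sub_zero]
theorem bc_neg {B : Cos S} [CharP S 3] {u : S} (hu : Coc B 1 u) : bc B (-u) = - bc B u := by
  have e : bR B (-u) = - bR B u := by
    unfold bR
    simp only [map_neg, map_pow]
    ring
  unfold bc
  rw [e, cls_neg even_two (bR_coc hu)]
theorem bc_sub {B : Cos S} [CharP S 3] {u v : S} (hu : Coc B 1 u) (hv : Coc B 1 v) :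
    bc B (u - v) = bc B u - bc B v := by
  rw [sub_eq_add_neg, bc_add hu hv.neg, bc_neg hv, sub_eq_add_neg]
theorem bc_bdry {B : Cos S} [CharP S 3] {w : S} (hw : Supp B 0 w) : bc B (d B 0 w) = 0 := by
  have hw1 : Supp B 1 (B.act (sh 1) w) := hw.act _ fun i hi => by
    rw [sh_apply]; omega
  have hf : Supp B 1 ((B.act (sh 1) w) ^ 2 * w - B.act (sh 1) w * w ^ 2) :=
    ((hw1.pow 2).mul (hw.mono (by omega))).sub (hw1.mul ((hw.mono (by omega)).pow 2))
  have h1 : B.act (face 1) w = w := hw.act_eq _ fun i hi => by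
    rw [face_apply, if_pos (by omega)]
  have h2 : B.act (face 1) (B.act (sh 1) w) = B.act (sh 2) w := by
    rw [← B.act_comp]
    refine hw.act_congr fun i hi => ?_
    show face 1 (sh 1 i) = sh 2 i
    rw [face_apply, sh_apply, sh_apply, if_neg (by omega)]
  have e : bR B (d B 0 w) = d B 1 ((B.act (sh 1) w) ^ 2 * w - B.act (sh 1) w * w ^ 2) := by
    rw [BC_d1 hf, BC_d0 hw]
    unfold bR
    simp only [map_sub, map_mul, map_pow, h1, h2, act_sh_sh]
    ring
  unfold bc
  rw [e]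
  exact cls_bdry even_two hf
/-- multiplication of a 1-cocycle by a 0-cocycle -/
theorem Coc.smul {B : Cos S} {c u : S} {n : ℕ} (hc : Coc B 0 c) (hu : Coc B n u) :
    Coc B n (c * u) := by
  have h := hc.cup hu
  rw [BC_cup0, zero_add] at h
  exact h

theorem BC_c0_mul {B : Cos S} [CharP S 3] {c e : S} (hc : Coc B 0 c) (he : Coc B 0 e) :
    c0 B (c * e) = c0 B c * c0 B e := by
  have h := cls_mul Even.zero Even.zero hc he
  rw [BC_cup0] at h
  exact h

theorem BC_pow {B : Cos S} {c : S} (hc : Coc B 0 c) (k : ℕ) : Coc B 0 (c ^ k) := by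
  induction k with
  | zero => rw [pow_zero]; exact Coc.one B
  | succ k ih => rw [pow_succ]; exact ih.smul hc

theorem BC_c0_pow {B : Cos S} [CharP S 3] {c : S} (hc : Coc B 0 c) (k : ℕ) :
    c0 B (c ^ k) = c0 B c ^ k := by
  induction k with
  | zero => rw [pow_zero, pow_zero]; exact cls_one B
  | succ k ih => rw [pow_succ, pow_succ, BC_c0_mul (BC_pow hc k) hc, ih]

theorem BC_cls_smul {B : Cos S} [CharP S 3] {c f : S} {n : ℕ} (hn : Even n) (hc : Coc B 0 c)
    (hf : Coc B n f) : cls B n (c * f) = c0 B c * cls B n f := by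
  have h := cls_mul Even.zero hn hc hf
  rw [BC_cup0, zero_add] at h
  exact h

theorem bc_smul {B : Cos S} [CharP S 3] {c u : S} (hc : Coc B 0 c) (hu : Coc B 1 u) :
    bc B (c * u) = c0 B c ^ 3 * bc B u := by
  have e : bR B (c * u) = c ^ 3 * bR B u := by
    unfold bR
    simp only [map_mul, map_pow, BC_sh1 hc]
    ring
  unfold bc
  rw [e, BC_cls_smul even_two (BC_pow hc 3) (bR_coc hu), BC_c0_pow hc]
theorem bc_cube {B : Cos S} [CharP S 3] {u : S} (hu : Coc B 1 u) :
    bc B (u ^ 3) = (frob B).H (bc B u) := by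
  have e : bR B (u ^ 3) = (bR B u) ^ 3 := by
    have _ : Fact (Nat.Prime 3) := ⟨Nat.prime_three⟩
    unfold bR
    rw [add_pow_char]
    simp only [map_pow]
    ring
  unfold bc
  rw [map_cls (frob B) even_two (bR_coc hu), e, frob_f]
theorem map_bc {A : Cos R} {B : Cos S} [CharP R 3] [CharP S 3] (p : CHom A B) {u : R}
    (hu : Coc A 1 u) : p.H (bc A u) = bc B (p.f u) := by
  have e : p.f (bR A u) = bR B (p.f u) := by
    unfold bR
    simp only [map_add, map_mul, map_pow, p.comm]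
  unfold bc
  rw [map_cls p even_two (bR_coc hu), e]
theorem bc_hom {B : Cos S} [CharP S 3] {u : S} (hu : Coc B 1 u) : IsHom B 2 (bc B u) :=
  IsHom.cls even_two (bR_coc hu)
/-- nilpotence exponents are preserved by Frobenius -/
theorem bc_pow3_eq_zero {B : Cos S} [CharP S 3] {u : S} (hu : Coc B 1 u) {N : ℕ}
    (h : bc B u ^ N = 0) (s : ℕ) : bc B (u ^ (3 ^ s)) ^ N = 0 := by
  induction s with
  | zero => rw [pow_zero, pow_one]; exact h
  | succ s ih =>
    rw [pow_succ, pow_mul, bc_cube (hu.pow3 s), ← map_pow, ih, map_zero]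

theorem c0_add {B : Cos S} [CharP S 3] {c e : S} (hc : Coc B 0 c) (he : Coc B 0 e) :
    c0 B (c + e) = c0 B c + c0 B e := cls_add Even.zero hc he
theorem c0_sub {B : Cos S} [CharP S 3] {c e : S} (hc : Coc B 0 c) (he : Coc B 0 e) :
    c0 B (c - e) = c0 B c - c0 B e := cls_sub Even.zero hc he
theorem c0_neg {B : Cos S} [CharP S 3] {c : S} (hc : Coc B 0 c) :
    c0 B (-c) = - c0 B c := cls_neg Even.zero hc
theorem c0_mul {B : Cos S} [CharP S 3] {c e : S} (hc : Coc B 0 c) (he : Coc B 0 e) :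
    c0 B (c * e) = c0 B c * c0 B e := BC_c0_mul hc he
theorem c0_pow {B : Cos S} [CharP S 3] {c : S} (hc : Coc B 0 c) (k : ℕ) :
    c0 B (c ^ k) = c0 B c ^ k := BC_c0_pow hc k
theorem c0_frob {B : Cos S} [CharP S 3] {c : S} (hc : Coc B 0 c) :
    (frob B).H (c0 B c) = c0 B c ^ 3 := by
  rw [← c0_pow hc]
  exact map_cls (frob B) Even.zero hc
theorem c0_hom {B : Cos S} [CharP S 3] {c : S} (hc : Coc B 0 c) : IsHom B 0 (c0 B c) :=
  IsHom.cls Even.zero hc
/-- product of a 0-cocycle with an even cocycle -/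
theorem cls_smul {B : Cos S} [CharP S 3] {c f : S} {n : ℕ} (hn : Even n) (hc : Coc B 0 c)
    (hf : Coc B n f) : cls B n (c * f) = c0 B c * cls B n f := BC_cls_smul hn hc hf

end P0N
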