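import Pool.Agent.H34.P0.Bc

/-!
# The beta lemma: if `z` annihilates `β` then `β^2 b(z) = 0`
-/

set_option autoImplicit false

namespace P0N

open Finset

variable {R : Type} [CommRing R] {S : Type} [CommRing S]

/-- if `k` has an odd boundary then `k` can be replaced by an even element -/
theorem BETA_even {C : Type} [Ring C] (G : DGA C) {k x : C} (hk : G.d k = x)
    (hx : G.τ x = -x) : ∃ k', G.τ k' = k' ∧ G.d k' = x := by
  refine ⟨-(k + G.τ k), ?_, ?_⟩
  · rw [map_neg, map_add, G.τ_τ]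
    abel
  · rw [map_neg, map_add, G.d_τ, hk, hx, neg_neg]
    have h3 : (3 : C) * x = 0 := by rw [G.three, zero_mul]
    have h4 : (3 : C) * x = x + x + x := by noncomm_ring
    rw [h4] at h3
    have h5 : -(x + x) = x - (x + x + x) := by abel
    rw [h5, h3, sub_zero]

/-- the computation behind the beta lemma -/
theorem BETA_core {C : Type} [Ring C] (G : DGA C) {z z2 a k : C} (hz : G.τ z = -z)
    (hdz : G.d z = 0) (hz2 : G.τ z2 = -z2) (hdz2 : G.d z2 = z * z) (ha : G.τ a = a)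
    (hda : G.d a = 0) (hk : z * a = G.d k) :
    ∃ e, a * (z * z2 + z2 * z) * a = G.d e := by
  obtain ⟨k1, hk1, hk1'⟩ := BETA_even G hk.symm (by rw [map_mul, hz, ha, neg_mul])
  obtain ⟨e, he⟩ := G.central a z ha hda hdz
  obtain ⟨k2, hk2, hk2'⟩ := BETA_even G (k := k + e) (x := a * z)
    (by rw [map_add, ← hk, ← he]; abel) (by rw [map_mul, hz, ha, mul_neg])
  refine ⟨k2 * z2 * a - 2 * (k2 * z * k1) - a * z2 * k1, ?_⟩
  have h2 : G.d (2 * (k2 * z * k1)) = 2 * G.d (k2 * z * k1) := by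
    rw [two_mul, two_mul, map_add]
  have e1 : G.d (k2 * z2 * a) = a * z * z2 * a + k2 * (z * z) * a := by
    rw [G.leib, G.leib, hk2', hk2, hdz2, hda, mul_zero, add_zero, add_mul]
  have e2 : G.d (k2 * z * k1) = a * z * z * k1 - k2 * z * (z * a) := by
    rw [G.leib, G.leib, hk2', hk2, hdz, mul_zero, add_zero, map_mul, hk2, hz, hk1']
    noncomm_ring
  have e3 : G.d (a * z2 * k1) = a * (z * z) * k1 - a * z2 * (z * a) := by
    rw [G.leib, G.leib, hda, ha, hdz2, zero_mul, zero_add, map_mul, ha, hz2, hk1']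
    noncomm_ring
  rw [map_sub, map_sub, h2, e1, e2, e3]
  have h3 : ∀ x : C, (3 : C) * x = 0 := fun x => by rw [G.three, zero_mul]
  have h4 : a * z * z2 * a + k2 * (z * z) * a - 2 * (a * z * z * k1 - k2 * z * (z * a)) -
      (a * (z * z) * k1 - a * z2 * (z * a)) =
      a * (z * z2 + z2 * z) * a + 3 * (k2 * z * z * a) - 3 * (a * z * z * k1) := by
    noncomm_ring
  rw [h4, h3, h3, add_zero, sub_zero]

/-- the definition of `AnnH` does not depend on the representative -/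
theorem annH_cl_iff {B : Cos S} [CharP S 3] {z : S} (hz : Coc B 1 z) {a : ↥(Coch B)}
    (ha : a ∈ (cochDGA B).Z) :
    AnnH B z ((cochDGA B).cl a) ↔ ∃ k, sg B 1 z * a = dC B k := by
  constructor
  · rintro ⟨a', ha', hcl, k, hk⟩
    obtain ⟨e, he⟩ := ((cochDGA B).cl_eq_iff ha' ha).1 hcl
    have he' : a' - a = dC B e := he
    refine ⟨k + sg B 1 z * e, ?_⟩
    have h1 : dC B (sg B 1 z) = 0 := by rw [dC_sg hz.1, hz.2, sg_zero]
    have h2 : tauC B (sg B 1 z) = - sg B 1 z := tauC_sg_odd B z odd_one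
    rw [map_add, ← hk, dC_leib, h1, h2, zero_mul, zero_add, ← he']
    noncomm_ring
  · rintro ⟨k, hk⟩
    exact ⟨a, ha, rfl, k, hk⟩

theorem AnnH.mul {B : Cos S} [CharP S 3] {z : S} (hz : Coc B 1 z) {β : Hev B}
    (h : AnnH B z β) (γ : Hev B) : AnnH B z (β * γ) := by
  obtain ⟨a, ha, rfl, k, hk⟩ := h
  obtain ⟨c, hc, rfl⟩ := (cochDGA B).exists_rep γ
  refine ⟨a * c, mul_mem ha hc, (cochDGA B).cl_mul ha hc, k * c, ?_⟩
  have hc' : dC B c = 0 := hc.2
  rw [dC_leib, hc', mul_zero, add_zero, ← hk, mul_assoc]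

theorem AnnH.map {A : Cos R} {B : Cos S} [CharP R 3] [CharP S 3] (p : CHom A B) {z : R}
    (hz : Coc A 1 z) {β : Hev A} (h : AnnH A z β) : AnnH B (p.f z) (p.H β) := by
  obtain ⟨a, ha, rfl, k, hk⟩ := h
  refine ⟨p.D.f a, p.D.mem_Z ha, (p.D.H_cl ha).symm, p.D.f k, ?_⟩
  have h1 : p.D.f (dC A k) = dC B (p.D.f k) := p.D.comm_d k
  rw [← D_sg p hz.1, ← map_mul, hk, h1]

/-- the beta lemma -/
theorem beta_lemma {B : Cos S} [CharP S 3] {z : S} (hz : Coc B 1 z) {β : Hev B}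
    (h : AnnH B z β) : β ^ 2 * bc B z = 0 := by
  obtain ⟨a, ha, rfl, k, hk⟩ := h
  have hb : sg B 2 (bR B z) ∈ (cochDGA B).Z := sg_mem_Z (bR_coc hz) even_two
  have hd : d B 1 (z ^ 2) = cup B 1 z z := by
    rw [BC_d1 (hz.1.pow 2), map_pow, map_pow, BC_rel hz]
    have h3 : (3 : S) = 0 := BC_three
    unfold cup
    linear_combination (-(z * B.act (sh 1) z)) * h3
  obtain ⟨e, he⟩ := BETA_core (cochDGA B) (z := sg B 1 z) (z2 := sg B 1 (z ^ 2)) (a := a) (k := k)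
    (tauC_sg_odd B z odd_one) (by
      change dC B (sg B 1 z) = 0
      rw [dC_sg hz.1, hz.2, sg_zero]) (tauC_sg_odd B _ odd_one) (by
      change dC B (sg B 1 (z ^ 2)) = _
      rw [dC_sg (hz.1.pow 2), hd, sg_mul hz.1 hz.1]) ha.1 ha.2 hk
  rw [← sg_bR hz.1] at he
  have h1 : (cochDGA B).cl (a * sg B 2 (bR B z) * a) = 0 :=
    ((cochDGA B).cl_eq_zero_iff (mul_mem (mul_mem ha hb) ha)).2 ⟨e, he⟩
  rw [(cochDGA B).cl_mul (mul_mem ha hb) ha, (cochDGA B).cl_mul ha hb] at h1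
  have h2 : bc B z = (cochDGA B).cl (sg B 2 (bR B z)) := rfl
  rw [h2, ← h1]
  ring

end P0N
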