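import Pool.Agent.H34.P0.Defs

/-!
# Steenrod's coboundary formula for the cup-1 product
-/

set_option autoImplicit false

namespace P0N

open Finset

variable {R : Type} [CommRing R]

theorem Supp.cup1 (A : Cos R) (m n : ℕ) (f g : R) (hf : Supp A m f) (hg : Supp A n g) :
    Supp A (m + n - 1) (cup1 A m n f g) := by
  unfold P0N.cup1
  refine Supp.sum fun i hi => ?_
  have hi' : i < m := mem_range.1 hi
  refine Supp.mul (Supp.pow (Supp.neg (Supp.one _ _)) _) (Supp.mul (hf.act _ ?_) (hg.act _ ?_))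
  · intro j hj
    rw [jump_apply]
    split_ifs <;> omega
  · intro j hj
    rw [sh_apply]
    omega

/-! ### auxiliary lemmas -/

lemma cup1_sgn {a b : ℕ} (h : a % 2 = b % 2) : (-1 : R) ^ a = (-1) ^ b := by
  rw [neg_one_pow_eq_pow_mod_two a, neg_one_pow_eq_pow_mod_two b, h]

lemma cup1_sgn_neg {a b : ℕ} (h : (a + 1) % 2 = b % 2) : (-1 : R) ^ a + (-1) ^ b = 0 := by
  rw [← cup1_sgn (R := R) h, pow_succ]
  ring

/-- the terms on the left side -/
def cup1G (A : Cos R) (m n : ℕ) (f g : R) (i k : ℕ) : R :=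
  (-1) ^ k * ((-1) ^ ((m - i) * (n + 1)) *
    (A.act (face k) (A.act (jump i n) f) * A.act (face k) (A.act (sh i) g)))

/-- the terms of `df ∪₁ g` -/
def cup1H (A : Cos R) (m n : ℕ) (f g : R) (i k : ℕ) : R :=
  (-1) ^ ((m + 1 - i) * (n + 1)) * (((-1) ^ k * A.act (jump i n) (A.act (face k) f)) *
    A.act (sh i) g)

/-- the terms of `f ∪₁ dg` -/
def cup1K (A : Cos R) (m n : ℕ) (f g : R) (i l : ℕ) : R :=
  (-1) ^ m * ((-1) ^ ((m - i) * (n + 1 + 1)) * (A.act (jump i (n + 1)) f *
    ((-1) ^ l * A.act (sh i) (A.act (face l) g))))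

lemma cup1_sumG (A : Cos R) (m n : ℕ) (f g : R) (h : 1 ≤ m + n) :
    d A (m + n - 1) (cup1 A m n f g) =
      ∑ i ∈ range m, ∑ k ∈ range (m + n + 1), cup1G A m n f g i k := by
  rw [d_apply, Finset.sum_comm]
  have e : m + n - 1 + 2 = m + n + 1 := by omega
  rw [e]
  refine Finset.sum_congr rfl fun k _ => ?_
  unfold cup1
  rw [map_sum, Finset.mul_sum]
  refine Finset.sum_congr rfl fun i _ => ?_
  unfold cup1G
  simp only [map_mul, map_pow, map_neg, map_one]

lemma cup1_sumH (A : Cos R) (m n : ℕ) (f g : R) :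
    cup1 A (m + 1) n (d A m f) g =
      ∑ i ∈ range (m + 1), ∑ k ∈ range (m + 2), cup1H A m n f g i k := by
  unfold cup1
  refine Finset.sum_congr rfl fun i _ => ?_
  rw [d_apply, map_sum, Finset.sum_mul, Finset.mul_sum]
  refine Finset.sum_congr rfl fun k _ => ?_
  unfold cup1H
  simp only [map_mul, map_pow, map_neg, map_one]

lemma cup1_sumK (A : Cos R) (m n : ℕ) (f g : R) :
    (-1) ^ m * cup1 A m (n + 1) f (d A n g) =
      ∑ i ∈ range m, ∑ l ∈ range (n + 2), cup1K A m n f g i l := by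
  unfold cup1
  rw [Finset.mul_sum]
  refine Finset.sum_congr rfl fun i _ => ?_
  rw [d_apply, map_sum, Finset.mul_sum, Finset.mul_sum, Finset.mul_sum]
  refine Finset.sum_congr rfl fun k _ => ?_
  unfold cup1K
  simp only [map_mul, map_pow, map_neg, map_one]

lemma cup1_splitG (G : ℕ → R) (m n i : ℕ) (hi : i < m) :
    ∑ k ∈ range (m + n + 1), G k = ∑ k ∈ range (i + 1), G k + ∑ k ∈ range n, G (i + 1 + k)
      + ∑ k ∈ range (m - i), G (i + n + 1 + k) := by
  have e : m + n + 1 = (i + 1 + n) + (m - i) := by omega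
  rw [e, Finset.sum_range_add, Finset.sum_range_add]
  congr 1
  refine Finset.sum_congr rfl fun k _ => ?_
  congr 1
  omega

lemma cup1_splitH (G : ℕ → R) (m i : ℕ) (hi : i < m + 1) :
    ∑ k ∈ range (m + 2), G k = ∑ k ∈ range i, G k + G i + G (i + 1)
      + ∑ k ∈ range (m - i), G (i + 2 + k) := by
  have e : m + 2 = (i + 1 + 1) + (m - i) := by omega
  rw [e, Finset.sum_range_add, Finset.sum_range_succ, Finset.sum_range_succ]

lemma cup1_splitK (G : ℕ → R) (n : ℕ) :
    ∑ k ∈ range (n + 2), G k = G 0 + ∑ k ∈ range n, G (k + 1) + G (n + 1) := by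
  rw [Finset.sum_range_succ, Finset.sum_range_succ', add_comm (G 0)]

lemma cup1_GA (A : Cos R) (m n : ℕ) (f g : R) (i k : ℕ) (hk : k ≤ i) :
    cup1G A m n f g i k = cup1H A m n f g (i + 1) k := by
  unfold cup1G cup1H
  rw [← A.act_comp, ← A.act_comp, ← A.act_comp]
  have e1 : (face k).comp (jump i n) = (jump (i + 1) n).comp (face k) := by
    ext j
    simp only [OrderHom.comp_coe, Function.comp_apply, jump_apply, face_apply]
    split_ifs <;> omega
  have e2 : (face k).comp (sh i) = sh (i + 1) := by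
    ext j
    simp only [OrderHom.comp_coe, Function.comp_apply, sh_apply, face_apply]
    split_ifs <;> omega
  have e3 : m + 1 - (i + 1) = m - i := by omega
  rw [e1, e2, e3]
  ring

lemma cup1_GB (A : Cos R) (m n : ℕ) (f g : R) (hg : Supp A n g) (i k : ℕ) (hi : i < m) :
    cup1G A m n f g i (i + n + 1 + k) = cup1H A m n f g i (i + 2 + k) := by
  unfold cup1G cup1H
  rw [← A.act_comp, ← A.act_comp, ← A.act_comp]
  have e1 : (face (i + n + 1 + k)).comp (jump i n) = (jump i n).comp (face (i + 2 + k)) := by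
    ext j
    simp only [OrderHom.comp_coe, Function.comp_apply, jump_apply, face_apply]
    split_ifs <;> omega
  have e2 : A.act ((face (i + n + 1 + k)).comp (sh i)) g = A.act (sh i) g := by
    refine hg _ _ fun j hj => ?_
    simp only [OrderHom.comp_coe, Function.comp_apply, sh_apply, face_apply]
    split_ifs <;> omega
  obtain ⟨r, rfl⟩ : ∃ r, m = i + r := ⟨m - i, by omega⟩
  have e3 : i + r + 1 - i = r + 1 := by omega
  have e4 : i + r - i = r := by omega
  rw [e1, e2, e3, e4]
  have e5 : (-1 : R) ^ (i + n + 1 + k) * (-1) ^ (r * (n + 1)) =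
      (-1) ^ ((r + 1) * (n + 1)) * (-1) ^ (i + 2 + k) := by
    rw [← pow_add, ← pow_add]
    apply cup1_sgn
    have : (r + 1) * (n + 1) = r * (n + 1) + n + 1 := by ring
    omega
  linear_combination (A.act ((jump i n).comp (face (i + 2 + k))) f * A.act (sh i) g) * e5

lemma cup1_GC (A : Cos R) (m n : ℕ) (f g : R) (i k : ℕ) (hi : i < m) (hk : k < n) :
    cup1G A m n f g i (i + 1 + k) = cup1K A m n f g i (k + 1) := by
  unfold cup1G cup1K
  rw [← A.act_comp, ← A.act_comp, ← A.act_comp]
  have e1 : (face (i + 1 + k)).comp (jump i n) = jump i (n + 1) := by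
    ext j
    simp only [OrderHom.comp_coe, Function.comp_apply, jump_apply, face_apply]
    split_ifs <;> omega
  have e2 : (face (i + 1 + k)).comp (sh i) = (sh i).comp (face (k + 1)) := by
    ext j
    simp only [OrderHom.comp_coe, Function.comp_apply, sh_apply, face_apply]
    split_ifs <;> omega
  obtain ⟨r, rfl⟩ : ∃ r, m = i + r := ⟨m - i, by omega⟩
  have e4 : i + r - i = r := by omega
  rw [e1, e2, e4]
  have e5 : (-1 : R) ^ (i + 1 + k) * (-1) ^ (r * (n + 1)) =
      (-1) ^ (i + r) * ((-1) ^ (r * (n + 1 + 1)) * (-1) ^ (k + 1)) := by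
    rw [← pow_add, ← pow_add, ← pow_add]
    apply cup1_sgn
    have : r * (n + 1 + 1) = r * (n + 1) + r := by ring
    omega
  linear_combination (A.act (jump i (n + 1)) f * A.act ((sh i).comp (face (k + 1))) g) * e5

lemma cup1_HK1 (A : Cos R) (m n : ℕ) (f g : R) (i : ℕ) (hi : i < m) :
    cup1H A m n f g (i + 1) (i + 1) + cup1K A m n f g i 0 = 0 := by
  unfold cup1H cup1K
  rw [← A.act_comp, ← A.act_comp]
  have e1 : (jump (i + 1) n).comp (face (i + 1)) = jump i (n + 1) := by
    ext j
    simp only [OrderHom.comp_coe, Function.comp_apply, jump_apply, face_apply]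
    split_ifs <;> omega
  have e2 : (sh i).comp (face 0) = sh (i + 1) := by
    ext j
    simp only [OrderHom.comp_coe, Function.comp_apply, sh_apply, face_apply]
    split_ifs <;> omega
  obtain ⟨r, rfl⟩ : ∃ r, m = i + r := ⟨m - i, by omega⟩
  have e3 : i + r + 1 - (i + 1) = r := by omega
  have e4 : i + r - i = r := by omega
  rw [e1, e2, e3, e4]
  have e5 : (-1 : R) ^ (r * (n + 1) + (i + 1)) + (-1) ^ (i + r + (r * (n + 1 + 1) + 0)) = 0 := by
    apply cup1_sgn_neg
    have : r * (n + 1 + 1) = r * (n + 1) + r := by ring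
    omega
  rw [pow_add, pow_add _ (i + r), pow_add _ (r * (n + 1 + 1))] at e5
  linear_combination (A.act (jump i (n + 1)) f * A.act (sh (i + 1)) g) * e5

lemma cup1_HK2 (A : Cos R) (m n : ℕ) (f g : R) (hg : Supp A n g) (i : ℕ) (hi : i < m) :
    cup1H A m n f g i (i + 1) + cup1K A m n f g i (n + 1) = 0 := by
  unfold cup1H cup1K
  rw [← A.act_comp, ← A.act_comp]
  have e1 : (jump i n).comp (face (i + 1)) = jump i (n + 1) := by
    ext j
    simp only [OrderHom.comp_coe, Function.comp_apply, jump_apply, face_apply]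
    split_ifs <;> omega
  have e2 : A.act ((sh i).comp (face (n + 1))) g = A.act (sh i) g := by
    refine hg _ _ fun j hj => ?_
    simp only [OrderHom.comp_coe, Function.comp_apply, sh_apply, face_apply]
    split_ifs <;> omega
  obtain ⟨r, rfl⟩ : ∃ r, m = i + r := ⟨m - i, by omega⟩
  have e3 : i + r + 1 - i = r + 1 := by omega
  have e4 : i + r - i = r := by omega
  rw [e1, e2, e3, e4]
  have e5 : (-1 : R) ^ ((r + 1) * (n + 1) + (i + 1)) +
      (-1) ^ (i + r + (r * (n + 1 + 1) + (n + 1))) = 0 := by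
    apply cup1_sgn_neg
    have h1 : r * (n + 1 + 1) = r * (n + 1) + r := by ring
    have h2 : (r + 1) * (n + 1) = r * (n + 1) + n + 1 := by ring
    omega
  rw [pow_add, pow_add _ (i + r), pow_add _ (r * (n + 1 + 1))] at e5
  linear_combination (A.act (jump i (n + 1)) f * A.act (sh i) g) * e5

lemma cup1_H0 (A : Cos R) (m n : ℕ) (f g : R) :
    cup1H A m n f g 0 0 = (-1) ^ ((m + 1) * (n + 1)) * (g * A.act (sh n) f) := by
  unfold cup1H
  rw [← A.act_comp]
  have e1 : (jump 0 n).comp (face 0) = sh n := by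
    ext j
    simp only [OrderHom.comp_coe, Function.comp_apply, jump_apply, face_apply, sh_apply]
    split_ifs <;> omega
  rw [e1, act_sh_zero, Nat.sub_zero]
  ring

lemma cup1_Hm (A : Cos R) (m n : ℕ) (f g : R) (hf : Supp A m f) :
    cup1H A m n f g m (m + 1) = (-1) ^ (m + n) * (f * A.act (sh m) g) := by
  unfold cup1H
  rw [← A.act_comp]
  have e1 : A.act ((jump m n).comp (face (m + 1))) f = f := by
    refine hf.act_eq _ fun j hj => ?_
    simp only [OrderHom.comp_coe, Function.comp_apply, jump_apply, face_apply]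
    split_ifs <;> omega
  have e3 : m + 1 - m = 1 := by omega
  rw [e1, e3]
  have e5 : (-1 : R) ^ (1 * (n + 1)) * (-1) ^ (m + 1) = (-1) ^ (m + n) := by
    rw [← pow_add]
    apply cup1_sgn
    omega
  linear_combination (f * A.act (sh m) g) * e5

/-- Steenrod's coboundary formula -/
theorem d_cup1 (A : Cos R) (m n : ℕ) (f g : R) (hf : Supp A m f) (hg : Supp A n g)
    (h : 1 ≤ m + n) :
    d A (m + n - 1) (cup1 A m n f g) =
      cup1 A (m + 1) n (d A m f) g + (-1) ^ m * cup1 A m (n + 1) f (d A n g)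
        - (-1) ^ (m + n) * (cup A m f g - (-1) ^ (m * n) * cup A n g f) := by
  rw [cup1_sumG A m n f g h, cup1_sumH, cup1_sumK]
  have hG : ∑ i ∈ range m, ∑ k ∈ range (m + n + 1), cup1G A m n f g i k =
      ∑ i ∈ range m, (∑ k ∈ range (i + 1), cup1H A m n f g (i + 1) k +
        ∑ k ∈ range n, cup1K A m n f g i (k + 1) +
        ∑ k ∈ range (m - i), cup1H A m n f g i (i + 2 + k)) := by
    refine Finset.sum_congr rfl fun i hi => ?_
    have hi' : i < m := mem_range.1 hi
    rw [cup1_splitG _ m n i hi']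
    congr 1
    · congr 1
      · exact Finset.sum_congr rfl fun k hk =>
          cup1_GA A m n f g i k (Nat.lt_succ_iff.1 (mem_range.1 hk))
      · exact Finset.sum_congr rfl fun k hk => cup1_GC A m n f g i k hi' (mem_range.1 hk)
    · exact Finset.sum_congr rfl fun k _ => cup1_GB A m n f g hg i k hi'
  have hH : ∑ i ∈ range (m + 1), ∑ k ∈ range (m + 2), cup1H A m n f g i k =
      ∑ i ∈ range (m + 1), (∑ k ∈ range i, cup1H A m n f g i k) +
      ∑ i ∈ range (m + 1), cup1H A m n f g i i +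
      ∑ i ∈ range (m + 1), cup1H A m n f g i (i + 1) +
      ∑ i ∈ range (m + 1), (∑ k ∈ range (m - i), cup1H A m n f g i (i + 2 + k)) := by
    rw [← Finset.sum_add_distrib, ← Finset.sum_add_distrib, ← Finset.sum_add_distrib]
    exact Finset.sum_congr rfl fun i hi => cup1_splitH _ m i (mem_range.1 hi)
  have hK : ∑ i ∈ range m, ∑ l ∈ range (n + 2), cup1K A m n f g i l =
      ∑ i ∈ range m, cup1K A m n f g i 0 +
      ∑ i ∈ range m, (∑ k ∈ range n, cup1K A m n f g i (k + 1)) +
      ∑ i ∈ range m, cup1K A m n f g i (n + 1) := by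
    rw [← Finset.sum_add_distrib, ← Finset.sum_add_distrib]
    exact Finset.sum_congr rfl fun i _ => cup1_splitK _ n
  have h1 : ∑ i ∈ range m, cup1H A m n f g (i + 1) (i + 1) + ∑ i ∈ range m, cup1K A m n f g i 0
      = 0 := by
    rw [← Finset.sum_add_distrib]
    exact Finset.sum_eq_zero fun i hi => cup1_HK1 A m n f g i (mem_range.1 hi)
  have h2 : ∑ i ∈ range m, cup1H A m n f g i (i + 1) + ∑ i ∈ range m, cup1K A m n f g i (n + 1)
      = 0 := by
    rw [← Finset.sum_add_distrib]
    exact Finset.sum_eq_zero fun i hi => cup1_HK2 A m n f g hg i (mem_range.1 hi)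
  rw [hG, hH, hK, Finset.sum_range_succ' (fun i => ∑ k ∈ range i, cup1H A m n f g i k),
    Finset.sum_range_succ' (fun i => cup1H A m n f g i i),
    Finset.sum_range_succ (fun i => cup1H A m n f g i (i + 1)),
    Finset.sum_range_succ (fun i => ∑ k ∈ range (m - i), cup1H A m n f g i (i + 2 + k)),
    cup1_H0, cup1_Hm A m n f g hf, Nat.sub_self, Finset.sum_range_zero, Finset.sum_range_zero,
    Finset.sum_add_distrib, Finset.sum_add_distrib]
  unfold cup
  have e : (-1 : R) ^ ((m + 1) * (n + 1)) + (-1) ^ (m + n + m * n) = 0 := by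
    apply cup1_sgn_neg
    have : (m + 1) * (n + 1) = m + n + m * n + 1 := by ring
    omega
  rw [pow_add _ (m + n)] at e
  linear_combination (-1 : R) * h1 - h2 - (g * A.act (sh n) f) * e

end P0N
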