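import Pool.Agent.H34.P0.Coh0
import Pool.Agent.H34.P0.Cup1

/-!
# Even cocycles are central up to boundaries
-/

set_option autoImplicit false

namespace P0N

open Finset

variable {R : Type} [CommRing R]

lemma cent_d_sign (A : Cos R) (k n : ℕ) (x : R) :
    d A k (-((-1) ^ n * x)) = -((-1) ^ n * d A k x) := by
  rcases neg_one_pow_eq_or R n with h | h
  · rw [h, one_mul, one_mul, map_neg]
  · rw [h, neg_one_mul, neg_one_mul, neg_neg, neg_neg]

lemma cent_cup1_zero (A : Cos R) (m n : ℕ) (g : R) : cup1 A m n 0 g = 0 := by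
  unfold cup1
  refine Finset.sum_eq_zero fun i _ => ?_
  rw [map_zero, zero_mul, mul_zero]

lemma cent_cup1_zero' (A : Cos R) (m n : ℕ) (f : R) : cup1 A m n f 0 = 0 := by
  unfold cup1
  refine Finset.sum_eq_zero fun i _ => ?_
  rw [map_zero, mul_zero, mul_zero]

lemma cent_key (A : Cos R) (m n : ℕ) (f g : R) (hf : Supp A m f) (hg : Supp A n g)
    (hdf : d A m f = 0) (hdg : d A n g = 0) (hm : Even m ∨ f = 0) (h : 1 ≤ m + n) :
    d A (m + n - 1) (-((-1) ^ n * cup1 A m n f g)) = cup A m f g - cup A n g f := by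
  rcases hm with hm | rfl
  · rw [cent_d_sign, d_cup1 A m n f g hf hg h, hdf, hdg, cent_cup1_zero, cent_cup1_zero', pow_add,
      pow_mul, hm.neg_one_pow, one_pow]
    rcases neg_one_pow_eq_or R n with h | h <;> rw [h] <;> ring
  · rw [cent_cup1_zero]
    simp [cup]

/-- even cocycles commute with cocycles up to a boundary -/
theorem dC_central (A : Cos R) [CharP R 3] (a b : ↥(Coch A)) (ha : tauC A a = a)
    (ha' : dC A a = 0) (hb' : dC A b = 0) : ∃ e, a * b - b * a = dC A e := by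
  have hda : ∀ n, d A n (a.1.c n) = 0 := fun n => by
    rw [← dC_succ, ha', zero_c']
  have hdb : ∀ n, d A n (b.1.c n) = 0 := fun n => by
    rw [← dC_succ, hb', zero_c']
  have hodd : ∀ n, Even n ∨ a.1.c n = 0 := by
    intro n
    rcases Nat.even_or_odd n with h | h
    · exact Or.inl h
    · right
      have h1 : (-1 : R) ^ n * a.1.c n = a.1.c n := by
        rw [← tauC_c, ha]
      rw [h.neg_one_pow, neg_one_mul] at h1
      have h3 : (3 : R) = 0 := by
        have := CharP.cast_eq_zero R 3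
        simpa using this
      have h2 : a.1.c n = 3 * a.1.c n - (a.1.c n - - a.1.c n) := by ring
      rw [h2, h3, h1]
      ring
  let e0 : Sk A := ⟨fun k => ∑ p ∈ antidiagonal (k + 1),
    -((-1) ^ p.2 * cup1 A p.1 p.2 (a.1.c p.1) (b.1.c p.2))⟩
  have he0 : e0 ∈ Coch A := by
    intro k
    show Supp A k (∑ p ∈ antidiagonal (k + 1),
      -((-1) ^ p.2 * cup1 A p.1 p.2 (a.1.c p.1) (b.1.c p.2)))
    refine Supp.sum fun p hp => ?_
    have h : p.1 + p.2 = k + 1 := mem_ad.1 hp
    have h1 := Supp.cup1 A p.1 p.2 _ _ (a.2 p.1) (b.2 p.2)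
    rw [h, Nat.add_sub_cancel] at h1
    exact ((((Supp.one A k).neg).pow p.2).mul h1).neg
  refine ⟨⟨e0, he0⟩, ?_⟩
  apply coch_ext
  intro n
  cases n with
  | zero =>
    rw [sub_c', mul_c', mul_c', dC_zero]
    simp only [Finset.Nat.antidiagonal_zero, Finset.sum_singleton, act_sh_zero]
    ring
  | succ k =>
    rw [sub_c', mul_c', mul_c', dC_succ]
    show _ = d A k (∑ p ∈ antidiagonal (k + 1),
      -((-1) ^ p.2 * cup1 A p.1 p.2 (a.1.c p.1) (b.1.c p.2)))
    rw [map_sum, ← Finset.Nat.sum_antidiagonal_swap (n := k + 1)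
      (f := fun p => b.1.c p.1 * A.act (sh p.1) (a.1.c p.2)), ← Finset.sum_sub_distrib]
    refine Finset.sum_congr rfl fun p hp => ?_
    have h : p.1 + p.2 = k + 1 := mem_ad.1 hp
    have h1 := cent_key A p.1 p.2 _ _ (a.2 p.1) (b.2 p.2) (hda p.1) (hdb p.2) (hodd p.1)
      (by omega)
    rw [h, Nat.add_sub_cancel] at h1
    rw [h1]
    rfl

end P0N
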