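import Pool.Agent.H34.P0.Dga

/-!
# Solving in the iterated total complex: naturality and climbing along a filtration
-/

set_option autoImplicit false

namespace P0N

open Finset

/-- the off-diagonal operator of `tld` -/
def climb_op {M : Type} [AddCommGroup M] (D : M →+ M) (i : ℕ) : M →+ M :=
  if i = 0 then 0 else if Odd i then D else D.comp D

/-- extension by zero of a tuple -/
def climb_ext {M : Type} [AddCommGroup M] {n : ℕ} (v : Fin n → M) (j : ℕ) : M :=
  if h : j < n then v ⟨j, h⟩ else 0

theorem climb_ext_val {M : Type} [AddCommGroup M] {n : ℕ} (v : Fin n → M) (i : Fin n) :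
    climb_ext v (i : ℕ) = v i := by
  unfold climb_ext
  rw [dif_pos i.2]

theorem climb_tld {M : Type} [AddCommGroup M] (n : ℕ) (dM D : M →+ M) (v : Fin n → M)
    (i : Fin n) : tld n dM D v i =
      ((-1 : ℤ) ^ (i : ℕ)) • dM (v i) + climb_op D i (climb_ext v ((i : ℕ) - 1)) := by
  change ((-1 : ℤ) ^ (i : ℕ)) • dM (v i) +
    (if _h : (i : ℕ) = 0 then 0
      else if Odd (i : ℕ) then D (v ⟨i - 1, by omega⟩) else D (D (v ⟨i - 1, by omega⟩))) = _
  congr 1
  unfold climb_op climb_ext
  by_cases h0 : (i : ℕ) = 0
  · rw [dif_pos h0, if_pos h0]; rfl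
  · have hlt : (i : ℕ) - 1 < n := by omega
    rw [dif_neg h0, if_neg h0, dif_pos hlt]
    by_cases h1 : Odd (i : ℕ)
    · rw [if_pos h1, if_pos h1]
    · rw [if_neg h1, if_neg h1]; rfl

theorem climb_ext_comp {M : Type} [AddCommGroup M] {M' : Type} [AddCommGroup M'] {n : ℕ}
    (ρ : M →+ M') (v : Fin n → M) (j : ℕ) :
    climb_ext (fun i => ρ (v i)) j = ρ (climb_ext v j) := by
  unfold climb_ext
  split_ifs
  · rfl
  · rw [map_zero]

theorem climb_op_comm {M : Type} [AddCommGroup M] {M' : Type} [AddCommGroup M'] (D : M →+ M)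
    (D' : M' →+ M') (ρ : M →+ M') (hD : ∀ v, ρ (D v) = D' (ρ v)) (i : ℕ) (v : M) :
    ρ (climb_op D i v) = climb_op D' i (ρ v) := by
  unfold climb_op
  split_ifs
  · simp
  · exact hD v
  · change ρ (D (D v)) = D' (D' (ρ v))
    rw [hD, hD]

theorem climb_tld_nat {M : Type} [AddCommGroup M] {M' : Type} [AddCommGroup M'] (n : ℕ)
    (dM D : M →+ M) (dM' D' : M' →+ M') (ρ : M →+ M')
    (hd : ∀ v, ρ (dM v) = dM' (ρ v)) (hD : ∀ v, ρ (D v) = D' (ρ v)) (v : Fin n → M) :
    (fun i => ρ (tld n dM D v i)) = tld n dM' D' (fun i => ρ (v i)) := by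
  funext i
  rw [climb_tld, climb_tld, map_add, map_zsmul, hd, climb_ext_comp,
    climb_op_comm D D' ρ hD]

theorem climb_iot_nat {M : Type} [AddCommGroup M] {M' : Type} [AddCommGroup M'] (n : ℕ)
    (ρ : M →+ M') (u : M) : (fun i => ρ (iot n u i)) = iot n (ρ u) := by
  funext i
  unfold iot
  split_ifs
  · rfl
  · rw [map_zero]

/-- naturality of `Solv` -/
theorem Solv.map {n : ℕ} (K : ℕ) : ∀ {M : Type} [AddCommGroup M] {M' : Type} [AddCommGroup M']
    (dM : M →+ M) (D : ℕ → M →+ M) (S : AddSubgroup M) (u : M)
    (dM' : M' →+ M') (D' : ℕ → M' →+ M') (S' : AddSubgroup M') (ρ : M →+ M')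
    (_hd : ∀ v, ρ (dM v) = dM' (ρ v)) (_hD : ∀ s v, ρ (D s v) = D' s (ρ v))
    (_hS : ∀ v ∈ S, ρ v ∈ S'), Solv n K M dM D S u → Solv n K M' dM' D' S' (ρ u) := by
  induction K with
  | zero =>
    intro M _ M' _ dM D S u dM' D' S' ρ hd hD hS h
    obtain ⟨w, hw, hwu⟩ := h
    exact ⟨ρ w, hS w hw, by rw [← hd, hwu]⟩
  | succ K ih =>
    intro M _ M' _ dM D S u dM' D' S' ρ hd hD hS h
    have h1 := ih (tld n dM (D 0)) (fun s => (D (s + 1)).compLeft (Fin n))
      (AddSubgroup.pi Set.univ fun _ => S) (iot n u) (tld n dM' (D' 0))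
      (fun s => (D' (s + 1)).compLeft (Fin n)) (AddSubgroup.pi Set.univ fun _ => S')
      (ρ.compLeft (Fin n)) (fun v => climb_tld_nat n dM (D 0) dM' (D' 0) ρ hd (hD 0) v)
      (fun s v => funext fun i => hD (s + 1) (v i))
      (fun v hv i hi => hS _ (hv i hi)) h
    have h2 : (ρ.compLeft (Fin n)) (iot n u) = iot n (ρ u) := climb_iot_nat n ρ u
    rw [h2] at h1
    exact h1

/-- the total differential commutes with the remaining operators -/
theorem Ops.tilde {M : Type} [AddCommGroup M] {dM : M →+ M} {D : ℕ → M →+ M} (h : Ops dM D)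
    (n : ℕ) : Ops (tld n dM (D 0)) (fun s => (D (s + 1)).compLeft (Fin n)) where
  comm_d := fun s v => climb_tld_nat n dM (D 0) dM (D 0) (D (s + 1)) (h.comm_d (s + 1))
    (fun v => h.comm (s + 1) 0 v) v
  cube := fun s v => funext fun i => h.cube (s + 1) (v i)
  comm := fun s t v => funext fun i => h.comm (s + 1) (t + 1) (v i)

theorem climb_op_op {M : Type} [AddCommGroup M] (D : M →+ M) (hc : ∀ v, D (D (D v)) = 0)
    (i : ℕ) (v : M) : climb_op D i (climb_op D (i - 1) v) = 0 := by
  unfold climb_op
  by_cases h0 : i = 0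
  · rw [if_pos h0]; rfl
  by_cases h1 : i - 1 = 0
  · rw [if_pos h1, AddMonoidHom.zero_apply, map_zero]
  rw [if_neg h0, if_neg h1]
  by_cases h2 : Odd i
  · have h3 : ¬ Odd (i - 1) := by
      rw [Nat.not_odd_iff_even]
      obtain ⟨k, hk⟩ := h2
      exact ⟨k, by omega⟩
    rw [if_pos h2, if_neg h3]
    exact hc v
  · have h3 : Odd (i - 1) := by
      rw [Nat.not_odd_iff_even] at h2
      obtain ⟨k, hk⟩ := h2
      exact ⟨k - 1, by omega⟩
    rw [if_neg h2, if_pos h3]
    exact hc v

theorem climb_F_anti {M : Type} [AddCommGroup M] {F : ℕ → AddSubgroup M}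
    (hF : ∀ n, F (n + 1) ≤ F n) {a b : ℕ} (h : a ≤ b) : F b ≤ F a :=
  antitone_nat_of_succ_le hF h

theorem climb_op_mem {M : Type} [AddCommGroup M] {D : M →+ M} {S : AddSubgroup M}
    (hD : ∀ v ∈ S, D v ∈ S) (i : ℕ) {v : M} (hv : v ∈ S) : climb_op D i v ∈ S := by
  unfold climb_op
  split_ifs
  · exact S.zero_mem
  · exact hD v hv
  · exact hD _ (hD v hv)

theorem climb_sq (i : ℕ) {M : Type} [AddCommGroup M] (v : M) :
    ((-1 : ℤ) ^ i) • (((-1 : ℤ) ^ i) • v) = v := by
  rw [smul_smul, ← pow_add, ← two_mul, pow_mul]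
  simp

theorem climb_iot_zero {M : Type} [AddCommGroup M] (n : ℕ) (dM D : M →+ M) (u : M)
    (hd : dM u = 0) (hD : D u = 0) : tld n dM D (iot n u) = 0 := by
  funext i
  rw [climb_tld]
  have h1 : dM (iot n u i) = 0 := by
    unfold iot
    split_ifs
    · exact hd
    · exact map_zero _
  have h2 : climb_op D i (climb_ext (iot n u) ((i : ℕ) - 1)) = 0 := by
    have h3 : climb_ext (iot n u) ((i : ℕ) - 1) = 0 ∨
        climb_ext (iot n u) ((i : ℕ) - 1) = u := by
      unfold climb_ext iot
      split_ifs
      · right; rfl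
      · left; rfl
      · left; rfl
    rcases h3 with h3 | h3
    · rw [h3, map_zero]
    · rw [h3]
      unfold climb_op
      split_ifs
      · rfl
      · exact hD
      · change D (D u) = 0
        rw [hD, map_zero]
  rw [h1, h2, smul_zero, add_zero]
  rfl

theorem climb_iot_mem {M : Type} [AddCommGroup M] (n : ℕ) (T : Fin n → AddSubgroup M) (u : M)
    (hu : ∀ i : Fin n, (i : ℕ) = 0 → u ∈ T i) : iot n u ∈ AddSubgroup.pi Set.univ T := by
  intro i _
  change iot n u i ∈ T i
  unfold iot
  split_ifs with h
  · exact hu i h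
  · exact (T i).zero_mem

/-- climbing along a decreasing filtration `F` in which cocycles of `F n` (`n > c`) bound
elements of `F (n - 1)` -/
theorem climb {q : ℕ} (hq : 1 ≤ q) (K : ℕ) : ∀ {M : Type} [AddCommGroup M] (dM : M →+ M)
    (D : ℕ → M →+ M) (_ : Ops dM D) (F : ℕ → AddSubgroup M) (_ : ∀ n, F (n + 1) ≤ F n)
    (_ : ∀ s n v, v ∈ F n → D s v ∈ F n) (c m0 : ℕ)
    (_ : ∀ n, c < n → ∀ u ∈ F n, dM u = 0 → ∃ w ∈ F (n - 1), dM w = u)
    (S : AddSubgroup M) (_ : F m0 ≤ S) (u : M) (n : ℕ) (_ : u ∈ F n) (_ : dM u = 0)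
    (_ : ∀ s, D s u = 0) (_ : c + 1 + K * (q - 1) ≤ n) (_ : m0 + 1 + K * (q - 1) ≤ n),
    Solv q K M dM D S u := by
  induction K with
  | zero =>
    intro M _ dM D hops F hF hDF c m0 hsol S hS u n hu hdu hDu hn hn'
    obtain ⟨w, hw, hwu⟩ := hsol n (by omega) u hu hdu
    exact ⟨w, hS (climb_F_anti hF (by omega) hw), hwu⟩
  | succ K ih =>
    intro M _ dM D hops F hF hDF c m0 hsol S hS u n hu hdu hDu hn hn'
    have hmul : (K + 1) * (q - 1) = K * (q - 1) + (q - 1) := by ring
    rw [hmul] at hn hn'
    refine ih (tld q dM (D 0)) (fun s => (D (s + 1)).compLeft (Fin q)) (hops.tilde q)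
      (fun j => AddSubgroup.pi Set.univ fun i : Fin q => F (j - i)) ?_ ?_ (c + (q - 1))
      (m0 + (q - 1)) ?_ (AddSubgroup.pi Set.univ fun _ => S) ?_ (iot q u) n ?_ ?_ ?_
      (by omega) (by omega)
    · intro j v hv i hi
      exact climb_F_anti hF (by omega) (hv i hi)
    · intro s j v hv i hi
      exact hDF (s + 1) _ _ (hv i hi)
    · -- the key claim
      intro m hm v hv htv
      have key : ∀ k : ℕ, k ≤ q → ∃ w : ℕ → M, ∀ i < k, w i ∈ F (m - 1 - i) ∧
          ((-1 : ℤ) ^ i) • dM (w i) + climb_op (D 0) i (w (i - 1)) = climb_ext v i := by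
        intro k
        induction k with
        | zero => intro _; exact ⟨fun _ => 0, fun i hi => absurd hi (Nat.not_lt_zero i)⟩
        | succ k ihk =>
          intro hk
          obtain ⟨w, hw⟩ := ihk (by omega)
          set r : M := climb_ext v k - climb_op (D 0) k (w (k - 1)) with hr
          have hvk : climb_ext v k ∈ F (m - k) := by
            have := hv ⟨k, by omega⟩ trivial
            have h1 : climb_ext v k = v ⟨k, by omega⟩ := climb_ext_val v ⟨k, by omega⟩
            rw [h1]
            exact this
          have hrF : r ∈ F (m - k) := by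
            apply AddSubgroup.sub_mem _ hvk
            by_cases hk0 : k = 0
            · have : climb_op (D 0) k (w (k - 1)) = 0 := by
                unfold climb_op
                rw [if_pos hk0]; rfl
              rw [this]
              exact AddSubgroup.zero_mem _
            · apply climb_op_mem (fun v hv => hDF 0 _ v hv)
              have := (hw (k - 1) (by omega)).1
              have h1 : m - 1 - (k - 1) = m - k := by omega
              rwa [h1] at this
          have hdr : dM r = 0 := by
            have h1 := congrFun htv ⟨k, by omega⟩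
            rw [climb_tld] at h1
            have h2 : v ⟨k, by omega⟩ = climb_ext v k := (climb_ext_val v ⟨k, by omega⟩).symm
            have h1' : ((-1 : ℤ) ^ k) • dM (climb_ext v k) +
                climb_op (D 0) k (climb_ext v (k - 1)) = 0 := by
              rw [h2] at h1
              exact h1
            have h3 : dM (climb_ext v k) =
                - (((-1 : ℤ) ^ k) • climb_op (D 0) k (climb_ext v (k - 1))) := by
              have h4 := congrArg (fun z => ((-1 : ℤ) ^ k) • z) h1'
              simp only [smul_add, smul_zero, climb_sq] at h4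
              exact eq_neg_of_add_eq_zero_left h4
            by_cases hk0 : k = 0
            · have h5 : ∀ z, climb_op (D 0) k z = 0 := by
                intro z
                unfold climb_op
                rw [if_pos hk0]; rfl
              rw [hr, map_sub, h3, h5, h5, smul_zero, neg_zero, map_zero, sub_zero]
            · have h6 := (hw (k - 1) (by omega)).2
              have h7 : dM (w (k - 1)) = ((-1 : ℤ) ^ (k - 1)) •
                  (climb_ext v (k - 1) - climb_op (D 0) (k - 1) (w (k - 1 - 1))) := by
                rw [← h6, add_sub_cancel_right, climb_sq]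
              rw [hr, map_sub, h3]
              have h8 : dM (climb_op (D 0) k (w (k - 1))) =
                  climb_op (D 0) k (dM (w (k - 1))) :=
                climb_op_comm (D 0) (D 0) dM (fun v => (hops.comm_d 0 v).symm) k _
              rw [h8, h7, map_zsmul, map_sub, climb_op_op (D 0) (hops.cube 0), sub_zero]
              have h9 : ((-1 : ℤ) ^ k) = - ((-1 : ℤ) ^ (k - 1)) := by
                have : k = (k - 1) + 1 := by omega
                conv_lhs => rw [this]
                rw [pow_succ]; ring
              rw [h9, neg_smul, neg_neg, sub_self]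
          obtain ⟨x, hx, hdx⟩ := hsol (m - k) (by omega) (((-1 : ℤ) ^ k) • r)
            (AddSubgroup.zsmul_mem _ hrF _) (by rw [map_zsmul, hdr, smul_zero])
          refine ⟨fun i => if i < k then w i else x, ?_⟩
          intro i hi
          by_cases hik : i < k
          · have h1 : i - 1 < k := by omega
            simp only [hik, h1, if_true]
            exact hw i hik
          · have hik' : i = k := by omega
            subst hik'
            simp only [lt_irrefl, if_false]
            constructor
            · have h1 : m - i - 1 = m - 1 - i := by omega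
              rwa [h1] at hx
            · rw [hdx, climb_sq]
              by_cases hk0 : i = 0
              · subst hk0
                have h5 : ∀ z, climb_op (D 0) 0 z = 0 := by
                  intro z
                  unfold climb_op
                  rw [if_pos rfl]; rfl
                rw [hr, h5, h5, sub_zero, add_zero]
              · have h1 : i - 1 < i := by omega
                rw [if_pos h1, hr, sub_add_cancel]
      obtain ⟨w, hw⟩ := key q le_rfl
      refine ⟨fun i : Fin q => w i, ?_, ?_⟩
      · intro i _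
        exact (hw i i.2).1
      · funext i
        rw [climb_tld]
        have h1 := (hw i i.2).2
        rw [climb_ext_val] at h1
        rw [← h1]
        congr 1
        by_cases hi : (i : ℕ) = 0
        · have h5 : ∀ z, climb_op (D 0) (i : ℕ) z = 0 := by
            intro z
            unfold climb_op
            rw [if_pos hi]; rfl
          rw [h5, h5]
        · congr 1
          unfold climb_ext
          rw [dif_pos (by omega)]
    · intro v hv i hi
      exact hS (climb_F_anti hF (by omega) (hv i hi))
    · apply climb_iot_mem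
      intro i hi
      rw [hi, Nat.sub_zero]
      exact hu
    · exact climb_iot_zero q dM (D 0) u hdu (hDu 0)
    · intro s
      have h1 : ((D (s + 1)).compLeft (Fin q)) (iot q u) = iot q (D (s + 1) u) :=
        climb_iot_nat q (D (s + 1)) u
      change ((D (s + 1)).compLeft (Fin q)) (iot q u) = 0
      rw [h1, hDu]
      funext i
      unfold iot
      split_ifs <;> rfl

end P0N
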