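import Pool.Agent.H34.P0.Climb

/-!
# Solving in the iterated total complex from a homotopy of `L`
-/

set_option autoImplicit false

namespace P0N

open Finset

/-- `h` with signs on tuples -/
def climbK_h {M : Type} [AddCommGroup M] (n : ℕ) (h : M →+ M) : (Fin n → M) →+ (Fin n → M) where
  toFun v i := ((-1 : ℤ) ^ (i : ℕ)) • h (v i)
  map_zero' := by funext i; simp
  map_add' v w := by funext i; simp

theorem climbK_h_apply {M : Type} [AddCommGroup M] (n : ℕ) (h : M →+ M) (v : Fin n → M)
    (i : Fin n) : climbK_h n h v i = ((-1 : ℤ) ^ (i : ℕ)) • h (v i) := rfl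

theorem climbK_ext_h {M : Type} [AddCommGroup M] (n : ℕ) (h : M →+ M) (v : Fin n → M)
    (j : ℕ) : climb_ext (climbK_h n h v) j = ((-1 : ℤ) ^ j) • h (climb_ext v j) := by
  unfold climb_ext
  split_ifs
  · rfl
  · rw [map_zero, smul_zero]

theorem climbK_ext_tld {M : Type} [AddCommGroup M] (n : ℕ) (dM D : M →+ M) (v : Fin n → M)
    (j : ℕ) (hj : j < n) : climb_ext (tld n dM D v) j =
      ((-1 : ℤ) ^ j) • dM (climb_ext v j) + climb_op D j (climb_ext v (j - 1)) := by
  have h1 : climb_ext (tld n dM D v) j = tld n dM D v ⟨j, hj⟩ := climb_ext_val _ ⟨j, hj⟩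
  have h2 : v ⟨j, hj⟩ = climb_ext v j := (climb_ext_val v ⟨j, hj⟩).symm
  rw [h1, climb_tld, h2]

theorem climbK_op_zero {M : Type} [AddCommGroup M] (D : M →+ M) (i : ℕ) (hi : i = 0) (v : M) :
    climb_op D i v = 0 := by
  unfold climb_op
  rw [if_pos hi]; rfl

theorem climbK_pow (i : ℕ) (hi : i ≠ 0) : ((-1 : ℤ) ^ i) = - ((-1 : ℤ) ^ (i - 1)) := by
  have : i = (i - 1) + 1 := by omega
  conv_lhs => rw [this]
  rw [pow_succ]; ring

theorem climbK_tld_tld {M : Type} [AddCommGroup M] (n : ℕ) (dM D : M →+ M)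
    (hdd : ∀ v, dM (dM v) = 0) (hcomm : ∀ v, D (dM v) = dM (D v))
    (hc : ∀ v, D (D (D v)) = 0) (v : Fin n → M) : tld n dM D (tld n dM D v) = 0 := by
  funext i
  rw [climb_tld, climb_tld]
  by_cases hi : (i : ℕ) = 0
  · rw [climbK_op_zero D _ hi, climbK_op_zero D _ hi, add_zero, add_zero, map_zsmul, hdd,
      smul_zero, smul_zero]
    rfl
  · rw [climbK_ext_tld n dM D v _ (by omega), map_add, map_add, climb_op_op D hc, add_zero,
      map_zsmul, hdd, smul_zero, zero_add, map_zsmul,
      climb_op_comm D D dM (fun v => (hcomm v).symm), climbK_pow _ hi, neg_smul, neg_add_cancel]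
    rfl

/-- `L` commutes with everything, `h` is a homotopy from `L + (filtration raising)` to zero -/
theorem climbK {q : ℕ} (hq : 1 ≤ q) (K : ℕ) : ∀ {M : Type} [AddCommGroup M] (dM : M →+ M)
    (D : ℕ → M →+ M) (_ : Ops dM D) (_ : ∀ v, dM (dM v) = 0) (h L : M →+ M)
    (_ : ∀ v, L (dM v) = dM (L v)) (_ : ∀ s v, L (D s v) = D s (L v))
    (F : ℕ → AddSubgroup M) (_ : F 0 = ⊤) (_ : ∀ n, F (n + 1) ≤ F n) (c : ℕ)
    (_ : F (c + 1) = ⊥)
    (_ : ∀ j, ∀ v ∈ F j, dM (h v) + h (dM v) - L v ∈ F (j + 1))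
    (_ : ∀ j, ∀ v ∈ F j, dM v ∈ F j) (_ : ∀ j, ∀ v ∈ F j, h v ∈ F j)
    (_ : ∀ j, ∀ v ∈ F j, L v ∈ F j) (_ : ∀ s j, ∀ v ∈ F j, D s v ∈ F j)
    (S : ℕ → AddSubgroup M) (_ : ∀ j, S j ≤ S (j + 1)) (_ : ∀ j, ∀ v ∈ S j, h v ∈ S (j + 1))
    (_ : ∀ j, ∀ v ∈ S j, L v ∈ S j) (_ : ∀ j, ∀ v ∈ S j, dM v ∈ S j)
    (_ : ∀ s j, ∀ v ∈ S j, D s v ∈ S j)
    (u : M) (_ : u ∈ S 0) (_ : dM u = 0) (_ : ∀ s, D s u = 0) (l : ℕ)
    (_ : c + 1 + K * (q - 1) ≤ l),
    Solv q K M dM D (S l) (L^[l] u) := by
  induction K with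
  | zero =>
    intro M _ dM D hops hdd h L hLd hLD F hF0 hFa c hFc hH hdF hhF hLF hDF S hS hhS hLS hdS hDS
      u hu hdu hDu l hl
    have key : ∀ l : ℕ, ∃ w e : M, w ∈ F l ∧ w ∈ S l ∧ e ∈ S l ∧ dM w = 0 ∧
        L^[l] u = w + dM e := by
      intro l
      induction l with
      | zero =>
        refine ⟨u, 0, by rw [hF0]; trivial, hu, AddSubgroup.zero_mem _, hdu, ?_⟩
        rw [map_zero, add_zero]; rfl
      | succ l ihl =>
        obtain ⟨w, e, hwF, hwS, heS, hdw, hL⟩ := ihl
        refine ⟨L w - dM (h w), L e + h w, ?_, ?_, ?_, ?_, ?_⟩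
        · have h1 := hH l w hwF
          rw [hdw, map_zero, add_zero] at h1
          have h2 : L w - dM (h w) = - (dM (h w) - L w) := by abel
          rw [h2]
          exact AddSubgroup.neg_mem _ h1
        · exact AddSubgroup.sub_mem _ (hS l (hLS l w hwS)) (hdS _ _ (hhS l w hwS))
        · exact AddSubgroup.add_mem _ (hS l (hLS l e heS)) (hhS l w hwS)
        · rw [map_sub, hdd, ← hLd, hdw, map_zero, sub_zero]
        · rw [Function.iterate_succ_apply', hL, map_add, map_add, hLd]
          abel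
    obtain ⟨w, e, hwF, _, heS, _, hL⟩ := key l
    have hw0 : w = 0 := by
      have h1 : w ∈ F (c + 1) := climb_F_anti hFa (by omega) hwF
      rw [hFc] at h1
      exact (AddSubgroup.mem_bot).1 h1
    exact ⟨e, heS, by rw [hL, hw0, zero_add]⟩
  | succ K ih =>
    intro M _ dM D hops hdd h L hLd hLD F hF0 hFa c hFc hH hdF hhF hLF hDF S hS hhS hLS hdS hDS
      u hu hdu hDu l hl
    have hmul : (K + 1) * (q - 1) = K * (q - 1) + (q - 1) := by ring
    rw [hmul] at hl
    have hIH := ih (tld q dM (D 0)) (fun s => (D (s + 1)).compLeft (Fin q)) (hops.tilde q)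
      (climbK_tld_tld q dM (D 0) hdd (hops.comm_d 0) (hops.cube 0))
      (climbK_h q h) (L.compLeft (Fin q))
      (fun v => climb_tld_nat q dM (D 0) dM (D 0) L hLd (hLD 0) v)
      (fun s v => funext fun i => hLD (s + 1) (v i))
      (fun j => AddSubgroup.pi Set.univ fun i : Fin q => F (j - i)) ?_ ?_ (c + (q - 1)) ?_ ?_ ?_
      ?_ ?_ ?_ (fun j => AddSubgroup.pi Set.univ fun _ => S j) ?_ ?_ ?_ ?_ ?_ (iot q u) ?_
      (climb_iot_zero q dM (D 0) u hdu (hDu 0)) ?_ l (by omega)
    · have hit : ∀ l : ℕ, (L.compLeft (Fin q))^[l] (iot q u) = iot q (L^[l] u) := by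
        intro l
        induction l with
        | zero => rfl
        | succ l ihl =>
          rw [Function.iterate_succ_apply', Function.iterate_succ_apply', ihl]
          exact climb_iot_nat q L (L^[l] u)
      rw [hit] at hIH
      exact hIH
    · -- F 0 = ⊤
      rw [eq_top_iff]
      intro v _ i _
      change v i ∈ F (0 - i)
      rw [Nat.zero_sub, hF0]
      trivial
    · intro j v hv i hi
      exact climb_F_anti hFa (by omega) (hv i hi)
    · rw [eq_bot_iff]
      intro v hv
      rw [AddSubgroup.mem_bot]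
      funext i
      have h1 : v i ∈ F (c + 1) := climb_F_anti hFa (by omega) (hv i trivial)
      rw [hFc] at h1
      exact (AddSubgroup.mem_bot).1 h1
    · -- homotopy
      intro j v hv i _
      have hvi : ∀ i : Fin q, v i ∈ F (j - i) := fun i => hv i trivial
      have hext : ∀ k : ℕ, climb_ext v k ∈ F (j - k) := by
        intro k
        unfold climb_ext
        split_ifs with hk
        · exact hvi ⟨k, hk⟩
        · exact AddSubgroup.zero_mem _
      have hcomp : (tld q dM (D 0) (climbK_h q h v) + climbK_h q h (tld q dM (D 0) v) -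
          (L.compLeft (Fin q)) v) i =
          (dM (h (v i)) + h (dM (v i)) - L (v i)) +
          (((-1 : ℤ) ^ (i : ℕ)) • (h (climb_op (D 0) i (climb_ext v ((i : ℕ) - 1))) -
            climb_op (D 0) i (h (climb_ext v ((i : ℕ) - 1))))) := by
        change tld q dM (D 0) (climbK_h q h v) i + climbK_h q h (tld q dM (D 0) v) i -
          L (v i) = _
        rw [climb_tld, climbK_h_apply, climbK_h_apply, climb_tld, climbK_ext_h]
        rw [map_zsmul, climb_sq, map_add, map_zsmul h, smul_add, climb_sq, map_zsmul]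
        by_cases hi : (i : ℕ) = 0
        · rw [climbK_op_zero _ _ hi, climbK_op_zero _ _ hi, map_zero, sub_self, smul_zero,
            smul_zero]
          abel
        · rw [climbK_pow _ hi, smul_sub, neg_smul, neg_smul]
          abel
      rw [hcomp]
      apply AddSubgroup.add_mem
      · have h1 := hH (j - i) (v i) (hvi i)
        exact climb_F_anti hFa (by omega) h1
      · apply AddSubgroup.zsmul_mem
        by_cases hi : (i : ℕ) = 0
        · rw [climbK_op_zero _ _ hi, climbK_op_zero _ _ hi, map_zero, sub_self]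
          exact AddSubgroup.zero_mem _
        · have h1 := hext ((i : ℕ) - 1)
          have h2 : climb_ext v ((i : ℕ) - 1) ∈ F (j + 1 - i) :=
            climb_F_anti hFa (by omega) h1
          apply AddSubgroup.sub_mem
          · exact hhF _ _ (climb_op_mem (fun v hv => hDF 0 _ v hv) _ h2)
          · exact climb_op_mem (fun v hv => hDF 0 _ v hv) _ (hhF _ _ h2)
    · -- d
      intro j v hv i _
      change tld q dM (D 0) v i ∈ F (j - i)
      rw [climb_tld]
      apply AddSubgroup.add_mem
      · exact AddSubgroup.zsmul_mem _ (hdF _ _ (hv i trivial)) _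
      · by_cases hi : (i : ℕ) = 0
        · rw [climbK_op_zero _ _ hi]
          exact AddSubgroup.zero_mem _
        · apply climb_op_mem (fun v hv => hDF 0 _ v hv)
          unfold climb_ext
          split_ifs with hk
          · exact climb_F_anti hFa (by simp only; omega) (hv ⟨(i : ℕ) - 1, hk⟩ trivial)
          · exact AddSubgroup.zero_mem _
    · intro j v hv i _
      exact AddSubgroup.zsmul_mem _ (hhF _ _ (hv i trivial)) _
    · intro j v hv i _
      exact hLF _ _ (hv i trivial)
    · intro s j v hv i _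
      exact hDF (s + 1) _ _ (hv i trivial)
    · intro j v hv i _
      exact hS j (hv i trivial)
    · intro j v hv i _
      exact AddSubgroup.zsmul_mem _ (hhS j _ (hv i trivial)) _
    · intro j v hv i _
      exact hLS j _ (hv i trivial)
    · intro j v hv i _
      change tld q dM (D 0) v i ∈ S j
      rw [climb_tld]
      apply AddSubgroup.add_mem
      · exact AddSubgroup.zsmul_mem _ (hdS j _ (hv i trivial)) _
      · apply climb_op_mem (fun v hv => hDS 0 j v hv)
        unfold climb_ext
        split_ifs with hk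
        · exact hv ⟨(i : ℕ) - 1, hk⟩ trivial
        · exact AddSubgroup.zero_mem _
    · intro s j v hv i _
      exact hDS (s + 1) j _ (hv i trivial)
    · apply climb_iot_mem
      intro i _
      exact hu
    · intro s
      have h1 : ((D (s + 1)).compLeft (Fin q)) (iot q u) = iot q (D (s + 1) u) :=
        climb_iot_nat q (D (s + 1)) u
      change ((D (s + 1)).compLeft (Fin q)) (iot q u) = 0
      rw [h1, hDu]
      funext i
      unfold iot
      split_ifs <;> rfl

end P0N
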