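import Pool.Agent.H34.P0.Coh

/-!
# API for homogeneous cochains and classes
-/

set_option autoImplicit false

namespace P0N

open Finset

variable {R : Type} [CommRing R] {S : Type} [CommRing S] {T : Type} [CommRing T]

/-! ### cocycles -/

theorem Coc.zero (A : Cos R) (n : ℕ) : Coc A n 0 := by
  exact ⟨Supp.zero _ _, map_zero _⟩
theorem Coc.one (A : Cos R) : Coc A 0 1 := by
  refine ⟨Supp.one _ _, ?_⟩
  rw [d_apply]
  simp [Finset.sum_range_succ]
theorem Coc.add {A : Cos R} {n : ℕ} {f g : R} (hf : Coc A n f) (hg : Coc A n g) :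
    Coc A n (f + g) := by
  exact ⟨hf.1.add hg.1, by rw [map_add, hf.2, hg.2, add_zero]⟩
theorem Coc.sub {A : Cos R} {n : ℕ} {f g : R} (hf : Coc A n f) (hg : Coc A n g) :
    Coc A n (f - g) := by
  exact ⟨hf.1.sub hg.1, by rw [map_sub, hf.2, hg.2, sub_zero]⟩
theorem Coc.neg {A : Cos R} {n : ℕ} {f : R} (hf : Coc A n f) : Coc A n (-f) := by
  exact ⟨hf.1.neg, by rw [map_neg, hf.2, neg_zero]⟩
theorem Coc.cup {A : Cos R} {m n : ℕ} {f g : R} (hf : Coc A m f) (hg : Coc A n g) :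
    Coc A (m + n) (cup A m f g) := by
  refine ⟨hf.1.cup hg.1, ?_⟩
  rw [d_cup A m n f g hf.1, hf.2, hg.2]
  simp [P0N.cup]
theorem Coc.bdry {A : Cos R} {n : ℕ} {f : R} (hf : Supp A n f) : Coc A (n + 1) (d A n f) := by
  exact ⟨hf.d, d_d A n f⟩
theorem Coc.cube {A : Cos R} [CharP R 3] {n : ℕ} {f : R} (hf : Coc A n f) :
    Coc A n (f ^ 3) := by
  refine ⟨hf.1.pow 3, ?_⟩
  have h := map_d (frob A) n f
  rw [hf.2, map_zero, frob_f] at h
  exact h.symm
theorem Coc.pow3 {A : Cos R} [CharP R 3] {n : ℕ} {f : R} (hf : Coc A n f) (s : ℕ) :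
    Coc A n (f ^ (3 ^ s)) := by
  induction s with
  | zero => simpa using hf
  | succ s ih =>
    rw [pow_succ, pow_mul]
    exact ih.cube

/-! ### homogeneous cochains as elements of the DG ring -/

theorem sg_zero (A : Cos R) (n : ℕ) : sg A n 0 = 0 := by
  apply coch_ext
  intro k
  rw [sg_c (Supp.zero A n), zero_c']
  split_ifs <;> rfl
theorem sg_one (A : Cos R) : sg A 0 1 = 1 := by
  apply coch_ext
  intro k
  rw [sg_c (Supp.one A 0), one_c']
theorem sg_add {A : Cos R} {n : ℕ} {f g : R} (hf : Supp A n f) (hg : Supp A n g) :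
    sg A n (f + g) = sg A n f + sg A n g := by
  apply coch_ext
  intro k
  rw [sg_c (hf.add hg), add_c', sg_c hf, sg_c hg]
  split_ifs
  · rfl
  · rw [add_zero]
theorem sg_sub {A : Cos R} {n : ℕ} {f g : R} (hf : Supp A n f) (hg : Supp A n g) :
    sg A n (f - g) = sg A n f - sg A n g := by
  apply coch_ext
  intro k
  rw [sg_c (hf.sub hg), sub_c', sg_c hf, sg_c hg]
  split_ifs
  · rfl
  · rw [sub_zero]
theorem sg_neg {A : Cos R} {n : ℕ} {f : R} (hf : Supp A n f) : sg A n (-f) = - sg A n f := by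
  apply coch_ext
  intro k
  rw [sg_c hf.neg, neg_c', sg_c hf]
  split_ifs
  · rfl
  · rw [neg_zero]
theorem sg_mul {A : Cos R} {m n : ℕ} {f g : R} (hf : Supp A m f) (hg : Supp A n g) :
    sg A m f * sg A n g = sg A (m + n) (cup A m f g) := by
  apply coch_ext
  intro k
  rw [mul_c', sg_c (hf.cup hg)]
  by_cases hk : k = m + n
  · subst hk
    rw [if_pos rfl, Finset.sum_eq_single (m, n)]
    · rw [sg_c hf, sg_c hg, if_pos rfl, if_pos rfl]
      rfl
    · rintro ⟨i, j⟩ h hne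
      have h' : i + j = m + n := mem_ad.1 h
      rw [sg_c hf, if_neg, zero_mul]
      intro hi
      apply hne
      rw [Prod.mk.injEq]
      exact ⟨hi, by simp only at hi; omega⟩
    · intro h
      exact absurd (mem_ad.2 rfl) h
  · rw [if_neg hk]
    refine Finset.sum_eq_zero ?_
    rintro ⟨i, j⟩ h
    have h' : i + j = k := mem_ad.1 h
    rw [sg_c hf, sg_c hg]
    by_cases hi : i = m
    · rw [if_neg (show ¬ j = n by omega), map_zero, mul_zero]
    · rw [if_neg (show ¬ i = m from hi), zero_mul]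
theorem dC_sg {A : Cos R} {n : ℕ} {f : R} (hf : Supp A n f) :
    dC A (sg A n f) = sg A (n + 1) (d A n f) := by
  apply coch_ext
  intro k
  cases k with
  | zero =>
    rw [dC_zero, sg_c hf.d, if_neg (by omega)]
  | succ k =>
    rw [dC_succ, sg_c hf.d, sg_c hf]
    by_cases hk : k = n
    · rw [if_pos hk, if_pos (by rw [hk]), hk]
    · rw [if_neg hk, if_neg (by omega), map_zero]
theorem tauC_sg_even (A : Cos R) {n : ℕ} (f : R) (hn : Even n) :
    tauC A (sg A n f) = sg A n f := by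
  by_cases hf : Supp A n f
  · apply coch_ext
    intro k
    rw [tauC_c, sg_c hf]
    split_ifs with hk
    · rw [hk, hn.neg_one_pow, one_mul]
    · rw [mul_zero]
  · unfold sg
    rw [dif_neg hf, map_zero]
theorem tauC_sg_odd (A : Cos R) {n : ℕ} (f : R) (hn : Odd n) :
    tauC A (sg A n f) = - sg A n f := by
  by_cases hf : Supp A n f
  · apply coch_ext
    intro k
    rw [tauC_c, neg_c', sg_c hf]
    split_ifs with hk
    · rw [hk, hn.neg_one_pow, neg_one_mul]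
    · rw [mul_zero, neg_zero]
  · unfold sg
    rw [dif_neg hf, map_zero, neg_zero]
theorem D_sg {A : Cos R} {B : Cos S} [CharP R 3] [CharP S 3] (p : CHom A B) {n : ℕ} {f : R}
    (hf : Supp A n f) : p.D.f (sg A n f) = sg B n (p.f f) := by
  apply coch_ext
  intro k
  rw [CHom.D_c, sg_c hf, sg_c (hf.map p)]
  split_ifs
  · rfl
  · rw [map_zero]
theorem sg_mem_Z {A : Cos R} [CharP R 3] {n : ℕ} {f : R} (hf : Coc A n f) (hn : Even n) :
    sg A n f ∈ (cochDGA A).Z := by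
  refine ⟨tauC_sg_even A f hn, ?_⟩
  show dC A (sg A n f) = 0
  rw [dC_sg hf.1, hf.2, sg_zero]

/-! ### classes -/

theorem cls_zero (A : Cos R) [CharP R 3] (n : ℕ) : cls A n 0 = 0 := by
  unfold cls
  rw [sg_zero, DGA.cl_zero]
theorem cls_one (A : Cos R) [CharP R 3] : cls A 0 1 = 1 := by
  unfold cls
  rw [sg_one, DGA.cl_one]
theorem cls_add {A : Cos R} [CharP R 3] {n : ℕ} {f g : R} (hn : Even n) (hf : Coc A n f)
    (hg : Coc A n g) : cls A n (f + g) = cls A n f + cls A n g := by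
  unfold cls
  rw [sg_add hf.1 hg.1, DGA.cl_add _ (sg_mem_Z hf hn) (sg_mem_Z hg hn)]
theorem cls_sub {A : Cos R} [CharP R 3] {n : ℕ} {f g : R} (hn : Even n) (hf : Coc A n f)
    (hg : Coc A n g) : cls A n (f - g) = cls A n f - cls A n g := by
  unfold cls
  rw [sg_sub hf.1 hg.1, DGA.cl_sub _ (sg_mem_Z hf hn) (sg_mem_Z hg hn)]
theorem cls_neg {A : Cos R} [CharP R 3] {n : ℕ} {f : R} (hn : Even n) (hf : Coc A n f) :
    cls A n (-f) = - cls A n f := by
  unfold cls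
  rw [sg_neg hf.1, DGA.cl_neg _ (sg_mem_Z hf hn)]
theorem cls_mul {A : Cos R} [CharP R 3] {m n : ℕ} {f g : R} (hm : Even m) (hn : Even n)
    (hf : Coc A m f) (hg : Coc A n g) :
    cls A (m + n) (cup A m f g) = cls A m f * cls A n g := by
  unfold cls
  rw [← sg_mul hf.1 hg.1, DGA.cl_mul _ (sg_mem_Z hf hm) (sg_mem_Z hg hn)]
theorem cls_eq_zero_iff {A : Cos R} [CharP R 3] {n : ℕ} {f : R} (hn : Even (n + 1))
    (hf : Coc A (n + 1) f) : cls A (n + 1) f = 0 ↔ ∃ g, Supp A n g ∧ d A n g = f := by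
  unfold cls
  rw [DGA.cl_eq_zero_iff _ (sg_mem_Z hf hn)]
  constructor
  · rintro ⟨e, he⟩
    refine ⟨e.1.c n, e.2 n, ?_⟩
    have h : (sg A (n + 1) f).1.c (n + 1) = (dC A e).1.c (n + 1) := by rw [he]; rfl
    rw [sg_c hf.1, if_pos rfl, dC_succ] at h
    exact h.symm
  · rintro ⟨g, hg, rfl⟩
    exact ⟨sg A n g, (dC_sg hg).symm⟩
theorem cls_eq_iff {A : Cos R} [CharP R 3] {n : ℕ} {f f' : R} (hn : Even (n + 1))
    (hf : Coc A (n + 1) f) (hf' : Coc A (n + 1) f') :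
    cls A (n + 1) f = cls A (n + 1) f' ↔ ∃ g, Supp A n g ∧ d A n g = f - f' := by
  rw [← cls_eq_zero_iff hn (hf.sub hf'), cls_sub hn hf hf', sub_eq_zero]
theorem cls_bdry {A : Cos R} [CharP R 3] {n : ℕ} {g : R} (hn : Even (n + 1))
    (hg : Supp A n g) : cls A (n + 1) (d A n g) = 0 := by
  exact (cls_eq_zero_iff hn (Coc.bdry hg)).2 ⟨g, hg, rfl⟩
theorem cls_zero_eq_zero_iff {A : Cos R} [CharP R 3] {f : R} (hf : Coc A 0 f) :
    cls A 0 f = 0 ↔ f = 0 := by
  constructor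
  · intro h
    unfold cls at h
    rw [DGA.cl_eq_zero_iff _ (sg_mem_Z hf (Even.zero))] at h
    obtain ⟨e, he⟩ := h
    have h : (sg A 0 f).1.c 0 = (dC A e).1.c 0 := by rw [he]; rfl
    rw [sg_c hf.1, if_pos rfl, dC_zero] at h
    exact h
  · rintro rfl
    exact cls_zero A 0
theorem map_cls {A : Cos R} {B : Cos S} [CharP R 3] [CharP S 3] (p : CHom A B) {n : ℕ} {f : R}
    (hn : Even n) (hf : Coc A n f) : p.H (cls A n f) = cls B n (p.f f) := by
  unfold cls CHom.H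
  rw [DHom.H_cl _ (sg_mem_Z hf hn), D_sg p hf.1]

/-! ### functoriality -/

theorem CHom.H_id (A : Cos R) [CharP R 3] (h : Hev A) : (CHom.id A).H h = h := by
  obtain ⟨a, ha, rfl⟩ := DGA.exists_rep _ h
  unfold CHom.H
  rw [DHom.H_cl _ ha]
  rfl
theorem CHom.H_comp {A : Cos R} {B : Cos S} {E : Cos T} [CharP R 3] [CharP S 3] [CharP T 3]
    (q : CHom B E) (p : CHom A B) (h : Hev A) : (q.comp p).H h = q.H (p.H h) := by
  obtain ⟨a, ha, rfl⟩ := DGA.exists_rep _ h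
  unfold CHom.H
  rw [DHom.H_cl _ ha, DHom.H_cl _ ha, DHom.H_cl _ (DHom.mem_Z _ ha)]
  rfl
theorem CHom.H_congr {A : Cos R} {B : Cos S} [CharP R 3] [CharP S 3] (p q : CHom A B)
    (hpq : ∀ r, p.f r = q.f r) (h : Hev A) : p.H h = q.H h := by
  obtain ⟨a, ha, rfl⟩ := DGA.exists_rep _ h
  unfold CHom.H
  rw [DHom.H_cl _ ha, DHom.H_cl _ ha]
  congr 1
  exact coch_ext fun n => hpq _
theorem CHom.H_frob {A : Cos R} {B : Cos S} [CharP R 3] [CharP S 3] (p : CHom A B) (h : Hev A) :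
    p.H ((frob A).H h) = (frob B).H (p.H h) := by
  obtain ⟨a, ha, rfl⟩ := DGA.exists_rep _ h
  unfold CHom.H
  rw [DHom.H_cl _ ha, DHom.H_cl _ ha, DHom.H_cl _ (DHom.mem_Z _ ha),
    DHom.H_cl _ (DHom.mem_Z _ ha)]
  congr 1
  apply coch_ext
  intro n
  rw [CHom.D_c, CHom.D_c, CHom.D_c, CHom.D_c, frob_f, frob_f, map_pow]

/-! ### homogeneous classes -/

theorem IsHom.cls {A : Cos R} [CharP R 3] {n : ℕ} {f : R} (hn : Even n) (hf : Coc A n f) :
    IsHom A n (cls A n f) := ⟨hn, f, hf, rfl⟩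
theorem IsHom.zero (A : Cos R) [CharP R 3] {n : ℕ} (hn : Even n) : IsHom A n 0 := by
  exact ⟨hn, 0, Coc.zero A n, (cls_zero A n).symm⟩
theorem IsHom.one (A : Cos R) [CharP R 3] : IsHom A 0 1 := by
  exact ⟨Even.zero, 1, Coc.one A, (cls_one A).symm⟩
theorem IsHom.add {A : Cos R} [CharP R 3] {n : ℕ} {h k : Hev A} (hh : IsHom A n h)
    (hk : IsHom A n k) : IsHom A n (h + k) := by
  obtain ⟨hn, f, hf, rfl⟩ := hh
  obtain ⟨_, g, hg, rfl⟩ := hk
  exact ⟨hn, f + g, hf.add hg, (cls_add hn hf hg).symm⟩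
theorem IsHom.sub {A : Cos R} [CharP R 3] {n : ℕ} {h k : Hev A} (hh : IsHom A n h)
    (hk : IsHom A n k) : IsHom A n (h - k) := by
  obtain ⟨hn, f, hf, rfl⟩ := hh
  obtain ⟨_, g, hg, rfl⟩ := hk
  exact ⟨hn, f - g, hf.sub hg, (cls_sub hn hf hg).symm⟩
theorem IsHom.neg {A : Cos R} [CharP R 3] {n : ℕ} {h : Hev A} (hh : IsHom A n h) :
    IsHom A n (-h) := by
  obtain ⟨hn, f, hf, rfl⟩ := hh
  exact ⟨hn, -f, hf.neg, (cls_neg hn hf).symm⟩
theorem IsHom.mul {A : Cos R} [CharP R 3] {m n : ℕ} {h k : Hev A} (hh : IsHom A m h)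
    (hk : IsHom A n k) : IsHom A (m + n) (h * k) := by
  obtain ⟨hm, f, hf, rfl⟩ := hh
  obtain ⟨hn, g, hg, rfl⟩ := hk
  exact ⟨hm.add hn, P0N.cup A m f g, hf.cup hg, (cls_mul hm hn hf hg).symm⟩
theorem IsHom.pow {A : Cos R} [CharP R 3] {n : ℕ} {h : Hev A} (hh : IsHom A n h) (k : ℕ) :
    IsHom A (n * k) (h ^ k) := by
  induction k with
  | zero =>
    rw [mul_zero, pow_zero]
    exact IsHom.one A
  | succ k ih =>
    rw [pow_succ, Nat.mul_succ]
    exact ih.mul hh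
theorem IsHom.map {A : Cos R} {B : Cos S} [CharP R 3] [CharP S 3] (p : CHom A B) {n : ℕ}
    {h : Hev A} (hh : IsHom A n h) : IsHom B n (p.H h) := by
  obtain ⟨hn, f, hf, rfl⟩ := hh
  exact ⟨hn, p.f f, ⟨hf.1.map p, by rw [← map_d, hf.2, map_zero]⟩, map_cls p hn hf⟩

instance Hev.charP (A : Cos R) [CharP R 3] : CharP (Hev A) 3 := by
  have h0 : (1 : Hev A) ≠ 0 := by
    intro h
    have hR : Nontrivial R := CharP.nontrivial_of_char_ne_one (R := R) (v := 3) (by norm_num)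
    have := (cls_zero_eq_zero_iff (A := A) (Coc.one A)).1 (by rw [cls_one, h])
    exact one_ne_zero this
  have _ : Nontrivial (Hev A) := ⟨⟨1, 0, h0⟩⟩
  rw [CharP.charP_iff_prime_eq_zero Nat.prime_three]
  have h3 : ((3 : ℕ) : (cochDGA A).Z) = 0 := by
    apply Subtype.ext
    have := (cochDGA A).three
    push_cast
    exact this
  have := congrArg (cochDGA A).qm h3
  rw [map_natCast, map_zero] at this
  exact this

end P0N
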