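import Mathlib

/-!
# The cobar complex of `P_* = F_p[ξ_1, ξ_2, ...]` and `Ext_P(F_p, F_p)`

`P_*` has the Milnor coproduct `Δ ξ_n = ∑_{i ≤ n} ξ_{n-i}^{p^i} ⊗ ξ_i` (`ξ_0 = 1`) and the grading
`|ξ_n| = 2^n - 1` (`p = 2`), `|ξ_n| = 2 (p^n - 1)` (`p` odd).  All tensor powers of `P_*` are
realised inside one polynomial ring `Pol p` with variables `(i, k)`: the variable `(i, k)` is
`1 ⊗ ... ⊗ ξ_{k+1} ⊗ ... ⊗ 1` with `ξ_{k+1}` in the tensor factor number `i` (`i = 0, 1, ...`).
The `s`-cochains `P_*^{⊗ s}` are the polynomials in the variables `(i, k)` with `i < s`.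
`Ext^{s,t}_P(F_p, F_p)` is the cohomology of the cobar complex `(P_*^{⊗ s}, cd)` in internal
degree `t`, the Yoneda product is induced by the concatenation (tensor) product, and `P^0` is
induced by `x ↦ x^p`.
-/

set_option autoImplicit false

namespace CobarP

open MvPolynomial Finset

variable (p : ℕ) [hp : Fact p.Prime]

/-- the polynomial ring containing all tensor powers of `P_*` -/
abbrev Pol : Type := MvPolynomial (ℕ × ℕ) (ZMod p)

/-- the degree of `ξ_{k+1}` -/
def xiDeg (k : ℕ) : ℕ := if p = 2 then 2 ^ (k + 1) - 1 else 2 * (p ^ (k + 1) - 1)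

/-- `ξ_n` in the tensor factor `i` (`ξ_0 = 1`) -/
noncomputable def xi (i n : ℕ) : Pol p := if n = 0 then 1 else X (i, n - 1)

/-- the coproduct of `ξ_n` placed in the tensor factors `i` and `i + 1` -/
noncomputable def cop (i n : ℕ) : Pol p :=
  ∑ l ∈ range (n + 1), xi p i (n - l) ^ (p ^ l) * xi p (i + 1) l

/-- the coface map `j` of the cobar construction: `1 ⊗ f` for `j = 0`, the coproduct on the
`j`-th tensor factor (number `j - 1`) for `1 ≤ j ≤ s`, and `f ⊗ 1` for `j = s + 1` (in which case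
nothing happens inside `Pol p`) -/
noncomputable def cface (j : ℕ) : Pol p →ₐ[ZMod p] Pol p :=
  aeval fun q : ℕ × ℕ =>
    if q.1 + 1 < j then X (q.1, q.2)
    else if q.1 + 1 = j then cop p q.1 (q.2 + 1)
    else X (q.1 + 1, q.2)

/-- moving all tensor factors by `m` places: `f ↦ 1^{⊗ m} ⊗ f` -/
noncomputable def cshift (m : ℕ) : Pol p →ₐ[ZMod p] Pol p :=
  aeval fun q : ℕ × ℕ => X (q.1 + m, q.2)

/-- the cobar differential on `s`-cochains -/
noncomputable def cd (s : ℕ) : Pol p →ₗ[ZMod p] Pol p :=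
  ∑ j ∈ range (s + 2), (-1 : ZMod p) ^ j • (cface p j).toLinearMap

/-- the concatenation product of an `s`-cochain `f` with `g` -/
noncomputable def cmul (s : ℕ) (f g : Pol p) : Pol p := f * cshift p s g

/-- the cochains of bidegree `(s, t)`: `(P_*^{⊗ s})_t` -/
noncomputable def Cn (s t : ℕ) : Submodule (ZMod p) (Pol p) :=
  Subalgebra.toSubmodule (supported (ZMod p) {q : ℕ × ℕ | q.1 < s}) ⊓
    weightedHomogeneousSubmodule (ZMod p) (fun q : ℕ × ℕ => xiDeg p q.2) t

/-- the cocycles of bidegree `(s, t)` -/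
noncomputable def Zn (s t : ℕ) : Submodule (ZMod p) (Pol p) := Cn p s t ⊓ LinearMap.ker (cd p s)

/-- the coboundaries of bidegree `(s, t)` -/
noncomputable def Bn : ℕ → ℕ → Submodule (ZMod p) (Pol p)
  | 0, _ => ⊥
  | s + 1, t => (Cn p s t).map (cd p s)

/-- `Ext^{s,t}_P(F_p, F_p)` -/
def ExtP (s t : ℕ) : Type := ↥(Zn p s t) ⧸ (Bn p s t).submoduleOf (Zn p s t)

noncomputable instance (s t : ℕ) : AddCommGroup (ExtP p s t) :=
  inferInstanceAs (AddCommGroup (↥(Zn p s t) ⧸ (Bn p s t).submoduleOf (Zn p s t)))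

/-- the class of a cocycle -/
noncomputable def ExtP.mk {s t : ℕ} (f : ↥(Zn p s t)) : ExtP p s t :=
  (Submodule.Quotient.mk f : ↥(Zn p s t) ⧸ (Bn p s t).submoduleOf (Zn p s t))

theorem cobar_map_mem {S : Set (ℕ × ℕ)} (φ : Pol p →ₐ[ZMod p] Pol p)
    (T : Subalgebra (ZMod p) (Pol p)) (h : ∀ q ∈ S, φ (X q) ∈ T) {f : Pol p}
    (hf : f ∈ supported (ZMod p) S) : φ f ∈ T := by
  rw [supported_eq_adjoin_X] at hf
  have hle : Algebra.adjoin (ZMod p) (X '' S) ≤ T.comap φ := by
    apply Algebra.adjoin_le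
    rintro _ ⟨q, hq, rfl⟩
    exact h q hq
  exact hle hf

theorem cobar_map_eq {S : Set (ℕ × ℕ)} (φ ψ : Pol p →ₐ[ZMod p] Pol p)
    (h : ∀ q ∈ S, φ (X q) = ψ (X q)) {f : Pol p} (hf : f ∈ supported (ZMod p) S) : φ f = ψ f := by
  rw [supported_eq_adjoin_X] at hf
  have hle : Algebra.adjoin (ZMod p) (X '' S) ≤ AlgHom.equalizer φ ψ := by
    apply Algebra.adjoin_le
    rintro _ ⟨q, hq, rfl⟩
    exact h q hq
  exact hle hf

theorem cobar_face_X (j : ℕ) (q : ℕ × ℕ) : cface p j (X q) =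
    if q.1 + 1 < j then X (q.1, q.2)
    else if q.1 + 1 = j then cop p q.1 (q.2 + 1)
    else X (q.1 + 1, q.2) := by
  unfold cface
  rw [aeval_X]

theorem cobar_shift_X (m : ℕ) (q : ℕ × ℕ) : cshift p m (X q) = X (q.1 + m, q.2) := by
  unfold cshift
  rw [aeval_X]

theorem cobar_shift_xi (m i n : ℕ) : cshift p m (xi p i n) = xi p (i + m) n := by
  unfold xi
  by_cases h : n = 0
  · rw [if_pos h, if_pos h, map_one]
  · rw [if_neg h, if_neg h, cobar_shift_X]

theorem cobar_shift_cop (m i n : ℕ) : cshift p m (cop p i n) = cop p (i + m) n := by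
  unfold cop
  rw [map_sum]
  apply Finset.sum_congr rfl
  intro l _
  rw [map_mul, map_pow, cobar_shift_xi, cobar_shift_xi]
  congr 2
  omega

theorem cobar_face_zero : cface p 0 = cshift p 1 := by
  apply MvPolynomial.algHom_ext
  intro q
  rw [cobar_face_X, cobar_shift_X, if_neg (by omega), if_neg (by omega)]

theorem cobar_shift_shift (m n : ℕ) (f : Pol p) :
    cshift p m (cshift p n f) = cshift p (m + n) f := by
  have h : (cshift p m).comp (cshift p n) = cshift p (m + n) := by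
    apply MvPolynomial.algHom_ext
    intro q
    rw [AlgHom.comp_apply, cobar_shift_X, cobar_shift_X, cobar_shift_X]
    congr 2
    show q.1 + n + m = q.1 + (m + n)
    omega
  rw [← h]
  rfl

theorem cobar_face_shift_le (s j : ℕ) (hj : j ≤ s) (g : Pol p) :
    cface p j (cshift p s g) = cshift p (s + 1) g := by
  have h : (cface p j).comp (cshift p s) = cshift p (s + 1) := by
    apply MvPolynomial.algHom_ext
    intro q
    rw [AlgHom.comp_apply, cobar_shift_X, cobar_face_X, cobar_shift_X]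
    rw [if_neg (by show ¬ (q.1 + s + 1 < j); omega), if_neg (by show ¬ (q.1 + s + 1 = j); omega)]
    rfl
  rw [← h]
  rfl

theorem cobar_face_shift_ge (s j : ℕ) (g : Pol p) :
    cface p (s + j) (cshift p s g) = cshift p s (cface p j g) := by
  have h : (cface p (s + j)).comp (cshift p s) = (cshift p s).comp (cface p j) := by
    apply MvPolynomial.algHom_ext
    intro q
    rw [AlgHom.comp_apply, AlgHom.comp_apply, cobar_shift_X, cobar_face_X, cobar_face_X]
    show (if q.1 + s + 1 < s + j then X (q.1 + s, q.2)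
      else if q.1 + s + 1 = s + j then cop p (q.1 + s) (q.2 + 1)
      else X (q.1 + s + 1, q.2)) = _
    by_cases h1 : q.1 + 1 < j
    · rw [if_pos (by omega), if_pos h1, cobar_shift_X]
    · by_cases h2 : q.1 + 1 = j
      · rw [if_neg (by omega), if_pos (by omega), if_neg h1, if_pos h2, cobar_shift_cop]
      · rw [if_neg (by omega), if_neg (by omega), if_neg h1, if_neg h2, cobar_shift_X]
        congr 2
        show q.1 + s + 1 = q.1 + 1 + s
        omega
  exact DFunLike.congr_fun h g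

theorem cobar_face_high (s j : ℕ) (hj : s + 1 ≤ j) {f : Pol p}
    (hf : f ∈ supported (ZMod p) {q : ℕ × ℕ | q.1 < s}) : cface p j f = f := by
  have h := cobar_map_eq p (cface p j) (AlgHom.id (ZMod p) (Pol p)) (S := {q : ℕ × ℕ | q.1 < s})
    (by
      intro q hq
      have hq' : q.1 < s := hq
      rw [cobar_face_X, if_pos (by omega)]
      rfl) hf
  exact h

theorem cobar_xi_supp (i n s : ℕ) (h : i < s) :
    xi p i n ∈ supported (ZMod p) {q : ℕ × ℕ | q.1 < s} := by
  unfold xi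
  by_cases hn : n = 0
  · rw [if_pos hn]
    exact Subalgebra.one_mem _
  · rw [if_neg hn, X_mem_supported]
    exact h

theorem cobar_cop_supp (i n s : ℕ) (h : i + 1 < s) :
    cop p i n ∈ supported (ZMod p) {q : ℕ × ℕ | q.1 < s} := by
  unfold cop
  apply Subalgebra.sum_mem
  intro l _
  apply Subalgebra.mul_mem
  · exact Subalgebra.pow_mem _ (cobar_xi_supp p _ _ _ (by omega)) _
  · exact cobar_xi_supp p _ _ _ h

theorem cobar_face_supp (s j : ℕ) {f : Pol p}
    (hf : f ∈ supported (ZMod p) {q : ℕ × ℕ | q.1 < s}) :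
    cface p j f ∈ supported (ZMod p) {q : ℕ × ℕ | q.1 < s + 1} := by
  apply cobar_map_mem p (cface p j) _ (S := {q : ℕ × ℕ | q.1 < s}) _ hf
  intro q hq
  have hq' : q.1 < s := hq
  rw [cobar_face_X]
  split_ifs
  · rw [X_mem_supported]
    show q.1 < s + 1
    omega
  · exact cobar_cop_supp p _ _ _ (by omega)
  · rw [X_mem_supported]
    show q.1 + 1 < s + 1
    omega

theorem cobar_shift_supp (s m : ℕ) {f : Pol p}
    (hf : f ∈ supported (ZMod p) {q : ℕ × ℕ | q.1 < s}) :
    cshift p m f ∈ supported (ZMod p) {q : ℕ × ℕ | q.1 < m + s} := by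
  apply cobar_map_mem p (cshift p m) _ (S := {q : ℕ × ℕ | q.1 < s}) _ hf
  intro q hq
  have hq' : q.1 < s := hq
  rw [cobar_shift_X, X_mem_supported]
  show q.1 + m < m + s
  omega

theorem cobar_supp_mono {s s' : ℕ} (h : s ≤ s') {f : Pol p}
    (hf : f ∈ supported (ZMod p) {q : ℕ × ℕ | q.1 < s}) :
    f ∈ supported (ZMod p) {q : ℕ × ℕ | q.1 < s'} := by
  refine supported_mono ?_ hf
  intro q hq
  exact lt_of_lt_of_le hq h

/-- algebra maps given by weighted homogeneous polynomials preserve weights -/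
theorem cobar_wh {w : ℕ × ℕ → ℕ} (φ : Pol p →ₐ[ZMod p] Pol p)
    (h : ∀ q, IsWeightedHomogeneous w (φ (X q)) (w q)) {f : Pol p} {t : ℕ}
    (hf : IsWeightedHomogeneous w f t) : IsWeightedHomogeneous w (φ f) t := by
  have hmon : ∀ v : (ℕ × ℕ) →₀ ℕ, ∀ c : ZMod p,
      IsWeightedHomogeneous w (φ (monomial v c)) (Finsupp.weight w v) := by
    intro v c
    have e1 : (monomial v c : Pol p) = C c * v.prod fun q k => X q ^ k :=
      MvPolynomial.monomial_eq
    rw [e1, map_mul, Finsupp.prod, map_prod]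
    have hC : φ (C c) = C c := by
      have := φ.commutes c
      simpa [MvPolynomial.algebraMap_eq] using this
    rw [hC, Finsupp.weight_apply, Finsupp.sum]
    have h2 : IsWeightedHomogeneous w (∏ q ∈ v.support, φ (X q ^ v q))
        (∑ q ∈ v.support, v q • w q) := by
      apply IsWeightedHomogeneous.prod
      intro q _
      rw [map_pow]
      exact (h q).pow (v q)
    have h3 := (isWeightedHomogeneous_C w c).mul h2
    rw [zero_add] at h3
    exact h3
  rw [← MvPolynomial.support_sum_monomial_coeff f, map_sum]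
  apply IsWeightedHomogeneous.sum
  intro v hv
  have h4 : Finsupp.weight w v = t := hf (MvPolynomial.mem_support_iff.1 hv)
  rw [← h4]
  exact hmon v _

/-- the degree of `ξ_n` -/
def cobar_dg (n : ℕ) : ℕ := if p = 2 then 2 ^ n - 1 else 2 * (p ^ n - 1)

theorem cobar_dg_succ (k : ℕ) : cobar_dg p (k + 1) = xiDeg p k := rfl

theorem cobar_dg_zero : cobar_dg p 0 = 0 := by
  unfold cobar_dg
  simp

theorem cobar_dg_add (n l : ℕ) (hl : l ≤ n) :
    p ^ l * cobar_dg p (n - l) + cobar_dg p l = cobar_dg p n := by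
  have hp1 : 1 ≤ p := hp.out.one_lt.le
  have key : p ^ l * (p ^ (n - l) - 1) + (p ^ l - 1) = p ^ n - 1 := by
    have h1 : p ^ l * p ^ (n - l) = p ^ n := by rw [← pow_add]; congr 1; omega
    have h2 : 1 ≤ p ^ l := Nat.one_le_pow _ _ hp1
    have h3 : p ^ l ≤ p ^ n := Nat.pow_le_pow_right hp1 hl
    rw [Nat.mul_sub, h1, mul_one]
    omega
  unfold cobar_dg
  by_cases h2 : p = 2
  · rw [if_pos h2, if_pos h2, if_pos h2]
    rw [h2] at key
    rw [h2]
    exact key
  · rw [if_neg h2, if_neg h2, if_neg h2]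
    rw [← key]
    ring

theorem cobar_xi_wh (i n : ℕ) :
    IsWeightedHomogeneous (fun q : ℕ × ℕ => xiDeg p q.2) (xi p i n) (cobar_dg p n) := by
  unfold xi
  by_cases hn : n = 0
  · rw [if_pos hn, hn, cobar_dg_zero]
    exact isWeightedHomogeneous_one _ _
  · rw [if_neg hn]
    obtain ⟨k, rfl⟩ := Nat.exists_eq_succ_of_ne_zero hn
    have h := isWeightedHomogeneous_X (ZMod p) (fun q : ℕ × ℕ => xiDeg p q.2) (i, k)
    exact h

theorem cobar_cop_wh (i n : ℕ) :
    IsWeightedHomogeneous (fun q : ℕ × ℕ => xiDeg p q.2) (cop p i n) (cobar_dg p n) := by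
  unfold cop
  apply IsWeightedHomogeneous.sum
  intro l hl
  rw [Finset.mem_range] at hl
  have h := ((cobar_xi_wh p i (n - l)).pow (p ^ l)).mul (cobar_xi_wh p (i + 1) l)
  rw [smul_eq_mul, cobar_dg_add p n l (by omega)] at h
  exact h

theorem cobar_face_wh (j : ℕ) {f : Pol p} {t : ℕ}
    (hf : IsWeightedHomogeneous (fun q : ℕ × ℕ => xiDeg p q.2) f t) :
    IsWeightedHomogeneous (fun q : ℕ × ℕ => xiDeg p q.2) (cface p j f) t := by
  apply cobar_wh p (cface p j) _ hf
  intro q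
  rw [cobar_face_X]
  split_ifs
  · exact isWeightedHomogeneous_X _ _ _
  · exact cobar_cop_wh p _ _
  · exact isWeightedHomogeneous_X _ _ _

theorem cobar_shift_wh (m : ℕ) {f : Pol p} {t : ℕ}
    (hf : IsWeightedHomogeneous (fun q : ℕ × ℕ => xiDeg p q.2) f t) :
    IsWeightedHomogeneous (fun q : ℕ × ℕ => xiDeg p q.2) (cshift p m f) t := by
  apply cobar_wh p (cshift p m) _ hf
  intro q
  rw [cobar_shift_X]
  exact isWeightedHomogeneous_X _ _ _

theorem cobar_mem_Cn (s t : ℕ) (f : Pol p) : f ∈ Cn p s t ↔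
    f ∈ supported (ZMod p) {q : ℕ × ℕ | q.1 < s} ∧
      IsWeightedHomogeneous (fun q : ℕ × ℕ => xiDeg p q.2) f t := by
  unfold Cn
  rw [Submodule.mem_inf, Subalgebra.mem_toSubmodule, mem_weightedHomogeneousSubmodule]

theorem cobar_mem_Zn (s t : ℕ) (f : Pol p) : f ∈ Zn p s t ↔ f ∈ Cn p s t ∧ cd p s f = 0 := by
  unfold Zn
  rw [Submodule.mem_inf, LinearMap.mem_ker]

theorem cobar_cd_apply (s : ℕ) (f : Pol p) :
    cd p s f = ∑ j ∈ range (s + 2), (-1 : ZMod p) ^ j • cface p j f := by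
  unfold cd
  rw [LinearMap.sum_apply]
  rfl

theorem cobar_mul_Cn {s s' t t' : ℕ} {f g : Pol p} (hf : f ∈ Cn p s t) (hg : g ∈ Cn p s' t') :
    cmul p s f g ∈ Cn p (s + s') (t + t') := by
  rw [cobar_mem_Cn] at hf hg ⊢
  unfold cmul
  refine ⟨?_, ?_⟩
  · apply Subalgebra.mul_mem
    · exact cobar_supp_mono p (by omega) hf.1
    · exact cobar_shift_supp p _ _ hg.1
  · exact hf.2.mul (cobar_shift_wh p _ hg.2)

/-- the Leibniz rule -/
theorem cobar_leibniz (s s' : ℕ) {f : Pol p}
    (hf : f ∈ supported (ZMod p) {q : ℕ × ℕ | q.1 < s}) (g : Pol p) :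
    cd p (s + s') (cmul p s f g) =
      cmul p (s + 1) (cd p s f) g + (-1 : ZMod p) ^ s • cmul p s f (cd p s' g) := by
  have e1 : cd p s f = (∑ j ∈ range (s + 1), (-1 : ZMod p) ^ j • cface p j f)
      + (-1 : ZMod p) ^ (s + 1) • f := by
    rw [cobar_cd_apply, Finset.sum_range_succ, cobar_face_high p s (s + 1) le_rfl hf]
  have e2 : cd p s' g = cshift p 1 g
      + ∑ j ∈ range (s' + 1), (-1 : ZMod p) ^ (j + 1) • cface p (j + 1) g := by
    rw [cobar_cd_apply, Finset.sum_range_succ', cobar_face_zero, pow_zero, one_smul, add_comm]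
  have e3 : cd p (s + s') (cmul p s f g) =
      (∑ j ∈ range (s + 1), (-1 : ZMod p) ^ j • (cface p j f * cshift p (s + 1) g))
      + ∑ j ∈ range (s' + 1), (-1 : ZMod p) ^ (s + 1 + j) • (f * cshift p s (cface p (j + 1) g)) := by
    rw [cobar_cd_apply]
    have hr : s + s' + 2 = (s + 1) + (s' + 1) := by omega
    rw [hr, Finset.sum_range_add]
    congr 1
    · apply Finset.sum_congr rfl
      intro j hj
      rw [Finset.mem_range] at hj
      unfold cmul
      rw [map_mul, cobar_face_shift_le p s j (by omega)]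
    · apply Finset.sum_congr rfl
      intro j _
      unfold cmul
      have hj : s + 1 + j = s + (j + 1) := by omega
      rw [map_mul, cobar_face_high p s (s + 1 + j) (by omega) hf, hj, cobar_face_shift_ge]
  rw [e3, e1, e2]
  unfold cmul
  rw [map_add, map_sum, cobar_shift_shift, add_mul, mul_add, smul_add, Finset.sum_mul,
    Finset.mul_sum, Finset.smul_sum]
  have h1 : ∑ j ∈ range (s + 1), (-1 : ZMod p) ^ j • (cface p j f * cshift p (s + 1) g)
      = ∑ j ∈ range (s + 1), ((-1 : ZMod p) ^ j • cface p j f) * cshift p (s + 1) g := by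
    apply Finset.sum_congr rfl
    intro j _
    rw [smul_mul_assoc]
  have h2 : ∑ j ∈ range (s' + 1), (-1 : ZMod p) ^ (s + 1 + j)
        • (f * cshift p s (cface p (j + 1) g))
      = ∑ j ∈ range (s' + 1), (-1 : ZMod p) ^ s
        • (f * cshift p s ((-1 : ZMod p) ^ (j + 1) • cface p (j + 1) g)) := by
    apply Finset.sum_congr rfl
    intro j _
    rw [map_smul, mul_smul_comm, smul_smul, ← pow_add]
    congr 2
    omega
  rw [h1, h2, smul_mul_assoc, pow_succ]
  rw [mul_neg_one, neg_smul]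
  abel

theorem cmul_mem {s s' t t' : ℕ} {f g : Pol p} (hf : f ∈ Zn p s t) (hg : g ∈ Zn p s' t') :
    cmul p s f g ∈ Zn p (s + s') (t + t') := by
  rw [cobar_mem_Zn] at hf hg ⊢
  refine ⟨cobar_mul_Cn p hf.1 hg.1, ?_⟩
  rw [cobar_leibniz p s s' ((cobar_mem_Cn p s t f).1 hf.1).1, hf.2, hg.2]
  unfold cmul
  rw [map_zero, zero_mul, mul_zero, smul_zero, add_zero]

theorem cobar_face_Cn {s t j : ℕ} {f : Pol p} (hf : f ∈ Cn p s t) :
    cface p j f ∈ Cn p (s + 1) t := by
  rw [cobar_mem_Cn] at hf ⊢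
  exact ⟨cobar_face_supp p s j hf.1, cobar_face_wh p j hf.2⟩

theorem cmul_left_bdry {s s' t t' : ℕ} {f g : Pol p} (hf : f ∈ Bn p s t)
    (hg : g ∈ Zn p s' t') : cmul p s f g ∈ Bn p (s + s') (t + t') := by
  rw [cobar_mem_Zn] at hg
  cases s with
  | zero =>
    have hf0 : f = 0 := by
      have h1 : f ∈ (⊥ : Submodule (ZMod p) (Pol p)) := hf
      exact (Submodule.mem_bot (ZMod p)).1 h1
    rw [hf0]
    unfold cmul
    rw [zero_mul]
    exact Submodule.zero_mem _
  | succ s =>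
    obtain ⟨f0, hf0, rfl⟩ := Submodule.mem_map.1 hf
    have hs : s + 1 + s' = (s + s') + 1 := by omega
    rw [hs]
    apply Submodule.mem_map.2
    refine ⟨cmul p s f0 g, cobar_mul_Cn p hf0 hg.1, ?_⟩
    rw [cobar_leibniz p s s' ((cobar_mem_Cn p s t f0).1 hf0).1, hg.2]
    have : cmul p s f0 0 = 0 := by
      unfold cmul
      rw [map_zero, mul_zero]
    rw [this, smul_zero, add_zero]

theorem cmul_right_bdry {s s' t t' : ℕ} {f g : Pol p} (hf : f ∈ Zn p s t)
    (hg : g ∈ Bn p s' t') : cmul p s f g ∈ Bn p (s + s') (t + t') := by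
  rw [cobar_mem_Zn] at hf
  cases s' with
  | zero =>
    have hg0 : g = 0 := by
      have h1 : g ∈ (⊥ : Submodule (ZMod p) (Pol p)) := hg
      exact (Submodule.mem_bot (ZMod p)).1 h1
    rw [hg0]
    unfold cmul
    rw [map_zero, mul_zero]
    exact Submodule.zero_mem _
  | succ s' =>
    obtain ⟨g0, hg0, rfl⟩ := Submodule.mem_map.1 hg
    have hs : s + (s' + 1) = (s + s') + 1 := by omega
    rw [hs]
    apply Submodule.mem_map.2
    refine ⟨(-1 : ZMod p) ^ s • cmul p s f g0,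
      Submodule.smul_mem _ _ (cobar_mul_Cn p hf.1 hg0), ?_⟩
    rw [map_smul, cobar_leibniz p s s' ((cobar_mem_Cn p s t f).1 hf.1).1, hf.2]
    have : cmul p (s + 1) 0 g0 = 0 := by
      unfold cmul
      rw [zero_mul]
    rw [this, zero_add, smul_smul, ← pow_add, ← two_mul, pow_mul]
    simp

theorem cmul_add_left (s : ℕ) (f f' g : Pol p) :
    cmul p s (f + f') g = cmul p s f g + cmul p s f' g := add_mul _ _ _

theorem cmul_sub_left (s : ℕ) (f f' g : Pol p) :
    cmul p s (f - f') g = cmul p s f g - cmul p s f' g := sub_mul _ _ _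

theorem cmul_sub_right (s : ℕ) (f g g' : Pol p) :
    cmul p s f (g - g') = cmul p s f g - cmul p s f g' := by
  simp [cmul, mul_sub]

/-- the Yoneda product, induced by the concatenation product -/
noncomputable def ExtP.mul {s s' t t' : ℕ} (a : ExtP p s t) (b : ExtP p s' t') :
    ExtP p (s + s') (t + t') :=
  Quotient.map₂ (sa := ((Bn p s t).submoduleOf (Zn p s t)).quotientRel)
    (sb := ((Bn p s' t').submoduleOf (Zn p s' t')).quotientRel)
    (sc := ((Bn p (s + s') (t + t')).submoduleOf (Zn p (s + s') (t + t'))).quotientRel)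
    (fun f g => (⟨cmul p s f.1 g.1, cmul_mem p f.2 g.2⟩ : ↥(Zn p (s + s') (t + t')))) (by
      intro f f' hf g g' hg
      have hf0 : f - f' ∈ (Bn p s t).submoduleOf (Zn p s t) := (Submodule.quotientRel_def _).1 hf
      have hg0 : g - g' ∈ (Bn p s' t').submoduleOf (Zn p s' t') :=
        (Submodule.quotientRel_def _).1 hg
      have hf1 : f.1 - f'.1 ∈ Bn p s t := hf0
      have hg1 : g.1 - g'.1 ∈ Bn p s' t' := hg0
      apply (Submodule.quotientRel_def _).2
      show cmul p s f.1 g.1 - cmul p s f'.1 g'.1 ∈ Bn p (s + s') (t + t')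
      have h1 := cmul_left_bdry p hf1 g.2
      have h2 := cmul_right_bdry p f'.2 hg1
      have h3 := Submodule.add_mem _ h1 h2
      rw [cmul_sub_left, cmul_sub_right] at h3
      have h4 : cmul p s f.1 g.1 - cmul p s f'.1 g'.1 =
          cmul p s f.1 g.1 - cmul p s f'.1 g.1 + (cmul p s f'.1 g.1 - cmul p s f'.1 g'.1) := by
        abel
      rw [h4]
      exact h3) a b

theorem cobar_pow_Cn {s t : ℕ} {f : Pol p} (hf : f ∈ Cn p s t) : f ^ p ∈ Cn p s (p * t) := by
  rw [cobar_mem_Cn] at hf ⊢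
  exact ⟨Subalgebra.pow_mem _ hf.1 p, hf.2.pow p⟩

theorem cobar_cd_pow (s : ℕ) (f : Pol p) : cd p s (f ^ p) = (cd p s f) ^ p := by
  rw [cobar_cd_apply, cobar_cd_apply, sum_pow_char]
  apply Finset.sum_congr rfl
  intro j _
  rw [smul_pow, ZMod.pow_card, map_pow]

theorem frob_mem_Zn {s t : ℕ} {f : Pol p} (hf : f ∈ Zn p s t) : f ^ p ∈ Zn p s (p * t) := by
  rw [cobar_mem_Zn] at hf ⊢
  refine ⟨cobar_pow_Cn p hf.1, ?_⟩
  rw [cobar_cd_pow, hf.2, zero_pow hp.out.ne_zero]

theorem frob_mem_Bn {s t : ℕ} {f : Pol p} (hf : f ∈ Bn p s t) : f ^ p ∈ Bn p s (p * t) := by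
  cases s with
  | zero =>
    have hf0 : f = 0 := by
      have h1 : f ∈ (⊥ : Submodule (ZMod p) (Pol p)) := hf
      exact (Submodule.mem_bot (ZMod p)).1 h1
    rw [hf0, zero_pow hp.out.ne_zero]
    exact Submodule.zero_mem _
  | succ s =>
    obtain ⟨f0, hf0, rfl⟩ := Submodule.mem_map.1 hf
    apply Submodule.mem_map.2
    exact ⟨f0 ^ p, cobar_pow_Cn p hf0, cobar_cd_pow p s f0⟩

/-- the operation `P^0`, induced by the `p`-th power map of `P_*` -/
noncomputable def ExtP.P0 {s t : ℕ} (a : ExtP p s t) : ExtP p s (p * t) :=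
  Quotient.map (sa := ((Bn p s t).submoduleOf (Zn p s t)).quotientRel)
    (sb := ((Bn p s (p * t)).submoduleOf (Zn p s (p * t))).quotientRel)
    (fun f => (⟨f.1 ^ p, frob_mem_Zn p f.2⟩ : ↥(Zn p s (p * t)))) (by
      intro f f' hf
      have hf0 : f - f' ∈ (Bn p s t).submoduleOf (Zn p s t) := (Submodule.quotientRel_def _).1 hf
      have hf1 : f.1 - f'.1 ∈ Bn p s t := hf0
      apply (Submodule.quotientRel_def _).2
      show f.1 ^ p - f'.1 ^ p ∈ Bn p s (p * t)
      have h1 := frob_mem_Bn p hf1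
      rwa [sub_pow_char] at h1) a

theorem one_mem_Zn : (1 : Pol p) ∈ Zn p 0 0 := by
  rw [cobar_mem_Zn, cobar_mem_Cn]
  refine ⟨⟨Subalgebra.one_mem _, isWeightedHomogeneous_one _ _⟩, ?_⟩
  rw [cobar_cd_apply, Finset.sum_range_succ, Finset.sum_range_succ, Finset.sum_range_zero,
    map_one, map_one]
  simp

/-- the unit of `Ext` -/
noncomputable def ExtP.one : ExtP p 0 0 := ExtP.mk p ⟨1, one_mem_Zn p⟩

/-- the powers of an element of `Ext` -/
noncomputable def ExtP.pow {s t : ℕ} (a : ExtP p s t) : (m : ℕ) → ExtP p (s * m) (t * m)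
  | 0 => ExtP.one p
  | m + 1 => ExtP.mul p (ExtP.pow a m) a

/-- nilpotence in `Ext` -/
def ExtP.IsNilp {s t : ℕ} (a : ExtP p s t) : Prop := ∃ m, 1 ≤ m ∧ ExtP.pow p a m = 0

end CobarP
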