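import Pool.Agent.H34.P0.Cent

/-!
# The DG ring of cochains of a cosimplicial ring; classes
-/

set_option autoImplicit false

namespace P0N

open Finset

variable {R : Type} [CommRing R] {S : Type} [CommRing S]

/-- the DG ring of cochains -/
def cochDGA (A : Cos R) [CharP R 3] : DGA ↥(Coch A) where
  d := dC A
  τ := tauC A
  d_d F := by
    apply coch_ext
    intro n
    cases n with
    | zero => rfl
    | succ n =>
      cases n with
      | zero => exact map_zero (d A 0)
      | succ n => exact d_d A n _
  leib := dC_leib A
  τ_τ F := by
    apply coch_ext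
    intro n
    rw [tauC_c, tauC_c, ← mul_assoc, ← mul_pow]; simp
  d_τ F := by
    apply coch_ext
    intro n
    cases n with
    | zero => simp
    | succ n =>
      rw [neg_c', tauC_c, dC_succ, dC_succ, tauC_c]
      rcases Nat.even_or_odd n with h | h
      · rw [h.neg_one_pow, h.add_one.neg_one_pow]; simp
      · rw [h.neg_one_pow, h.add_one.neg_one_pow]; simp
  three := by
    apply coch_ext
    intro n
    have h3 : (3 : ↥(Coch A)) = 1 + 1 + 1 := by norm_num
    have h30 : (1 : R) + 1 + 1 = 0 := by
      have := CharP.cast_eq_zero R 3
      push_cast at this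
      rw [← this]; norm_num
    rw [h3, add_c', add_c', one_c', zero_c']
    split_ifs
    · exact h30
    · simp
  central := dC_central A

open Classical in
/-- the homogeneous cochain `f` in degree `n` (zero if `f` is not an `n`-cochain) -/
noncomputable def sg (A : Cos R) (n : ℕ) (f : R) : ↥(Coch A) :=
  if h : Supp A n f then ⟨⟨fun k => if k = n then f else 0⟩, by
    intro k
    show Supp A k (if k = n then f else 0)
    split_ifs with hk
    · rw [hk]; exact h
    · exact Supp.zero _ _⟩ else 0

lemma sg_c {A : Cos R} {n : ℕ} {f : R} (hf : Supp A n f) (k : ℕ) :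
    (sg A n f).1.c k = if k = n then f else 0 := by
  unfold sg
  rw [dif_pos hf]

/-- even cohomology of a cosimplicial ring -/
abbrev Hev (A : Cos R) [CharP R 3] : Type := (cochDGA A).H

/-- the class of an even cocycle of degree `n` -/
noncomputable def cls (A : Cos R) [CharP R 3] (n : ℕ) (f : R) : Hev A :=
  (cochDGA A).cl (sg A n f)

/-- morphisms of cosimplicial rings induce morphisms of DG rings -/
def CHom.D {A : Cos R} {B : Cos S} [CharP R 3] [CharP S 3] (p : CHom A B) :
    DHom (cochDGA A) (cochDGA B) where
  f :=
    { toFun := fun F => ⟨⟨fun n => p.f (F.1.c n)⟩, fun n => (F.2 n).map p⟩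
      map_one' := by
        apply coch_ext; intro n
        show p.f ((1 : ↥(Coch A)).1.c n) = (1 : ↥(Coch B)).1.c n
        rw [one_c', one_c']
        split_ifs <;> simp
      map_zero' := by
        apply coch_ext; intro n
        exact map_zero p.f
      map_add' := fun F G => by
        apply coch_ext; intro n
        exact map_add p.f _ _
      map_mul' := fun F G => by
        apply coch_ext; intro n
        show p.f ((F * G).1.c n) = _
        rw [mul_c', mul_c', map_sum]
        refine Finset.sum_congr rfl fun q _ => ?_
        rw [map_mul, p.comm] }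
  comm_d F := by
    apply coch_ext; intro n
    cases n with
    | zero => exact map_zero p.f
    | succ n => exact map_d p n _
  comm_τ F := by
    apply coch_ext; intro n
    show p.f ((-1) ^ n * _) = (-1) ^ n * p.f _
    simp

@[simp] lemma CHom.D_c {A : Cos R} {B : Cos S} [CharP R 3] [CharP S 3] (p : CHom A B)
    (F : ↥(Coch A)) (n : ℕ) : (p.D.f F).1.c n = p.f (F.1.c n) := rfl

/-- the induced map on even cohomology -/
noncomputable def CHom.H {A : Cos R} {B : Cos S} [CharP R 3] [CharP S 3] (p : CHom A B) :
    Hev A →+* Hev B := p.D.H

/-- homogeneous classes of even degree `n` -/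
def IsHom (A : Cos R) [CharP R 3] (n : ℕ) (h : Hev A) : Prop :=
  Even n ∧ ∃ f, Coc A n f ∧ h = cls A n f

end P0N
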