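import Pool.Agent.H34.P0.Defs

/-!
# Differential graded algebras, even cohomology, total complexes (abstract part)
-/

set_option autoImplicit false

namespace P0N

open Finset

/-! ### abstract DG rings in characteristic three -/

/-- a differential (super)ring of characteristic three whose even cocycles are central up to
boundaries -/
structure DGA (C : Type) [Ring C] where
  /-- the differential -/
  d : C →+ C
  /-- the grading involution -/
  τ : C →+* C
  d_d : ∀ a, d (d a) = 0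
  leib : ∀ a b, d (a * b) = d a * b + τ a * d b
  τ_τ : ∀ a, τ (τ a) = a
  d_τ : ∀ a, d (τ a) = - τ (d a)
  three : (3 : C) = 0
  central : ∀ a b, τ a = a → d a = 0 → d b = 0 → ∃ e, a * b - b * a = d e

variable {C : Type} [Ring C] {C' : Type} [Ring C']

/-- even cocycles -/
def DGA.Z (G : DGA C) : Subring C where
  carrier := {a | G.τ a = a ∧ G.d a = 0}
  mul_mem' := by
    rintro a b ⟨ha, ha'⟩ ⟨hb, hb'⟩
    refine ⟨by rw [map_mul, ha, hb], ?_⟩
    rw [G.leib, ha', hb', mul_zero, zero_mul, add_zero]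
  one_mem' := by
    refine ⟨map_one _, ?_⟩
    have h := G.leib 1 1
    simp only [mul_one, map_one, one_mul] at h
    exact left_eq_add.1 h
  add_mem' := by
    rintro a b ⟨ha, ha'⟩ ⟨hb, hb'⟩
    exact ⟨by rw [map_add, ha, hb], by rw [map_add, ha', hb', add_zero]⟩
  zero_mem' := ⟨map_zero _, map_zero _⟩
  neg_mem' := by
    rintro a ⟨ha, ha'⟩
    exact ⟨by rw [map_neg, ha], by rw [map_neg, ha', neg_zero]⟩

lemma DGA.mem_Z (G : DGA C) (a : C) : a ∈ G.Z ↔ G.τ a = a ∧ G.d a = 0 := Iff.rfl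

/-- equality up to a boundary, on even cocycles -/
def DGA.con (G : DGA C) : RingCon G.Z where
  r a b := ∃ e, (a : C) - b = G.d e
  iseqv :=
    { refl := fun a => ⟨0, by simp⟩
      symm := fun {a b} ⟨e, he⟩ => ⟨-e, by rw [map_neg, ← he]; abel⟩
      trans := fun {a b c} ⟨e, he⟩ ⟨f, hf⟩ => ⟨e + f, by rw [map_add, ← he, ← hf]; abel⟩ }
  add' := fun {a b c c'} ⟨e, he⟩ ⟨f, hf⟩ => ⟨e + f, by
    rw [map_add, ← he, ← hf]; push_cast; abel⟩
  mul' := fun {a b c c'} ⟨e, he⟩ ⟨f, hf⟩ => by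
    refine ⟨e * c + b * f, ?_⟩
    rw [map_add, G.leib, G.leib, ← he, ← hf, c.2.2, b.2.2, b.2.1]
    push_cast
    noncomm_ring

/-- even cohomology -/
def DGA.H (G : DGA C) : Type := G.con.Quotient

noncomputable instance (G : DGA C) : CommRing G.H :=
  { (inferInstance : Ring G.con.Quotient) with
    mul_comm := by
      intro a b
      induction a using Quotient.inductionOn with
      | _ a =>
      induction b using Quotient.inductionOn with
      | _ b =>
      obtain ⟨e, he⟩ := G.central a b a.2.1 a.2.2 b.2.2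
      exact Quotient.sound ⟨e, by push_cast; exact he⟩ }

/-- the class map on even cocycles -/
noncomputable def DGA.qm (G : DGA C) : G.Z →+* G.H := G.con.mk'

open Classical in
/-- the class of an even cocycle (zero on other elements) -/
noncomputable def DGA.cl (G : DGA C) (a : C) : G.H := if h : a ∈ G.Z then G.qm ⟨a, h⟩ else 0

lemma DGA.cl_of (G : DGA C) {a : C} (h : a ∈ G.Z) : G.cl a = G.qm ⟨a, h⟩ := by
  unfold DGA.cl; rw [dif_pos h]

lemma DGA.cl_eq_iff (G : DGA C) {a b : C} (ha : a ∈ G.Z) (hb : b ∈ G.Z) :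
    G.cl a = G.cl b ↔ ∃ e, a - b = G.d e := by
  rw [G.cl_of ha, G.cl_of hb]
  exact (RingCon.eq _)

lemma DGA.cl_add (G : DGA C) {a b : C} (ha : a ∈ G.Z) (hb : b ∈ G.Z) :
    G.cl (a + b) = G.cl a + G.cl b := by
  rw [G.cl_of ha, G.cl_of hb, G.cl_of (add_mem ha hb), ← map_add]; rfl
lemma DGA.cl_sub (G : DGA C) {a b : C} (ha : a ∈ G.Z) (hb : b ∈ G.Z) :
    G.cl (a - b) = G.cl a - G.cl b := by
  rw [G.cl_of ha, G.cl_of hb, G.cl_of (sub_mem ha hb), ← map_sub]; rfl
lemma DGA.cl_mul (G : DGA C) {a b : C} (ha : a ∈ G.Z) (hb : b ∈ G.Z) :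
    G.cl (a * b) = G.cl a * G.cl b := by
  rw [G.cl_of ha, G.cl_of hb, G.cl_of (mul_mem ha hb), ← map_mul]; rfl
lemma DGA.cl_neg (G : DGA C) {a : C} (ha : a ∈ G.Z) : G.cl (-a) = - G.cl a := by
  rw [G.cl_of ha, G.cl_of (neg_mem ha), ← map_neg]; rfl
lemma DGA.cl_pow (G : DGA C) {a : C} (ha : a ∈ G.Z) (n : ℕ) : G.cl (a ^ n) = G.cl a ^ n := by
  rw [G.cl_of ha, G.cl_of (pow_mem ha n), ← map_pow]; rfl
lemma DGA.cl_one (G : DGA C) : G.cl 1 = 1 := by
  rw [G.cl_of (one_mem _)]; exact map_one _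
lemma DGA.cl_zero (G : DGA C) : G.cl 0 = 0 := by
  rw [G.cl_of (zero_mem _)]; exact map_zero _
lemma DGA.cl_eq_zero_iff (G : DGA C) {a : C} (ha : a ∈ G.Z) :
    G.cl a = 0 ↔ ∃ e, a = G.d e := by
  rw [← G.cl_zero, G.cl_eq_iff ha (zero_mem _)]; simp
lemma DGA.exists_rep (G : DGA C) (h : G.H) : ∃ a, a ∈ G.Z ∧ G.cl a = h := by
  induction h using Quotient.inductionOn with
  | _ a => exact ⟨a, a.2, by rw [G.cl_of a.2]; rfl⟩

/-- a boundary which is even is the boundary of an odd element -/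
lemma DGA.exists_odd (G : DGA C) {a e : C} (ha : G.τ a = a) (he : a = G.d e) :
    ∃ e', G.τ e' = - e' ∧ a = G.d e' := by
  refine ⟨- (e - G.τ e), ?_, ?_⟩
  · rw [map_neg, map_sub, G.τ_τ]; abel
  · rw [map_neg, map_sub, G.d_τ, ← he, ha]
    have h3 : (3 : C) * a = 0 := by rw [G.three, zero_mul]
    have : a + a + a = 0 := by
      have : (3 : C) * a = a + a + a := by noncomm_ring
      rw [← this, h3]
    have h2 : - (a - -a) - a = - (a + a + a) := by abel
    have h4 : - (a - -a) - a = 0 := by rw [h2, this, neg_zero]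
    exact (sub_eq_zero.1 h4).symm

/-- morphisms of DG rings -/
structure DHom (G : DGA C) (G' : DGA C') where
  /-- the ring homomorphism -/
  f : C →+* C'
  comm_d : ∀ a, f (G.d a) = G'.d (f a)
  comm_τ : ∀ a, f (G.τ a) = G'.τ (f a)

lemma DHom.mem_Z {G : DGA C} {G' : DGA C'} (p : DHom G G') {a : C} (ha : a ∈ G.Z) :
    p.f a ∈ G'.Z := ⟨by rw [← p.comm_τ, ha.1], by rw [← p.comm_d, ha.2, map_zero]⟩

/-- the induced map on even cohomology -/
noncomputable def DHom.H {G : DGA C} {G' : DGA C'} (p : DHom G G') : G.H →+* G'.H :=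
  RingCon.lift G.con
    (G'.qm.comp ((p.f.comp G.Z.subtype).codRestrict G'.Z fun a => p.mem_Z a.2)) (by
      intro a b ⟨e, he⟩
      have h1 : G'.cl (p.f a) = G'.cl (p.f b) := by
        rw [G'.cl_eq_iff (p.mem_Z a.2) (p.mem_Z b.2)]
        exact ⟨p.f e, by rw [← map_sub, he, p.comm_d]⟩
      rw [G'.cl_of (p.mem_Z a.2), G'.cl_of (p.mem_Z b.2)] at h1
      exact h1)

lemma DHom.H_cl {G : DGA C} {G' : DGA C'} (p : DHom G G') {a : C} (ha : a ∈ G.Z) :
    p.H (G.cl a) = G'.cl (p.f a) := by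
  rw [G.cl_of ha, G'.cl_of (p.mem_Z ha)]; rfl

/-! ### total complexes for the periodic resolution -/

variable {M : Type} [AddCommGroup M]

/-- the total differential on `n`-tuples: `(-1)^i d v_i + D v_{i-1}` for `i` odd,
`(-1)^i d v_i + D (D v_{i-1})` for `i ≥ 2` even -/
def tld (n : ℕ) (dM D : M →+ M) : (Fin n → M) →+ (Fin n → M) where
  toFun v i := ((-1 : ℤ) ^ (i : ℕ)) • dM (v i) +
    (if _h : (i : ℕ) = 0 then 0
      else if Odd (i : ℕ) then D (v ⟨i - 1, by omega⟩) else D (D (v ⟨i - 1, by omega⟩)))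
  map_zero' := by
    funext i
    simp
  map_add' v w := by
    funext i
    simp only [Pi.add_apply, map_add, smul_add]
    split_ifs <;> abel

/-- `u` in position zero -/
def iot (n : ℕ) (u : M) : Fin n → M := fun i => if (i : ℕ) = 0 then u else 0

/-- solvability of `D_tot w = iota u` in the `K`-fold iterated total complex, with all components
of `w` in `S` -/
def Solv (n : ℕ) : ℕ → ∀ (M : Type) [AddCommGroup M],
    (M →+ M) → (ℕ → M →+ M) → AddSubgroup M → M → Prop
  | 0, _, _, dM, _, S, u => ∃ w ∈ S, dM w = u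
  | K + 1, M, _, dM, D, S, u =>
      Solv n K (Fin n → M) (tld n dM (D 0)) (fun s => (D (s + 1)).compLeft (Fin n))
        (AddSubgroup.pi Set.univ fun _ => S) (iot n u)

/-- the family `D` consists of commuting chain maps with cube zero -/
structure Ops (dM : M →+ M) (D : ℕ → M →+ M) : Prop where
  comm_d : ∀ s v, D s (dM v) = dM (D s v)
  cube : ∀ s v, D s (D s (D s v)) = 0
  comm : ∀ s t v, D s (D t v) = D t (D s v)

end P0N
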