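import Pool.Agent.H34.P0.DD
import Pool.Agent.H34.P0.Dga

/-!
# The differential and the involution on the ring of cochains
-/

set_option autoImplicit false

namespace P0N

open Finset

variable {R : Type} [CommRing R] {S : Type} [CommRing S]

/-- the differential on sequences -/
def dS (A : Cos R) : Sk A →+ Sk A where
  toFun F := ⟨fun n => match n with
    | 0 => (0 : R)
    | n + 1 => d A n (F.c n)⟩
  map_zero' := by
    ext n
    cases n with
    | zero => rfl
    | succ n => exact map_zero (d A n)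
  map_add' F G := by
    ext n
    cases n with
    | zero => exact (add_zero (0 : R)).symm
    | succ n => exact map_add (d A n) (F.c n) (G.c n)

@[simp] lemma dS_zero (A : Cos R) (F : Sk A) : (dS A F).c 0 = 0 := rfl
@[simp] lemma dS_succ (A : Cos R) (F : Sk A) (n : ℕ) : (dS A F).c (n + 1) = d A n (F.c n) := rfl

/-- the sign involution on sequences -/
def tauS (A : Cos R) : Sk A →+* Sk A where
  toFun F := ⟨fun n => (-1 : R) ^ n * F.c n⟩
  map_zero' := by ext n; exact mul_zero _
  map_add' F G := by ext n; exact mul_add _ _ _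
  map_one' := by
    ext n
    show (-1 : R) ^ n * (1 : Sk A).c n = _
    rw [Sk.one_c]
    split_ifs with h
    · rw [h]; simp
    · simp
  map_mul' F G := by
    ext n
    show (-1 : R) ^ n * (F * G).c n = _
    rw [Sk.mul_c, Sk.mul_c, Finset.mul_sum]
    refine Finset.sum_congr rfl fun p hp => ?_
    have h : p.1 + p.2 = n := mem_ad.1 hp
    show _ = ((-1 : R) ^ p.1 * F.c p.1) * A.act (sh p.1) ((-1 : R) ^ p.2 * G.c p.2)
    rw [map_mul, map_pow, map_neg, map_one, ← h, pow_add]
    ring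

@[simp] lemma tauS_c (A : Cos R) (F : Sk A) (n : ℕ) : (tauS A F).c n = (-1) ^ n * F.c n := rfl

lemma mem_Coch (A : Cos R) (F : Sk A) : F ∈ Coch A ↔ ∀ n, Supp A n (F.c n) := Iff.rfl

lemma dS_mem (A : Cos R) {F : Sk A} (hF : F ∈ Coch A) : dS A F ∈ Coch A := by
  intro n
  cases n with
  | zero => exact Supp.zero _ _
  | succ n => rw [dS_succ]; exact (hF n).d

lemma tauS_mem (A : Cos R) {F : Sk A} (hF : F ∈ Coch A) : tauS A F ∈ Coch A := by
  intro n
  rw [tauS_c]
  exact ((Supp.one A n).neg.pow n).mul (hF n)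

/-- the differential on cochains -/
def dC (A : Cos R) : ↥(Coch A) →+ ↥(Coch A) where
  toFun F := ⟨dS A F.1, dS_mem A F.2⟩
  map_zero' := Subtype.ext (map_zero (dS A))
  map_add' F G := Subtype.ext (map_add (dS A) F.1 G.1)

/-- the sign involution on cochains -/
def tauC (A : Cos R) : ↥(Coch A) →+* ↥(Coch A) :=
  ((tauS A).comp (Coch A).subtype).codRestrict (Coch A) fun F => tauS_mem A F.2

@[simp] lemma dC_zero (A : Cos R) (F : ↥(Coch A)) : (dC A F).1.c 0 = 0 := rfl
@[simp] lemma dC_succ (A : Cos R) (F : ↥(Coch A)) (n : ℕ) :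
    (dC A F).1.c (n + 1) = d A n (F.1.c n) := rfl
@[simp] lemma tauC_c (A : Cos R) (F : ↥(Coch A)) (n : ℕ) :
    (tauC A F).1.c n = (-1) ^ n * F.1.c n := rfl
lemma mul_c' (A : Cos R) (F G : ↥(Coch A)) (n : ℕ) :
    (F * G).1.c n = ∑ p ∈ antidiagonal n, F.1.c p.1 * A.act (sh p.1) (G.1.c p.2) := rfl
lemma one_c' (A : Cos R) (n : ℕ) : (1 : ↥(Coch A)).1.c n = if n = 0 then 1 else 0 := rfl
@[simp] lemma add_c' (A : Cos R) (F G : ↥(Coch A)) (n : ℕ) :
    (F + G).1.c n = F.1.c n + G.1.c n := rfl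
@[simp] lemma sub_c' (A : Cos R) (F G : ↥(Coch A)) (n : ℕ) :
    (F - G).1.c n = F.1.c n - G.1.c n := rfl
@[simp] lemma neg_c' (A : Cos R) (F : ↥(Coch A)) (n : ℕ) : (-F).1.c n = - F.1.c n := rfl
@[simp] lemma zero_c' (A : Cos R) (n : ℕ) : (0 : ↥(Coch A)).1.c n = 0 := rfl

lemma coch_ext {A : Cos R} {F G : ↥(Coch A)} (h : ∀ n, F.1.c n = G.1.c n) : F = G :=
  Subtype.ext (Sk.ext (funext h))

lemma dC_leib (A : Cos R) (F G : ↥(Coch A)) :
    dC A (F * G) = dC A F * G + tauC A F * dC A G := by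
  apply coch_ext
  intro n
  cases n with
  | zero =>
    rw [add_c', mul_c', mul_c']
    simp
  | succ n =>
    rw [add_c', mul_c', mul_c', dC_succ, mul_c']
    rw [Finset.Nat.antidiagonal_succ, Finset.sum_cons, Finset.sum_map,
      ← Finset.Nat.antidiagonal_succ, Finset.Nat.antidiagonal_succ', Finset.sum_cons,
      Finset.sum_map]
    simp only [dC_zero, zero_mul, zero_add, map_zero, mul_zero, tauC_c,
      Function.Embedding.prodMap, Function.Embedding.coeFn_mk, Prod.map_fst, Prod.map_snd,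
      Function.Embedding.refl_apply, Nat.succ_eq_add_one, dC_succ]
    rw [map_sum, ← Finset.sum_add_distrib]
    refine Finset.sum_congr rfl fun p hp => ?_
    have h : p.1 + p.2 = n := mem_ad.1 hp
    have := d_cup A p.1 p.2 (F.1.c p.1) (G.1.c p.2) (F.2 p.1)
    rw [h] at this
    rw [show F.1.c p.1 * A.act (sh p.1) (G.1.c p.2) = cup A p.1 _ _ from rfl, this]
    simp only [cup]
    ring

end P0N
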