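import Pool.Agent.H34.P0.Defs

/-!
# d∘d = 0 and the Leibniz rule
-/

set_option autoImplicit false

namespace P0N

open Finset

variable {R : Type} [CommRing R]

/-- the simplicial identity -/
theorem DD_face (A : Cos R) {i j : ℕ} (h : i < j) (f : R) :
    A.act (face j) (A.act (face i) f) = A.act (face i) (A.act (face (j - 1)) f) := by
  rw [← A.act_comp, ← A.act_comp]
  congr 2
  ext k
  show face j (face i k) = face i (face (j - 1) k)
  simp only [face_apply]
  split_ifs <;> omega

/-- simplicial identities: holds for every `f` (no support hypothesis) -/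
theorem d_d (A : Cos R) (n : ℕ) (f : R) : d A (n + 1) (d A n f) = 0 := by
  have e : d A (n + 1) (d A n f) = ∑ p ∈ range (n + 3) ×ˢ range (n + 2),
      (-1) ^ p.1 * ((-1) ^ p.2 * A.act (face p.1) (A.act (face p.2) f)) := by
    rw [d_apply, Finset.sum_product]
    refine Finset.sum_congr rfl fun j _ => ?_
    rw [d_apply, map_sum, Finset.mul_sum]
    refine Finset.sum_congr rfl fun i _ => ?_
    simp
  rw [e]
  refine Finset.sum_involution
    (fun p _ => if p.2 < p.1 then (p.2, p.1 - 1) else (p.2 + 1, p.1)) ?_ ?_ ?_ ?_
  · rintro ⟨j, i⟩ _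
    by_cases h : i < j
    · simp only [if_pos h]
      rw [DD_face A h]
      obtain ⟨k, rfl⟩ : ∃ k, j = k + 1 := ⟨j - 1, by omega⟩
      simp only [Nat.add_sub_cancel]
      ring
    · simp only [if_neg h]
      rw [DD_face A (show j < i + 1 by omega)]
      simp only [Nat.add_sub_cancel]
      ring
  · rintro ⟨j, i⟩ _ _ heq
    by_cases h : i < j
    · simp only [if_pos h, Prod.mk.injEq] at heq
      omega
    · simp only [if_neg h, Prod.mk.injEq] at heq
      omega
  · rintro ⟨j, i⟩ hp
    simp only [mem_product, mem_range] at hp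
    by_cases h : i < j
    · simp only [if_pos h, mem_product, mem_range]
      omega
    · simp only [if_neg h, mem_product, mem_range]
      omega
  · rintro ⟨j, i⟩ _
    by_cases h : i < j
    · simp only [if_pos h]
      rw [if_neg (by omega), Prod.mk.injEq]
      omega
    · simp only [if_neg h]
      rw [if_pos (by omega), Prod.mk.injEq]
      omega

/-- Leibniz rule (only the support of the left factor matters) -/
theorem d_cup (A : Cos R) (m n : ℕ) (f g : R) (hf : Supp A m f) :
    d A (m + n) (cup A m f g) =
      cup A (m + 1) (d A m f) g + (-1) ^ m * cup A m f (d A n g) := by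
  have h1 : ∀ i ∈ range (m + 1), (-1) ^ i * A.act (face i) (cup A m f g) =
      (-1) ^ i * A.act (face i) f * A.act (sh (m + 1)) g := by
    intro i hi
    rw [mem_range] at hi
    unfold cup
    rw [map_mul, mul_assoc]
    congr 2
    rw [← A.act_comp]
    congr 2
    ext k
    show face i (sh m k) = sh (m + 1) k
    simp only [face_apply, sh_apply]
    rw [if_neg (by omega)]
    omega
  have h2 : ∀ k ∈ range (n + 1), (-1) ^ (m + 1 + k) * A.act (face (m + 1 + k)) (cup A m f g) =
      (-1) ^ m * f * ((-1) ^ (k + 1) * A.act (sh m) (A.act (face (k + 1)) g)) := by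
    intro k _
    unfold cup
    rw [map_mul, hf.act_eq (face (m + 1 + k)) (fun i hi => by
      rw [face_apply, if_pos (by omega)])]
    have : A.act (face (m + 1 + k)) (A.act (sh m) g) = A.act (sh m) (A.act (face (k + 1)) g) := by
      rw [← A.act_comp, ← A.act_comp]
      congr 2
      ext l
      show face (m + 1 + k) (sh m l) = sh m (face (k + 1) l)
      simp only [face_apply, sh_apply]
      split_ifs <;> omega
    rw [this]
    ring
  have h3 : A.act (sh m) (A.act (face 0) g) = A.act (sh (m + 1)) g := by
    rw [← A.act_comp]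
    congr 2
    ext l
    show sh m (face 0 l) = sh (m + 1) l
    simp only [face_apply, sh_apply]
    rw [if_neg (by omega)]
    omega
  have h4 : A.act (face (m + 1)) f = f :=
    hf.act_eq (face (m + 1)) (fun i hi => by rw [face_apply, if_pos (by omega)])
  rw [d_apply, show m + n + 2 = (m + 1) + (n + 1) by ring, Finset.sum_range_add,
    Finset.sum_congr rfl h1, Finset.sum_congr rfl h2]
  unfold cup
  rw [d_apply, d_apply, Finset.sum_range_succ _ (m + 1), h4, map_sum,
    Finset.sum_range_succ' _ (n + 1)]
  simp only [map_mul, map_pow, map_neg, map_one, pow_zero, one_mul]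
  rw [h3, ← Finset.sum_mul, ← Finset.mul_sum]
  ring

end P0N
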