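import Mathlib

/-!
# Cosimplicial rings through monotone maps of ℕ, cochains, cup products

A `Cos R` is a commutative ring `R` with an action of the monoid of monotone maps ℕ → ℕ by ring
endomorphisms.  An element `f` is a cochain of degree `n` if it depends only on the vertices
`0, ..., n` (`Supp`).
-/

set_option autoImplicit false

namespace P0N

open Finset

/-! ### monotone maps -/

/-- `j ↦ j + m` -/
def sh (m : ℕ) : ℕ →o ℕ := ⟨fun j => j + m, fun _ _ h => Nat.add_le_add_right h m⟩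

/-- skip the vertex `i` -/
def face (i : ℕ) : ℕ →o ℕ := ⟨fun j => if j < i then j else j + 1, by
  intro a b h
  show (if a < i then a else a + 1) ≤ (if b < i then b else b + 1)
  split_ifs <;> omega⟩

/-- repeat the vertex `j` -/
def dg (j : ℕ) : ℕ →o ℕ := ⟨fun i => if i ≤ j then i else i - 1, by
  intro a b h
  show (if a ≤ j then a else a - 1) ≤ (if b ≤ j then b else b - 1)
  split_ifs <;> omega⟩

/-- the vertices `0, ..., i, i + n, i + n + 1, ...` -/
def jump (i n : ℕ) : ℕ →o ℕ := ⟨fun j => if j ≤ i then j else j + n - 1, by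
  intro a b h
  show (if a ≤ i then a else a + n - 1) ≤ (if b ≤ i then b else b + n - 1)
  split_ifs <;> omega⟩

/-- the edge from `i` to `j` (for `i ≤ j`): `0 ↦ i`, `k ↦ max i j` for `k ≥ 1` -/
def edge (i j : ℕ) : ℕ →o ℕ := ⟨fun k => if k = 0 then i else max i j, by
  intro a b h
  show (if a = 0 then i else max i j) ≤ (if b = 0 then i else max i j)
  split_ifs <;> omega⟩

@[simp] lemma sh_apply (m j : ℕ) : sh m j = j + m := rfl
@[simp] lemma face_apply (i j : ℕ) : face i j = if j < i then j else j + 1 := rfl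
@[simp] lemma dg_apply (j i : ℕ) : dg j i = if i ≤ j then i else i - 1 := rfl
@[simp] lemma jump_apply (i n j : ℕ) : jump i n j = if j ≤ i then j else j + n - 1 := rfl
@[simp] lemma edge_apply (i j k : ℕ) : edge i j k = if k = 0 then i else max i j := rfl

/-! ### cosimplicial rings -/

/-- a commutative ring with an action of the monotone maps ℕ → ℕ -/
structure Cos (R : Type) [CommRing R] where
  /-- the action -/
  act : (ℕ →o ℕ) → R →+* R
  act_id : ∀ f, act OrderHom.id f = f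
  act_comp : ∀ a b f, act (a.comp b) f = act a (act b f)

variable {R : Type} [CommRing R] {S : Type} [CommRing S] {T : Type} [CommRing T]

/-- `f` depends only on the vertices `0, ..., n` -/
def Supp (A : Cos R) (n : ℕ) (f : R) : Prop :=
  ∀ a b : ℕ →o ℕ, (∀ i ≤ n, a i = b i) → A.act a f = A.act b f

/-- the differential on `n`-cochains -/
def d (A : Cos R) (n : ℕ) : R →+ R :=
  ∑ i ∈ range (n + 2), ((-1 : ℤ) ^ i) • (A.act (face i)).toAddMonoidHom

lemma d_apply (A : Cos R) (n : ℕ) (f : R) :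
    d A n f = ∑ i ∈ range (n + 2), (-1) ^ i * A.act (face i) f := by
  unfold d
  rw [AddMonoidHom.finsetSum_apply]
  refine Finset.sum_congr rfl fun i _ => ?_
  simp [AddMonoidHom.smul_apply, zsmul_eq_mul]

/-- the cup product of an `m`-cochain `f` with `g` -/
def cup (A : Cos R) (m : ℕ) (f g : R) : R := f * A.act (sh m) g

/-- Steenrod's cup-1 product of an `m`-cochain `f` with an `n`-cochain `g` -/
def cup1 (A : Cos R) (m n : ℕ) (f g : R) : R :=
  ∑ i ∈ range m, (-1) ^ ((m - i) * (n + 1)) * (A.act (jump i n) f * A.act (sh i) g)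

/-- `f` is an `n`-cocycle -/
def Coc (A : Cos R) (n : ℕ) (f : R) : Prop := Supp A n f ∧ d A n f = 0

/-- morphisms of cosimplicial rings -/
structure CHom (A : Cos R) (B : Cos S) where
  /-- the underlying ring homomorphism -/
  f : R →+* S
  comm : ∀ a r, f (A.act a r) = B.act a (f r)

/-- identity -/
def CHom.id (A : Cos R) : CHom A A := ⟨RingHom.id R, fun _ _ => rfl⟩

/-- composition: first `p`, then `q` -/
def CHom.comp {A : Cos R} {B : Cos S} {E : Cos T} (q : CHom B E) (p : CHom A B) : CHom A E :=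
  ⟨q.f.comp p.f, fun a r => by simp [p.comm, q.comm]⟩

/-- Frobenius -/
def frob (A : Cos R) [CharP R 3] : CHom A A :=
  haveI : Fact (Nat.Prime 3) := ⟨Nat.prime_three⟩
  ⟨frobenius R 3, fun a r => by simp [frobenius_def]⟩

lemma frob_f (A : Cos R) [CharP R 3] (r : R) : (frob A).f r = r ^ 3 := rfl

/-! ### elementary facts on supports -/

lemma Supp.zero (A : Cos R) (n : ℕ) : Supp A n 0 := fun a b _ => by simp
lemma Supp.one (A : Cos R) (n : ℕ) : Supp A n 1 := fun a b _ => by simp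
lemma Supp.add {A : Cos R} {n : ℕ} {f g : R} (hf : Supp A n f) (hg : Supp A n g) :
    Supp A n (f + g) := fun a b h => by simp [hf a b h, hg a b h]
lemma Supp.sub {A : Cos R} {n : ℕ} {f g : R} (hf : Supp A n f) (hg : Supp A n g) :
    Supp A n (f - g) := fun a b h => by simp [hf a b h, hg a b h]
lemma Supp.neg {A : Cos R} {n : ℕ} {f : R} (hf : Supp A n f) : Supp A n (-f) :=
  fun a b h => by simp [hf a b h]
lemma Supp.mul {A : Cos R} {n : ℕ} {f g : R} (hf : Supp A n f) (hg : Supp A n g) :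
    Supp A n (f * g) := fun a b h => by simp [hf a b h, hg a b h]
lemma Supp.pow {A : Cos R} {n : ℕ} {f : R} (hf : Supp A n f) (k : ℕ) :
    Supp A n (f ^ k) := fun a b h => by simp [hf a b h]
lemma Supp.sum {A : Cos R} {n : ℕ} {ι : Type*} {s : Finset ι} {f : ι → R}
    (hf : ∀ i ∈ s, Supp A n (f i)) : Supp A n (∑ i ∈ s, f i) := fun a b h => by
  rw [map_sum, map_sum]
  exact Finset.sum_congr rfl fun i hi => hf i hi a b h
lemma Supp.mono {A : Cos R} {m n : ℕ} {f : R} (hf : Supp A m f) (h : m ≤ n) : Supp A n f :=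
  fun a b hab => hf a b fun i hi => hab i (hi.trans h)
lemma Supp.act {A : Cos R} {m n : ℕ} {f : R} (hf : Supp A m f) (c : ℕ →o ℕ)
    (h : ∀ i ≤ m, c i ≤ n) : Supp A n (A.act c f) := fun a b hab => by
  rw [← A.act_comp, ← A.act_comp]
  exact hf _ _ fun i hi => hab _ (h i hi)
lemma Supp.act_eq {A : Cos R} {m : ℕ} {f : R} (hf : Supp A m f) (c : ℕ →o ℕ)
    (h : ∀ i ≤ m, c i = i) : A.act c f = f := by
  have := hf c OrderHom.id h
  rw [this, A.act_id]
lemma Supp.act_congr {A : Cos R} {m : ℕ} {f : R} (hf : Supp A m f) {a b : ℕ →o ℕ}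
    (h : ∀ i ≤ m, a i = b i) : A.act a f = A.act b f := hf a b h
lemma Supp.map {A : Cos R} {B : Cos S} (p : CHom A B) {n : ℕ} {f : R} (hf : Supp A n f) :
    Supp B n (p.f f) := fun a b h => by rw [← p.comm, ← p.comm, hf a b h]
lemma Supp.d {A : Cos R} {n : ℕ} {f : R} (hf : Supp A n f) : Supp A (n + 1) (d A n f) := by
  rw [d_apply]
  refine Supp.sum fun i _ => ?_
  refine Supp.mul (Supp.pow (Supp.neg (Supp.one _ _)) _) (hf.act _ ?_)
  intro j hj
  rw [face_apply]
  split_ifs <;> omega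
lemma Supp.cup {A : Cos R} {m n : ℕ} {f g : R} (hf : Supp A m f) (hg : Supp A n g) :
    Supp A (m + n) (cup A m f g) :=
  Supp.mul (hf.mono (by omega)) (hg.act _ fun i hi => by rw [sh_apply]; omega)

lemma map_d {A : Cos R} {B : Cos S} (p : CHom A B) (n : ℕ) (f : R) :
    p.f (d A n f) = d B n (p.f f) := by
  rw [d_apply, d_apply, map_sum]
  exact Finset.sum_congr rfl fun i _ => by simp [p.comm]
lemma map_cup {A : Cos R} {B : Cos S} (p : CHom A B) (m : ℕ) (f g : R) :
    p.f (cup A m f g) = cup B m (p.f f) (p.f g) := by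
  simp [cup, p.comm]
lemma map_cup1 {A : Cos R} {B : Cos S} (p : CHom A B) (m n : ℕ) (f g : R) :
    p.f (cup1 A m n f g) = cup1 B m n (p.f f) (p.f g) := by
  simp [cup1, p.comm, map_sum]

/-! ### the ring of all sequences, the subring of cochains -/

/-- sequences of elements, multiplied by the cup product -/
@[ext] structure Sk (A : Cos R) where
  /-- the components -/
  c : ℕ → R

namespace Sk

variable {A : Cos R}

lemma c_inj : Function.Injective (Sk.c : Sk A → ℕ → R) := fun _ _ h => Sk.ext h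

instance : Zero (Sk A) := ⟨⟨0⟩⟩
instance : Add (Sk A) := ⟨fun F G => ⟨F.c + G.c⟩⟩
instance : Neg (Sk A) := ⟨fun F => ⟨-F.c⟩⟩
instance : Sub (Sk A) := ⟨fun F G => ⟨F.c - G.c⟩⟩
instance : SMul ℕ (Sk A) := ⟨fun n F => ⟨n • F.c⟩⟩
instance : SMul ℤ (Sk A) := ⟨fun n F => ⟨n • F.c⟩⟩
instance : AddCommGroup (Sk A) :=
  Function.Injective.addCommGroup Sk.c c_inj rfl (fun _ _ => rfl) (fun _ => rfl) (fun _ _ => rfl)
    (fun _ _ => rfl) (fun _ _ => rfl)
instance : Mul (Sk A) := ⟨fun F G =>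
  ⟨fun n => ∑ p ∈ antidiagonal n, F.c p.1 * A.act (sh p.1) (G.c p.2)⟩⟩
instance : One (Sk A) := ⟨⟨fun n => if n = 0 then 1 else 0⟩⟩

lemma mul_c (F G : Sk A) (n : ℕ) :
    (F * G).c n = ∑ p ∈ antidiagonal n, F.c p.1 * A.act (sh p.1) (G.c p.2) := rfl
lemma one_c (n : ℕ) : (1 : Sk A).c n = if n = 0 then 1 else 0 := rfl
@[simp] lemma add_c (F G : Sk A) (n : ℕ) : (F + G).c n = F.c n + G.c n := rfl
@[simp] lemma zero_c (n : ℕ) : (0 : Sk A).c n = 0 := rfl
@[simp] lemma neg_c (F : Sk A) (n : ℕ) : (-F).c n = - F.c n := rfl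
@[simp] lemma sub_c (F G : Sk A) (n : ℕ) : (F - G).c n = F.c n - G.c n := rfl

end Sk

lemma act_sh_sh (A : Cos R) (i j : ℕ) (f : R) :
    A.act (sh i) (A.act (sh j) f) = A.act (sh (i + j)) f := by
  rw [← A.act_comp]
  congr 2
  ext k
  simp [OrderHom.comp]
  omega

lemma act_sh_zero (A : Cos R) (f : R) : A.act (sh 0) f = f := by
  have h : sh 0 = OrderHom.id := by ext k; simp
  rw [h, A.act_id]

lemma mem_ad {n : ℕ} {p : ℕ × ℕ} : p ∈ antidiagonal n ↔ p.1 + p.2 = n :=
  HasAntidiagonal.mem_antidiagonal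

lemma Sk.mul_assoc' (A : Cos R) (F G K : Sk A) : F * G * K = F * (G * K) := by
  ext n
  rw [Sk.mul_c, Sk.mul_c]
  simp only [Sk.mul_c, map_sum, map_mul, Finset.sum_mul, Finset.mul_sum, act_sh_sh]
  rw [Finset.sum_sigma', Finset.sum_sigma']
  refine Finset.sum_nbij' (fun ⟨⟨_i, j⟩, ⟨k, l⟩⟩ ↦ ⟨(k, l + j), (l, j)⟩)
    (fun ⟨⟨i, _j⟩, ⟨k, l⟩⟩ ↦ ⟨(i + k, l), (i, k)⟩) ?_ ?_ ?_ ?_ ?_
  · rintro ⟨⟨i, j⟩, ⟨k, l⟩⟩ h
    simp only [mem_sigma, mem_ad] at h ⊢
    obtain ⟨h1, h2⟩ := h
    constructor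
    · omega
    · trivial
  · rintro ⟨⟨i, j⟩, ⟨k, l⟩⟩ h
    simp only [mem_sigma, mem_ad] at h ⊢
    obtain ⟨h1, h2⟩ := h
    constructor
    · omega
    · trivial
  · rintro ⟨⟨i, j⟩, ⟨k, l⟩⟩ h
    simp only [mem_sigma, mem_ad] at h ⊢
    obtain ⟨rfl, rfl⟩ := h
    rfl
  · rintro ⟨⟨i, j⟩, ⟨k, l⟩⟩ h
    simp only [mem_sigma, mem_ad] at h ⊢
    obtain ⟨rfl, rfl⟩ := h
    rfl
  · rintro ⟨⟨i, j⟩, ⟨k, l⟩⟩ h
    simp only [mem_sigma, mem_ad] at h ⊢
    obtain ⟨rfl, rfl⟩ := h
    ring

instance (A : Cos R) : Ring (Sk A) :=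
  { (inferInstance : AddCommGroup (Sk A)), (inferInstance : Mul (Sk A)),
    (inferInstance : One (Sk A)) with
    mul_assoc := Sk.mul_assoc' A
    one_mul := fun F => by
      ext n
      rw [Sk.mul_c, Finset.sum_eq_single (0, n)]
      · simp [Sk.one_c, act_sh_zero]
      · rintro ⟨i, j⟩ h hne
        simp only [mem_ad] at h
        have : i ≠ 0 := by rintro rfl; apply hne; simp; omega
        simp [Sk.one_c, this]
      · intro h; exact absurd (by simp) h
    mul_one := fun F => by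
      ext n
      rw [Sk.mul_c, Finset.sum_eq_single (n, 0)]
      · simp [Sk.one_c]
      · rintro ⟨i, j⟩ h hne
        simp only [mem_ad] at h
        have : j ≠ 0 := by rintro rfl; apply hne; simp; omega
        simp [Sk.one_c, this]
      · intro h; exact absurd (by simp) h
    left_distrib := fun F G K => by
      ext n
      rw [Sk.add_c, Sk.mul_c, Sk.mul_c, Sk.mul_c, ← Finset.sum_add_distrib]
      refine Finset.sum_congr rfl fun p _ => ?_
      rw [Sk.add_c, map_add, mul_add]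
    right_distrib := fun F G K => by
      ext n
      rw [Sk.add_c, Sk.mul_c, Sk.mul_c, Sk.mul_c, ← Finset.sum_add_distrib]
      refine Finset.sum_congr rfl fun p _ => ?_
      rw [Sk.add_c, add_mul]
    zero_mul := fun F => by
      ext n
      simp [Sk.mul_c]
    mul_zero := fun F => by
      ext n
      simp [Sk.mul_c] }

/-- the subring of cochains -/
def Coch (A : Cos R) : Subring (Sk A) where
  carrier := {F | ∀ n, Supp A n (F.c n)}
  mul_mem' := by
    intro F G hF hG n
    rw [Sk.mul_c]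
    refine Supp.sum fun p hp => ?_
    have h : p.1 + p.2 = n := mem_ad.1 hp
    have := Supp.cup (hF p.1) (hG p.2)
    rw [h] at this
    exact this
  one_mem' := by
    intro n
    rw [Sk.one_c]
    split_ifs
    · exact Supp.one _ _
    · exact Supp.zero _ _
  add_mem' := fun hF hG n => (hF n).add (hG n)
  zero_mem' := fun n => Supp.zero _ _
  neg_mem' := fun hF n => (hF n).neg

end P0N
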