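import Pool.Agent.H34.P0.Bc

/-!
# Cochains of the group scheme `alpha_81` and a non-nilpotent class
-/

set_option autoImplicit false

namespace P0N

open Finset

/-- the action on the ring of cochains of the additive group: `t_i ↦ t_{a i} + ... + t_{a(i+1)-1}` -/
noncomputable def actA (a : ℕ →o ℕ) : MvPolynomial ℕ (ZMod 3) →+* MvPolynomial ℕ (ZMod 3) :=
  MvPolynomial.eval₂Hom MvPolynomial.C
    (fun i => ∑ l ∈ Finset.Ico (a i) (a (i + 1)), MvPolynomial.X l)

/-- the ideal `(t_i^81)` -/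
noncomputable def IA : Ideal (MvPolynomial ℕ (ZMod 3)) :=
  Ideal.span (Set.range fun i : ℕ => (MvPolynomial.X i : MvPolynomial ℕ (ZMod 3)) ^ 81)

theorem DET1_actA_X (a : ℕ →o ℕ) (i : ℕ) :
    actA a (MvPolynomial.X i) = ∑ l ∈ Finset.Ico (a i) (a (i + 1)), MvPolynomial.X l := by
  simp [actA]

theorem DET1_actA_C (a : ℕ →o ℕ) (r : ZMod 3) :
    actA a (MvPolynomial.C r) = MvPolynomial.C r := by
  simp [actA]

theorem actA_IA (a : ℕ →o ℕ) : IA ≤ IA.comap (actA a) := by
  have _ : Fact (Nat.Prime 3) := ⟨Nat.prime_three⟩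
  unfold IA
  rw [Ideal.span_le]
  rintro _ ⟨i, rfl⟩
  rw [SetLike.mem_coe, Ideal.mem_comap, map_pow, DET1_actA_X, show 81 = 3 ^ 4 by norm_num,
    sum_pow_char_pow]
  refine Submodule.sum_mem _ fun l _ => Ideal.subset_span ⟨l, rfl⟩

theorem DET1_mem_IA (f : MvPolynomial ℕ (ZMod 3)) :
    f ∈ IA ↔ ∀ n ∈ f.support, ∃ i, 81 ≤ n i := by
  have e : IA = Ideal.span ((fun s => MvPolynomial.monomial s (1 : ZMod 3)) ''
      (Set.range fun i : ℕ => Finsupp.single i 81)) := by
    unfold IA
    congr 1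
    ext x
    simp only [Set.mem_range, Set.mem_image, exists_exists_eq_and,
      MvPolynomial.X_pow_eq_monomial]
  rw [e, MvPolynomial.mem_ideal_span_monomial_image]
  refine forall₂_congr fun n _ => ?_
  constructor
  · rintro ⟨_, ⟨i, rfl⟩, h⟩
    refine ⟨i, ?_⟩
    have := h i
    rwa [Finsupp.single_eq_same] at this
  · rintro ⟨i, h⟩
    refine ⟨_, ⟨i, rfl⟩, ?_⟩
    rwa [Finsupp.single_le_iff]

theorem DET1_coeff_IA {f : MvPolynomial ℕ (ZMod 3)} (hf : f ∈ IA) {n : ℕ →₀ ℕ}
    (hn : ∀ i, n i < 81) : MvPolynomial.coeff n f = 0 := by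
  by_contra h
  obtain ⟨i, hi⟩ := (DET1_mem_IA f).1 hf n (MvPolynomial.mem_support_iff.2 h)
  exact absurd (hn i) (by omega)

/-- the ring of cochains of `alpha_81` -/
abbrev RA : Type := MvPolynomial ℕ (ZMod 3) ⧸ IA

theorem DET1_nontrivial : Nontrivial RA := by
  apply Ideal.Quotient.nontrivial_iff.2
  intro h
  have h1 : (1 : MvPolynomial ℕ (ZMod 3)) ∈ IA := by rw [h]; trivial
  have := DET1_coeff_IA h1 (n := 0) (fun i => by simp)
  rw [MvPolynomial.coeff_zero_one] at this
  exact one_ne_zero this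

instance RA_charP : CharP RA 3 := by
  have _ := DET1_nontrivial
  rw [CharP.charP_iff_prime_eq_zero Nat.prime_three]
  have h := congrArg (Ideal.Quotient.mk IA) (CharP.cast_eq_zero (MvPolynomial ℕ (ZMod 3)) 3)
  rw [map_natCast, map_zero] at h
  exact h

theorem actA_id (f : MvPolynomial ℕ (ZMod 3)) : actA OrderHom.id f = f := by
  have : actA OrderHom.id = RingHom.id _ := by
    apply MvPolynomial.ringHom_ext
    · intro r; simp [DET1_actA_C]
    · intro i
      rw [DET1_actA_X]
      simp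
  rw [this]; rfl

theorem DET1_sum_Ico (a : ℕ →o ℕ) (p q : ℕ) (h : p ≤ q) :
    ∑ k ∈ Finset.Ico p q, ∑ l ∈ Finset.Ico (a k) (a (k + 1)),
      (MvPolynomial.X l : MvPolynomial ℕ (ZMod 3)) =
      ∑ l ∈ Finset.Ico (a p) (a q), MvPolynomial.X l := by
  induction q, h using Nat.le_induction with
  | base => simp
  | succ q h ih =>
    rw [Finset.sum_Ico_succ_top h, ih,
      Finset.sum_Ico_consecutive _ (a.monotone h) (a.monotone (Nat.le_succ q))]

theorem actA_comp (a b : ℕ →o ℕ) (f : MvPolynomial ℕ (ZMod 3)) :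
    actA (a.comp b) f = actA a (actA b f) := by
  have : actA (a.comp b) = (actA a).comp (actA b) := by
    apply MvPolynomial.ringHom_ext
    · intro r; simp [DET1_actA_C]
    · intro i
      rw [RingHom.comp_apply, DET1_actA_X, DET1_actA_X, map_sum]
      simp only [DET1_actA_X]
      rw [DET1_sum_Ico a _ _ (b.monotone (Nat.le_succ i))]
      rfl
  rw [this]; rfl

/-- the cosimplicial ring of `alpha_81` -/
noncomputable def AA : Cos RA where
  act a := Ideal.quotientMap IA (actA a) (actA_IA a)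
  act_id f := by
    obtain ⟨f, rfl⟩ := Ideal.Quotient.mk_surjective f
    rw [Ideal.quotientMap_mk, actA_id]
  act_comp a b f := by
    obtain ⟨f, rfl⟩ := Ideal.Quotient.mk_surjective f
    rw [Ideal.quotientMap_mk, Ideal.quotientMap_mk, Ideal.quotientMap_mk, actA_comp]

/-- the coordinate -/
noncomputable def tA : RA := Ideal.Quotient.mk IA (MvPolynomial.X 0)

theorem DET1_AA_mk (a : ℕ →o ℕ) (f : MvPolynomial ℕ (ZMod 3)) :
    AA.act a (Ideal.Quotient.mk IA f) = Ideal.Quotient.mk IA (actA a f) := rfl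

theorem tA_pow : tA ^ 81 = 0 := by
  unfold tA
  rw [← map_pow, Ideal.Quotient.eq_zero_iff_mem]
  exact Ideal.subset_span ⟨0, rfl⟩

theorem DET1_supp : Supp AA 1 tA := by
  intro a b h
  unfold tA
  rw [DET1_AA_mk, DET1_AA_mk, DET1_actA_X, DET1_actA_X, h 0 (by omega), h (0 + 1) (by omega)]

theorem DET1_sh (k i : ℕ) : actA (sh k) (MvPolynomial.X i) = MvPolynomial.X (i + k) := by
  rw [DET1_actA_X, sh_apply, sh_apply, show i + 1 + k = (i + k) + 1 by ring]
  simp

theorem tA_coc : Coc AA 1 tA := by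
  refine ⟨DET1_supp, ?_⟩
  rw [BC_d1 DET1_supp]
  unfold tA
  rw [DET1_AA_mk, DET1_AA_mk, DET1_sh, DET1_actA_X]
  have h0 : face 1 0 = 0 := rfl
  have h1 : face 1 (0 + 1) = 2 := rfl
  rw [h0, h1, show Finset.Ico 0 2 = {0, 1} by rfl, Finset.sum_pair (by norm_num), map_add]
  ring

/-- exponents `27, 54` -/
noncomputable def DET1_nu (k : ℕ) : ℕ →₀ ℕ :=
  Finsupp.single (2 * k) 27 + Finsupp.single (2 * k + 1) 54
/-- exponents `54, 27` -/
noncomputable def DET1_nu' (k : ℕ) : ℕ →₀ ℕ :=
  Finsupp.single (2 * k) 54 + Finsupp.single (2 * k + 1) 27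
/-- the exponent `27, 54, 27, 54, ...` -/
noncomputable def DET1_mu : ℕ → (ℕ →₀ ℕ)
  | 0 => 0
  | k + 1 => DET1_mu k + DET1_nu k
/-- the polynomial representing the cup powers -/
noncomputable def DET1_G : ℕ → MvPolynomial ℕ (ZMod 3)
  | 0 => 1
  | k + 1 => DET1_G k * (MvPolynomial.monomial (DET1_nu k) 1 +
      MvPolynomial.monomial (DET1_nu' k) 1)

theorem DET1_mu_apply (k i : ℕ) :
    DET1_mu k i = if i < 2 * k then (if i % 2 = 0 then 27 else 54) else 0 := by
  induction k with
  | zero => simp [DET1_mu]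
  | succ k ih =>
    rw [DET1_mu, Finsupp.add_apply, ih, DET1_nu, Finsupp.add_apply, Finsupp.single_apply,
      Finsupp.single_apply]
    split_ifs <;> omega

theorem DET1_coeff_G (k : ℕ) : MvPolynomial.coeff (DET1_mu k) (DET1_G k) = 1 := by
  induction k with
  | zero => simp [DET1_mu, DET1_G]
  | succ k ih =>
    rw [DET1_mu, DET1_G, mul_add, MvPolynomial.coeff_add, MvPolynomial.coeff_mul_monomial, ih,
      MvPolynomial.coeff_mul_monomial', if_neg, add_zero, one_mul]
    intro h
    have h2 := h (2 * k)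
    rw [Finsupp.add_apply, DET1_mu_apply, DET1_nu, DET1_nu', Finsupp.add_apply,
      Finsupp.add_apply, Finsupp.single_apply, Finsupp.single_apply, Finsupp.single_apply,
      Finsupp.single_apply] at h2
    split_ifs at h2 <;> omega

theorem DET1_mono (k : ℕ) (a b : ℕ) :
    MvPolynomial.monomial (Finsupp.single (2 * k) a + Finsupp.single (2 * k + 1) b)
      (1 : ZMod 3) = MvPolynomial.X (2 * k) ^ a * MvPolynomial.X (2 * k + 1) ^ b := by
  rw [MvPolynomial.X_pow_eq_monomial, MvPolynomial.X_pow_eq_monomial,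
    MvPolynomial.monomial_mul, one_mul]

theorem DET1_bR (k : ℕ) : AA.act (sh (2 * k)) (bR AA (tA ^ 27)) =
    Ideal.Quotient.mk IA (MvPolynomial.monomial (DET1_nu k) 1 +
      MvPolynomial.monomial (DET1_nu' k) 1) := by
  unfold bR tA DET1_nu DET1_nu'
  rw [DET1_mono, DET1_mono]
  simp only [map_add, map_mul, map_pow, DET1_AA_mk, DET1_sh]
  rw [show 0 + 2 * k = 2 * k by ring, show 0 + 1 + 2 * k = 2 * k + 1 by ring]
  ring

theorem DET1_pow (k : ℕ) : Coc AA (2 * k) (Ideal.Quotient.mk IA (DET1_G k)) ∧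
    cls AA (2 * k) (Ideal.Quotient.mk IA (DET1_G k)) = bc AA (tA ^ 27) ^ k := by
  have hb : Coc AA 2 (bR AA (tA ^ 27)) := bR_coc (tA_coc.pow3 3)
  induction k with
  | zero =>
    rw [DET1_G, map_one, mul_zero, pow_zero]
    exact ⟨Coc.one AA, cls_one AA⟩
  | succ k ih =>
    have e : Ideal.Quotient.mk IA (DET1_G (k + 1)) =
        cup AA (2 * k) (Ideal.Quotient.mk IA (DET1_G k)) (bR AA (tA ^ 27)) := by
      unfold cup
      rw [DET1_bR, DET1_G, map_mul]
    rw [e, Nat.mul_succ, pow_succ (bc AA (tA ^ 27)) k]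
    refine ⟨ih.1.cup hb, ?_⟩
    rw [cls_mul (even_two_mul k) even_two ih.1 hb, ih.2]
    rfl

theorem DET1_weight (a : ℕ →o ℕ) (w v : ℕ → ℕ)
    (h : ∀ i, ∀ l ∈ Finset.Ico (a i) (a (i + 1)), w l = v i) (n : ℕ →₀ ℕ) (r : ZMod 3) :
    MvPolynomial.IsWeightedHomogeneous w (actA a (MvPolynomial.monomial n r))
      (Finsupp.weight v n) := by
  unfold actA
  rw [MvPolynomial.eval₂Hom_monomial, Finsupp.weight_apply]
  have h1 : MvPolynomial.IsWeightedHomogeneous w (MvPolynomial.C r : MvPolynomial ℕ (ZMod 3)) 0 :=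
    MvPolynomial.isWeightedHomogeneous_C w r
  have h2 : MvPolynomial.IsWeightedHomogeneous w (n.prod fun i k =>
      (∑ l ∈ Finset.Ico (a i) (a (i + 1)), (MvPolynomial.X l : MvPolynomial ℕ (ZMod 3))) ^ k)
      (n.sum fun i c => c • v i) := by
    unfold Finsupp.prod Finsupp.sum
    refine MvPolynomial.IsWeightedHomogeneous.prod _ _ _ fun i _ => ?_
    refine MvPolynomial.IsWeightedHomogeneous.pow ?_ _
    refine MvPolynomial.IsWeightedHomogeneous.sum _ _ _ fun l hl => ?_
    rw [← h i l hl]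
    exact MvPolynomial.isWeightedHomogeneous_X _ _ _
  have h3 := h1.mul h2
  rw [zero_add] at h3
  exact h3

/-- the coefficient of `mu` in the image of `g` -/
theorem DET1_coeff (a : ℕ →o ℕ) (w v : ℕ → ℕ)
    (h : ∀ i, ∀ l ∈ Finset.Ico (a i) (a (i + 1)), w l = v i) (mu : ℕ →₀ ℕ)
    (hmu : ∀ i, mu i < 81)
    (hw : ∀ n : ℕ →₀ ℕ, Finsupp.weight w mu = Finsupp.weight v n → ∃ i, 81 ≤ n i)
    (g : MvPolynomial ℕ (ZMod 3)) : MvPolynomial.coeff mu (actA a g) = 0 := by
  rw [g.as_sum, map_sum, MvPolynomial.coeff_sum]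
  refine Finset.sum_eq_zero fun n _ => ?_
  by_cases hn : Finsupp.weight w mu = Finsupp.weight v n
  · refine DET1_coeff_IA (actA_IA a ?_) hmu
    rw [DET1_mem_IA]
    intro n' hn'
    have := MvPolynomial.support_monomial_subset hn'
    rw [Finset.mem_singleton] at this
    rw [this]
    exact hw n hn
  · exact (DET1_weight a w v h n _).coeff_eq_zero mu hn

theorem DET1_weight_ind (s : Finset ℕ) (n : ℕ →₀ ℕ) :
    Finsupp.weight (fun i => if i ∈ s then 1 else 0) n = ∑ i ∈ s, n i := by
  rw [Finsupp.weight_apply]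
  unfold Finsupp.sum
  have h1 : ∑ i ∈ n.support, n i • (if i ∈ s then 1 else 0) =
      ∑ i ∈ n.support ∩ s, n i := by
    rw [← Finset.filter_mem_eq_inter, Finset.sum_filter]
    refine Finset.sum_congr rfl fun i _ => ?_
    split_ifs <;> simp
  rw [h1]
  refine Finset.sum_subset Finset.inter_subset_right fun i hi hi' => ?_
  by_contra h0
  exact hi' (Finset.mem_inter.2 ⟨Finsupp.mem_support_iff.2 h0, hi⟩)

/-- `b(t^27)` is not nilpotent -/
theorem not_nil_bA : ¬ IsNilpotent (bc AA (tA ^ 27)) := by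
  rintro ⟨k, hk⟩
  have hk' : bc AA (tA ^ 27) ^ (k + 1) = 0 := by rw [pow_succ, hk, zero_mul]
  obtain ⟨h1, h2⟩ := DET1_pow (k + 1)
  rw [hk'] at h2
  rw [Nat.mul_succ] at h1 h2
  obtain ⟨g, hg, hdg⟩ := (cls_eq_zero_iff (n := 2 * k + 1) (even_two_mul (k + 1)) h1).1 h2
  obtain ⟨g0, rfl⟩ := Ideal.Quotient.mk_surjective g
  -- the truncation
  let tr : ℕ →o ℕ := ⟨fun i => min i (2 * k + 1), fun a b hab => by
    show min a (2 * k + 1) ≤ min b (2 * k + 1)
    omega⟩
  have htr : ∀ i, tr i = min i (2 * k + 1) := fun i => rfl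
  have hg1 : AA.act tr (Ideal.Quotient.mk IA g0) = Ideal.Quotient.mk IA g0 :=
    hg.act_eq tr fun i hi => by rw [htr]; omega
  rw [d_apply] at hdg
  have hsum : (∑ j ∈ range (2 * k + 1 + 2), (-1) ^ j * actA (face j) (actA tr g0)) -
      DET1_G (k + 1) ∈ IA := by
    rw [← Ideal.Quotient.eq_zero_iff_mem, map_sub, sub_eq_zero, ← hdg, map_sum]
    refine Finset.sum_congr rfl fun j _ => ?_
    rw [map_mul, map_pow, map_neg, map_one, ← DET1_AA_mk, ← DET1_AA_mk, hg1]
  have hmu : ∀ i, DET1_mu (k + 1) i < 81 := by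
    intro i
    rw [DET1_mu_apply]
    split_ifs <;> omega
  have h3 := DET1_coeff_IA hsum hmu
  rw [MvPolynomial.coeff_sub, DET1_coeff_G, MvPolynomial.coeff_sum] at h3
  have h4 : ∀ j ∈ range (2 * k + 1 + 2), MvPolynomial.coeff (DET1_mu (k + 1))
      ((-1) ^ j * actA (face j) (actA tr g0)) = 0 := by
    intro j hj
    rw [mem_range] at hj
    have e : ((-1 : MvPolynomial ℕ (ZMod 3)) ^ j) = MvPolynomial.C ((-1) ^ j) := by simp
    rw [e, MvPolynomial.coeff_C_mul]
    have h5 : MvPolynomial.coeff (DET1_mu (k + 1)) (actA (face j) (actA tr g0)) = 0 := by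
      by_cases hj0 : j = 0
      · subst hj0
        refine DET1_coeff (face 0) (fun i => if i ∈ ({0} : Finset ℕ) then 1 else 0)
          (fun i => if i ∈ (∅ : Finset ℕ) then 1 else 0) ?_ _ hmu ?_ _
        · intro i l hl
          rw [Finset.mem_Ico, face_apply, face_apply] at hl
          rw [if_neg (by omega), if_neg (by omega)] at hl
          rw [if_neg (by simp; omega), if_neg (by simp)]
        · intro n hn
          rw [DET1_weight_ind, DET1_weight_ind, Finset.sum_singleton, Finset.sum_empty,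
            DET1_mu_apply, if_pos (by omega), if_pos (by omega)] at hn
          omega
      · by_cases hj1 : j = 2 * k + 2
        · subst hj1
          rw [← actA_comp]
          refine DET1_coeff ((face (2 * k + 2)).comp tr)
            (fun i => if i ∈ ({2 * k + 1} : Finset ℕ) then 1 else 0)
            (fun i => if i ∈ (∅ : Finset ℕ) then 1 else 0) ?_ _ hmu ?_ _
          · intro i l hl
            have e1 : ∀ i, ((face (2 * k + 2)).comp tr) i = min i (2 * k + 1) := by
              intro i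
              show face (2 * k + 2) (tr i) = _
              rw [htr, face_apply, if_pos (by omega)]
            rw [Finset.mem_Ico, e1, e1] at hl
            rw [if_neg (by simp; omega), if_neg (by simp)]
          · intro n hn
            rw [DET1_weight_ind, DET1_weight_ind, Finset.sum_singleton, Finset.sum_empty,
              DET1_mu_apply, if_pos (by omega), if_neg (by omega)] at hn
            omega
        · refine DET1_coeff (face j) (fun i => if i ∈ ({j - 1, j} : Finset ℕ) then 1 else 0)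
            (fun i => if i ∈ ({j - 1} : Finset ℕ) then 1 else 0) ?_ _ hmu ?_ _
          · intro i l hl
            rw [Finset.mem_Ico, face_apply, face_apply] at hl
            simp only [Finset.mem_insert, Finset.mem_singleton]
            split_ifs at hl ⊢ <;> omega
          · intro n hn
            rw [DET1_weight_ind, DET1_weight_ind, Finset.sum_singleton,
              Finset.sum_pair (by omega), DET1_mu_apply, DET1_mu_apply,
              if_pos (show j - 1 < 2 * (k + 1) by omega),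
              if_pos (show j < 2 * (k + 1) by omega)] at hn
            refine ⟨j - 1, ?_⟩
            split_ifs at hn <;> omega
    rw [h5, mul_zero]
  rw [Finset.sum_eq_zero h4, zero_sub] at h3
  exact one_ne_zero (neg_eq_zero.1 h3)

end P0N
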