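import Pool.Agent.H34.P0.Eta

/-!
# The tower `A0 → A1 → A2`
-/

set_option autoImplicit false

namespace P0N

open Finset Polynomial

noncomputable instance : CharP R0 3 := inferInstance

theorem cx1 : Coc A0 1 (xi0 1 ^ 3) := (xi1_coc isXi_A0).cube

/-- `xi_1^3` gets the primitive `X` -/
noncomputable def A1 : Cos R0[X] := Ex A0 (xi0 1 ^ 3) cx1
/-- the `xi_n` in `A1` -/
noncomputable def xiA1 : ℕ → R0[X] := fun n => C (xi0 n)

theorem isXi_A1 : IsXi A1 xiA1 := isXi_A0.ext _ cx1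
theorem isX_A1 : IsX A1 xiA1 X := isX_new cx1

theorem cx2 : Coc A1 1 (eta2 xiA1 X ^ 9) := (eta2_coc isXi_A1 isX_A1).pow3 2

/-- `eta_2^9` gets the primitive `Y` (the new variable) -/
noncomputable def A2 : Cos R0[X][X] := Ex A1 (eta2 xiA1 X ^ 9) cx2
/-- the `xi_n` in `A2` -/
noncomputable def xiA2 : ℕ → R0[X][X] := fun n => C (xiA1 n)

theorem isXi_A2 : IsXi A2 xiA2 := isXi_A1.ext _ cx2
theorem isX_A2 : IsX A2 xiA2 (C X) := isX_A1.ext _ cx2
theorem isY_A2 : IsY A2 xiA2 (C X) X := isY_new cx2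

/-- inclusion `A0 → A1` -/
noncomputable def j01 : CHom A0 A1 := inc A0 (xi0 1 ^ 3) cx1
/-- inclusion `A1 → A2` -/
noncomputable def j12 : CHom A1 A2 := inc A1 (eta2 xiA1 X ^ 9) cx2

/-- the hypothesis: Frobenius of every homogeneous even class of positive degree is nilpotent -/
def HQ : Prop := ∀ k, 1 ≤ k → ∀ h : Hev A0, IsHom A0 (2 * k) h → IsNilpotent ((frob A0).H h)

end P0N
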