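import Pool.Agent.H34.P0.Det1
import Pool.Agent.H34.P0.Tower

/-!
# Detection of `f` on `alpha_81`
-/

set_option autoImplicit false

namespace P0N

open Finset Polynomial

/-- the homomorphism `alpha_81 → G`: `xi_2 = t^9, xi_4 = t, xi_6 = - t^18` -/
noncomputable def nuA : ℕ → RA := fun n =>
  if n = 0 then 1 else if n = 2 then tA ^ 9 else if n = 4 then tA
    else if n = 6 then - tA ^ 18 else 0

theorem DET2_zero : nuA 0 = 1 := by simp [nuA]
theorem DET2_two : nuA 2 = tA ^ 9 := by simp [nuA]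
theorem DET2_four : nuA 4 = tA := by simp [nuA]
theorem DET2_six : nuA 6 = - tA ^ 18 := by simp [nuA]
theorem DET2_odd {n : ℕ} (h0 : n ≠ 0) (h2 : n ≠ 2) (h4 : n ≠ 4) (h6 : n ≠ 6) : nuA n = 0 := by
  simp [nuA, h0, h2, h4, h6]

theorem DET2_supp (n : ℕ) : Supp AA 1 (nuA n) := by
  unfold nuA
  split_ifs
  · exact Supp.one _ _
  · exact tA_coc.1.pow 9
  · exact tA_coc.1
  · exact (tA_coc.1.pow 18).neg
  · exact Supp.zero _ _

theorem DET2_pow {k : ℕ} (hk : 81 ≤ k) : tA ^ k = 0 := by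
  obtain ⟨m, rfl⟩ := Nat.exists_eq_add_of_le hk
  rw [pow_add, tA_pow, zero_mul]

/-- high powers vanish -/
theorem DET2_high {n k : ℕ} (hn : n ≠ 0) (hk : 81 ≤ k) : nuA n ^ k = 0 := by
  by_cases h2 : n = 2
  · rw [h2, DET2_two, ← pow_mul, DET2_pow (by omega)]
  by_cases h4 : n = 4
  · rw [h4, DET2_four, DET2_pow hk]
  by_cases h6 : n = 6
  · rw [h6, DET2_six]
    refine (neg_pow (tA ^ 18) k).trans ?_
    rw [← pow_mul, DET2_pow (by omega), mul_zero]
  · rw [DET2_odd hn h2 h4 h6, zero_pow (by omega)]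

theorem DET2_add9 (a b : RA) : (a + b) ^ 9 = a ^ 9 + b ^ 9 := by
  have _ : Fact (Nat.Prime 3) := ⟨Nat.prime_three⟩
  have := add_pow_char_pow (R := RA) a b (p := 3) (n := 2)
  simpa using this

theorem DET2_face {n : ℕ} (h0 : n ≠ 0) (h6 : n ≠ 6) :
    AA.act (face 1) (nuA n) = nuA n + AA.act (sh 1) (nuA n) := by
  by_cases h2 : n = 2
  · rw [h2, DET2_two, map_pow, map_pow, BC_rel tA_coc, DET2_add9]
  by_cases h4 : n = 4
  · rw [h4, DET2_four, BC_rel tA_coc]
  · rw [DET2_odd h0 h2 h4 h6, map_zero, map_zero, add_zero]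

theorem DET2_term {n j : ℕ} (h0 : n ≠ 0) (h4 : n = 4 → j ≠ 2) (hj : j ≠ 0) :
    nuA n ^ (3 ^ j) * AA.act (sh 1) (nuA j) = 0 := by
  by_cases hj2 : j = 2
  · subst hj2
    have h4' : n ≠ 4 := fun h => h4 h rfl
    by_cases h2 : n = 2
    · rw [h2, DET2_two, ← pow_mul, DET2_pow (by norm_num), zero_mul]
    by_cases h6 : n = 6
    · rw [h6, DET2_six]
      have := (neg_pow (tA ^ 18) (3 ^ 2))
      rw [← pow_mul tA, DET2_pow (k := 18 * 3 ^ 2) (by norm_num), mul_zero] at this
      rw [this, zero_mul]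
    · rw [DET2_odd h0 h2 h4' h6, zero_pow (by norm_num), zero_mul]
  by_cases hj4 : j = 4
  · rw [hj4, DET2_high h0 (by norm_num), zero_mul]
  by_cases hj6 : j = 6
  · rw [hj6, DET2_high h0 (by norm_num), zero_mul]
  · rw [DET2_odd hj hj2 hj4 hj6, map_zero, mul_zero]

theorem isXi_nuA : IsXi AA nuA where
  zero := DET2_zero
  supp := DET2_supp
  rel := by
    intro n
    have h3 : (3 : RA) = 0 := BC_three
    obtain _ | m := n
    · unfold gm
      simp [DET2_zero]
    · unfold gm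
      rw [Finset.sum_range_succ, Finset.sum_range_succ']
      simp only [Nat.sub_self, DET2_zero, one_pow, one_mul, Nat.sub_zero, pow_zero, pow_one,
        map_one, mul_one]
      by_cases hm : m = 5
      · subst hm
        have e : ∑ k ∈ range 5, nuA (5 + 1 - (k + 1)) ^ 3 ^ (k + 1) *
            AA.act (sh 1) (nuA (k + 1)) = tA ^ 9 * AA.act (sh 1) tA ^ 9 := by
          rw [Finset.sum_eq_single 1]
          · show nuA 4 ^ 3 ^ 2 * AA.act (sh 1) (nuA 2) = _
            rw [DET2_four, DET2_two, map_pow]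
            norm_num
          · intro k hk hk1
            have hk' := mem_range.1 hk
            exact DET2_term (by omega) (by omega) (by omega)
          · intro h
            exact absurd (mem_range.2 (by norm_num)) h
        rw [e]
        show AA.act (face 1) (nuA 6) = _
        have e6 : nuA 6 = - (tA ^ 9) ^ 2 := by rw [DET2_six, ← pow_mul]
        rw [show nuA (5 + 1) = nuA 6 from rfl, e6, map_neg, map_neg, map_pow, map_pow, map_pow,
          map_pow, BC_rel tA_coc, DET2_add9]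
        linear_combination (-(tA ^ 9 * AA.act (sh 1) tA ^ 9)) * h3
      · rw [Finset.sum_eq_zero, zero_add]
        · exact DET2_face (by omega) (by omega)
        · intro k hk
          have hk' := mem_range.1 hk
          exact DET2_term (by omega) (by omega) (by omega)

theorem fcl_nuA : fcl AA nuA 0 0 = bc AA (tA ^ 9) ^ 28 := by
  have hp1 : nuA 1 = 0 := DET2_odd (by omega) (by omega) (by omega) (by omega)
  have hp3 : nuA 3 = 0 := DET2_odd (by omega) (by omega) (by omega) (by omega)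
  have e2 : eta2 nuA 0 = tA ^ 9 := by
    unfold eta2
    rw [DET2_two, zero_mul, sub_zero]
  have e3 : eta3 nuA 0 = 0 := by
    unfold eta3
    rw [hp3]
    ring
  have e4 : eta4 nuA 0 = tA := by
    unfold eta4
    rw [DET2_four, hp3]
    ring
  have e31 : eta31 nuA 0 = 0 := by
    unfold eta31
    rw [e3, hp1]
    ring
  have e41 : eta41 nuA 0 0 = tA ^ 3 := by
    unfold eta41
    rw [e4, e3, hp1]
    ring
  have h0 : bc AA (0 : RA) = 0 := by
    unfold bc bR
    simp only [zero_mul, map_zero, ne_eq, OfNat.ofNat_ne_zero, not_false_eq_true, zero_pow, add_zero]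
    exact cls_zero _ _
  unfold fcl
  rw [e31, e41, e2, zero_pow (by norm_num), h0, zero_mul, sub_zero, ← pow_mul, ← pow_succ']

/-- the morphism `A2 → AA` -/
theorem exists_det : ∃ p : CHom A2 AA, (∀ n, p.f (xiA2 n) = nuA n) ∧ p.f (C X) = 0 ∧
    p.f X = 0 := by
  have hp1 : nuA 1 = 0 := DET2_odd (by omega) (by omega) (by omega) (by omega)
  let p0 : CHom A0 AA := A0map AA nuA isXi_nuA
  have h0 : ∀ n, p0.f (xi0 n) = nuA n := fun n => A0map_xi AA nuA isXi_nuA n
  let p1 : CHom A1 AA := p0.lift (xi0 1 ^ 3) cx1 0 (Supp.zero _ _) (by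
    rw [map_zero, map_pow, h0, hp1]
    ring)
  have h1 : ∀ n, p1.f (xiA1 n) = nuA n := by
    intro n
    rw [← h0 n]
    exact CHom.lift_C _ _ _ _ _ _ _
  have h1X : p1.f X = 0 := CHom.lift_X _ _ _ _ _ _
  have h1e : p1.f (eta2 xiA1 X ^ 9) = 0 := by
    rw [map_pow, map_eta2, h1X]
    have e1 : (fun n => p1.f (xiA1 n)) = nuA := funext h1
    rw [e1]
    unfold eta2
    rw [DET2_two, zero_mul, sub_zero, ← pow_mul, DET2_pow (by norm_num)]
  let p2 : CHom A2 AA := p1.lift (eta2 xiA1 X ^ 9) cx2 0 (Supp.zero _ _) (by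
    rw [map_zero, h1e, sub_zero])
  refine ⟨p2, ?_, ?_, ?_⟩
  · intro n
    rw [← h1 n]
    exact CHom.lift_C _ _ _ _ _ _ _
  · refine Eq.trans ?_ h1X
    exact CHom.lift_C _ _ _ _ _ _ _
  · exact CHom.lift_X _ _ _ _ _ _

/-- a class of `A0` restricting to a power of `f` on `A2` has non-nilpotent Frobenius -/
theorem det (e : ℕ) (c : Hev A0) (hc : j12.H (j01.H c) = fcl A2 xiA2 (C X) X ^ (3 ^ e)) :
    ¬ IsNilpotent ((frob A0).H c) := by
  intro hnil
  obtain ⟨p, hp, hp1, hp2⟩ := exists_det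
  apply not_nil_bA
  have h1 : IsNilpotent (p.H (j12.H (j01.H ((frob A0).H c)))) :=
    ((hnil.map j01.H).map j12.H).map p.H
  rw [CHom.H_frob, CHom.H_frob, CHom.H_frob, hc, map_pow, map_fcl p isXi_A2 isX_A2 isY_A2, hp1,
    hp2, map_pow] at h1
  have e1 : (fun n => p.f (xiA2 n)) = nuA := funext hp
  have h9 : Coc AA 1 (tA ^ 9) := tA_coc.pow3 2
  rw [e1, fcl_nuA, map_pow, ← bc_cube h9, ← pow_mul, ← pow_mul] at h1
  exact h1.of_pow

end P0N
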