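import Pool.Agent.H34.P0.Eta

/-!
# Change of the primitives `X`, `Y`: the classes `b_20, b_32, b_42`
-/

set_option autoImplicit false

namespace P0N

open Finset

variable {S : Type} [CommRing S]

theorem diff_sub3 [CharP S 3] (u v : S) : (u - v) ^ 3 = u ^ 3 - v ^ 3 := by
  have : Fact (Nat.Prime 3) := ⟨Nat.prime_three⟩
  exact sub_pow_char (p := 3) u v
theorem diff_add3 [CharP S 3] (u v : S) : (u + v) ^ 3 = u ^ 3 + v ^ 3 := by
  have : Fact (Nat.Prime 3) := ⟨Nat.prime_three⟩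
  exact add_pow_char (p := 3) u v
theorem diff_sub9 [CharP S 3] (u v : S) : (u - v) ^ 9 = u ^ 9 - v ^ 9 := by
  rw [show (9 : ℕ) = 3 * 3 by norm_num, pow_mul, diff_sub3, diff_sub3, pow_mul, pow_mul]
theorem diff_add9 [CharP S 3] (u v : S) : (u + v) ^ 9 = u ^ 9 + v ^ 9 := by
  rw [show (9 : ℕ) = 3 * 3 by norm_num, pow_mul, diff_add3, diff_add3, pow_mul, pow_mul]
theorem diff_sub27 [CharP S 3] (u v : S) : (u - v) ^ 27 = u ^ 27 - v ^ 27 := by
  rw [show (27 : ℕ) = 9 * 3 by norm_num, pow_mul, diff_sub9, diff_sub3, pow_mul, pow_mul]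
theorem diff_add27 [CharP S 3] (u v : S) : (u + v) ^ 27 = u ^ 27 + v ^ 27 := by
  rw [show (27 : ℕ) = 9 * 3 by norm_num, pow_mul, diff_add9, diff_add3, pow_mul, pow_mul]

/-- `0`-cocycles are invariant -/
theorem diff_coc0 {B : Cos S} {c : S} (hc : Coc B 0 c) : B.act (sh 1) c = c := by
  have h := hc.2
  rw [d_zero' B hc.1] at h
  exact sub_eq_zero.1 h

theorem diff_coc0_of {B : Cos S} {c : S} (hs : Supp B 0 c) (hc : B.act (sh 1) c = c) :
    Coc B 0 c := ⟨hs, by rw [d_zero' B hs, hc, sub_self]⟩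

theorem diff_coc0_pow {B : Cos S} {c : S} (hc : Coc B 0 c) (k : ℕ) : Coc B 0 (c ^ k) :=
  diff_coc0_of (hc.1.pow k) (by rw [map_pow, diff_coc0 hc])

/-- multiples of coboundaries by invariants are coboundaries -/
theorem diff_mul_bdry {B : Cos S} {c w : S} (hc : Coc B 0 c) (hw : Supp B 0 w) :
    c * d B 0 w = d B 0 (c * w) := by
  rw [d_zero' B hw, d_zero' B (hc.1.mul hw), map_mul, diff_coc0 hc]
  ring

theorem D_coc {B : Cos S} {xi : ℕ → S} {X X' : S} (hX : IsX B xi X) (hX' : IsX B xi X') :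
    Coc B 0 (X - X') := by
  refine diff_coc0_of (hX.supp.sub hX'.supp) ?_
  rw [map_sub, hX.rel, hX'.rel]
  ring

/-- `E = Y - Y' + D^9 X^3` is a 0-cocycle -/
theorem E_coc {B : Cos S} [CharP S 3] {xi : ℕ → S} (hxi : IsXi B xi) {X X' Y Y' : S}
    (hX : IsX B xi X) (hX' : IsX B xi X') (hY : IsY B xi X Y) (hY' : IsY B xi X' Y') :
    Coc B 0 (Y - Y' + (X - X') ^ 9 * X ^ 3) := by
  have hD := D_coc hX hX'
  refine diff_coc0_of ((hY.supp.sub hY'.supp).add ((hD.1.pow 9).mul (hX.supp.pow 3))) ?_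
  rw [map_add, map_sub, map_mul, map_pow, map_pow, diff_coc0 hD, hY.rel, hY'.rel, hX.rel]
  unfold eta2
  simp only [diff_sub3, diff_sub9, diff_sub27]
  ring

theorem bc_eta2_sub {B : Cos S} [CharP S 3] {xi : ℕ → S} (hxi : IsXi B xi) {X X' : S}
    (hX : IsX B xi X) (hX' : IsX B xi X') :
    bc B (eta2 xi X) = bc B (eta2 xi X') - c0 B (X - X') ^ 3 * bc B (xi 1) := by
  have hD := D_coc hX hX'
  have h1 : eta2 xi X = eta2 xi X' - (X - X') * xi 1 := by unfold eta2; ring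
  rw [h1, bc_sub (eta2_coc hxi hX') (hD.smul (xi1_coc hxi)), bc_smul hD (xi1_coc hxi)]

theorem diff_eta31 {B : Cos S} [CharP S 3] {xi : ℕ → S} (hxi : IsXi B xi) {X X' : S}
    (hX : IsX B xi X) (hX' : IsX B xi X') :
    eta31 xi X = eta31 xi X' + (X - X') * eta2 xi X ^ 9 - (X - X') ^ 9 * eta2 xi X' ^ 3
      + d B 0 ((X - X') ^ 9 * X' ^ 4) := by
  have hD := D_coc hX hX'
  rw [← diff_mul_bdry (diff_coc0_pow hD 9) (hX'.supp.pow 4), d_zero' B (hX'.supp.pow 4), map_pow,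
    hX'.rel]
  rw [show (X' - xi 1 ^ 3) ^ 4 = (X' - xi 1 ^ 3) ^ 3 * (X' - xi 1 ^ 3) by ring]
  unfold eta31 eta3 eta2
  simp only [diff_sub3, diff_sub9, diff_sub27]
  ring

/-- `b_31 - b_31' = D^3 b_22 - D^27 b_21'` -/
theorem bc_eta31_sub {B : Cos S} [CharP S 3] {xi : ℕ → S} (hxi : IsXi B xi) {X X' : S}
    (hX : IsX B xi X) (hX' : IsX B xi X') :
    bc B (eta31 xi X) = bc B (eta31 xi X') + c0 B (X - X') ^ 3 * bc B (eta2 xi X ^ 9)
      - c0 B (X - X') ^ 27 * bc B (eta2 xi X' ^ 3) := by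
  have hD := D_coc hX hX'
  have hD9 := diff_coc0_pow hD 9
  have h2 := (eta2_coc hxi hX).pow3 2
  have h2' := (eta2_coc hxi hX').cube
  rw [show (3 : ℕ) ^ 2 = 9 by norm_num] at h2
  have hw : Supp B 0 ((X - X') ^ 9 * X' ^ 4) := hD9.1.mul (hX'.supp.pow 4)
  rw [diff_eta31 hxi hX hX']
  rw [bc_add (((eta31_coc hxi hX').add (hD.smul h2)).sub (hD9.smul h2')) (Coc.bdry hw),
    bc_sub ((eta31_coc hxi hX').add (hD.smul h2)) (hD9.smul h2'),
    bc_add (eta31_coc hxi hX') (hD.smul h2), bc_smul hD h2, bc_smul hD9 h2', bc_bdry hw,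
    c0_pow hD 9, ← pow_mul, add_zero]

/-- with primitives of `eta_2^9`: `b_32` does not change -/
theorem bc_eta31_cube {B : Cos S} [CharP S 3] {xi : ℕ → S} (hxi : IsXi B xi) {X X' Y Y' : S}
    (hX : IsX B xi X) (hX' : IsX B xi X') (hY : IsY B xi X Y) (hY' : IsY B xi X' Y') :
    bc B (eta31 xi X ^ 3) = bc B (eta31 xi X' ^ 3) := by
  have h2 := (eta2_coc hxi hX).pow3 2
  have h2' := (eta2_coc hxi hX').cube
  rw [show (3 : ℕ) ^ 2 = 9 by norm_num] at h2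
  have e1 : bc B ((eta2 xi X ^ 9) ^ 3) = 0 := bc_of_bdry hY.supp hY.bdry 1
  have e2 : bc B ((eta2 xi X' ^ 3) ^ 3) = 0 := by
    have := bc_of_bdry hY'.supp hY'.bdry 0
    rw [pow_zero, pow_one] at this
    rw [← pow_mul]
    exact this
  rw [bc_cube (eta31_coc hxi hX), bc_eta31_sub hxi hX hX', map_sub, map_add, map_mul, map_mul,
    ← bc_cube h2, ← bc_cube h2', e1, e2, bc_cube (eta31_coc hxi hX')]
  ring

theorem diff_eta41 {B : Cos S} [CharP S 3] {xi : ℕ → S} (hxi : IsXi B xi) {X X' Y Y' : S}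
    (hX : IsX B xi X) (hX' : IsX B xi X') (hY : IsY B xi X Y) (hY' : IsY B xi X' Y') :
    eta41 xi X Y = eta41 xi X' Y' + (X - X') * eta31 xi X ^ 3 - (X - X') ^ 27 * eta31 xi X'
      + ((X - X') ^ 36 - (Y - Y' + (X - X') ^ 9 * X ^ 3) ^ 3) * eta2 xi X' ^ 3
      + d B 0 ((X - X') ^ 27 * X' ^ 13 - (X - X') ^ 3 * (X' * Y ^ 3)) := by
  have hD := D_coc hX hX'
  have s13 := hX'.supp.pow 13
  have sXY := hX'.supp.mul (hY.supp.pow 3)
  rw [map_sub, ← diff_mul_bdry (diff_coc0_pow hD 27) s13,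
    ← diff_mul_bdry (diff_coc0_pow hD 3) sXY, d_zero' B s13, d_zero' B sXY, map_mul, map_pow,
    map_pow, hX'.rel, hY.rel]
  rw [show (X' - xi 1 ^ 3) ^ 13 = (X' - xi 1 ^ 3) ^ 9 * (X' - xi 1 ^ 3) ^ 3 * (X' - xi 1 ^ 3) by
    ring, show (X - X') ^ 36 = (X - X') ^ 27 * (X - X') ^ 9 by ring]
  unfold eta41
  rw [show (X' - xi 1 ^ 3) ^ 4 = (X' - xi 1 ^ 3) ^ 3 * (X' - xi 1 ^ 3) by ring,
    show (X - xi 1 ^ 3) ^ 4 = (X - xi 1 ^ 3) ^ 3 * (X - xi 1 ^ 3) by ring]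
  unfold eta31 eta4 eta3 eta2
  simp only [diff_sub3, diff_sub9, diff_sub27, diff_add3, mul_pow, ← pow_mul]
  ring

/-- `b_42 - b_42' = D^9 b_33 - D^243 b_32'` -/
theorem bc_eta41_cube {B : Cos S} [CharP S 3] {xi : ℕ → S} (hxi : IsXi B xi) {X X' Y Y' : S}
    (hX : IsX B xi X) (hX' : IsX B xi X') (hY : IsY B xi X Y) (hY' : IsY B xi X' Y') :
    bc B (eta41 xi X Y ^ 3) = bc B (eta41 xi X' Y' ^ 3)
      + c0 B (X - X') ^ 9 * bc B (eta31 xi X ^ 9)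
      - c0 B (X - X') ^ 243 * bc B (eta31 xi X' ^ 3) := by
  have hD := D_coc hX hX'
  have hE := E_coc hxi hX hX' hY hY'
  have hD27 := diff_coc0_pow hD 27
  have hDE : Coc B 0 ((X - X') ^ 36 - (Y - Y' + (X - X') ^ 9 * X ^ 3) ^ 3) :=
    (diff_coc0_pow hD 36).sub (diff_coc0_pow hE 3)
  have h31 := (eta31_coc hxi hX).cube
  have h31' := eta31_coc hxi hX'
  have h2' := (eta2_coc hxi hX').cube
  have hw : Supp B 0 ((X - X') ^ 27 * X' ^ 13 - (X - X') ^ 3 * (X' * Y ^ 3)) :=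
    (hD27.1.mul (hX'.supp.pow 13)).sub
      ((hD.1.pow 3).mul (hX'.supp.mul (hY.supp.pow 3)))
  have e2 : bc B ((eta2 xi X' ^ 3) ^ 3) = 0 := by
    have := bc_of_bdry hY'.supp hY'.bdry 0
    rw [pow_zero, pow_one] at this
    rw [← pow_mul]
    exact this
  have h41' := eta41_coc hxi hX' hY'
  have c1 := h41'.add (hD.smul h31)
  have c2 := c1.sub (hD27.smul h31')
  have c3 := c2.add (hDE.smul h2')
  have key : bc B (eta41 xi X Y) = bc B (eta41 xi X' Y') + c0 B (X - X') ^ 3 *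
      bc B (eta31 xi X ^ 3) - c0 B ((X - X') ^ 27) ^ 3 * bc B (eta31 xi X')
      + c0 B ((X - X') ^ 36 - (Y - Y' + (X - X') ^ 9 * X ^ 3) ^ 3) ^ 3 *
        bc B (eta2 xi X' ^ 3) := by
    rw [diff_eta41 hxi hX hX' hY hY', bc_add c3 (Coc.bdry hw), bc_add c2 (hDE.smul h2'),
      bc_sub c1 (hD27.smul h31'), bc_add h41' (hD.smul h31), bc_smul hD h31,
      bc_smul hD27 h31', bc_smul hDE h2', bc_bdry hw, add_zero]
  rw [bc_cube (eta41_coc hxi hX hY), key]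
  simp only [map_add, map_sub, map_mul, map_pow]
  rw [← bc_cube h41', ← bc_cube h31, ← bc_cube h31', ← bc_cube h2', e2, c0_frob hD, c0_frob hD27,
    c0_pow hD 27, show (eta31 xi X ^ 3) ^ 3 = eta31 xi X ^ 9 by ring]
  ring

end P0N
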