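import Pool.Agent.H34.P0.Eta

/-!
# Change of the primitives `X`, `Y`: the class `b_30`
-/

set_option autoImplicit false

namespace P0N

open Finset

variable {S : Type} [CommRing S]

/-- the first omega identity -/
theorem diff2_omega (ha hb ua ca cb m0 m1 va vb : S) :
    om3 (ha + ca - m0 * va) (hb + cb - m1 * vb) ((ua + m1 - m0) * vb) - om3 ha hb (ua * vb) =
      (ca * cb ^ 2 + ca ^ 2 * cb) - m0 ^ 3 * (va * vb ^ 2 + va ^ 2 * vb)
      - (om3 hb cb (-(m1 * vb)) - om3 (ha + hb + ua * vb) (ca + cb) (-(m0 * (va + vb)))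
          + om3 ha ca (-(m0 * va)))
      - om3 ua m1 (-m0) * vb ^ 3 := by
  unfold om3
  ring

/-- the second omega identity -/
theorem diff2_omega2 (ua ub m0 m1 m2 : S) :
    om3 ub m2 (-m1) - om3 (ua + ub) m2 (-m0) + om3 ua m1 (-m0) =
      (ua * ub ^ 2 + ua ^ 2 * ub)
        - ((ua + m1 - m0) * (ub + m2 - m1) ^ 2 + (ua + m1 - m0) ^ 2 * (ub + m2 - m1)) := by
  unfold om3
  ring

theorem diff2_cube_sub [CharP S 3] (x y : S) : (x - y) ^ 3 = x ^ 3 - y ^ 3 := by
  have h3 : (3 : S) = 0 := BC_three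
  linear_combination (-(x ^ 2 * y) + x * y ^ 2) * h3

theorem diff2_cube_add [CharP S 3] (x y : S) : (x + y) ^ 3 = x ^ 3 + y ^ 3 := by
  have h3 : (3 : S) = 0 := BC_three
  linear_combination (x ^ 2 * y + x * y ^ 2) * h3

theorem diff2_xi2 {B : Cos S} {xi : ℕ → S} (hxi : IsXi B xi) :
    B.act (face 1) (xi 2) = xi 2 + xi 1 ^ 3 * B.act (sh 1) (xi 1) + B.act (sh 1) (xi 2) := by
  rw [hxi.rel 2]
  unfold gm
  simp only [Finset.sum_range_succ, Finset.sum_range_zero, hxi.zero, map_one]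
  norm_num

theorem diff2_xi3 {B : Cos S} {xi : ℕ → S} (hxi : IsXi B xi) :
    B.act (face 1) (xi 3) = xi 3 + xi 2 ^ 3 * B.act (sh 1) (xi 1)
      + xi 1 ^ 9 * B.act (sh 1) (xi 2) + B.act (sh 1) (xi 3) := by
  rw [hxi.rel 3]
  unfold gm
  simp only [Finset.sum_range_succ, Finset.sum_range_zero, hxi.zero, map_one]
  norm_num

theorem diff2_face {B : Cos S} {X : S} (hX : Supp B 0 X) : B.act (face 1) X = X :=
  hX.act_eq _ fun i hi => by rw [face_apply, if_pos (by omega)]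

/-- the coproduct of `eta_3` -/
theorem diff2_eta3 {B : Cos S} [CharP S 3] {xi : ℕ → S} (hxi : IsXi B xi) {X : S}
    (hX : IsX B xi X) :
    B.act (face 1) (eta3 xi X) = eta3 xi X + B.act (sh 1) (eta3 xi X)
      + eta2 xi X ^ 3 * B.act (sh 1) (xi 1) := by
  unfold eta3 eta2
  simp only [map_sub, map_mul, map_pow, diff2_xi3 hxi, diff2_xi2 hxi, diff2_face hX.supp, hX.rel,
    diff2_cube_sub, mul_pow]
  ring

theorem diff2_act_face_sh {B : Cos S} {X : S} (hX : Supp B 0 X) :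
    B.act (face 1) (B.act (sh 1) X) = B.act (sh 2) X := by
  rw [← B.act_comp]
  refine hX.act_congr fun i hi => ?_
  show face 1 (sh 1 i) = sh 2 i
  rw [face_apply, sh_apply, sh_apply, if_neg (by omega)]

/-- the bounding cochain -/
def diff2W (B : Cos S) (xi : ℕ → S) (X X' : S) : S :=
  om3 (eta3 xi X') (-((X - X') ^ 3 * eta2 xi X)) (-((X - X') ^ 3 * X * xi 1))
    + om3 (eta2 xi X' ^ 3) (B.act (sh 1) ((X - X') ^ 3 * X)) (-((X - X') ^ 3 * X))
      * B.act (sh 1) X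

theorem diff2_om3_supp {B : Cos S} {n : ℕ} {a b c : S} (ha : Supp B n a) (hb : Supp B n b)
    (hc : Supp B n c) : Supp B n (om3 a b c) := by
  unfold om3
  have h2 : Supp B n (2 : S) := by
    have := (Supp.one B n).add (Supp.one B n)
    rwa [one_add_one_eq_two] at this
  exact ((((((((ha.pow 2).mul hb).add (ha.mul (hb.pow 2))).add ((ha.pow 2).mul hc)).add
    (ha.mul (hc.pow 2))).add ((hb.pow 2).mul hc)).add (hb.mul (hc.pow 2))).add
    (h2.mul ((ha.mul hb).mul hc)))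

theorem diff2_map_om3 {R : Type} [CommRing R] (f : R →+* S) (a b c : R) :
    f (om3 a b c) = om3 (f a) (f b) (f c) := by
  unfold om3
  simp only [map_add, map_mul, map_pow, map_ofNat]

theorem diff2_eta_supp {B : Cos S} {xi : ℕ → S} (hxi : IsXi B xi) {X : S} (hX : Supp B 0 X) :
    Supp B 1 (eta3 xi X) ∧ Supp B 1 (eta2 xi X) := by
  have hX1 : Supp B 1 X := hX.mono (by omega)
  constructor
  · exact (hxi.supp 3).sub ((hX1.pow 3).mul (hxi.supp 2))
  · exact (hxi.supp 2).sub (hX1.mul (hxi.supp 1))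

theorem diff2W_supp {B : Cos S} {xi : ℕ → S} (hxi : IsXi B xi) {X X' : S}
    (hX : Supp B 0 X) (hX' : Supp B 0 X') : Supp B 1 (diff2W B xi X X') := by
  have hX1 : Supp B 1 X := hX.mono (by omega)
  have hX1' : Supp B 1 X' := hX'.mono (by omega)
  have hs : ∀ {Z : S}, Supp B 0 Z → Supp B 1 (B.act (sh 1) Z) := fun hZ => hZ.act _ fun i hi => by
    rw [sh_apply]; omega
  obtain ⟨h3', h2'⟩ := diff2_eta_supp hxi hX'
  obtain ⟨h3, h2⟩ := diff2_eta_supp hxi hX
  have hD : Supp B 1 ((X - X') ^ 3) := (hX1.sub hX1').pow 3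
  refine (diff2_om3_supp h3' (hD.mul h2).neg ((hD.mul hX1).mul (hxi.supp 1)).neg).add
    ((diff2_om3_supp (h2'.pow 3) (hs (((hX.sub hX').pow 3).mul hX)) (hD.mul hX1).neg).mul (hs hX))

theorem diff2_main {B : Cos S} [CharP S 3] {xi : ℕ → S} (hxi : IsXi B xi) {X X' Y Y' : S}
    (hX : IsX B xi X) (hX' : IsX B xi X') :
    b30R B xi X Y - b30R B xi X' Y' =
      - ((X - X') ^ 9 * bR B (eta2 xi X)) + (X - X') * bR B (eta2 xi X' ^ 3)
        - (Y - Y' + (X - X') ^ 9 * X ^ 3) * bR B (xi 1)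
        - d B 1 (diff2W B xi X X') := by
  have hv := xi1_coc hxi
  have hu2 := eta2_coc hxi hX
  have hu2' := eta2_coc hxi hX'
  have fv := BC_rel hv
  have fu := BC_rel hu2
  have fu' := BC_rel hu2'
  have f3' := diff2_eta3 hxi hX'
  have fX := diff2_face hX.supp
  have fX' := diff2_face hX'.supp
  have ffX := diff2_act_face_sh hX.supp
  have ffX' := diff2_act_face_sh hX'.supp
  have sD : B.act (sh 1) (X - X') = X - X' := by
    rw [map_sub, hX.rel, hX'.rel]
    ring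
  have s2X : B.act (sh 2) X = B.act (sh 1) X - B.act (sh 1) (xi 1) ^ 3 := by
    have h := act_sh_sh B 1 1 X
    rw [← h, hX.rel, map_sub, map_pow, hX.rel]
  have s2X' : B.act (sh 2) X' = B.act (sh 2) X - (X - X') := by
    have h := act_sh_sh B 1 1 X
    have h' := act_sh_sh B 1 1 X'
    have e : X' = X - (X - X') := by ring
    conv_lhs => rw [e]
    rw [map_sub, ← act_sh_sh B 1 1 (X - X'), sD, sD]
  -- relations between the two families
  have r3 : eta3 xi X = eta3 xi X' + -((X - X') ^ 3 * eta2 xi X) - (X - X') ^ 3 * X * xi 1 := by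
    unfold eta3 eta2
    have := diff2_cube_sub X X'
    rw [this]
    ring
  have r2 : eta2 xi X ^ 3 = eta2 xi X' ^ 3 + (X - X') ^ 3 * B.act (sh 1) X - (X - X') ^ 3 * X := by
    have e : eta2 xi X = eta2 xi X' - (X - X') * xi 1 := by
      unfold eta2
      ring
    rw [e, diff2_cube_sub, hX.rel]
    ring
  have sD3 : B.act (sh 1) ((X - X') ^ 3) = (X - X') ^ 3 := by rw [map_pow, sD]
  have fD3 : B.act (face 1) ((X - X') ^ 3) = (X - X') ^ 3 := by rw [map_pow, map_sub, fX, fX']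
  have sD3' : B.act (sh 2) ((X - X') ^ 3) = (X - X') ^ 3 := by
    rw [← act_sh_sh B 1 1, sD3, sD3]
  have r3b : B.act (sh 1) (eta3 xi X) = B.act (sh 1) (eta3 xi X')
      + -((X - X') ^ 3 * B.act (sh 1) (eta2 xi X))
      - (X - X') ^ 3 * B.act (sh 1) X * B.act (sh 1) (xi 1) := by
    conv_lhs => rw [r3]
    rw [map_sub, map_add, map_neg, map_mul, map_mul, map_mul, sD3]
  have r2b : B.act (sh 1) (eta2 xi X) ^ 3 = B.act (sh 1) (eta2 xi X') ^ 3
      + (X - X') ^ 3 * B.act (sh 2) X - (X - X') ^ 3 * B.act (sh 1) X := by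
    have h := congrArg (B.act (sh 1)) r2
    rw [map_pow, map_sub, map_add, map_pow, map_mul, map_mul, sD3, act_sh_sh B 1 1 X] at h
    exact h
  have e1 := diff2_omega (eta3 xi X') (B.act (sh 1) (eta3 xi X')) (eta2 xi X' ^ 3)
    (-((X - X') ^ 3 * eta2 xi X)) (-((X - X') ^ 3 * B.act (sh 1) (eta2 xi X)))
    ((X - X') ^ 3 * X) ((X - X') ^ 3 * B.act (sh 1) X) (xi 1) (B.act (sh 1) (xi 1))
  rw [← r3, ← r3b, ← r2] at e1
  have e2 := diff2_omega2 (eta2 xi X' ^ 3) (B.act (sh 1) (eta2 xi X') ^ 3)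
    ((X - X') ^ 3 * X) ((X - X') ^ 3 * B.act (sh 1) X) ((X - X') ^ 3 * B.act (sh 2) X)
  rw [← r2, ← r2b] at e2
  have w1 : B.act (sh 1) (diff2W B xi X X') =
      om3 (B.act (sh 1) (eta3 xi X')) (-((X - X') ^ 3 * B.act (sh 1) (eta2 xi X)))
        (-((X - X') ^ 3 * B.act (sh 1) X * B.act (sh 1) (xi 1)))
      + om3 (B.act (sh 1) (eta2 xi X') ^ 3) ((X - X') ^ 3 * B.act (sh 2) X)
        (-((X - X') ^ 3 * B.act (sh 1) X)) * B.act (sh 2) X := by
    unfold diff2W
    rw [map_add, map_mul, diff2_map_om3, diff2_map_om3]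
    simp only [map_neg, map_mul, map_pow, sD, act_sh_sh]
  have w2 : B.act (face 1) (diff2W B xi X X') =
      om3 (eta3 xi X' + B.act (sh 1) (eta3 xi X') + eta2 xi X' ^ 3 * B.act (sh 1) (xi 1))
        (-((X - X') ^ 3 * eta2 xi X) + -((X - X') ^ 3 * B.act (sh 1) (eta2 xi X)))
        (-((X - X') ^ 3 * X * (xi 1 + B.act (sh 1) (xi 1))))
      + om3 (eta2 xi X' ^ 3 + B.act (sh 1) (eta2 xi X') ^ 3) ((X - X') ^ 3 * B.act (sh 2) X)
        (-((X - X') ^ 3 * X)) * B.act (sh 2) X := by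
    unfold diff2W
    rw [map_add, map_mul, diff2_map_om3, diff2_map_om3, f3', map_neg, map_mul, fD3, fu, map_neg,
      map_mul, map_mul, fD3, fX, fv, map_pow, fu', diff2_cube_add, map_mul (B.act (sh 1)), sD3,
      map_mul (B.act (face 1)), fD3, ffX, map_neg, map_mul, fD3, fX]
    congr 2
    ring
  have w0 : diff2W B xi X X' =
      om3 (eta3 xi X') (-((X - X') ^ 3 * eta2 xi X)) (-((X - X') ^ 3 * X * xi 1))
      + om3 (eta2 xi X' ^ 3) ((X - X') ^ 3 * B.act (sh 1) X) (-((X - X') ^ 3 * X))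
        * B.act (sh 1) X := by
    unfold diff2W
    rw [map_mul, sD3]
  rw [BC_d1 (diff2W_supp hxi hX.supp hX'.supp), w1, w2, w0]
  unfold b30R bR
  simp only [map_pow]
  rw [s2X']
  linear_combination e1 + B.act (sh 2) X * e2
    - om3 (eta2 xi X' ^ 3) ((X - X') ^ 3 * B.act (sh 1) X) (-((X - X') ^ 3 * X)) * s2X


/-- `b_30 - b_30' = - D^9 b_20 + D b_21' - E b_10` -/
theorem b30_sub {B : Cos S} [CharP S 3] {xi : ℕ → S} (hxi : IsXi B xi) {X X' Y Y' : S}
    (hX : IsX B xi X) (hX' : IsX B xi X') (hY : IsY B xi X Y) (hY' : IsY B xi X' Y') :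
    b30 B xi X Y = b30 B xi X' Y' - c0 B (X - X') ^ 9 * bc B (eta2 xi X)
      + c0 B (X - X') * bc B (eta2 xi X' ^ 3)
      - c0 B (Y - Y' + (X - X') ^ 9 * X ^ 3) * bc B (xi 1) := by
  have hD : Coc B 0 (X - X') := by
    refine ⟨hX.supp.sub hX'.supp, ?_⟩
    rw [map_sub, hX.bdry, hX'.bdry]
    ring
  have hD9 : Coc B 0 ((X - X') ^ 9) := BC_pow hD 9
  have hE : Coc B 0 (Y - Y' + (X - X') ^ 9 * X ^ 3) := by
    have hs : Supp B 0 (Y - Y' + (X - X') ^ 9 * X ^ 3) :=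
      (hY.supp.sub hY'.supp).add (((hX.supp.sub hX'.supp).pow 9).mul (hX.supp.pow 3))
    refine ⟨hs, ?_⟩
    have sD : B.act (sh 1) (X - X') = X - X' := BC_sh1 hD
    have e : eta2 xi X' ^ 9 - eta2 xi X ^ 9 = (X - X') ^ 9 * xi 1 ^ 9 := by
      have e1 : eta2 xi X' = eta2 xi X + (X - X') * xi 1 := by
        unfold eta2
        ring
      have e2 : eta2 xi X' ^ 9 = (eta2 xi X' ^ 3) ^ 3 := by ring
      rw [e2, e1, diff2_cube_add, diff2_cube_add]
      ring
    have e3 : (X - xi 1 ^ 3) ^ 3 = X ^ 3 - xi 1 ^ 9 := by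
      rw [diff2_cube_sub]
      ring
    rw [BC_d0 hs, map_add, map_sub, map_mul, map_pow, map_pow, sD, hX.rel, hY.rel, hY'.rel, e3]
    linear_combination e
  have hu2 := eta2_coc hxi hX
  have hu2' := eta2_coc hxi hX'
  have hu2c : Coc B 1 (eta2 xi X' ^ 3) := hu2'.cube
  have hv := xi1_coc hxi
  have c1 := hD9.smul (bR_coc hu2)
  have c2 := hD.smul (bR_coc hu2c)
  have c3 := hE.smul (bR_coc hv)
  have c4 := b30_coc hxi hX' hY'
  have hW := diff2W_supp hxi hX.supp hX'.supp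
  have e : b30R B xi X Y = b30R B xi X' Y' - (X - X') ^ 9 * bR B (eta2 xi X)
      + (X - X') * bR B (eta2 xi X' ^ 3) - (Y - Y' + (X - X') ^ 9 * X ^ 3) * bR B (xi 1)
      - d B 1 (diff2W B xi X X') := by
    linear_combination diff2_main (Y := Y) (Y' := Y') hxi hX hX'
  have h0 : cls B 2 (d B 1 (diff2W B xi X X')) = 0 := cls_bdry even_two hW
  unfold b30
  rw [e, cls_sub even_two (((c4.sub c1).add c2).sub c3) (Coc.bdry hW), h0,
    sub_zero, cls_sub even_two ((c4.sub c1).add c2) c3, cls_add even_two (c4.sub c1) c2,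
    cls_sub even_two c4 c1, cls_smul even_two hD9 (bR_coc hu2), cls_smul even_two hD (bR_coc hu2c),
    cls_smul even_two hE (bR_coc hv), c0_pow hD]
  rfl

end P0N
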