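import Pool.Agent.H34.P0.Coh

/-!
# Adjoining a primitive of a 1-cocycle; the free cosimplicial extension
-/

set_option autoImplicit false

namespace P0N

open Finset Polynomial

variable {R : Type} [CommRing R] {S : Type} [CommRing S]

/-- the value of a 1-cochain on the edge from `i` to `j` -/
def pv (A : Cos R) (x : R) (i j : ℕ) : R := A.act (edge i j) x

/-- the triangle `i, j, k` -/
def tri (i j k : ℕ) : ℕ →o ℕ :=
  ⟨fun l => if l = 0 then i else if l = 1 then max i j else max (max i j) k, by
    intro a b h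
    show (if a = 0 then i else if a = 1 then max i j else max (max i j) k) ≤
      (if b = 0 then i else if b = 1 then max i j else max (max i j) k)
    split_ifs <;> omega⟩

@[simp] lemma tri_apply (i j k l : ℕ) :
    tri i j k l = if l = 0 then i else if l = 1 then max i j else max (max i j) k := rfl

theorem pv_add (A : Cos R) {x : R} (hx : Coc A 1 x) {i j k : ℕ} (hij : i ≤ j) (hjk : j ≤ k) :
    pv A x i k = pv A x i j + pv A x j k := by
  have h := congrArg (A.act (tri i j k)) hx.2
  rw [d_apply, map_zero, map_sum] at h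
  simp only [Finset.sum_range_succ, Finset.sum_range_zero, map_mul, ← A.act_comp] at h
  have h0 : A.act ((tri i j k).comp (face 0)) x = pv A x j k := by
    refine hx.1.act_congr fun l hl => ?_
    interval_cases l <;> simp <;> omega
  have h1 : A.act ((tri i j k).comp (face 1)) x = pv A x i k := by
    refine hx.1.act_congr fun l hl => ?_
    interval_cases l <;> simp <;> omega
  have h2 : A.act ((tri i j k).comp (face (1 + 1))) x = pv A x i j := by
    refine hx.1.act_congr fun l hl => ?_
    interval_cases l <;> simp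
  rw [h0, h1, h2] at h
  simp only [pow_zero, pow_one, map_one, map_neg, map_pow] at h
  linear_combination -h

theorem pv_self (A : Cos R) {x : R} (hx : Coc A 1 x) (i : ℕ) : pv A x i i = 0 := by
  have := pv_add A hx (le_refl i) (le_refl i)
  linear_combination -this

theorem act_pv (A : Cos R) {x : R} (hx : Coc A 1 x) (a : ℕ →o ℕ) {i j : ℕ} (h : i ≤ j) :
    A.act a (pv A x i j) = pv A x (a i) (a j) := by
  unfold pv
  rw [← A.act_comp]
  refine hx.1.act_congr fun l hl => ?_
  have := a.monotone h
  interval_cases l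
  · simp
  · simp [max_eq_right h, max_eq_right this]

theorem pv_zero_one (A : Cos R) {x : R} (hx : Coc A 1 x) : pv A x 0 1 = x := by
  refine hx.1.act_eq _ fun l hl => ?_
  interval_cases l <;> simp

theorem act_sh_eq_pv (A : Cos R) {x : R} (hx : Coc A 1 x) (i : ℕ) :
    A.act (sh i) x = pv A x i (i + 1) := by
  refine hx.1.act_congr fun l hl => ?_
  interval_cases l <;> simp <;> omega

/-- the extended action: `X` is the value at the first vertex of a 0-cochain with
`X_i - X_j = x_{ij}` -/
noncomputable def exAct (A : Cos R) (x : R) (a : ℕ →o ℕ) : R[X] →+* R[X] :=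
  eval₂RingHom (C.comp (A.act a)) (X - C (pv A x 0 (a 0)))

@[simp] lemma exAct_C (A : Cos R) (x : R) (a : ℕ →o ℕ) (r : R) :
    exAct A x a (C r) = C (A.act a r) := by
  simp [exAct]
@[simp] lemma exAct_X (A : Cos R) (x : R) (a : ℕ →o ℕ) :
    exAct A x a X = X - C (pv A x 0 (a 0)) := by
  simp [exAct]

/-- adjoin a 0-cochain `X` with `d X = - x` -/
noncomputable def Ex (A : Cos R) (x : R) (hx : Coc A 1 x) : Cos R[X] where
  act := exAct A x
  act_id f := by
    have : exAct A x OrderHom.id = RingHom.id _ := by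
      apply Polynomial.ringHom_ext
      · intro r; simp [A.act_id]
      · simp [pv_self A hx]
    rw [this]; rfl
  act_comp a b f := by
    have : exAct A x (a.comp b) = (exAct A x a).comp (exAct A x b) := by
      apply Polynomial.ringHom_ext
      · intro r; simp [A.act_comp]
      · simp only [exAct_X, RingHom.comp_apply, map_sub, exAct_C]
        rw [act_pv A hx a (Nat.zero_le _), show (a.comp b) 0 = a (b 0) from rfl,
          pv_add A hx (Nat.zero_le _) (a.monotone (Nat.zero_le (b 0)))]
        simp only [map_add]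
        ring
    rw [this]; rfl

@[simp] lemma Ex_C (A : Cos R) (x : R) (hx : Coc A 1 x) (a : ℕ →o ℕ) (r : R) :
    (Ex A x hx).act a (C r) = C (A.act a r) := exAct_C A x a r
@[simp] lemma Ex_X (A : Cos R) (x : R) (hx : Coc A 1 x) (a : ℕ →o ℕ) :
    (Ex A x hx).act a X = X - C (pv A x 0 (a 0)) := exAct_X A x a

lemma Ex_supp_X (A : Cos R) (x : R) (hx : Coc A 1 x) : Supp (Ex A x hx) 0 X := by
  intro a b h
  rw [Ex_X, Ex_X, h 0 le_rfl]

lemma Ex_sh_X (A : Cos R) (x : R) (hx : Coc A 1 x) :
    (Ex A x hx).act (sh 1) X = X - C x := by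
  rw [Ex_X]
  simp [pv_zero_one A hx]

lemma Ex_supp_C (A : Cos R) (x : R) (hx : Coc A 1 x) (n : ℕ) (r : R) :
    Supp (Ex A x hx) n (C r) ↔ Supp A n r := by
  constructor
  · intro h a b hab
    have := h a b hab
    rw [Ex_C, Ex_C] at this
    exact C_injective this
  · intro h a b hab
    rw [Ex_C, Ex_C, h a b hab]

/-- the inclusion -/
noncomputable def inc (A : Cos R) (x : R) (hx : Coc A 1 x) : CHom A (Ex A x hx) where
  f := C
  comm a r := (Ex_C A x hx a r).symm

lemma inc_f (A : Cos R) (x : R) (hx : Coc A 1 x) (r : R) : (inc A x hx).f r = C r := rfl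

lemma Coc.map {A : Cos R} {B : Cos S} (p : CHom A B) {n : ℕ} {f : R} (hf : Coc A n f) :
    Coc B n (p.f f) := ⟨hf.1.map p, by rw [← map_d, hf.2, map_zero]⟩

lemma act_of_sh {B : Cos S} {w y : S} (hy : Coc B 1 y) (hw : Supp B 0 w)
    (hw' : B.act (sh 1) w = w - y) (a : ℕ →o ℕ) : B.act a w = w - pv B y 0 (a 0) := by
  have key : ∀ k : ℕ, B.act (sh k) w = w - pv B y 0 k := by
    intro k
    induction k with
    | zero => rw [act_sh_zero, pv_self B hy, sub_zero]
    | succ k ih =>
      have h1 : B.act (sh (k + 1)) w = B.act (sh k) (B.act (sh 1) w) := (act_sh_sh B k 1 w).symm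
      rw [h1, hw', map_sub, ih, act_sh_eq_pv B hy, pv_add B hy (Nat.zero_le k) (Nat.le_succ k)]
      ring
  rw [← key (a 0)]
  exact hw.act_congr fun i hi => by
    obtain rfl : i = 0 := by omega
    simp

/-- the universal property: a morphism out of `Ex A x` is a morphism out of `A` and a
0-cochain `w` with `d w = - p x` -/
noncomputable def CHom.lift {A : Cos R} {B : Cos S} (p : CHom A B) (x : R) (hx : Coc A 1 x)
    (w : S) (hw : Supp B 0 w) (hw' : B.act (sh 1) w = w - p.f x) : CHom (Ex A x hx) B where
  f := eval₂RingHom p.f w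
  comm a r := by
    have : (eval₂RingHom p.f w).comp ((Ex A x hx).act a) =
        (B.act a).comp (eval₂RingHom p.f w) := by
      apply Polynomial.ringHom_ext
      · intro r; simp [p.comm]
      · simp only [RingHom.comp_apply, Ex_X, map_sub, coe_eval₂RingHom, eval₂_X, eval₂_C]
        rw [act_of_sh (hx.map p) hw hw' a]
        simp [pv, p.comm]
    exact RingHom.congr_fun this r

lemma CHom.lift_C {A : Cos R} {B : Cos S} (p : CHom A B) (x : R) (hx : Coc A 1 x)
    (w : S) (hw : Supp B 0 w) (hw' : B.act (sh 1) w = w - p.f x) (r : R) :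
    (p.lift x hx w hw hw').f (C r) = p.f r := by
  simp [CHom.lift]
lemma CHom.lift_X {A : Cos R} {B : Cos S} (p : CHom A B) (x : R) (hx : Coc A 1 x)
    (w : S) (hw : Supp B 0 w) (hw' : B.act (sh 1) w = w - p.f x) :
    (p.lift x hx w hw hw').f X = w := by
  simp [CHom.lift]

/-- two independent primitives: the twice extended ring -/
noncomputable abbrev Ex2 (A : Cos R) (x : R) (hx : Coc A 1 x) : Cos R[X][X] :=
  Ex (Ex A x hx) (C x) (hx.map (inc A x hx))

/-- first inclusion `X ↦ C X` -/
noncomputable def in1 (A : Cos R) (x : R) (hx : Coc A 1 x) : CHom (Ex A x hx) (Ex2 A x hx) :=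
  inc (Ex A x hx) (C x) (hx.map (inc A x hx))

/-- second inclusion: `X ↦ X`, `C r ↦ C (C r)` -/
noncomputable def in2 (A : Cos R) (x : R) (hx : Coc A 1 x) : CHom (Ex A x hx) (Ex2 A x hx) :=
  ((in1 A x hx).comp (inc A x hx)).lift x hx X (Ex_supp_X _ _ _) (Ex_sh_X _ _ _)

/-- the diagonal `C p ↦ p`, `X ↦ X` -/
noncomputable def dia (A : Cos R) (x : R) (hx : Coc A 1 x) : CHom (Ex2 A x hx) (Ex A x hx) :=
  (CHom.id (Ex A x hx)).lift (C x) (hx.map (inc A x hx)) X (Ex_supp_X _ _ _) (Ex_sh_X _ _ _)

/-! ### the free cosimplicial extension (independent variables at all vertices) -/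

/-- the ring `R[X_0, X_1, ...]` with `X_i ↦ X_{a i}` -/
noncomputable def Gam (A : Cos R) : Cos (MvPolynomial ℕ R) where
  act a := MvPolynomial.eval₂Hom (MvPolynomial.C.comp (A.act a)) (fun i => MvPolynomial.X (a i))
  act_id f := by
    have : MvPolynomial.eval₂Hom (MvPolynomial.C.comp (A.act OrderHom.id))
        (fun i => MvPolynomial.X (OrderHom.id i)) = RingHom.id (MvPolynomial ℕ R) := by
      apply MvPolynomial.ringHom_ext
      · intro r; simp [A.act_id]
      · intro i; simp
    rw [this]; rfl
  act_comp a b f := by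
    have : MvPolynomial.eval₂Hom (MvPolynomial.C.comp (A.act (a.comp b)))
        (fun i => MvPolynomial.X ((a.comp b) i)) =
        (MvPolynomial.eval₂Hom (MvPolynomial.C.comp (A.act a))
          (fun i => MvPolynomial.X (a i))).comp
        (MvPolynomial.eval₂Hom (MvPolynomial.C.comp (A.act b))
          (fun i => (MvPolynomial.X (b i) : MvPolynomial ℕ R))) := by
      apply MvPolynomial.ringHom_ext
      · intro r; simp [A.act_comp]
      · intro i; simp
    rw [this]; rfl

@[simp] lemma Gam_C (A : Cos R) (a : ℕ →o ℕ) (r : R) :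
    (Gam A).act a (MvPolynomial.C r) = MvPolynomial.C (A.act a r) := by
  simp [Gam]
@[simp] lemma Gam_X (A : Cos R) (a : ℕ →o ℕ) (i : ℕ) :
    (Gam A).act a (MvPolynomial.X i) = MvPolynomial.X (a i) := by
  simp [Gam]

/-- the inclusion of constants -/
noncomputable def incG (A : Cos R) : CHom A (Gam A) where
  f := MvPolynomial.C
  comm a r := (Gam_C A a r).symm

/-- restriction: `X_i ↦ X - x_{0i}` -/
noncomputable def resG (A : Cos R) (x : R) (hx : Coc A 1 x) : CHom (Gam A) (Ex A x hx) where
  f := MvPolynomial.eval₂Hom C (fun i => X - C (pv A x 0 i))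
  comm a r := by
    have : (MvPolynomial.eval₂Hom (C : R →+* R[X]) (fun i => X - C (pv A x 0 i))).comp
        ((Gam A).act a) =
        ((Ex A x hx).act a).comp
          (MvPolynomial.eval₂Hom (C : R →+* R[X]) (fun i => X - C (pv A x 0 i))) := by
      apply MvPolynomial.ringHom_ext
      · intro r; simp
      · intro i
        simp only [RingHom.comp_apply, Gam_X, MvPolynomial.eval₂Hom_X', map_sub, Ex_X, Ex_C]
        rw [act_pv A hx a (Nat.zero_le _),
          pv_add A hx (Nat.zero_le _) (a.monotone (Nat.zero_le i))]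
        simp only [map_add]
        ring
    exact RingHom.congr_fun this r

/-- evaluation at zero: `X_i ↦ 0` -/
noncomputable def evG (A : Cos R) : CHom (Gam A) A where
  f := MvPolynomial.eval₂Hom (RingHom.id R) (fun _ => 0)
  comm a r := by
    have : (MvPolynomial.eval₂Hom (RingHom.id R) (fun _ : ℕ => (0 : R))).comp ((Gam A).act a) =
        (A.act a).comp (MvPolynomial.eval₂Hom (RingHom.id R) (fun _ : ℕ => (0 : R))) := by
      apply MvPolynomial.ringHom_ext
      · intro r; simp
      · intro i; simp
    exact RingHom.congr_fun this r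

/-- `X_i - X_{i+1} - x_{i,i+1}` -/
noncomputable def del (A : Cos R) (x : R) (i : ℕ) : MvPolynomial ℕ R :=
  MvPolynomial.X i - MvPolynomial.X (i + 1) - MvPolynomial.C (pv A x i (i + 1))

/-- the ideal generated by products of `n` distinct `del`'s -/
noncomputable def Fil (A : Cos R) (x : R) (n : ℕ) : Ideal (MvPolynomial ℕ R) :=
  Ideal.span {p | ∃ s : Finset ℕ, s.card = n ∧ p = ∏ i ∈ s, del A x i}

end P0N
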