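import Pool.Agent.H34.P0.Cls
import Pool.Agent.H34.P0.Ext

/-!
# Base three digits of polynomials, Hasse derivatives, as operators on cochains
-/

set_option autoImplicit false

namespace P0N

open Finset Polynomial

variable {R : Type} [CommRing R]

theorem coeff_dig_aux (j : ℕ) (p : R[X]) (m : ℕ) :
    (contract 3 (divX^[j] p)).coeff m = p.coeff (3 * m + j) := by
  rw [coeff_contract (by norm_num)]
  induction j generalizing p with
  | zero => simp [mul_comm]
  | succ j ih =>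
    rw [Function.iterate_succ_apply, ih, coeff_divX]
    congr 1

/-- the polynomial `∑ p_{3m+j} X^m` -/
noncomputable def dig (j : ℕ) : R[X] →+ R[X] where
  toFun p := contract 3 (divX^[j] p)
  map_zero' := by
    ext m
    rw [coeff_dig_aux]; simp
  map_add' p q := by
    ext m
    rw [coeff_add, coeff_dig_aux, coeff_dig_aux, coeff_dig_aux, coeff_add]

theorem coeff_dig (j : ℕ) (p : R[X]) (m : ℕ) : (dig j p).coeff m = p.coeff (3 * m + j) :=
  coeff_dig_aux j p m

theorem pv_cube (A : Cos R) [CharP R 3] (z : R) (i j : ℕ) : pv A (z ^ 3) i j = pv A z i j ^ 3 := by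
  simp [pv]

/-! ### decomposition in base three -/

theorem DIG_C_mul (j : ℕ) (r : R) (p : R[X]) : dig j (C r * p) = C r * dig j p := by
  ext m
  rw [coeff_dig, coeff_C_mul, coeff_C_mul, coeff_dig]

theorem DIG_ext {p q : R[X]} (h0 : dig 0 p = dig 0 q) (h1 : dig 1 p = dig 1 q)
    (h2 : dig 2 p = dig 2 q) : p = q := by
  ext n
  obtain ⟨m, rfl | rfl | rfl⟩ : ∃ m, n = 3 * m + 0 ∨ n = 3 * m + 1 ∨ n = 3 * m + 2 :=
    ⟨n / 3, by omega⟩
  · rw [← coeff_dig, ← coeff_dig, h0]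
  · rw [← coeff_dig, ← coeff_dig, h1]
  · rw [← coeff_dig, ← coeff_dig, h2]

theorem DIG_X_pow_E (i j : ℕ) (hi : i < 3) (hj : j < 3) (q : R[X]) :
    dig j (X ^ i * expand R 3 q) = if i = j then q else 0 := by
  ext m
  rw [coeff_dig, coeff_X_pow_mul', coeff_expand (by norm_num)]
  by_cases h : i = j
  · subst h
    rw [if_pos (by omega), if_pos (by omega), if_pos rfl]
    congr 1
    omega
  · rw [if_neg h, coeff_zero]
    split_ifs with h1 h2
    · omega
    · rfl
    · rfl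

theorem DIG_E (j : ℕ) (hj : j < 3) (q0 q1 q2 : R[X]) :
    dig j (expand R 3 q0 + X * expand R 3 q1 + X ^ 2 * expand R 3 q2) =
      if j = 0 then q0 else if j = 1 then q1 else q2 := by
  have e : expand R 3 q0 + X * expand R 3 q1 + X ^ 2 * expand R 3 q2 =
      X ^ 0 * expand R 3 q0 + X ^ 1 * expand R 3 q1 + X ^ 2 * expand R 3 q2 := by
    rw [pow_zero, one_mul, pow_one]
  rw [e, map_add, map_add, DIG_X_pow_E 0 j (by omega) hj, DIG_X_pow_E 1 j (by omega) hj,
    DIG_X_pow_E 2 j (by omega) hj]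
  interval_cases j <;> simp

theorem DIG_decomp (p : R[X]) :
    p = expand R 3 (dig 0 p) + X * expand R 3 (dig 1 p) + X ^ 2 * expand R 3 (dig 2 p) := by
  apply DIG_ext
  · rw [DIG_E 0 (by omega)]; simp
  · rw [DIG_E 1 (by omega)]; simp
  · rw [DIG_E 2 (by omega)]; simp

theorem DIG_exAct_E (A : Cos R) [CharP R 3] (z : R) (a : ℕ →o ℕ) (q : R[X]) :
    exAct A z a (expand R 3 q) = expand R 3 (exAct A (z ^ 3) a q) := by
  have _ : Fact (Nat.Prime 3) := ⟨Nat.prime_three⟩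
  have : (exAct A z a).comp (expand R 3 : R[X] →ₐ[R] R[X]).toRingHom =
      ((expand R 3 : R[X] →ₐ[R] R[X]).toRingHom).comp (exAct A (z ^ 3) a) := by
    apply Polynomial.ringHom_ext
    · intro r
      simp
    · simp only [RingHom.comp_apply, AlgHom.toRingHom_eq_coe, RingHom.coe_coe, expand_X, map_pow,
        exAct_X, map_sub, expand_C, pv_cube]
      rw [sub_pow_char]
  exact RingHom.congr_fun this q

theorem DIG_sq_char (c : R) [CharP R 3] :
    (X - C c) ^ 2 = X ^ 2 + C c * X + C (c ^ 2) := by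
  have h3 : (3 : R[X]) = 0 := by exact_mod_cast CharP.cast_eq_zero R[X] 3
  rw [C_pow]
  linear_combination (- C c * X) * h3

theorem DIG_exAct (A : Cos R) [CharP R 3] (z : R) (a : ℕ →o ℕ) (p : R[X]) :
    exAct A z a p =
      expand R 3 (exAct A (z ^ 3) a (dig 0 p) - C (pv A z 0 (a 0)) * exAct A (z ^ 3) a (dig 1 p)
        + C (pv A z 0 (a 0) ^ 2) * exAct A (z ^ 3) a (dig 2 p)) +
      X * expand R 3 (exAct A (z ^ 3) a (dig 1 p) +
        C (pv A z 0 (a 0)) * exAct A (z ^ 3) a (dig 2 p)) +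
      X ^ 2 * expand R 3 (exAct A (z ^ 3) a (dig 2 p)) := by
  conv_lhs => rw [DIG_decomp p]
  rw [map_add, map_add, map_mul, map_mul, map_pow, exAct_X, DIG_exAct_E, DIG_exAct_E,
    DIG_exAct_E, DIG_sq_char]
  simp only [map_add, map_sub, map_mul, map_pow, expand_C]
  ring

theorem dig2_exAct (A : Cos R) [CharP R 3] (z : R) (a : ℕ →o ℕ) (p : R[X]) :
    dig 2 (exAct A z a p) = exAct A (z ^ 3) a (dig 2 p) := by
  rw [DIG_exAct, DIG_E 2 (by omega)]; simp

theorem dig1_exAct (A : Cos R) [CharP R 3] (z : R) (a : ℕ →o ℕ) (p : R[X]) :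
    dig 1 (exAct A z a p) =
      exAct A (z ^ 3) a (dig 1 p) + C (pv A z 0 (a 0)) * exAct A (z ^ 3) a (dig 2 p) := by
  rw [DIG_exAct, DIG_E 1 (by omega)]; simp

theorem dig0_exAct (A : Cos R) [CharP R 3] (z : R) (a : ℕ →o ℕ) (p : R[X]) :
    dig 0 (exAct A z a p) =
      exAct A (z ^ 3) a (dig 0 p) - C (pv A z 0 (a 0)) * exAct A (z ^ 3) a (dig 1 p)
        + C (pv A z 0 (a 0) ^ 2) * exAct A (z ^ 3) a (dig 2 p) := by
  rw [DIG_exAct, DIG_E 0 (by omega)]; simp

theorem DIG_hasse_map (f : R →+* R) (k : ℕ) (p : R[X]) :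
    hasseDeriv k (p.map f) = (hasseDeriv k p).map f := by
  ext n
  rw [hasseDeriv_coeff, coeff_map, coeff_map, hasseDeriv_coeff, map_mul, map_natCast]

theorem DIG_hasse_hasse (k l : ℕ) (p : R[X]) :
    hasseDeriv k (hasseDeriv l p) = ((k + l).choose k : R[X]) * hasseDeriv (k + l) p := by
  have h := LinearMap.congr_fun (hasseDeriv_comp (R := R) k l) p
  rw [LinearMap.comp_apply] at h
  rw [h]
  simp

theorem DIG_hasse_taylor (r : R) (k : ℕ) (p : R[X]) :
    hasseDeriv k (taylor r p) = taylor r (hasseDeriv k p) := by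
  ext n
  rw [hasseDeriv_coeff, taylor_coeff, taylor_coeff, DIG_hasse_hasse, eval_mul, eval_natCast]
  congr 2
  rw [Nat.choose_symm_add]

theorem DIG_exAct_taylor (A : Cos R) (z : R) (a : ℕ →o ℕ) (p : R[X]) :
    exAct A z a p = taylor (- pv A z 0 (a 0)) (p.map (A.act a)) := by
  rw [taylor_apply, exAct, coe_eval₂RingHom, comp, eval₂_map]
  congr 1
  rw [C_neg, sub_eq_add_neg]

/-- Hasse derivatives commute with the action -/
theorem hasseDeriv_exAct (A : Cos R) (z : R) (a : ℕ →o ℕ) (k : ℕ) (p : R[X]) :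
    hasseDeriv k (exAct A z a p) = exAct A z a (hasseDeriv k p) := by
  rw [DIG_exAct_taylor, DIG_exAct_taylor, DIG_hasse_taylor, DIG_hasse_map]

theorem dig_supp (A : Cos R) [CharP R 3] (z : R) (hz : Coc A 1 z) (j : Fin 3) (n : ℕ)
    (p : R[X]) (hp : Supp (Ex A z hz) n p) : Supp (Ex A (z ^ 3) hz.cube) n (dig j p) := by
  intro a b hab
  have h : exAct A z a p = exAct A z b p := hp a b hab
  have h0 : a 0 = b 0 := hab 0 (Nat.zero_le n)
  show exAct A (z ^ 3) a (dig j p) = exAct A (z ^ 3) b (dig j p)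
  have e2 : exAct A (z ^ 3) a (dig 2 p) = exAct A (z ^ 3) b (dig 2 p) := by
    rw [← dig2_exAct, ← dig2_exAct, h]
  have e1 : exAct A (z ^ 3) a (dig 1 p) = exAct A (z ^ 3) b (dig 1 p) := by
    have h1 := congrArg (dig 1) h
    rw [dig1_exAct, dig1_exAct, e2, h0] at h1
    exact add_right_cancel h1
  have e0 : exAct A (z ^ 3) a (dig 0 p) = exAct A (z ^ 3) b (dig 0 p) := by
    have h1 := congrArg (dig 0) h
    rw [dig0_exAct, dig0_exAct, e2, e1, h0] at h1
    exact sub_left_injective (add_right_cancel h1)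
  fin_cases j
  · exact e0
  · exact e1
  · exact e2

theorem hasse_supp (A : Cos R) (z : R) (hz : Coc A 1 z) (k : ℕ) (n : ℕ)
    (p : R[X]) (hp : Supp (Ex A z hz) n p) : Supp (Ex A z hz) n (hasseDeriv k p) := by
  intro a b hab
  show exAct A z a (hasseDeriv k p) = exAct A z b (hasseDeriv k p)
  rw [← hasseDeriv_exAct, ← hasseDeriv_exAct]
  exact congrArg _ (hp a b hab)

/-- digit extraction on cochains -/
noncomputable def digC (A : Cos R) [CharP R 3] (z : R) (hz : Coc A 1 z) (j : Fin 3) :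
    ↥(Coch (Ex A z hz)) →+ ↥(Coch (Ex A (z ^ 3) hz.cube)) where
  toFun F := ⟨⟨fun n => dig j (F.1.c n)⟩, fun n => dig_supp A z hz j n _ (F.2 n)⟩
  map_zero' := by apply coch_ext; intro n; exact map_zero (dig (j : ℕ))
  map_add' F G := by apply coch_ext; intro n; exact map_add (dig (j : ℕ)) _ _

/-- the Hasse derivative of order `3^s` on cochains -/
noncomputable def hdC (A : Cos R) (z : R) (hz : Coc A 1 z) (s : ℕ) :
    ↥(Coch (Ex A z hz)) →+ ↥(Coch (Ex A z hz)) where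
  toFun F := ⟨⟨fun n => hasseDeriv (3 ^ s) (F.1.c n)⟩,
    fun n => hasse_supp A z hz (3 ^ s) n _ (F.2 n)⟩
  map_zero' := by apply coch_ext; intro n; exact map_zero (hasseDeriv (3 ^ s))
  map_add' F G := by apply coch_ext; intro n; exact map_add (hasseDeriv (3 ^ s)) _ _

@[simp] theorem digC_c (A : Cos R) [CharP R 3] (z : R) (hz : Coc A 1 z) (j : Fin 3)
    (F : ↥(Coch (Ex A z hz))) (n : ℕ) : (digC A z hz j F).1.c n = dig j (F.1.c n) := rfl
@[simp] theorem hdC_c (A : Cos R) (z : R) (hz : Coc A 1 z) (s : ℕ)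
    (F : ↥(Coch (Ex A z hz))) (n : ℕ) :
    (hdC A z hz s F).1.c n = hasseDeriv (3 ^ s) (F.1.c n) := rfl

/-- `z` and its pointwise square as cochains of `Ex A (z^3)` -/
noncomputable def zC (A : Cos R) [CharP R 3] (z : R) (hz : Coc A 1 z) :
    ↥(Coch (Ex A (z ^ 3) hz.cube)) := sg (Ex A (z ^ 3) hz.cube) 1 (C z)
/-- the pointwise square -/
noncomputable def z2C (A : Cos R) [CharP R 3] (z : R) (hz : Coc A 1 z) :
    ↥(Coch (Ex A (z ^ 3) hz.cube)) := sg (Ex A (z ^ 3) hz.cube) 1 (C (z ^ 2))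

theorem DIG_sh_one : sh 1 = face 0 := by
  ext k; simp

theorem DIG_pv_face (A : Cos R) (z : R) (hz : Coc A 1 z) (i : ℕ) :
    pv A z 0 (face i 0) = if i = 0 then z else 0 := by
  by_cases h : i = 0
  · subst h
    rw [if_pos rfl]
    have : face 0 0 = 1 := by simp
    rw [this, pv_zero_one A hz]
  · rw [if_neg h]
    have : face i 0 = 0 := by simp; omega
    rw [this, pv_self A hz]

theorem DIG_sg_mul (B : Cos R) (z : R) (hz : Supp B 1 z) (v : ↥(Coch B)) (n : ℕ) :
    (sg B 1 z * v).1.c (n + 1) = z * B.act (face 0) (v.1.c n) := by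
  rw [mul_c', Finset.sum_eq_single (1, n)]
  · rw [sg_c hz, if_pos rfl, DIG_sh_one]
  · rintro ⟨i, j⟩ h hne
    have h' : i + j = n + 1 := mem_ad.1 h
    rw [sg_c hz, if_neg, zero_mul]
    rintro rfl
    apply hne
    rw [Prod.mk.injEq]
    exact ⟨rfl, by omega⟩
  · intro h
    exact absurd (mem_ad.2 (by omega)) h

theorem DIG_sg_mul_zero (B : Cos R) (z : R) (hz : Supp B 1 z) (v : ↥(Coch B)) :
    (sg B 1 z * v).1.c 0 = 0 := by
  rw [mul_c', Finset.sum_eq_zero]
  rintro ⟨i, j⟩ h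
  have h' : i + j = 0 := mem_ad.1 h
  rw [sg_c hz, if_neg (by omega), zero_mul]

theorem DIG_neg_pow_mul (j i : ℕ) (p : R[X]) : dig j ((-1) ^ i * p) = (-1) ^ i * dig j p := by
  rw [show ((-1 : R[X]) ^ i) = C ((-1) ^ i) by simp, DIG_C_mul]

theorem DIG_d (A : Cos R) (z : R) (hz : Coc A 1 z) (j n : ℕ) (p : R[X]) :
    dig j (d (Ex A z hz) n p) =
      ∑ i ∈ range (n + 2), (-1) ^ i * dig j (exAct A z (face i) p) := by
  rw [d_apply, map_sum]
  exact Finset.sum_congr rfl fun i _ => DIG_neg_pow_mul j i _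

theorem DIG_sum_ite (n : ℕ) (a : ℕ → R[X]) (b : R[X]) :
    ∑ i ∈ range (n + 2), (-1) ^ i * (a i + if i = 0 then b else 0) =
      (∑ i ∈ range (n + 2), (-1) ^ i * a i) + b := by
  simp only [mul_add, Finset.sum_add_distrib]
  congr 1
  rw [Finset.sum_eq_single 0]
  · simp
  · intro i _ hi
    rw [if_neg hi, mul_zero]
  · intro h
    exact absurd (Finset.mem_range.2 (by omega)) h

theorem digC0_dC (A : Cos R) [CharP R 3] (z : R) (hz : Coc A 1 z) (v : ↥(Coch (Ex A z hz))) :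
    digC A z hz 0 (dC _ v) =
      dC _ (digC A z hz 0 v) - zC A z hz * digC A z hz 1 v + z2C A z hz * digC A z hz 2 v := by
  have s1 : Supp (Ex A (z ^ 3) hz.cube) 1 (C z) := (Ex_supp_C _ _ _ _ _).2 hz.1
  have s2 : Supp (Ex A (z ^ 3) hz.cube) 1 (C (z ^ 2)) := (Ex_supp_C _ _ _ _ _).2 (hz.1.pow 2)
  apply coch_ext
  intro n
  cases n with
  | zero =>
    rw [digC_c, add_c', sub_c', dC_zero, dC_zero, zC, z2C, DIG_sg_mul_zero _ _ s1,
      DIG_sg_mul_zero _ _ s2, map_zero]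
    ring
  | succ n =>
    rw [digC_c, add_c', sub_c', dC_succ, dC_succ, zC, z2C, DIG_sg_mul _ _ s1,
      DIG_sg_mul _ _ s2, digC_c, digC_c, digC_c]
    show dig 0 (d (Ex A z hz) n (v.1.c n)) = d (Ex A (z ^ 3) hz.cube) n (dig 0 (v.1.c n)) -
      C z * exAct A (z ^ 3) (face 0) (dig 1 (v.1.c n)) +
      C (z ^ 2) * exAct A (z ^ 3) (face 0) (dig 2 (v.1.c n))
    rw [DIG_d, d_apply]
    have key : ∀ i, dig 0 (exAct A z (face i) (v.1.c n)) =
        exAct A (z ^ 3) (face i) (dig 0 (v.1.c n)) + if i = 0 then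
          (- (C z * exAct A (z ^ 3) (face 0) (dig 1 (v.1.c n))) +
            C (z ^ 2) * exAct A (z ^ 3) (face 0) (dig 2 (v.1.c n))) else 0 := by
      intro i
      rw [dig0_exAct, DIG_pv_face A z hz]
      by_cases hi : i = 0
      · subst hi
        rw [if_pos rfl, if_pos rfl]
        ring
      · rw [if_neg hi, if_neg hi]
        simp
    simp only [key]
    rw [DIG_sum_ite]
    show (∑ i ∈ range (n + 2), (-1) ^ i * exAct A (z ^ 3) (face i) (dig 0 (v.1.c n))) + _ =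
      (∑ i ∈ range (n + 2), (-1) ^ i * exAct A (z ^ 3) (face i) (dig 0 (v.1.c n))) - _ + _
    ring
theorem digC1_dC (A : Cos R) [CharP R 3] (z : R) (hz : Coc A 1 z) (v : ↥(Coch (Ex A z hz))) :
    digC A z hz 1 (dC _ v) = dC _ (digC A z hz 1 v) + zC A z hz * digC A z hz 2 v := by
  have s1 : Supp (Ex A (z ^ 3) hz.cube) 1 (C z) := (Ex_supp_C _ _ _ _ _).2 hz.1
  apply coch_ext
  intro n
  cases n with
  | zero =>
    rw [digC_c, add_c', dC_zero, dC_zero, zC, DIG_sg_mul_zero _ _ s1, map_zero]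
    ring
  | succ n =>
    rw [digC_c, add_c', dC_succ, dC_succ, zC, DIG_sg_mul _ _ s1, digC_c, digC_c]
    show dig 1 (d (Ex A z hz) n (v.1.c n)) = d (Ex A (z ^ 3) hz.cube) n (dig 1 (v.1.c n)) +
      C z * exAct A (z ^ 3) (face 0) (dig 2 (v.1.c n))
    rw [DIG_d, d_apply]
    have key : ∀ i, dig 1 (exAct A z (face i) (v.1.c n)) =
        exAct A (z ^ 3) (face i) (dig 1 (v.1.c n)) + if i = 0 then
          (C z * exAct A (z ^ 3) (face 0) (dig 2 (v.1.c n))) else 0 := by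
      intro i
      rw [dig1_exAct, DIG_pv_face A z hz]
      by_cases hi : i = 0
      · subst hi
        rw [if_pos rfl, if_pos rfl]
      · rw [if_neg hi, if_neg hi]
        simp
    simp only [key]
    rw [DIG_sum_ite]
    rfl
theorem digC2_dC (A : Cos R) [CharP R 3] (z : R) (hz : Coc A 1 z) (v : ↥(Coch (Ex A z hz))) :
    digC A z hz 2 (dC _ v) = dC _ (digC A z hz 2 v) := by
  apply coch_ext
  intro n
  cases n with
  | zero =>
    rw [digC_c, dC_zero, dC_zero, map_zero]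
  | succ n =>
    rw [digC_c, dC_succ, dC_succ, digC_c]
    show dig 2 (d (Ex A z hz) n (v.1.c n)) = d (Ex A (z ^ 3) hz.cube) n (dig 2 (v.1.c n))
    rw [DIG_d, d_apply]
    refine Finset.sum_congr rfl fun i _ => ?_
    rw [dig2_exAct]
    rfl

theorem DIG_three_R [CharP R 3] : (3 : R) = 0 := by
  exact_mod_cast CharP.cast_eq_zero R 3

theorem digC0_hdC (A : Cos R) [CharP R 3] (z : R) (hz : Coc A 1 z) (v : ↥(Coch (Ex A z hz))) :
    digC A z hz 0 (hdC A z hz 0 v) = digC A z hz 1 v := by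
  have h3 : (3 : R) = 0 := DIG_three_R
  apply coch_ext
  intro n
  rw [digC_c, digC_c, hdC_c]
  show dig 0 (hasseDeriv (3 ^ 0) (v.1.c n)) = dig 1 (v.1.c n)
  ext m
  rw [coeff_dig, coeff_dig, hasseDeriv_coeff, pow_zero, Nat.choose_one_right]
  push_cast
  rw [h3]
  simp
theorem digC1_hdC (A : Cos R) [CharP R 3] (z : R) (hz : Coc A 1 z) (v : ↥(Coch (Ex A z hz))) :
    digC A z hz 1 (hdC A z hz 0 v) = - digC A z hz 2 v := by
  have h3 : (3 : R) = 0 := DIG_three_R
  apply coch_ext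
  intro n
  rw [neg_c', digC_c, digC_c, hdC_c]
  show dig 1 (hasseDeriv (3 ^ 0) (v.1.c n)) = - dig 2 (v.1.c n)
  ext m
  rw [coeff_neg, coeff_dig, coeff_dig, hasseDeriv_coeff, pow_zero, Nat.choose_one_right]
  push_cast
  linear_combination ((m + 1) * (v.1.c n).coeff (3 * m + 1 + 1)) * h3
theorem digC2_hdC (A : Cos R) [CharP R 3] (z : R) (hz : Coc A 1 z) (v : ↥(Coch (Ex A z hz))) :
    digC A z hz 2 (hdC A z hz 0 v) = 0 := by
  have h3 : (3 : R) = 0 := DIG_three_R
  apply coch_ext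
  intro n
  rw [digC_c, hdC_c, zero_c']
  show dig 2 (hasseDeriv (3 ^ 0) (v.1.c n)) = 0
  ext m
  rw [coeff_zero, coeff_dig, hasseDeriv_coeff, pow_zero, Nat.choose_one_right]
  push_cast
  linear_combination ((m + 1) * (v.1.c n).coeff (3 * m + 2 + 1)) * h3
theorem DIG_choose [CharP R 3] (m j s : ℕ) (hj : j < 3) :
    (((3 * m + j + 3 ^ (s + 1)).choose (3 ^ (s + 1)) : ℕ) : R) =
      (((m + 3 ^ s).choose (3 ^ s) : ℕ) : R) := by
  have _ : Fact (Nat.Prime 3) := ⟨Nat.prime_three⟩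
  have h := Choose.choose_modEq_choose_mod_mul_choose_div_nat
    (n := 3 * m + j + 3 ^ (s + 1)) (k := 3 ^ (s + 1)) (p := 3)
  have e1 : 3 ^ (s + 1) % 3 = 0 := by rw [pow_succ]; omega
  have e2 : 3 ^ (s + 1) / 3 = 3 ^ s := by rw [pow_succ]; omega
  have e3 : (3 * m + j + 3 ^ (s + 1)) / 3 = m + 3 ^ s := by rw [pow_succ]; omega
  rw [e1, e2, e3, Nat.choose_zero_right, one_mul] at h
  exact (CharP.natCast_eq_natCast R 3).2 h
theorem digC_hdC_succ (A : Cos R) [CharP R 3] (z : R) (hz : Coc A 1 z) (j : Fin 3) (s : ℕ)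
    (v : ↥(Coch (Ex A z hz))) :
    digC A z hz j (hdC A z hz (s + 1) v) = hdC A (z ^ 3) hz.cube s (digC A z hz j v) := by
  apply coch_ext
  intro n
  rw [digC_c, hdC_c, hdC_c, digC_c]
  ext m
  rw [coeff_dig, hasseDeriv_coeff, hasseDeriv_coeff, coeff_dig, DIG_choose _ _ _ j.2]
  congr 2
  rw [pow_succ]
  ring

/-- additive maps commuting with the action commute with `d` -/
theorem DIG_hasse_d (A : Cos R) (z : R) (hz : Coc A 1 z) (k n : ℕ) (p : R[X]) :
    hasseDeriv k (d (Ex A z hz) n p) = d (Ex A z hz) n (hasseDeriv k p) := by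
  rw [d_apply, d_apply, map_sum]
  refine Finset.sum_congr rfl fun i _ => ?_
  rw [show ((-1 : R[X]) ^ i) = C ((-1) ^ i) by simp, ← smul_eq_C_mul, map_smul, smul_eq_C_mul]
  congr 1
  exact hasseDeriv_exAct A z (face i) k p

/-- commuting chain maps with cube zero -/
theorem hdC_ops (A : Cos R) [CharP R 3] (z : R) (hz : Coc A 1 z) :
    Ops (dC (Ex A z hz)) (hdC A z hz) where
  comm_d s v := by
    apply coch_ext
    intro n
    cases n with
    | zero => rw [hdC_c, dC_zero, dC_zero, map_zero]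
    | succ n => rw [hdC_c, dC_succ, dC_succ, hdC_c, DIG_hasse_d]
  cube s v := by
    apply coch_ext
    intro n
    rw [hdC_c, hdC_c, hdC_c, zero_c', DIG_hasse_hasse, DIG_hasse_hasse]
    have e : 3 ^ s + 3 ^ s + 3 ^ s = 3 ^ (s + 1) := by rw [pow_succ]; ring
    have h : ((3 ^ (s + 1)).choose (3 ^ s + 3 ^ s) : R[X]) = 0 := by
      rw [CharP.cast_eq_zero_iff R[X] 3]
      have : 0 < 3 ^ s := by positivity
      apply Nat.Prime.dvd_choose_pow Nat.prime_three
      · omega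
      · rw [pow_succ]
        omega
    rw [e, h]
    simp
  comm s t v := by
    apply coch_ext
    intro n
    rw [hdC_c, hdC_c, hdC_c, hdC_c, DIG_hasse_hasse, DIG_hasse_hasse, Nat.choose_symm_add,
      add_comm (3 ^ s)]

/-- Hasse derivatives are linear over the constants -/
theorem hdC_mul (A : Cos R) [CharP R 3] (z : R) (hz : Coc A 1 z) (s : ℕ) (a : ↥(Coch A))
    (v : ↥(Coch (Ex A z hz))) :
    hdC A z hz s ((inc A z hz).D.f a * v) = (inc A z hz).D.f a * hdC A z hz s v := by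
  apply coch_ext
  intro n
  rw [hdC_c, mul_c', mul_c', map_sum]
  refine Finset.sum_congr rfl fun p _ => ?_
  rw [CHom.D_c, inc_f, hdC_c, ← smul_eq_C_mul, map_smul, smul_eq_C_mul]
  congr 1
  exact hasseDeriv_exAct A z (sh p.1) (3 ^ s) (v.1.c p.2)

theorem hdC_inc (A : Cos R) [CharP R 3] (z : R) (hz : Coc A 1 z) (s : ℕ) (a : ↥(Coch A)) :
    hdC A z hz s ((inc A z hz).D.f a) = 0 := by
  apply coch_ext
  intro n
  rw [hdC_c, CHom.D_c, inc_f, zero_c']
  exact hasseDeriv_C _ _ (by positivity)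

/-- digits of constants -/
theorem digC0_inc (A : Cos R) [CharP R 3] (z : R) (hz : Coc A 1 z) (a : ↥(Coch A)) :
    digC A z hz 0 ((inc A z hz).D.f a) = (inc A (z ^ 3) hz.cube).D.f a := by
  apply coch_ext
  intro n
  rw [digC_c, CHom.D_c, CHom.D_c, inc_f, inc_f]
  show dig 0 (C (a.1.c n)) = C (a.1.c n)
  ext m
  rw [coeff_dig, coeff_C, coeff_C]
  by_cases hm : m = 0
  · subst hm; simp
  · rw [if_neg (by omega), if_neg hm]

end P0N
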