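import Pool.Agent.H34.P0.Climb

/-!
# The chain map of the periodic resolution (one digit)
-/

set_option autoImplicit false

namespace P0N

open Finset

variable {C : Type} [Ring C] {M : Type} [AddCommGroup M]

/-- the map `R` -/
def Rm (p0 p1 p2 : M →+ C) (z z2 g θ b : C) (N : ℕ) (hN : 1 ≤ N) : (Fin (2 * N) → M) →+ C where
  toFun v :=
    (∑ i : Fin N, (-1 : C) ^ (i : ℕ) * (g * b ^ (i : ℕ) *
      (p0 (v ⟨2 * i, by omega⟩) + z * p0 (v ⟨2 * i + 1, by omega⟩)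
        + z2 * p1 (v ⟨2 * i + 1, by omega⟩))))
    - (-1 : C) ^ (N - 1) * (θ * p2 (v ⟨2 * N - 1, by omega⟩))
  map_zero' := by simp
  map_add' v w := by
    simp only [Pi.add_apply, map_add, mul_add, Finset.sum_add_distrib]
    abel

/-- `Rm` as a sum over a range, in terms of the extension by zero -/
theorem rmap_apply (p0 p1 p2 : M →+ C) (z z2 g θ b : C) (N : ℕ) (hN : 1 ≤ N)
    (v : Fin (2 * N) → M) :
    Rm p0 p1 p2 z z2 g θ b N hN v =
      (∑ i ∈ range N, (-1 : C) ^ i * (g * b ^ i *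
        (p0 (climb_ext v (2 * i)) + z * p0 (climb_ext v (2 * i + 1))
          + z2 * p1 (climb_ext v (2 * i + 1)))))
      - (-1 : C) ^ (N - 1) * (θ * p2 (climb_ext v (2 * N - 1))) := by
  have h : ∀ (j : ℕ) (hj : j < 2 * N), v ⟨j, hj⟩ = climb_ext v j := fun j hj =>
    (climb_ext_val v ⟨j, hj⟩).symm
  rw [Finset.sum_range]
  change (∑ i : Fin N, (-1 : C) ^ (i : ℕ) * (g * b ^ (i : ℕ) *
      (p0 (v ⟨2 * i, by omega⟩) + z * p0 (v ⟨2 * i + 1, by omega⟩)
        + z2 * p1 (v ⟨2 * i + 1, by omega⟩))))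
    - (-1 : C) ^ (N - 1) * (θ * p2 (v ⟨2 * N - 1, by omega⟩)) = _
  rw [h]
  congr 1
  refine Finset.sum_congr rfl fun i _ => ?_
  rw [h, h]

theorem rmap_even (dM D : M →+ M) (N : ℕ) (v : Fin (2 * N) → M) (i : ℕ) (hi : i < N) :
    climb_ext (tld (2 * N) dM D v) (2 * i) = dM (climb_ext v (2 * i)) +
      (if i = 0 then 0 else D (D (climb_ext v (2 * i - 1)))) := by
  have h1 : climb_ext (tld (2 * N) dM D v) (2 * i) = tld (2 * N) dM D v ⟨2 * i, by omega⟩ :=
    climb_ext_val _ ⟨2 * i, by omega⟩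
  have h2 : v ⟨2 * i, by omega⟩ = climb_ext v (2 * i) := (climb_ext_val v ⟨2 * i, by omega⟩).symm
  rw [h1, climb_tld, h2]
  congr 1
  · change ((-1 : ℤ) ^ (2 * i)) • dM (climb_ext v (2 * i)) = _
    rw [pow_mul]; simp
  · change climb_op D (2 * i) (climb_ext v (2 * i - 1)) = _
    unfold climb_op
    by_cases h0 : i = 0
    · rw [if_pos (by omega), if_pos h0]; rfl
    · rw [if_neg (by omega), if_neg h0, if_neg (by
        rw [Nat.not_odd_iff_even]; exact even_two_mul i)]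
      rfl

theorem rmap_odd (dM D : M →+ M) (N : ℕ) (v : Fin (2 * N) → M) (i : ℕ) (hi : i < N) :
    climb_ext (tld (2 * N) dM D v) (2 * i + 1) =
      - dM (climb_ext v (2 * i + 1)) + D (climb_ext v (2 * i)) := by
  have h1 : climb_ext (tld (2 * N) dM D v) (2 * i + 1) =
      tld (2 * N) dM D v ⟨2 * i + 1, by omega⟩ := climb_ext_val _ ⟨2 * i + 1, by omega⟩
  have h2 : v ⟨2 * i + 1, by omega⟩ = climb_ext v (2 * i + 1) :=
    (climb_ext_val v ⟨2 * i + 1, by omega⟩).symm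
  rw [h1, climb_tld, h2]
  congr 1
  · change ((-1 : ℤ) ^ (2 * i + 1)) • dM (climb_ext v (2 * i + 1)) = _
    rw [pow_succ, pow_mul]; simp
  · change climb_op D (2 * i + 1) (climb_ext v (2 * i + 1 - 1)) = _
    unfold climb_op
    rw [if_neg (by omega), if_pos ⟨i, rfl⟩, Nat.add_sub_cancel]

theorem rmap_telescope (B : ℕ → C) (N : ℕ) (hN : 1 ≤ N) :
    (∑ i ∈ range N, (-1 : C) ^ i * B (i + 1)) +
      (∑ i ∈ range N, (-1 : C) ^ i * (if i = 0 then 0 else B i)) =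
      (-1 : C) ^ (N - 1) * B N := by
  obtain ⟨n, rfl⟩ : ∃ n, N = n + 1 := ⟨N - 1, by omega⟩
  rw [Finset.sum_range_succ, Finset.sum_range_succ' (fun i => (-1 : C) ^ i *
    (if i = 0 then 0 else B i))]
  simp only [Nat.add_eq_zero_iff, one_ne_zero, and_false, if_false, if_true, mul_zero, add_zero,
    Nat.add_sub_cancel]
  have h : (∑ i ∈ range n, (-1 : C) ^ (i + 1) * B (i + 1)) =
      - ∑ i ∈ range n, (-1 : C) ^ i * B (i + 1) := by
    rw [← Finset.sum_neg_distrib]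
    refine Finset.sum_congr rfl fun i _ => ?_
    rw [pow_succ]
    noncomm_ring
  rw [h]
  abel

/-- `R` is a chain map -/
theorem Rm_tld (G : DGA C) (dM D : M →+ M) (p0 p1 p2 : M →+ C) (z z2 g θ : C) (N : ℕ)
    (hN : 1 ≤ N) (hz : G.d z = 0) (hzτ : G.τ z = -z) (hz2 : G.d z2 = z * z)
    (hz2τ : G.τ z2 = -z2) (hg : G.d g = 0) (hgτ : G.τ g = g)
    (hθ : G.d θ = g * (z * z2 + z2 * z) ^ N) (hθτ : G.τ θ = -θ)
    (h0 : ∀ v, p0 (dM v) = G.d (p0 v) - z * p1 v + z2 * p2 v)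
    (h1 : ∀ v, p1 (dM v) = G.d (p1 v) + z * p2 v)
    (h2 : ∀ v, p2 (dM v) = G.d (p2 v))
    (hD0 : ∀ v, p0 (D v) = p1 v) (hD1 : ∀ v, p1 (D v) = - p2 v) (hD2 : ∀ v, p2 (D v) = 0)
    (v : Fin (2 * N) → M) :
    Rm p0 p1 p2 z z2 g θ (z * z2 + z2 * z) N hN (tld (2 * N) dM D v) =
      G.d (Rm p0 p1 p2 z z2 g θ (z * z2 + z2 * z) N hN v) := by
  rw [rmap_apply, rmap_apply]
  set b : C := z * z2 + z2 * z with hb
  have hdb : G.d b = 0 := by
    rw [hb, map_add, G.leib, G.leib, hz, hz2, hzτ, hz2τ]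
    noncomm_ring
  have hτb : G.τ b = b := by
    rw [hb, map_add, map_mul, map_mul, hzτ, hz2τ]
    noncomm_ring
  have hd1 : G.d 1 = 0 := by
    have := (G.Z).one_mem
    exact this.2
  have hdbi : ∀ i : ℕ, G.d (b ^ i) = 0 := by
    intro i
    induction i with
    | zero => rw [pow_zero]; exact hd1
    | succ i ih => rw [pow_succ, G.leib, ih, hdb, zero_mul, mul_zero, add_zero]
  have hτbi : ∀ i : ℕ, G.τ (b ^ i) = b ^ i := fun i => by rw [map_pow, hτb]
  have hdg : ∀ (i : ℕ) (x : C), G.d (g * b ^ i * x) = g * b ^ i * G.d x := by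
    intro i x
    rw [G.leib, G.leib, hg, hdbi, map_mul, hgτ, hτbi]
    simp
  have hdneg : ∀ (i : ℕ) (x : C), G.d ((-1 : C) ^ i * x) = (-1 : C) ^ i * G.d x := by
    intro i x
    rcases Nat.even_or_odd i with h | h
    · rw [h.neg_one_pow, one_mul, one_mul]
    · rw [h.neg_one_pow, neg_one_mul, neg_one_mul, map_neg]
  set V : ℕ → M := climb_ext v with hV
  -- the components
  have hP : ∀ i ∈ range N,
      (-1 : C) ^ i * (g * b ^ i *
        (p0 (climb_ext (tld (2 * N) dM D v) (2 * i)) +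
          z * p0 (climb_ext (tld (2 * N) dM D v) (2 * i + 1))
          + z2 * p1 (climb_ext (tld (2 * N) dM D v) (2 * i + 1)))) =
      (-1 : C) ^ i * (g * b ^ i *
        G.d (p0 (V (2 * i)) + z * p0 (V (2 * i + 1)) + z2 * p1 (V (2 * i + 1)))) -
      ((-1 : C) ^ i * (g * b ^ (i + 1) * p2 (V (2 * i + 1))) +
        (-1 : C) ^ i * (if i = 0 then 0 else g * b ^ i * p2 (V (2 * i - 1)))) := by
    intro i hi
    rw [rmap_even dM D N v i (Finset.mem_range.1 hi), rmap_odd dM D N v i (Finset.mem_range.1 hi)]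
    have e1 : p0 (dM (V (2 * i)) + (if i = 0 then 0 else D (D (V (2 * i - 1))))) =
        G.d (p0 (V (2 * i))) - z * p1 (V (2 * i)) + z2 * p2 (V (2 * i)) -
          (if i = 0 then 0 else p2 (V (2 * i - 1))) := by
      rw [map_add, h0]
      split_ifs
      · rw [map_zero, sub_zero, add_zero]
      · rw [hD0, hD1]; abel
    have e2 : p0 (- dM (V (2 * i + 1)) + D (V (2 * i))) =
        - (G.d (p0 (V (2 * i + 1))) - z * p1 (V (2 * i + 1)) + z2 * p2 (V (2 * i + 1))) +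
          p1 (V (2 * i)) := by
      rw [map_add, map_neg, h0, hD0]
    have e3 : p1 (- dM (V (2 * i + 1)) + D (V (2 * i))) =
        - (G.d (p1 (V (2 * i + 1))) + z * p2 (V (2 * i + 1))) - p2 (V (2 * i)) := by
      rw [map_add, map_neg, h1, hD1, ← sub_eq_add_neg]
    rw [e1, e2, e3]
    have e4 : G.d (p0 (V (2 * i)) + z * p0 (V (2 * i + 1)) + z2 * p1 (V (2 * i + 1))) =
        G.d (p0 (V (2 * i))) - z * G.d (p0 (V (2 * i + 1))) + z * z * p1 (V (2 * i + 1)) -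
          z2 * G.d (p1 (V (2 * i + 1))) := by
      rw [map_add, map_add, G.leib, G.leib, hz, hz2, hzτ, hz2τ]
      noncomm_ring
    rw [e4]
    have e5 : g * b ^ (i + 1) * p2 (V (2 * i + 1)) =
        g * b ^ i * ((z * z2 + z2 * z) * p2 (V (2 * i + 1))) := by
      rw [pow_succ, hb]
      noncomm_ring
    have e6 : (if i = 0 then 0 else g * b ^ i * p2 (V (2 * i - 1))) =
        g * b ^ i * (if i = 0 then 0 else p2 (V (2 * i - 1))) := by
      split_ifs
      · rw [mul_zero]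
      · rfl
    rw [e5, e6, ← mul_add, ← mul_add, ← mul_sub, ← mul_sub]
    congr 2
    noncomm_ring
  rw [Finset.sum_congr rfl hP, Finset.sum_sub_distrib, Finset.sum_add_distrib]
  have htel := rmap_telescope (fun i => g * b ^ i * p2 (V (2 * i - 1))) N hN
  have htel' : (∑ i ∈ range N, (-1 : C) ^ i * (g * b ^ (i + 1) * p2 (V (2 * i + 1)))) =
      ∑ i ∈ range N, (-1 : C) ^ i * (g * b ^ (i + 1) * p2 (V (2 * (i + 1) - 1))) := rfl
  rw [htel', htel]
  -- the last component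
  have hlast : climb_ext (tld (2 * N) dM D v) (2 * N - 1) =
      - dM (V (2 * N - 1)) + D (V (2 * N - 2)) := by
    have e1 : 2 * N - 1 = 2 * (N - 1) + 1 := by omega
    have e2 : 2 * N - 2 = 2 * (N - 1) := by omega
    rw [e1, e2]
    exact rmap_odd dM D N v (N - 1) (by omega)
  rw [hlast, map_add, map_neg, h2, hD2, add_zero, map_sub, map_sum, hdneg, G.leib, hθ, hθτ]
  have hsum : (∑ i ∈ range N, G.d ((-1 : C) ^ i * (g * b ^ i *
        (p0 (V (2 * i)) + z * p0 (V (2 * i + 1)) + z2 * p1 (V (2 * i + 1)))))) =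
      ∑ i ∈ range N, (-1 : C) ^ i * (g * b ^ i *
        G.d (p0 (V (2 * i)) + z * p0 (V (2 * i + 1)) + z2 * p1 (V (2 * i + 1)))) := by
    refine Finset.sum_congr rfl fun i _ => ?_
    rw [hdneg, hdg]
  rw [hsum]
  noncomm_ring

theorem Rm_iot (p0 p1 p2 : M →+ C) (z z2 g θ b : C) (N : ℕ) (hN : 1 ≤ N) (u : M) :
    Rm p0 p1 p2 z z2 g θ b N hN (iot (2 * N) u) = g * p0 u := by
  rw [rmap_apply]
  have h0 : climb_ext (iot (2 * N) u) 0 = u := by
    unfold climb_ext iot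
    rw [dif_pos (by omega)]
    rfl
  have h1 : ∀ j : ℕ, j ≠ 0 → climb_ext (iot (2 * N) u) j = 0 := by
    intro j hj
    unfold climb_ext iot
    by_cases h : j < 2 * N
    · rw [dif_pos h]
      simp [hj]
    · rw [dif_neg h]
  rw [h1 (2 * N - 1) (by omega), map_zero, mul_zero, mul_zero, sub_zero]
  rw [Finset.sum_eq_single 0]
  · rw [mul_zero, zero_add, h0, h1 1 one_ne_zero, map_zero, map_zero]
    simp
  · intro i _ hi
    rw [h1 (2 * i) (by omega), h1 (2 * i + 1) (by omega), map_zero, map_zero]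
    simp
  · intro h
    exact absurd (Finset.mem_range.2 (by omega)) h

theorem Rm_comm (p0 p1 p2 : M →+ C) (z z2 g θ b : C) (N : ℕ) (hN : 1 ≤ N)
    (D' : C →+ C) (D'' : M →+ M)
    (hz : ∀ w, D' (z * w) = z * D' w) (hz2 : ∀ w, D' (z2 * w) = z2 * D' w)
    (hg : ∀ w, D' (g * w) = g * D' w) (hθ : ∀ w, D' (θ * w) = θ * D' w)
    (hb : ∀ w, D' (b * w) = b * D' w)
    (h0 : ∀ v, p0 (D'' v) = D' (p0 v)) (h1 : ∀ v, p1 (D'' v) = D' (p1 v))
    (h2 : ∀ v, p2 (D'' v) = D' (p2 v)) (v : Fin (2 * N) → M) :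
    Rm p0 p1 p2 z z2 g θ b N hN (fun i => D'' (v i)) =
      D' (Rm p0 p1 p2 z z2 g θ b N hN v) := by
  rw [rmap_apply, rmap_apply, map_sub, map_sum]
  have hneg : ∀ (i : ℕ) (x : C), D' ((-1 : C) ^ i * x) = (-1 : C) ^ i * D' x := by
    intro i x
    rcases Nat.even_or_odd i with h | h
    · rw [h.neg_one_pow, one_mul, one_mul]
    · rw [h.neg_one_pow, neg_one_mul, neg_one_mul, map_neg]
  have hbi : ∀ (i : ℕ) (x : C), D' (b ^ i * x) = b ^ i * D' x := by
    intro i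
    induction i with
    | zero => intro x; rw [pow_zero, one_mul, one_mul]
    | succ i ih => intro x; rw [pow_succ', mul_assoc, hb, ih, mul_assoc]
  have hgb : ∀ (i : ℕ) (x : C), D' (g * b ^ i * x) = g * b ^ i * D' x := by
    intro i x
    rw [mul_assoc, hg, hbi, mul_assoc]
  congr 1
  · refine Finset.sum_congr rfl fun i _ => ?_
    rw [hneg, hgb, climb_ext_comp, climb_ext_comp, map_add, map_add, hz, hz2,
      h0, h0, h1]
  · rw [hneg, hθ, climb_ext_comp, h2]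

theorem Rm_mem (p0 p1 p2 : M →+ C) (z z2 g θ b : C) (N : ℕ) (hN : 1 ≤ N) (S : AddSubgroup C)
    (hz : ∀ w ∈ S, z * w ∈ S) (hz2 : ∀ w ∈ S, z2 * w ∈ S) (hg : ∀ w ∈ S, g * w ∈ S)
    (hθ : ∀ w ∈ S, θ * w ∈ S) (hb : ∀ w ∈ S, b * w ∈ S) (v : Fin (2 * N) → M)
    (h0 : ∀ i, p0 (v i) ∈ S) (h1 : ∀ i, p1 (v i) ∈ S) (h2 : ∀ i, p2 (v i) ∈ S) :
    Rm p0 p1 p2 z z2 g θ b N hN v ∈ S := by
  have hneg : ∀ (i : ℕ) (x : C), x ∈ S → (-1 : C) ^ i * x ∈ S := by
    intro i x hx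
    rcases Nat.even_or_odd i with h | h
    · rw [h.neg_one_pow, one_mul]; exact hx
    · rw [h.neg_one_pow, neg_one_mul]; exact S.neg_mem hx
  have hbi : ∀ (i : ℕ) (x : C), x ∈ S → b ^ i * x ∈ S := by
    intro i
    induction i with
    | zero => intro x hx; rw [pow_zero, one_mul]; exact hx
    | succ i ih => intro x hx; rw [pow_succ', mul_assoc]; exact hb _ (ih x hx)
  apply S.sub_mem
  · apply S.sum_mem
    intro i _
    apply hneg
    rw [mul_assoc]
    apply hg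
    apply hbi
    exact S.add_mem (S.add_mem (h0 _) (hz _ (h0 _))) (hz2 _ (h1 _))
  · apply hneg
    exact hθ _ (h2 _)

end P0N
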