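import Pool.Agent.H34.P0.Dig
import Pool.Agent.H34.P0.Rmap
import Pool.Agent.H34.P0.Climb

/-!
# The digits lemma
-/

set_option autoImplicit false

namespace P0N

open Finset Polynomial

variable {R : Type} [CommRing R]

/-- cochains of degree `< 3^K` in the new variable with coefficients in the ideal `I` -/
def SK (A : Cos R) (z : R) (hz : Coc A 1 z) (I : Ideal R) (K : ℕ) :
    AddSubgroup ↥(Coch (Ex A z hz)) where
  carrier := {F | ∀ m, (F.1.c m).natDegree < 3 ^ K ∧ ∀ k, (F.1.c m).coeff k ∈ I}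
  add_mem' := by
    intro F G hF hG m
    refine ⟨lt_of_le_of_lt (natDegree_add_le _ _) (max_lt (hF m).1 (hG m).1), fun k => ?_⟩
    rw [add_c', coeff_add]
    exact I.add_mem ((hF m).2 k) ((hG m).2 k)
  zero_mem' := by
    intro m
    refine ⟨by rw [zero_c', natDegree_zero]; positivity, fun k => ?_⟩
    rw [zero_c', coeff_zero]; exact I.zero_mem
  neg_mem' := by
    intro F hF m
    refine ⟨by rw [neg_c', natDegree_neg]; exact (hF m).1, fun k => ?_⟩
    rw [neg_c', coeff_neg]; exact I.neg_mem ((hF m).2 k)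

/-- `z ∪ z^2 + z^2 ∪ z` as a cochain -/
noncomputable def bC (A : Cos R) (z : R) : ↥(Coch A) :=
  sg A 1 z * sg A 1 (z ^ 2) + sg A 1 (z ^ 2) * sg A 1 z

/-- the product `g_{K-1} ⋯ g_1 g_0` -/
def gpr {C : Type} [Ring C] : (ℕ → C) → ℕ → C
  | _, 0 => 1
  | g, K + 1 => gpr (fun s => g (s + 1)) K * g 0

/-! ### auxiliary facts -/

theorem digits_sq {A : Cos R} [CharP R 3] {z : R} (hz : Coc A 1 z) :
    d A 1 (z ^ 2) = cup A 1 z z := by
  have h := hz.2
  rw [d_apply] at h ⊢
  simp only [Finset.sum_range_succ, Finset.sum_range_zero, map_pow] at h ⊢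
  have h0 : A.act (face 0) z = A.act (sh 1) z := hz.1.act_congr fun i _ => by simp
  have h2 : A.act (face (1 + 1)) z = z := hz.1.act_eq _ fun i hi => by
    rw [face_apply, if_pos (by omega)]
  rw [h0, h2] at h ⊢
  unfold cup
  have h3 : (3 : R) = 0 := by
    have := CharP.cast_eq_zero R 3
    exact_mod_cast this
  linear_combination (z + A.act (sh 1) z + A.act (face 1) z) * h - z * A.act (sh 1) z * h3

theorem digits_dz {A : Cos R} {z : R} (hz : Coc A 1 z) : dC A (sg A 1 z) = 0 := by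
  rw [dC_sg hz.1, hz.2, sg_zero]

theorem digits_dz2 {A : Cos R} [CharP R 3] {z : R} (hz : Coc A 1 z) :
    dC A (sg A 1 (z ^ 2)) = sg A 1 z * sg A 1 z := by
  rw [dC_sg (hz.1.pow 2), digits_sq hz, sg_mul hz.1 hz.1]

theorem digits_zC (A : Cos R) [CharP R 3] (z : R) (hz : Coc A 1 z) :
    zC A z hz = (inc A (z ^ 3) hz.cube).D.f (sg A 1 z) :=
  (D_sg (inc A (z ^ 3) hz.cube) hz.1).symm

theorem digits_z2C (A : Cos R) [CharP R 3] (z : R) (hz : Coc A 1 z) :
    z2C A z hz = (inc A (z ^ 3) hz.cube).D.f (sg A 1 (z ^ 2)) :=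
  (D_sg (inc A (z ^ 3) hz.cube) (hz.1.pow 2)).symm

theorem digits_inc_d (A : Cos R) [CharP R 3] (z : R) (hz : Coc A 1 z) (a : ↥(Coch A)) :
    dC (Ex A z hz) ((inc A z hz).D.f a) = (inc A z hz).D.f (dC A a) :=
  ((inc A z hz).D.comm_d a).symm

theorem digits_inc_tau (A : Cos R) [CharP R 3] (z : R) (hz : Coc A 1 z) (a : ↥(Coch A)) :
    tauC (Ex A z hz) ((inc A z hz).D.f a) = (inc A z hz).D.f (tauC A a) :=
  ((inc A z hz).D.comm_τ a).symm

theorem digits_base (A : Cos R) [CharP R 3] (z : R) (hz : Coc A 1 z) (I : Ideal R)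
    (u : ↥(Coch A)) (w : ↥(Coch (Ex A z hz))) (hw : w ∈ SK A z hz I 0)
    (h : dC _ w = (inc A z hz).D.f u) :
    ∃ η : ↥(Coch A), (∀ m, η.1.c m ∈ I) ∧ dC A η = u := by
  have hC : ∀ m, w.1.c m = C ((w.1.c m).coeff 0) := fun m =>
    eq_C_of_natDegree_eq_zero (by
      have := (hw m).1
      rw [pow_zero] at this
      omega)
  have hinj : Function.Injective (inc A z hz).D.f := by
    intro a b hab
    apply coch_ext
    intro n
    have : ((inc A z hz).D.f a).1.c n = ((inc A z hz).D.f b).1.c n := by rw [hab]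
    exact C_injective this
  refine ⟨⟨⟨fun m => (w.1.c m).coeff 0⟩, fun m => (Ex_supp_C A z hz m _).1 (by
    rw [← hC m]; exact w.2 m)⟩, fun m => (hw m).2 0, ?_⟩
  apply hinj
  rw [← h, ← digits_inc_d]
  congr 1
  apply coch_ext
  intro m
  exact (hC m).symm

theorem digits_natDegree_lt {p : R[X]} {n : ℕ} (hn : 0 < n) :
    p.natDegree < n ↔ ∀ m, n ≤ m → p.coeff m = 0 := by
  constructor
  · intro h m hm
    exact coeff_eq_zero_of_natDegree_lt (by omega)
  · intro h
    have : p.natDegree ≤ n - 1 := by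
      rw [natDegree_le_iff_coeff_eq_zero]
      intro N hN
      exact h N (by omega)
    omega

theorem digits_exAct_natDegree (A : Cos R) (x : R) (a : ℕ →o ℕ) (p : R[X]) :
    (exAct A x a p).natDegree ≤ p.natDegree := by
  have h : exAct A x a p = (p.map (A.act a)).comp (X - C (pv A x 0 (a 0))) := by
    unfold exAct
    rw [coe_eval₂RingHom, comp, eval₂_map]
  rw [h]
  refine natDegree_comp_le.trans ?_
  calc (p.map (A.act a)).natDegree * (X - C (pv A x 0 (a 0))).natDegree
      ≤ p.natDegree * 1 := Nat.mul_le_mul natDegree_map_le (natDegree_X_sub_C_le _)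
    _ = p.natDegree := mul_one _

theorem digits_exAct_mem (A : Cos R) (x : R) (a : ℕ →o ℕ) (I : Ideal R)
    (hI : ∀ r : R, r ∈ I → A.act a r ∈ I) (p : R[X]) (hp : ∀ k, p.coeff k ∈ I) :
    ∀ k, (exAct A x a p).coeff k ∈ I := by
  rw [← Ideal.mem_map_C_iff] at hp ⊢
  have h : Ideal.map C I ≤ Ideal.comap (exAct A x a) (Ideal.map C I) := by
    rw [Ideal.map_le_iff_le_comap]
    intro r hr
    rw [Ideal.mem_comap, Ideal.mem_comap, exAct_C]
    exact Ideal.mem_map_of_mem C (hI r hr)
  exact h hp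

/-- left multiplication by constants preserves `SK` -/
theorem digits_SK_mul (A : Cos R) [CharP R 3] (z : R) (hz : Coc A 1 z) (I : Ideal R)
    (hI : ∀ (a : ℕ →o ℕ) (r : R), r ∈ I → A.act a r ∈ I) (K : ℕ) (a : ↥(Coch A))
    (w : ↥(Coch (Ex A z hz))) (hw : w ∈ SK A z hz I K) :
    (inc A z hz).D.f a * w ∈ SK A z hz I K := by
  intro m
  rw [mul_c']
  have h1 : ∀ p ∈ antidiagonal m, (((inc A z hz).D.f a).1.c p.1 *
      (Ex A z hz).act (sh p.1) (w.1.c p.2)).natDegree < 3 ^ K ∧
      ∀ k, (((inc A z hz).D.f a).1.c p.1 *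
      (Ex A z hz).act (sh p.1) (w.1.c p.2)).coeff k ∈ I := by
    intro p _
    have e : ((inc A z hz).D.f a).1.c p.1 * (Ex A z hz).act (sh p.1) (w.1.c p.2) =
        C (a.1.c p.1) * exAct A z (sh p.1) (w.1.c p.2) := rfl
    rw [e]
    constructor
    · refine lt_of_le_of_lt ?_ (hw p.2).1
      exact (natDegree_C_mul_le _ _).trans (digits_exAct_natDegree _ _ _ _)
    · intro k
      rw [coeff_C_mul]
      exact I.mul_mem_left _ (digits_exAct_mem A z (sh p.1) I (hI _) _ (hw p.2).2 k)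
  constructor
  · rw [digits_natDegree_lt (by positivity)]
    intro k hk
    rw [finsetSum_coeff]
    refine Finset.sum_eq_zero fun p hp => ?_
    exact (digits_natDegree_lt (by positivity)).1 (h1 p hp).1 k hk
  · intro k
    rw [finsetSum_coeff]
    exact I.sum_mem fun p hp => (h1 p hp).2 k

/-- digits of elements of `SK` -/
theorem digits_SK_dig (A : Cos R) [CharP R 3] (z : R) (hz : Coc A 1 z) (I : Ideal R) (K : ℕ)
    (j : Fin 3) (w : ↥(Coch (Ex A z hz))) (hw : w ∈ SK A z hz I (K + 1)) :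
    digC A z hz j w ∈ SK A (z ^ 3) hz.cube I K := by
  intro m
  rw [digC_c]
  constructor
  · rw [digits_natDegree_lt (by positivity)]
    intro k hk
    rw [coeff_dig]
    refine (digits_natDegree_lt (by positivity)).1 (hw m).1 _ ?_
    rw [pow_succ]
    omega
  · intro k
    rw [coeff_dig]
    exact (hw m).2 _

/-- the digits lemma -/
theorem digits (N : ℕ) (hN : 1 ≤ N) (K : ℕ) : ∀ (A : Cos R) [CharP R 3] (z : R) (hz : Coc A 1 z)
    (g θ : ℕ → ↥(Coch A)) (_ : ∀ s < K, g s ∈ (cochDGA A).Z)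
    (_ : ∀ s < K, tauC A (θ s) = - θ s)
    (_ : ∀ s < K, g s * bC A (z ^ (3 ^ s)) ^ N = dC A (θ s))
    (I : Ideal R) (_ : ∀ (a : ℕ →o ℕ) (r : R), r ∈ I → A.act a r ∈ I)
    (u : ↥(Coch A))
    (_ : Solv (2 * N) K ↥(Coch (Ex A z hz)) (dC (Ex A z hz)) (hdC A z hz) (SK A z hz I K)
      ((inc A z hz).D.f u)),
    ∃ η : ↥(Coch A), (∀ m, η.1.c m ∈ I) ∧ dC A η = gpr g K * u := by
  induction K with
  | zero =>
    intro A _ z hz g θ _ _ _ I _ u h
    obtain ⟨w, hw, hwu⟩ := h
    obtain ⟨η, h1, h2⟩ := digits_base A z hz I u w hw hwu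
    exact ⟨η, h1, by rw [h2]; exact (one_mul u).symm⟩
  | succ K ih =>
    intro A _ z hz g θ hg hθτ hθ I hI u h
    have hdz := digits_dz hz
    have hdz2 := digits_dz2 hz
    have hgZ := hg 0 (Nat.succ_pos K)
    have hgτ : tauC A (g 0) = g 0 := hgZ.1
    have hgd : dC A (g 0) = 0 := hgZ.2
    have hb : (inc A (z ^ 3) hz.cube).D.f (bC A z) =
        zC A z hz * z2C A z hz + z2C A z hz * zC A z hz := by
      rw [digits_zC, digits_z2C, ← map_mul, ← map_mul, ← map_add]
      rfl
    have key := Solv.map (n := 2 * N) K (tld (2 * N) (dC (Ex A z hz)) (hdC A z hz 0))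
      (fun s => (hdC A z hz (s + 1)).compLeft (Fin (2 * N)))
      (AddSubgroup.pi Set.univ fun _ => SK A z hz I (K + 1))
      (iot (2 * N) ((inc A z hz).D.f u))
      (dC (Ex A (z ^ 3) hz.cube)) (hdC A (z ^ 3) hz.cube) (SK A (z ^ 3) hz.cube I K)
      (Rm (digC A z hz 0) (digC A z hz 1) (digC A z hz 2) (zC A z hz) (z2C A z hz)
        ((inc A (z ^ 3) hz.cube).D.f (g 0)) ((inc A (z ^ 3) hz.cube).D.f (θ 0))
        (zC A z hz * z2C A z hz + z2C A z hz * zC A z hz) N hN)
      (by
        intro v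
        refine Rm_tld (cochDGA (Ex A (z ^ 3) hz.cube)) (dC (Ex A z hz)) (hdC A z hz 0)
          (digC A z hz 0) (digC A z hz 1) (digC A z hz 2) (zC A z hz) (z2C A z hz)
          ((inc A (z ^ 3) hz.cube).D.f (g 0)) ((inc A (z ^ 3) hz.cube).D.f (θ 0)) N hN
          ?_ ?_ ?_ ?_ ?_ ?_ ?_ ?_ (digC0_dC A z hz) (digC1_dC A z hz) (digC2_dC A z hz)
          (digC0_hdC A z hz) (digC1_hdC A z hz) (digC2_hdC A z hz) v
        · change dC (Ex A (z ^ 3) hz.cube) _ = 0
          rw [digits_zC, digits_inc_d, hdz, map_zero]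
        · change tauC (Ex A (z ^ 3) hz.cube) _ = _
          rw [digits_zC, digits_inc_tau, tauC_sg_odd A z odd_one, map_neg]
        · change dC (Ex A (z ^ 3) hz.cube) _ = _
          rw [digits_z2C, digits_inc_d, hdz2, map_mul, digits_zC]
        · change tauC (Ex A (z ^ 3) hz.cube) _ = _
          rw [digits_z2C, digits_inc_tau, tauC_sg_odd A (z ^ 2) odd_one, map_neg]
        · change dC (Ex A (z ^ 3) hz.cube) _ = 0
          rw [digits_inc_d, hgd, map_zero]
        · change tauC (Ex A (z ^ 3) hz.cube) _ = _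
          rw [digits_inc_tau, hgτ]
        · change dC (Ex A (z ^ 3) hz.cube) _ = _
          rw [digits_inc_d, ← hθ 0 (Nat.succ_pos K), ← hb, ← map_pow, ← map_mul, pow_zero,
            pow_one]
        · change tauC (Ex A (z ^ 3) hz.cube) _ = _
          rw [digits_inc_tau, hθτ 0 (Nat.succ_pos K), map_neg])
      (by
        intro s v
        refine Rm_comm (digC A z hz 0) (digC A z hz 1) (digC A z hz 2) (zC A z hz) (z2C A z hz)
          ((inc A (z ^ 3) hz.cube).D.f (g 0)) ((inc A (z ^ 3) hz.cube).D.f (θ 0))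
          (zC A z hz * z2C A z hz + z2C A z hz * zC A z hz) N hN
          (hdC A (z ^ 3) hz.cube s) (hdC A z hz (s + 1)) ?_ ?_ ?_ ?_ ?_ ?_ ?_ ?_ v
        · intro w
          rw [digits_zC, hdC_mul]
        · intro w
          rw [digits_z2C, hdC_mul]
        · intro w
          rw [hdC_mul]
        · intro w
          rw [hdC_mul]
        · intro w
          rw [← hb, hdC_mul]
        · exact fun v => digC_hdC_succ A z hz 0 s v
        · exact fun v => digC_hdC_succ A z hz 1 s v
        · exact fun v => digC_hdC_succ A z hz 2 s v)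
      (by
        intro v hv
        have hv' : ∀ i, v i ∈ SK A z hz I (K + 1) := fun i => hv i (Set.mem_univ i)
        refine Rm_mem (digC A z hz 0) (digC A z hz 1) (digC A z hz 2) (zC A z hz) (z2C A z hz)
          ((inc A (z ^ 3) hz.cube).D.f (g 0)) ((inc A (z ^ 3) hz.cube).D.f (θ 0))
          (zC A z hz * z2C A z hz + z2C A z hz * zC A z hz) N hN
          (SK A (z ^ 3) hz.cube I K) ?_ ?_ ?_ ?_ ?_ v
          (fun i => digits_SK_dig A z hz I K 0 _ (hv' i))
          (fun i => digits_SK_dig A z hz I K 1 _ (hv' i))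
          (fun i => digits_SK_dig A z hz I K 2 _ (hv' i))
        · intro w hw
          rw [digits_zC]
          exact digits_SK_mul A (z ^ 3) hz.cube I hI K _ w hw
        · intro w hw
          rw [digits_z2C]
          exact digits_SK_mul A (z ^ 3) hz.cube I hI K _ w hw
        · intro w hw
          exact digits_SK_mul A (z ^ 3) hz.cube I hI K _ w hw
        · intro w hw
          exact digits_SK_mul A (z ^ 3) hz.cube I hI K _ w hw
        · intro w hw
          rw [← hb]
          exact digits_SK_mul A (z ^ 3) hz.cube I hI K _ w hw)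
      h
    rw [Rm_iot, digC0_inc, ← map_mul] at key
    obtain ⟨η, h1, h2⟩ := ih A (z ^ 3) hz.cube (fun s => g (s + 1)) (fun s => θ (s + 1))
      (fun s hs => hg (s + 1) (by omega)) (fun s hs => hθτ (s + 1) (by omega))
      (fun s hs => by
        have := hθ (s + 1) (by omega)
        rw [← pow_mul, ← pow_succ']
        exact this)
      I hI (g 0 * u) key
    exact ⟨η, h1, by rw [h2, ← mul_assoc]; rfl⟩

end P0N
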