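import Pool.Agent.H34.P0.Bc

/-!
# The special elements are cocycles; functoriality; extensions
-/

set_option autoImplicit false

namespace P0N

open Finset Polynomial

variable {R : Type} [CommRing R] {S : Type} [CommRing S]

/-! ### powers in characteristic three -/

theorem ETA_fact : Fact (Nat.Prime 3) := ⟨Nat.prime_three⟩

theorem ETA_a3 [CharP S 3] (a b : S) : (a + b) ^ 3 = a ^ 3 + b ^ 3 := by
  have _ := ETA_fact
  exact add_pow_char a b 3
theorem ETA_s3 [CharP S 3] (a b : S) : (a - b) ^ 3 = a ^ 3 - b ^ 3 := by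
  have _ := ETA_fact
  exact sub_pow_char a b
theorem ETA_a9 [CharP S 3] (a b : S) : (a + b) ^ 9 = a ^ 9 + b ^ 9 := by
  have h : ∀ c : S, c ^ 9 = (c ^ 3) ^ 3 := fun c => by ring
  rw [h, h a, h b, ETA_a3, ETA_a3]
theorem ETA_s9 [CharP S 3] (a b : S) : (a - b) ^ 9 = a ^ 9 - b ^ 9 := by
  have h : ∀ c : S, c ^ 9 = (c ^ 3) ^ 3 := fun c => by ring
  rw [h, h a, h b, ETA_s3, ETA_s3]
theorem ETA_a27 [CharP S 3] (a b : S) : (a + b) ^ 27 = a ^ 27 + b ^ 27 := by
  have h : ∀ c : S, c ^ 27 = (c ^ 9) ^ 3 := fun c => by ring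
  rw [h, h a, h b, ETA_a9, ETA_a3]
theorem ETA_s27 [CharP S 3] (a b : S) : (a - b) ^ 27 = a ^ 27 - b ^ 27 := by
  have h : ∀ c : S, c ^ 27 = (c ^ 9) ^ 3 := fun c => by ring
  rw [h, h a, h b, ETA_s9, ETA_s3]

/-! ### 1-cochains on the edges of a triangle -/

/-- `d A 1 u = u_12 - u_02 + u_01` -/
theorem d_one (B : Cos S) {u : S} (hu : Supp B 1 u) :
    d B 1 u = B.act (sh 1) u - B.act (face 1) u + u := BC_d1 hu

theorem d_zero' (B : Cos S) {w : S} (hw : Supp B 0 w) : d B 0 w = B.act (sh 1) w - w := BC_d0 hw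

theorem ETA_coc {B : Cos S} {u : S} (hu : Supp B 1 u)
    (h : B.act (face 1) u = u + B.act (sh 1) u) : Coc B 1 u := by
  refine ⟨hu, ?_⟩
  rw [d_one B hu, h]
  ring

theorem ETA_face1 {B : Cos S} {w : S} (hw : Supp B 0 w) : B.act (face 1) w = w :=
  hw.act_eq _ fun i hi => by
    rw [face_apply, if_pos (by omega)]

/-! ### relations of the elements -/

theorem ETA_x1 {B : Cos S} {xi : ℕ → S} (h : IsXi B xi) :
    B.act (face 1) (xi 1) = xi 1 + B.act (sh 1) (xi 1) := by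
  rw [h.rel]
  unfold gm
  simp [Finset.sum_range_succ, h.zero]

theorem ETA_x2 {B : Cos S} {xi : ℕ → S} (h : IsXi B xi) :
    B.act (face 1) (xi 2) = xi 2 + xi 1 ^ 3 * B.act (sh 1) (xi 1) + B.act (sh 1) (xi 2) := by
  rw [h.rel]
  unfold gm
  simp [Finset.sum_range_succ, h.zero]

theorem ETA_x3 {B : Cos S} {xi : ℕ → S} (h : IsXi B xi) :
    B.act (face 1) (xi 3) = xi 3 + xi 2 ^ 3 * B.act (sh 1) (xi 1) +
      xi 1 ^ 9 * B.act (sh 1) (xi 2) + B.act (sh 1) (xi 3) := by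
  rw [h.rel]
  unfold gm
  simp [Finset.sum_range_succ, h.zero]

theorem ETA_x4 {B : Cos S} {xi : ℕ → S} (h : IsXi B xi) :
    B.act (face 1) (xi 4) = xi 4 + xi 3 ^ 3 * B.act (sh 1) (xi 1) +
      xi 2 ^ 9 * B.act (sh 1) (xi 2) + xi 1 ^ 27 * B.act (sh 1) (xi 3) +
      B.act (sh 1) (xi 4) := by
  rw [h.rel]
  unfold gm
  simp [Finset.sum_range_succ, h.zero]

theorem ETA_e2_supp {B : Cos S} {xi : ℕ → S} (hxi : IsXi B xi) {X : S} (hX : IsX B xi X) :
    Supp B 1 (eta2 xi X) :=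
  (hxi.supp 2).sub ((hX.supp.mono (by omega)).mul (hxi.supp 1))
theorem ETA_e3_supp {B : Cos S} {xi : ℕ → S} (hxi : IsXi B xi) {X : S} (hX : IsX B xi X) :
    Supp B 1 (eta3 xi X) :=
  (hxi.supp 3).sub (((hX.supp.mono (by omega)).pow 3).mul (hxi.supp 2))
theorem ETA_e4_supp {B : Cos S} {xi : ℕ → S} (hxi : IsXi B xi) {X : S} (hX : IsX B xi X) :
    Supp B 1 (eta4 xi X) :=
  (hxi.supp 4).sub (((hX.supp.mono (by omega)).pow 9).mul (hxi.supp 3))

theorem ETA_e2 {B : Cos S} {xi : ℕ → S} (hxi : IsXi B xi) {X : S} (hX : IsX B xi X) :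
    B.act (face 1) (eta2 xi X) = eta2 xi X + B.act (sh 1) (eta2 xi X) := by
  unfold eta2
  simp only [map_sub, map_mul, ETA_x1 hxi, ETA_x2 hxi, ETA_face1 hX.supp, hX.rel]
  ring

theorem ETA_e3 {B : Cos S} [CharP S 3] {xi : ℕ → S} (hxi : IsXi B xi) {X : S}
    (hX : IsX B xi X) :
    B.act (face 1) (eta3 xi X) = eta3 xi X + B.act (sh 1) (eta3 xi X) +
      eta2 xi X ^ 3 * B.act (sh 1) (xi 1) := by
  unfold eta3 eta2
  simp only [map_sub, map_mul, map_pow, ETA_x2 hxi, ETA_x3 hxi, ETA_face1 hX.supp,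
    hX.rel, ETA_s3]
  ring

theorem ETA_e4 {B : Cos S} [CharP S 3] {xi : ℕ → S} (hxi : IsXi B xi) {X : S}
    (hX : IsX B xi X) :
    B.act (face 1) (eta4 xi X) = eta4 xi X + B.act (sh 1) (eta4 xi X) +
      eta3 xi X ^ 3 * B.act (sh 1) (xi 1) + eta2 xi X ^ 9 * B.act (sh 1) (xi 2) := by
  unfold eta4 eta3 eta2
  simp only [map_sub, map_mul, map_pow, ETA_x3 hxi, ETA_x4 hxi,
    ETA_face1 hX.supp, hX.rel, ETA_s3, ETA_s9]
  ring

/-! ### cocycles -/

theorem xi1_coc {B : Cos S} {xi : ℕ → S} (hxi : IsXi B xi) : Coc B 1 (xi 1) :=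
  ETA_coc (hxi.supp 1) (ETA_x1 hxi)
theorem eta2_coc {B : Cos S} {xi : ℕ → S} (hxi : IsXi B xi) {X : S} (hX : IsX B xi X) :
    Coc B 1 (eta2 xi X) :=
  ETA_coc (ETA_e2_supp hxi hX) (ETA_e2 hxi hX)
theorem eta31_coc {B : Cos S} [CharP S 3] {xi : ℕ → S} (hxi : IsXi B xi) {X : S}
    (hX : IsX B xi X) : Coc B 1 (eta31 xi X) := by
  have hX1 : Supp B 1 X := hX.supp.mono (by omega)
  apply ETA_coc
  · exact ((ETA_e3_supp hxi hX).pow 3).add
      ((hX1.sub ((hxi.supp 1).pow 3)).mul ((ETA_e2_supp hxi hX).pow 9))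
  · unfold eta31
    simp only [map_add, map_sub, map_mul, map_pow, ETA_e3 hxi hX, ETA_e2 hxi hX, ETA_x1 hxi,
      ETA_face1 hX.supp, hX.rel, ETA_a3, ETA_a9]
    ring
theorem eta41_coc {B : Cos S} [CharP S 3] {xi : ℕ → S} (hxi : IsXi B xi) {X Y : S}
    (hX : IsX B xi X) (hY : IsY B xi X Y) : Coc B 1 (eta41 xi X Y) := by
  have hX1 : Supp B 1 X := hX.supp.mono (by omega)
  have hY1 : Supp B 1 Y := hY.supp.mono (by omega)
  apply ETA_coc
  · exact (((((ETA_e4_supp hxi hX).pow 3).add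
      ((hX1.sub ((hxi.supp 1).pow 3)).mul ((ETA_e3_supp hxi hX).pow 9))).add
      (((hX1.sub ((hxi.supp 1).pow 3)).pow 4).mul ((ETA_e2_supp hxi hX).pow 27))).sub
      ((hY1.pow 3).mul ((ETA_e2_supp hxi hX).pow 3)))
  · have key : B.act (sh 1) (eta2 xi X) ^ 3 = B.act (sh 1) (xi 2) ^ 3 -
        (X - xi 1 ^ 3) ^ 3 * B.act (sh 1) (xi 1) ^ 3 := by
      unfold eta2
      simp only [map_sub, map_mul, hX.rel, ETA_s3, mul_pow]
    have key2 : (X - xi 1 ^ 3) ^ 3 = (X - (xi 1 ^ 3 + B.act (sh 1) (xi 1) ^ 3)) ^ 3 +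
        B.act (sh 1) (xi 1) ^ 9 := by
      have h : B.act (sh 1) (xi 1) ^ 9 = (B.act (sh 1) (xi 1) ^ 3) ^ 3 := by ring
      rw [h, ← ETA_a3]
      congr 1
      ring
    unfold eta41
    simp only [map_add, map_sub, map_mul, map_pow, ETA_e4 hxi hX, ETA_e3 hxi hX, ETA_e2 hxi hX,
      ETA_x1 hxi, ETA_face1 hX.supp, ETA_face1 hY.supp, hX.rel, hY.rel]
    simp only [ETA_a3, ETA_a9, ETA_a27, ETA_s3 Y]
    generalize B.act (sh 1) (eta4 xi X) = s4
    generalize B.act (sh 1) (eta3 xi X) = s3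
    generalize B.act (sh 1) (eta2 xi X) = s2 at key ⊢
    generalize B.act (sh 1) (xi 1) = y1 at key key2 ⊢
    generalize B.act (sh 1) (xi 2) = y2 at key ⊢
    generalize eta4 xi X = e4
    generalize eta3 xi X = e3
    generalize eta2 xi X = e2
    generalize xi 1 = x1 at key key2 ⊢
    linear_combination (-e2 ^ 27) * key + (e2 ^ 27 * (y1 ^ 3 - (X - x1 ^ 3))) * key2

theorem ETA_b30_aux (B : Cos S) {a u v X Y : S} (ha : Supp B 1 a) (hu : Supp B 1 u)
    (hv : Supp B 1 v) (hX : Supp B 0 X) (hY : Supp B 0 Y)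
    (ra : B.act (face 1) a = a + B.act (sh 1) a + u * B.act (sh 1) v)
    (ru : B.act (face 1) u = u + B.act (sh 1) u)
    (rv : B.act (face 1) v = v + B.act (sh 1) v)
    (rX : B.act (sh 1) X = X - v ^ 3) (rY : B.act (sh 1) Y = Y - u ^ 3) :
    Coc B 2 (om3 a (B.act (sh 1) a) (u * B.act (sh 1) v) + bR B u * B.act (sh 2) X
      - Y * bR B v) := by
  have sa : Supp B 2 (B.act (sh 1) a) := ha.act _ fun i hi => by rw [sh_apply]; omega
  have su : Supp B 2 (B.act (sh 1) u) := hu.act _ fun i hi => by rw [sh_apply]; omega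
  have sv : Supp B 2 (B.act (sh 1) v) := hv.act _ fun i hi => by rw [sh_apply]; omega
  have sX : Supp B 2 (B.act (sh 2) X) := hX.act _ fun i hi => by rw [sh_apply]; omega
  have ha2 : Supp B 2 a := ha.mono (by omega)
  have hu2 : Supp B 2 u := hu.mono (by omega)
  have hv2 : Supp B 2 v := hv.mono (by omega)
  have hY2 : Supp B 2 Y := hY.mono (by omega)
  have s2 : Supp B 2 (2 : S) := by
    have : (2 : S) = 1 + 1 := by norm_num
    rw [this]
    exact (Supp.one B 2).add (Supp.one B 2)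
  have hsupp : Supp B 2 (om3 a (B.act (sh 1) a) (u * B.act (sh 1) v) + bR B u * B.act (sh 2) X
      - Y * bR B v) := by
    have hc : Supp B 2 (u * B.act (sh 1) v) := hu2.mul sv
    refine (Supp.add ?_ ((BC_supp hu).mul sX)).sub (hY2.mul (BC_supp hv))
    unfold om3
    exact ((((((((ha2.pow 2).mul sa).add (ha2.mul (sa.pow 2))).add ((ha2.pow 2).mul hc)).add
      (ha2.mul (hc.pow 2))).add ((sa.pow 2).mul hc)).add (sa.mul (hc.pow 2))).add
      (s2.mul ((ha2.mul sa).mul hc)))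
  refine ⟨hsupp, ?_⟩
  -- values of the faces
  have f0 : ∀ {w : S}, Supp B 1 w → B.act (face 0) w = B.act (sh 1) w := fun hw =>
    hw.act_congr fun i _ => by simp
  have f0s : ∀ w : S, B.act (face 0) (B.act (sh 1) w) = B.act (sh 2) w := fun w => by
    have h : (face 0).comp (sh 1) = sh 2 := by
      ext k
      show face 0 (sh 1 k) = sh 2 k
      simp
    rw [← B.act_comp, h]
  have f1s : ∀ w : S, B.act (face 1) (B.act (sh 1) w) = B.act (sh 2) w := fun w => by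
    have h : (face 1).comp (sh 1) = sh 2 := by
      ext k
      show face 1 (sh 1 k) = sh 2 k
      simp
    rw [← B.act_comp, h]
  have f2 : ∀ {w : S}, Supp B 1 w → B.act (face 2) w = w := fun hw =>
    hw.act_eq _ fun i hi => by rw [face_apply, if_pos (by omega)]
  have f2s : ∀ w : S, B.act (face 2) (B.act (sh 1) w) = B.act (sh 1) (B.act (face 1) w) :=
    fun w => by
    have h : (face 2).comp (sh 1) = (sh 1).comp (face 1) := by
      ext k
      show face 2 (sh 1 k) = sh 1 (face 1 k)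
      simp only [face_apply, sh_apply]
      split_ifs <;> omega
    rw [← B.act_comp, ← B.act_comp, h]
  have f3 : B.act (face 3) (om3 a (B.act (sh 1) a) (u * B.act (sh 1) v) +
      bR B u * B.act (sh 2) X - Y * bR B v) = om3 a (B.act (sh 1) a) (u * B.act (sh 1) v) +
      bR B u * B.act (sh 2) X - Y * bR B v :=
    hsupp.act_eq _ fun i hi => by rw [face_apply, if_pos (by omega)]
  have fX : ∀ j, j ≤ 2 → B.act (face j) (B.act (sh 2) X) = B.act (sh 2) X -
      B.act (sh 2) v ^ 3 := by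
    intro j hj
    have h1 : B.act (face j) (B.act (sh 2) X) = B.act (sh 2) (B.act (sh 1) X) := by
      rw [← B.act_comp, ← B.act_comp]
      refine hX.act_congr fun i hi => ?_
      show face j (sh 2 i) = sh 2 (sh 1 i)
      simp only [face_apply, sh_apply]
      rw [if_neg (by omega)]
    rw [h1, rX, map_sub, map_pow]
  have fY0 : B.act (face 0) Y = Y - u ^ 3 := by
    rw [← rY]
    exact hY.act_congr fun i _ => by simp
  have fY1 : ∀ j, 1 ≤ j → B.act (face j) Y = Y := fun j hj =>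
    hY.act_eq _ fun i hi => by rw [face_apply, if_pos (by omega)]
  rw [d_apply]
  simp only [Finset.sum_range_succ, Finset.sum_range_zero]
  have e3 : (0 : ℕ) + 1 + 1 + 1 = 3 := rfl
  rw [f3]
  unfold om3 bR
  simp only [map_add, map_sub, map_mul, map_pow, f0s, f1s, f2s, f0 ha, f0 hu, f0 hv, f2 ha, f2 hu,
    f2 hv, ra, ru, rv, fX 0 (by omega), fX 1 (by omega), fX 2 le_rfl, fY0, fY1 1 le_rfl,
    fY1 2 (by omega), act_sh_sh, map_ofNat]
  ring

theorem b30_coc {B : Cos S} [CharP S 3] {xi : ℕ → S} (hxi : IsXi B xi) {X Y : S}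
    (hX : IsX B xi X) (hY : IsY B xi X Y) : Coc B 2 (b30R B xi X Y) := by
  unfold b30R
  apply ETA_b30_aux B (ETA_e3_supp hxi hX) ((ETA_e2_supp hxi hX).pow 3) (hxi.supp 1) hX.supp
    hY.supp (ETA_e3 hxi hX) _ (ETA_x1 hxi) hX.rel
  · rw [hY.rel]
    ring
  · rw [map_pow, map_pow, ETA_e2 hxi hX, ETA_a3]
theorem b30_hom {B : Cos S} [CharP S 3] {xi : ℕ → S} (hxi : IsXi B xi) {X Y : S}
    (hX : IsX B xi X) (hY : IsY B xi X Y) : IsHom B 2 (b30 B xi X Y) :=
  IsHom.cls even_two (b30_coc hxi hX hY)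
theorem fcl_hom {B : Cos S} [CharP S 3] {xi : ℕ → S} (hxi : IsXi B xi) {X Y : S}
    (hX : IsX B xi X) (hY : IsY B xi X Y) : IsHom B 56 (fcl B xi X Y) := by
  unfold fcl
  exact ((bc_hom (eta41_coc hxi hX hY).cube).mul ((bc_hom (eta2_coc hxi hX)).pow 27)).sub
    ((bc_hom (eta31_coc hxi hX).cube).mul ((b30_hom hxi hX hY).pow 27))

/-! ### boundaries -/

theorem IsX.bdry {B : Cos S} {xi : ℕ → S} {X : S} (hX : IsX B xi X) :
    d B 0 X = - xi 1 ^ 3 := by
  rw [d_zero' B hX.supp, hX.rel]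
  ring
theorem IsY.bdry {B : Cos S} {xi : ℕ → S} {X Y : S} (hY : IsY B xi X Y) :
    d B 0 Y = - eta2 xi X ^ 9 := by
  rw [d_zero' B hY.supp, hY.rel]
  ring
theorem IsW.bdry {B : Cos S} {xi : ℕ → S} {X W : S} (hW : IsW B xi X W) :
    d B 0 W = - eta31 xi X ^ 9 := by
  rw [d_zero' B hW.supp, hW.rel]
  ring
/-- `b(u) = 0` if `u` is minus a coboundary, and so are the powers `u^(3^s)` -/
theorem bc_of_bdry {B : Cos S} [CharP S 3] {u w : S} (hw : Supp B 0 w) (hd : d B 0 w = -u)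
    (s : ℕ) : bc B (u ^ (3 ^ s)) = 0 := by
  have hu : u = d B 0 (-w) := by rw [map_neg, hd, neg_neg]
  have hc : Coc B 1 u := by
    rw [hu]
    exact Coc.bdry hw.neg
  have h0 : bc B u = 0 := by
    rw [hu]
    exact bc_bdry hw.neg
  have h1 := bc_pow3_eq_zero hc (N := 1) (by rw [h0, pow_one]) s
  rwa [pow_one] at h1

/-! ### functoriality -/

theorem IsXi.map {A : Cos R} {B : Cos S} (p : CHom A B) {xi : ℕ → R} (h : IsXi A xi) :
    IsXi B (fun n => p.f (xi n)) where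
  zero := by rw [h.zero, map_one]
  supp n := (h.supp n).map p
  rel n := by
    rw [← p.comm, h.rel, grp_map_gm]
    congr 1
    funext i
    exact p.comm _ _
theorem IsX.map {A : Cos R} {B : Cos S} (p : CHom A B) {xi : ℕ → R} {X : R} (h : IsX A xi X) :
    IsX B (fun n => p.f (xi n)) (p.f X) where
  supp := h.supp.map p
  rel := by rw [← p.comm, h.rel, map_sub, map_pow]
theorem map_eta2 (f : R →+* S) (xi : ℕ → R) (X : R) :
    f (eta2 xi X) = eta2 (fun n => f (xi n)) (f X) := by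
  simp [eta2]
theorem ETA_map_eta3 (f : R →+* S) (xi : ℕ → R) (X : R) :
    f (eta3 xi X) = eta3 (fun n => f (xi n)) (f X) := by
  simp [eta3]
theorem map_eta31 (f : R →+* S) (xi : ℕ → R) (X : R) :
    f (eta31 xi X) = eta31 (fun n => f (xi n)) (f X) := by
  simp [eta31, eta3, eta2]
theorem map_eta41 (f : R →+* S) (xi : ℕ → R) (X Y : R) :
    f (eta41 xi X Y) = eta41 (fun n => f (xi n)) (f X) (f Y) := by
  simp [eta41, eta4, eta3, eta2]
theorem IsY.map {A : Cos R} {B : Cos S} (p : CHom A B) {xi : ℕ → R} {X Y : R}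
    (h : IsY A xi X Y) : IsY B (fun n => p.f (xi n)) (p.f X) (p.f Y) where
  supp := h.supp.map p
  rel := by rw [← p.comm, h.rel, map_sub, map_pow, map_eta2]
theorem IsW.map {A : Cos R} {B : Cos S} (p : CHom A B) {xi : ℕ → R} {X W : R}
    (h : IsW A xi X W) : IsW B (fun n => p.f (xi n)) (p.f X) (p.f W) where
  supp := h.supp.map p
  rel := by rw [← p.comm, h.rel, map_sub, map_pow, map_eta31]
theorem map_b30 {A : Cos R} {B : Cos S} [CharP R 3] [CharP S 3] (p : CHom A B) {xi : ℕ → R}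
    (hxi : IsXi A xi) {X Y : R} (hX : IsX A xi X) (hY : IsY A xi X Y) :
    p.H (b30 A xi X Y) = b30 B (fun n => p.f (xi n)) (p.f X) (p.f Y) := by
  have e : p.f (b30R A xi X Y) = b30R B (fun n => p.f (xi n)) (p.f X) (p.f Y) := by
    unfold b30R bR om3
    simp only [map_add, map_sub, map_mul, map_pow, p.comm, map_eta2, ETA_map_eta3, map_ofNat]
  unfold b30
  rw [map_cls p even_two (b30_coc hxi hX hY), e]
theorem map_fcl {A : Cos R} {B : Cos S} [CharP R 3] [CharP S 3] (p : CHom A B) {xi : ℕ → R}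
    (hxi : IsXi A xi) {X Y : R} (hX : IsX A xi X) (hY : IsY A xi X Y) :
    p.H (fcl A xi X Y) = fcl B (fun n => p.f (xi n)) (p.f X) (p.f Y) := by
  unfold fcl
  rw [map_sub, map_mul, map_mul, map_pow, map_pow, map_bc p (eta41_coc hxi hX hY).cube,
    map_bc p (eta2_coc hxi hX), map_bc p (eta31_coc hxi hX).cube, map_b30 p hxi hX hY,
    map_pow, map_pow, map_eta2, map_eta31, map_eta41]

/-! ### extensions -/

theorem IsXi.ext {A : Cos R} {xi : ℕ → R} (h : IsXi A xi) (x : R) (hx : Coc A 1 x) :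
    IsXi (Ex A x hx) (fun n => C (xi n)) := h.map (inc A x hx)
theorem IsX.ext {A : Cos R} {xi : ℕ → R} {X : R} (h : IsX A xi X) (x : R) (hx : Coc A 1 x) :
    IsX (Ex A x hx) (fun n => C (xi n)) (C X) := h.map (inc A x hx)
theorem IsY.ext {A : Cos R} {xi : ℕ → R} {X Y : R} (h : IsY A xi X Y) (x : R)
    (hx : Coc A 1 x) : IsY (Ex A x hx) (fun n => C (xi n)) (C X) (C Y) := h.map (inc A x hx)
theorem isX_new {A : Cos R} {xi : ℕ → R} (hx : Coc A 1 (xi 1 ^ 3)) :
    IsX (Ex A (xi 1 ^ 3) hx) (fun n => C (xi n)) X where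
  supp := Ex_supp_X A _ hx
  rel := by rw [Ex_sh_X, map_pow]
theorem isY_new {A : Cos R} {xi : ℕ → R} {X0 : R} (hx : Coc A 1 (eta2 xi X0 ^ 9)) :
    IsY (Ex A (eta2 xi X0 ^ 9) hx) (fun n => C (xi n)) (C X0) X where
  supp := Ex_supp_X A _ hx
  rel := by rw [Ex_sh_X, map_pow, map_eta2]
theorem isW_new {A : Cos R} {xi : ℕ → R} {X0 : R} (hx : Coc A 1 (eta31 xi X0 ^ 9)) :
    IsW (Ex A (eta31 xi X0 ^ 9) hx) (fun n => C (xi n)) (C X0) X where
  supp := Ex_supp_X A _ hx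
  rel := by rw [Ex_sh_X, map_pow, map_eta31]

end P0N
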