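import Pool.Agent.H34.P0.Digits
import Pool.Agent.H34.P0.ClimbK
import Pool.Agent.H34.P0.Bc

/-!
# Lemma K: classes killed by adjoining a primitive are nilpotent
-/

set_option autoImplicit false

namespace P0N

open Finset Polynomial

variable {R : Type} [CommRing R]

/-- the action does not increase the degree in the new variable -/
theorem lemK_natDegree_act (A : Cos R) (x : R) (hx : Coc A 1 x) (a : ℕ →o ℕ) (p : R[X]) :
    ((Ex A x hx).act a p).natDegree ≤ p.natDegree := by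
  have h1 : (Ex A x hx).act a p =
      (p.map (A.act a)).comp (X - C (pv A x 0 (a 0))) := by
    show exAct A x a p = _
    rw [Polynomial.comp, Polynomial.eval₂_map]
    rfl
  rw [h1]
  refine le_trans natDegree_comp_le ?_
  calc (p.map (A.act a)).natDegree * (X - C (pv A x 0 (a 0))).natDegree
      ≤ p.natDegree * 1 :=
        Nat.mul_le_mul (natDegree_map_le) (natDegree_X_sub_C_le _)
    _ = p.natDegree := mul_one _

/-- cochains of degree at most `D` in the new variable -/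
def lemK_S (A : Cos R) (x : R) (hx : Coc A 1 x) (D : ℕ) :
    AddSubgroup ↥(Coch (Ex A x hx)) where
  carrier := {F | ∀ m, (F.1.c m).natDegree ≤ D}
  add_mem' := by
    intro F G hF hG m
    rw [add_c']
    exact le_trans (natDegree_add_le _ _) (max_le (hF m) (hG m))
  zero_mem' := by
    intro m
    rw [zero_c', natDegree_zero]; exact Nat.zero_le _
  neg_mem' := by
    intro F hF m
    rw [neg_c', natDegree_neg]; exact hF m

theorem lemK_mem_S (A : Cos R) (x : R) (hx : Coc A 1 x) (D : ℕ) (F : ↥(Coch (Ex A x hx))) :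
    F ∈ lemK_S A x hx D ↔ ∀ m, (F.1.c m).natDegree ≤ D := Iff.rfl

theorem lemK_S_mul (A : Cos R) (x : R) (hx : Coc A 1 x) (D E : ℕ)
    (F G : ↥(Coch (Ex A x hx))) (hF : F ∈ lemK_S A x hx D) (hG : G ∈ lemK_S A x hx E) :
    F * G ∈ lemK_S A x hx (D + E) := by
  intro m
  rw [mul_c']
  refine natDegree_sum_le_of_forall_le _ _ fun p _ => ?_
  refine le_trans natDegree_mul_le ?_
  exact Nat.add_le_add (hF _) (le_trans (lemK_natDegree_act A x hx _ _) (hG _))

theorem lemK_S_dC (A : Cos R) (x : R) (hx : Coc A 1 x) (D : ℕ)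
    (F : ↥(Coch (Ex A x hx))) (hF : F ∈ lemK_S A x hx D) :
    dC (Ex A x hx) F ∈ lemK_S A x hx D := by
  intro m
  cases m with
  | zero => rw [dC_zero, natDegree_zero]; exact Nat.zero_le _
  | succ m =>
    rw [dC_succ, d_apply]
    refine natDegree_sum_le_of_forall_le _ _ fun i _ => ?_
    have h1 : ((-1 : R[X]) ^ i * (Ex A x hx).act (face i) (F.1.c m)).natDegree
        ≤ ((Ex A x hx).act (face i) (F.1.c m)).natDegree := by
      rcases neg_one_pow_eq_or R[X] i with h | h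
      · rw [h, one_mul]
      · rw [h, neg_one_mul, natDegree_neg]
    exact le_trans h1 (le_trans (lemK_natDegree_act A x hx _ _) (hF m))

theorem lemK_S_hdC (A : Cos R) (x : R) (hx : Coc A 1 x) (D : ℕ) (s : ℕ)
    (F : ↥(Coch (Ex A x hx))) (hF : F ∈ lemK_S A x hx D) :
    hdC A x hx s F ∈ lemK_S A x hx D := by
  intro m
  rw [hdC_c]
  exact le_trans (natDegree_hasseDeriv_le _ _) (le_trans (Nat.sub_le _ _) (hF m))

theorem lemK_S_inc (A : Cos R) [CharP R 3] (x : R) (hx : Coc A 1 x) (a : ↥(Coch A)) :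
    (inc A x hx).D.f a ∈ lemK_S A x hx 0 := by
  intro m
  rw [CHom.D_c, inc_f, natDegree_C]

theorem lemK_S_mono (A : Cos R) (x : R) (hx : Coc A 1 x) {D E : ℕ} (h : D ≤ E) :
    lemK_S A x hx D ≤ lemK_S A x hx E := fun _ hF m => le_trans (hF m) h

theorem lemK_S_le_SK (A : Cos R) (x : R) (hx : Coc A 1 x) {D K : ℕ} (h : D < 3 ^ K) :
    lemK_S A x hx D ≤ SK A x hx ⊤ K := fun _ hF m =>
  ⟨lt_of_le_of_lt (hF m) h, fun _ => trivial⟩

/-- exponential growth -/
theorem lemK_growth (a b : ℕ) : ∃ K : ℕ, (1 + K * a) * b < 3 ^ K := by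
  have h1 : ∀ n : ℕ, 2 * n ^ 2 < 3 ^ (2 * n) := by
    intro n
    induction n with
    | zero => norm_num
    | succ n ih =>
      have h2 : 3 ^ (2 * (n + 1)) = 9 * 3 ^ (2 * n) := by
        rw [show 2 * (n + 1) = 2 * n + 2 by ring, pow_add]; ring
      rw [h2]
      rcases Nat.eq_zero_or_pos n with h | h
      · subst h; norm_num
      · nlinarith
  refine ⟨2 * ((a + 1) * (b + 1)), ?_⟩
  refine lt_of_le_of_lt ?_ (h1 ((a + 1) * (b + 1)))
  have h3 : 1 ≤ (a + 1) * (b + 1) := Nat.succ_le_of_lt (by positivity)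
  calc (1 + 2 * ((a + 1) * (b + 1)) * a) * b
      ≤ (2 * ((a + 1) * (b + 1)) * (a + 1)) * (b + 1) := by
        refine Nat.mul_le_mul ?_ (Nat.le_succ b)
        nlinarith
    _ = 2 * ((a + 1) * (b + 1)) ^ 2 := by ring

/-- `bC` represents `bc` -/
theorem lemK_bC (A : Cos R) [CharP R 3] {u : R} (hu : Coc A 1 u) :
    bC A u ∈ (cochDGA A).Z ∧ (cochDGA A).cl (bC A u) = bc A u := by
  have h : bC A u = sg A 2 (bR A u) := (sg_bR hu.1).symm
  rw [h]
  exact ⟨sg_mem_Z (bR_coc hu) even_two, rfl⟩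

theorem lemK_gpr (A : Cos R) [CharP R 3] (K : ℕ) : ∀ (g : ℕ → ↥(Coch A)) (gs : ℕ → Hev A)
    (_ : ∀ s, g s ∈ (cochDGA A).Z) (_ : ∀ s, (cochDGA A).cl (g s) = gs s),
    gpr g K ∈ (cochDGA A).Z ∧ (cochDGA A).cl (gpr g K) = ∏ s ∈ range K, gs s := by
  induction K with
  | zero =>
    intro g gs _ _
    refine ⟨(cochDGA A).Z.one_mem, ?_⟩
    rw [Finset.prod_range_zero]
    exact (cochDGA A).cl_one
  | succ K ih =>
    intro g gs hg hgs
    obtain ⟨h1, h2⟩ := ih (fun s => g (s + 1)) (fun s => gs (s + 1)) (fun s => hg (s + 1))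
      (fun s => hgs (s + 1))
    refine ⟨(cochDGA A).Z.mul_mem h1 (hg 0), ?_⟩
    rw [Finset.prod_range_succ', ← h2, ← hgs 0]
    exact (cochDGA A).cl_mul h1 (hg 0)

/-- Lemma K with multipliers -/
theorem lemK (A : Cos R) [CharP R 3] (x : R) (hx : Coc A 1 x) (N : ℕ) (hN : 1 ≤ N)
    (gs : ℕ → Hev A) (hg : ∀ s, gs s * bc A (x ^ (3 ^ s)) ^ N = 0) (z : Hev A) (k : ℕ)
    (hz : IsHom A k z) (hz0 : (inc A x hx).H z = 0) :
    ∃ K l : ℕ, (∏ s ∈ range K, gs s) * z ^ l = 0 := by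
  obtain ⟨hk, f, hf, rfl⟩ := hz
  rw [map_cls _ hk hf] at hz0
  have hCf : Coc (Ex A x hx) k ((inc A x hx).f f) := hf.map (inc A x hx)
  rcases Nat.eq_zero_or_pos k with h0 | h0
  · subst h0
    rw [cls_zero_eq_zero_iff hCf, inc_f, C_eq_zero] at hz0
    refine ⟨0, 1, ?_⟩
    rw [hz0, cls_zero, pow_one, mul_zero]
  obtain ⟨k', rfl⟩ : ∃ k', k = k' + 1 := ⟨k - 1, by omega⟩
  obtain ⟨ζ, hζ, hdζ⟩ := (cls_eq_zero_iff hk hCf).1 hz0
  have hk' : Odd k' := by
    rcases Nat.even_or_odd k' with h | h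
    · exact absurd hk (Nat.not_even_iff_odd.2 h.add_one)
    · exact h
  -- the data
  set q : ℕ := 2 * N with hq
  obtain ⟨K, hK⟩ := lemK_growth (q - 1) ζ.natDegree
  set l : ℕ := 1 + K * (q - 1) with hl
  set a : ↥(Coch (Ex A x hx)) := (inc A x hx).D.f (sg A (k' + 1) f) with ha
  have hfZ : sg A (k' + 1) f ∈ (cochDGA A).Z := sg_mem_Z hf hk
  have haZ : a ∈ (cochDGA (Ex A x hx)).Z := (inc A x hx).D.mem_Z hfZ
  have haτ : tauC (Ex A x hx) a = a := haZ.1
  have had : dC (Ex A x hx) a = 0 := haZ.2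
  set Z : ↥(Coch (Ex A x hx)) := sg (Ex A x hx) k' ζ with hZ
  have hZd : dC (Ex A x hx) Z = a := by
    rw [hZ, dC_sg hζ, hdζ, ha, D_sg _ hf.1]
  have hZτ : tauC (Ex A x hx) Z = - Z := tauC_sg_odd _ _ hk'
  have hops := hdC_ops A x hx
  have hdd : ∀ v, dC (Ex A x hx) (dC (Ex A x hx) v) = 0 := (cochDGA (Ex A x hx)).d_d
  have hstep : ∀ v : ↥(Coch (Ex A x hx)),
      dC (Ex A x hx) (Z * v) + Z * dC (Ex A x hx) v - a * v = 0 := by
    intro v
    rw [dC_leib, hZd, hZτ]
    noncomm_ring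
  have hLd : ∀ v : ↥(Coch (Ex A x hx)), a * dC (Ex A x hx) v = dC (Ex A x hx) (a * v) := by
    intro v
    rw [dC_leib, had, haτ, zero_mul, zero_add]
  have hZS : Z ∈ lemK_S A x hx ζ.natDegree := by
    intro m
    rw [hZ, sg_c hζ]
    split_ifs
    · exact le_rfl
    · rw [natDegree_zero]; exact Nat.zero_le _
  have haS : a ∈ lemK_S A x hx 0 := lemK_S_inc A x hx _
  have hsolv := climbK (q := q) (by omega) K (dC (Ex A x hx)) (hdC A x hx) hops hdd
    (AddMonoidHom.mulLeft Z) (AddMonoidHom.mulLeft a) hLd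
    (fun s v => (hdC_mul A x hx s _ v).symm)
    (fun n => if n = 0 then ⊤ else ⊥) (by simp) (by
      intro n
      simp) 0 (by simp)
    (by
      intro j v hv
      rw [if_neg (by omega)]
      rw [AddSubgroup.mem_bot]
      exact hstep v)
    (by
      intro j v hv
      by_cases hj : j = 0
      · simp [hj]
      · rw [if_neg hj, AddSubgroup.mem_bot] at hv ⊢
        rw [hv, map_zero])
    (by
      intro j v hv
      by_cases hj : j = 0
      · simp [hj]
      · rw [if_neg hj, AddSubgroup.mem_bot] at hv ⊢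
        rw [hv, map_zero])
    (by
      intro j v hv
      by_cases hj : j = 0
      · simp [hj]
      · rw [if_neg hj, AddSubgroup.mem_bot] at hv ⊢
        rw [hv, map_zero])
    (by
      intro s j v hv
      by_cases hj : j = 0
      · simp [hj]
      · rw [if_neg hj, AddSubgroup.mem_bot] at hv ⊢
        rw [hv, map_zero])
    (fun j => lemK_S A x hx (j * ζ.natDegree))
    (fun j => lemK_S_mono A x hx (Nat.mul_le_mul_right _ (Nat.le_succ j)))
    (by
      intro j v hv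
      have := lemK_S_mul A x hx _ _ Z v hZS hv
      rw [show (j + 1) * ζ.natDegree = ζ.natDegree + j * ζ.natDegree by ring]
      exact this)
    (by
      intro j v hv
      have := lemK_S_mul A x hx _ _ a v haS hv
      rw [zero_add] at this
      exact this)
    (fun j v hv => lemK_S_dC A x hx _ v hv)
    (fun s j v hv => lemK_S_hdC A x hx _ s v hv)
    1 (by
      have := lemK_S_inc A x hx 1
      rw [map_one] at this
      rw [zero_mul]
      exact this)
    (cochDGA (Ex A x hx)).Z.one_mem.2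
    (by
      intro s
      have := hdC_inc A x hx s 1
      rwa [map_one] at this)
    l (by omega)
  have hiter : (AddMonoidHom.mulLeft a)^[l] (1 : ↥(Coch (Ex A x hx))) =
      (inc A x hx).D.f (sg A (k' + 1) f ^ l) := by
    rw [map_pow, ← ha]
    clear hsolv
    induction l with
    | zero => simp
    | succ l ih => rw [Function.iterate_succ_apply', ih, pow_succ']; rfl
  rw [hiter] at hsolv
  have hsolv2 := Solv.map K (dC (Ex A x hx)) (hdC A x hx) _ _ (dC (Ex A x hx)) (hdC A x hx)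
    (SK A x hx ⊤ K) (AddMonoidHom.id _) (fun _ => rfl) (fun _ _ => rfl)
    (fun v hv => lemK_S_le_SK A x hx hK hv) hsolv
  rw [AddMonoidHom.id_apply] at hsolv2
  -- representatives of the multipliers
  have hgrep : ∀ s, ∃ g : ↥(Coch A), g ∈ (cochDGA A).Z ∧ (cochDGA A).cl g = gs s :=
    fun s => (cochDGA A).exists_rep (gs s)
  choose g hgZ hgcl using hgrep
  have hθ : ∀ s, ∃ θ : ↥(Coch A), tauC A θ = - θ ∧ g s * bC A (x ^ (3 ^ s)) ^ N = dC A θ := by
    intro s
    obtain ⟨h1, h2⟩ := lemK_bC A (hx.pow3 s)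
    have h3 : g s * bC A (x ^ (3 ^ s)) ^ N ∈ (cochDGA A).Z :=
      mul_mem (hgZ s) (pow_mem h1 N)
    have h4 : (cochDGA A).cl (g s * bC A (x ^ (3 ^ s)) ^ N) = 0 := by
      rw [(cochDGA A).cl_mul (hgZ s) (pow_mem h1 N), (cochDGA A).cl_pow h1, h2, hgcl, hg s]
    obtain ⟨e, he⟩ := ((cochDGA A).cl_eq_zero_iff h3).1 h4
    exact (cochDGA A).exists_odd h3.1 he
  choose θ hθτ hθd using hθ
  obtain ⟨η, -, hη⟩ := digits N hN K A x hx g θ (fun s _ => hgZ s) (fun s _ => hθτ s)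
    (fun s _ => hθd s) ⊤ (fun _ _ _ => trivial) (sg A (k' + 1) f ^ l) hsolv2
  obtain ⟨h5, h6⟩ := lemK_gpr A K g gs hgZ hgcl
  refine ⟨K, l, ?_⟩
  have h7 : (cochDGA A).cl (gpr g K * sg A (k' + 1) f ^ l) = 0 :=
    ((cochDGA A).cl_eq_zero_iff (mul_mem h5 (pow_mem hfZ l))).2 ⟨η, hη.symm⟩
  rw [(cochDGA A).cl_mul h5 (pow_mem hfZ l), (cochDGA A).cl_pow hfZ, h6] at h7
  exact h7

/-- Lemma K -/
theorem lemK_nil (A : Cos R) [CharP R 3] (x : R) (hx : Coc A 1 x)
    (hb : IsNilpotent (bc A x)) (z : Hev A) (k : ℕ)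
    (hz : IsHom A k z) (hz0 : (inc A x hx).H z = 0) : IsNilpotent z := by
  obtain ⟨N, hN⟩ := hb
  have hN' : bc A x ^ (N + 1) = 0 := by rw [pow_succ, hN, zero_mul]
  obtain ⟨K, l, h⟩ := lemK A x hx (N + 1) (by omega) (fun _ => 1)
    (fun s => by rw [one_mul]; exact bc_pow3_eq_zero hx hN' s) z k hz hz0
  refine ⟨l, ?_⟩
  rwa [Finset.prod_const_one, one_mul] at h

end P0N
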