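import Pool.Agent.H34.P0.Beta
import Pool.Agent.H34.P0.Eta

/-!
# The relations R4 and R5
-/

set_option autoImplicit false

namespace P0N

open Finset

variable {S : Type} [CommRing S]

theorem r45_F0 {B : Cos S} {w : S} (hw : Supp B 1 w) : B.act (face 0) w = B.act (sh 1) w :=
  hw.act_congr fun i hi => by simp
theorem r45_F2 {B : Cos S} {w : S} (hw : Supp B 1 w) : B.act (face 2) w = w :=
  hw.act_eq _ fun i hi => by simp; omega
theorem r45_F3 {B : Cos S} {w : S} (hw : Supp B 1 w) : B.act (face 3) w = w :=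
  hw.act_eq _ fun i hi => by simp; omega
theorem r45_S0 {B : Cos S} {w : S} (hw : Supp B 1 w) :
    B.act (face 0) (B.act (sh 1) w) = B.act (sh 2) w := by
  rw [← B.act_comp]
  exact hw.act_congr fun i hi => by simp [OrderHom.comp]
theorem r45_S1 {B : Cos S} {w : S} (hw : Supp B 1 w) :
    B.act (face 1) (B.act (sh 1) w) = B.act (sh 2) w := by
  rw [← B.act_comp]
  exact hw.act_congr fun i hi => by simp [OrderHom.comp]
theorem r45_S2 {B : Cos S} {w : S} (hw : Supp B 1 w) :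
    B.act (face 2) (B.act (sh 1) w) = B.act (sh 1) (B.act (face 1) w) := by
  rw [← B.act_comp, ← B.act_comp]
  exact hw.act_congr fun i hi => by
    interval_cases i <;> simp
theorem r45_S3 {B : Cos S} {w : S} (hw : Supp B 1 w) :
    B.act (face 3) (B.act (sh 1) w) = B.act (sh 1) w := by
  rw [← B.act_comp]
  exact hw.act_congr fun i hi => by
    interval_cases i <;> simp
theorem r45_SS {B : Cos S} (w : S) :
    B.act (sh 1) (B.act (sh 1) w) = B.act (sh 2) w := act_sh_sh B 1 1 w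

theorem r45_coc {B : Cos S} {u : S} (hu : Coc B 1 u) :
    B.act (face 1) u = u + B.act (sh 1) u := by
  have := d_one B hu.1
  rw [hu.2] at this
  linear_combination this

/-- the omega identity, one extra term -/
theorem r45_om3 {B : Cos S} {a u v : S} (ha : Supp B 1 a) (hu : Coc B 1 u) (hv : Coc B 1 v)
    (hr : B.act (face 1) a = a + B.act (sh 1) a + u * B.act (sh 1) v) :
    d B 2 (om3 a (B.act (sh 1) a) (u * B.act (sh 1) v)) =
      cup B 2 (bR B u) (v ^ 3) - cup B 1 (u ^ 3) (bR B v) := by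
  rw [d_apply]
  simp only [Finset.sum_range_succ, Finset.sum_range_zero, om3, cup, bR, map_add, map_mul,
    map_pow, Nat.reduceAdd, r45_F0 ha, r45_F0 hu.1, r45_F2 ha, r45_F2 hu.1, r45_F3 ha,
    r45_F3 hu.1, r45_S0 ha, r45_S0 hv.1, r45_S1 ha, r45_S1 hv.1, r45_S2 ha, r45_S2 hv.1,
    r45_S3 ha, r45_S3 hv.1, hr, r45_coc hu, r45_coc hv, r45_SS, map_ofNat]
  ring

/-- the sum of four elements cubed minus the cubes, divided by three -/
def r45_o4 (a b c e : S) : S :=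
  om3 a b c + e * (a + b + c) ^ 2 + e ^ 2 * (a + b + c)

/-- the omega identity, two extra terms -/
theorem r45_om4 {B : Cos S} {a u v u' v' : S} (ha : Supp B 1 a) (hu : Coc B 1 u)
    (hv : Coc B 1 v) (hu' : Coc B 1 u') (hv' : Coc B 1 v')
    (hr : B.act (face 1) a = a + B.act (sh 1) a + u * B.act (sh 1) v + u' * B.act (sh 1) v') :
    d B 2 (r45_o4 a (B.act (sh 1) a) (u * B.act (sh 1) v) (u' * B.act (sh 1) v')) =
      cup B 2 (bR B u) (v ^ 3) - cup B 1 (u ^ 3) (bR B v)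
        + (cup B 2 (bR B u') (v' ^ 3) - cup B 1 (u' ^ 3) (bR B v')) := by
  rw [d_apply]
  simp only [Finset.sum_range_succ, Finset.sum_range_zero, r45_o4, om3, cup, bR, map_add, map_mul,
    map_pow, Nat.reduceAdd, r45_F0 ha, r45_F0 hu.1, r45_F0 hu'.1, r45_F2 ha, r45_F2 hu.1,
    r45_F2 hu'.1, r45_F3 ha, r45_F3 hu.1, r45_F3 hu'.1, r45_S0 ha, r45_S0 hv.1, r45_S0 hv'.1,
    r45_S1 ha, r45_S1 hv.1, r45_S1 hv'.1, r45_S2 ha, r45_S2 hv.1, r45_S2 hv'.1,
    r45_S3 ha, r45_S3 hv.1, r45_S3 hv'.1, hr, r45_coc hu, r45_coc hv, r45_coc hu', r45_coc hv',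
    r45_SS, map_ofNat]
  ring



theorem r45_p3 [CharP S 3] (x y : S) (n : ℕ) : (x - y) ^ (3 ^ n) = x ^ (3 ^ n) - y ^ (3 ^ n) := by
  have : Fact (Nat.Prime 3) := ⟨Nat.prime_three⟩
  exact sub_pow_char_pow x y n

/-- `X` on the edges -/
theorem r45_Xf {B : Cos S} {X : S} (hX : Supp B 0 X) : B.act (face 1) X = X :=
  hX.act_eq _ fun i hi => by obtain rfl : i = 0 := by omega
                             simp

/-- the relation of `eta_4 - Y eta_2` -/
theorem r45_rel4 {B : Cos S} [CharP S 3] {xi : ℕ → S} (hxi : IsXi B xi) {X Y : S}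
    (hX : IsX B xi X) (hY : IsY B xi X Y) :
    B.act (face 1) (eta4 xi X - Y * eta2 xi X) =
      (eta4 xi X - Y * eta2 xi X) + B.act (sh 1) (eta4 xi X - Y * eta2 xi X)
        + eta31 xi X * B.act (sh 1) (xi 1) := by
  have h1 := hxi.rel 1
  have h2 := hxi.rel 2
  have h3 := hxi.rel 3
  have h4 := hxi.rel 4
  simp only [gm, Finset.sum_range_succ, Finset.sum_range_zero, hxi.zero, map_one] at h1 h2 h3 h4
  norm_num at h1 h2 h3 h4
  have e3 : ∀ x y : S, (x - y) ^ 3 = x ^ 3 - y ^ 3 := fun x y => r45_p3 x y 1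
  have e9 : ∀ x y : S, (x - y) ^ 9 = x ^ 9 - y ^ 9 := fun x y => r45_p3 x y 2
  have e27 : ∀ x y : S, (x - y) ^ 27 = x ^ 27 - y ^ 27 := fun x y => r45_p3 x y 3
  unfold eta31 eta4 eta3
  simp only [map_sub, map_mul, map_pow, r45_Xf hX.supp, r45_Xf hY.supp, hX.rel, hY.rel]
  unfold eta2
  simp only [map_sub, map_mul, map_pow, r45_Xf hX.supp, r45_Xf hY.supp, hX.rel, h1, h2, h3, h4,
    e3, e9, e27, mul_pow, ← pow_mul]
  norm_num
  ring

/-- the relation of `eta_5 - Y^3 eta_3` -/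
theorem r45_rel5 {B : Cos S} [CharP S 3] {xi : ℕ → S} (hxi : IsXi B xi) {X Y : S}
    (hX : IsX B xi X) (hY : IsY B xi X Y) :
    B.act (face 1) (eta5 xi X - Y ^ 3 * eta3 xi X) =
      (eta5 xi X - Y ^ 3 * eta3 xi X) + B.act (sh 1) (eta5 xi X - Y ^ 3 * eta3 xi X)
        + eta41 xi X Y * B.act (sh 1) (xi 1)
        + eta31 xi X ^ 3 * B.act (sh 1) (eta2 xi X) := by
  have h1 := hxi.rel 1
  have h2 := hxi.rel 2
  have h3 := hxi.rel 3
  have h4 := hxi.rel 4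
  have h5 := hxi.rel 5
  simp only [gm, Finset.sum_range_succ, Finset.sum_range_zero, hxi.zero, map_one]
    at h1 h2 h3 h4 h5
  norm_num at h1 h2 h3 h4 h5
  have e3 : ∀ x y : S, (x - y) ^ 3 = x ^ 3 - y ^ 3 := fun x y => r45_p3 x y 1
  have e9 : ∀ x y : S, (x - y) ^ 9 = x ^ 9 - y ^ 9 := fun x y => r45_p3 x y 2
  have e27 : ∀ x y : S, (x - y) ^ 27 = x ^ 27 - y ^ 27 := fun x y => r45_p3 x y 3
  have e3a : ∀ x y : S, (x + y) ^ 3 = x ^ 3 + y ^ 3 := fun x y => by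
    have : Fact (Nat.Prime 3) := ⟨Nat.prime_three⟩
    exact add_pow_char x y 3
  have e4 : (X - xi 1 ^ 3) ^ 4 = (X - xi 1 ^ 3) ^ 3 * (X - xi 1 ^ 3) := by ring
  unfold eta41 eta31 eta5 eta4 eta3
  rw [e4]
  simp only [map_sub, map_mul, map_pow, r45_Xf hX.supp, r45_Xf hY.supp, hX.rel, hY.rel]
  unfold eta2
  simp only [map_sub, map_mul, map_pow, r45_Xf hX.supp, r45_Xf hY.supp, hX.rel, h1, h2, h3, h4,
    h5, e3, e9, e27, mul_pow, ← pow_mul]
  norm_num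
  simp only [e3, e9, e27, e3a, mul_pow, ← pow_mul]
  norm_num
  ring

/-- supports of the auxiliary cochains -/
theorem r45_supp {B : Cos S} {a : S} (ha : Supp B 1 a) (k : ℕ) :
    Supp B (k + 1) (B.act (sh k) a) :=
  ha.act _ fun i hi => by simp; omega

theorem r45_om3_supp {B : Cos S} {a b c : S} {n : ℕ} (ha : Supp B n a) (hb : Supp B n b)
    (hc : Supp B n c) : Supp B n (om3 a b c) := by
  intro p q hpq
  simp only [om3, map_add, map_mul, map_pow, map_ofNat, ha p q hpq, hb p q hpq, hc p q hpq]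

theorem r45_om4_supp {B : Cos S} {a b c e : S} {n : ℕ} (ha : Supp B n a) (hb : Supp B n b)
    (hc : Supp B n c) (he : Supp B n e) : Supp B n (r45_o4 a b c e) := by
  intro p q hpq
  simp only [r45_o4, om3, map_add, map_mul, map_pow, map_ofNat, ha p q hpq, hb p q hpq, hc p q hpq,
    he p q hpq]

/-- `b(u) ∪ x = d(-(b(u) ∪ w))` when `d w = -x` -/
theorem r45_right {B : Cos S} [CharP S 3] {b w x : S} (hb : Coc B 2 b)
    (hd : d B 0 w = -x) : cup B 2 b x = d B 2 (- cup B 2 b w) := by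
  rw [map_neg]
  have h := d_cup B 2 0 b w hb.1
  rw [hb.2, hd] at h
  have h1 : cup B 3 (0 : S) w = 0 := by simp [cup]
  have h2 : cup B 2 b (-x) = - cup B 2 b x := by simp [cup]
  simp only [Nat.reduceAdd, h1, h2] at h
  rw [h]
  ring

/-- `x ∪ b = d(-(w ∪ b))` when `d w = -x` -/
theorem r45_left {B : Cos S} [CharP S 3] {b w x : S} (hw : Supp B 0 w) (hb : Coc B 2 b)
    (hd : d B 0 w = -x) : cup B 1 x b = d B 2 (- cup B 0 w b) := by
  rw [map_neg]
  have h := d_cup B 0 2 w b hw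
  rw [hb.2, hd] at h
  have h1 : cup B 0 w (0 : S) = 0 := by simp [cup]
  have h2 : cup B 1 (-x) b = - cup B 1 x b := by simp [cup]
  simp only [Nat.reduceAdd, h1, h2] at h
  rw [h]
  ring

theorem R4 {B : Cos S} [CharP S 3] {xi : ℕ → S} (hxi : IsXi B xi) {X Y : S}
    (hX : IsX B xi X) (hY : IsY B xi X Y) : AnnH B (eta31 xi X ^ 3) (bc B (xi 1)) := by
  have hu := eta31_coc hxi hX
  have hv := xi1_coc hxi
  have hX1 : Supp B 1 X := hX.supp.mono (by omega)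
  have hY1 : Supp B 1 Y := hY.supp.mono (by omega)
  have ha : Supp B 1 (eta4 xi X - Y * eta2 xi X) := by
    unfold eta4 eta2
    exact ((hxi.supp 4).sub ((hX1.pow 9).mul (hxi.supp 3))).sub
      (hY1.mul ((hxi.supp 2).sub (hX1.mul (hxi.supp 1))))
  have hom := r45_om3 ha hu hv (r45_rel4 hxi hX hY)
  have hbu := bR_coc hu
  have hbv := bR_coc hv
  have hd : d B 0 X = - (xi 1 ^ 3) := hX.bdry
  have hr := r45_right hbu hd
  refine ⟨sg B 2 (bR B (xi 1)), sg_mem_Z hbv (by decide), rfl,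
    sg B 2 (- cup B 2 (bR B (eta31 xi X)) X
      - om3 (eta4 xi X - Y * eta2 xi X) (B.act (sh 1) (eta4 xi X - Y * eta2 xi X))
        (eta31 xi X * B.act (sh 1) (xi 1))), ?_⟩
  have hs1 : Supp B 2 (cup B 2 (bR B (eta31 xi X)) X) := hbu.1.cup hX.supp
  have hs2 : Supp B 2 (om3 (eta4 xi X - Y * eta2 xi X)
      (B.act (sh 1) (eta4 xi X - Y * eta2 xi X)) (eta31 xi X * B.act (sh 1) (xi 1))) :=
    r45_om3_supp (ha.mono (by omega)) (r45_supp ha 1)
      ((hu.1.mono (by omega)).mul (r45_supp hv.1 1))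
  rw [dC_sg (hs1.neg.sub hs2), sg_mul (hu.cube.1) hbv.1, map_sub, ← hr, hom]
  congr 1
  ring

theorem b32_b10 {B : Cos S} [CharP S 3] {xi : ℕ → S} (hxi : IsXi B xi) {X Y : S}
    (hX : IsX B xi X) (hY : IsY B xi X Y) :
    bc B (eta31 xi X ^ 3) * bc B (xi 1) ^ 2 = 0 := by
  rw [mul_comm]
  exact beta_lemma (eta31_coc hxi hX).cube (R4 hxi hX hY)

theorem R5_exact {B : Cos S} [CharP S 3] {xi : ℕ → S} (hxi : IsXi B xi) {X Y W : S}
    (hX : IsX B xi X) (hY : IsY B xi X Y) (hW : IsW B xi X W) :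
    ∃ k, sg B 1 (eta41 xi X Y ^ 3) * sg B 2 (bR B (xi 1))
      - sg B 2 (bR B (eta31 xi X ^ 3)) * sg B 1 (eta2 xi X ^ 3) = dC B k := by
  have hu := eta41_coc hxi hX hY
  have hv := xi1_coc hxi
  have hu' := (eta31_coc hxi hX).cube
  have hv' := eta2_coc hxi hX
  have hX1 : Supp B 1 X := hX.supp.mono (by omega)
  have hY1 : Supp B 1 Y := hY.supp.mono (by omega)
  have ha : Supp B 1 (eta5 xi X - Y ^ 3 * eta3 xi X) := by
    unfold eta5 eta3
    exact ((hxi.supp 5).sub ((hX1.pow 27).mul (hxi.supp 4))).sub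
      ((hY1.pow 3).mul ((hxi.supp 3).sub ((hX1.pow 3).mul (hxi.supp 2))))
  have hom := r45_om4 ha hu hv hu' hv' (r45_rel5 hxi hX hY)
  have hbu := bR_coc hu
  have hbv := bR_coc hv
  have hbu' := bR_coc hu'
  have hbv' := bR_coc hv'
  have hd : d B 0 X = - (xi 1 ^ 3) := hX.bdry
  have hdW : d B 0 W = - ((eta31 xi X ^ 3) ^ 3) := by
    rw [hW.bdry]; ring
  have hr := r45_right hbu hd
  have hl := r45_left hW.supp hbv' hdW
  have hs1 : Supp B 2 (cup B 2 (bR B (eta41 xi X Y)) X) := hbu.1.cup hX.supp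
  have hs3 : Supp B 2 (cup B 0 W (bR B (eta2 xi X))) := by
    have := hW.supp.cup hbv'.1
    simpa using this
  have hs2 : Supp B 2 (r45_o4 (eta5 xi X - Y ^ 3 * eta3 xi X)
      (B.act (sh 1) (eta5 xi X - Y ^ 3 * eta3 xi X)) (eta41 xi X Y * B.act (sh 1) (xi 1))
      (eta31 xi X ^ 3 * B.act (sh 1) (eta2 xi X))) :=
    r45_om4_supp (ha.mono (by omega)) (r45_supp ha 1)
      ((hu.1.mono (by omega)).mul (r45_supp hv.1 1))
      ((hu'.1.mono (by omega)).mul (r45_supp hv'.1 1))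
  refine ⟨sg B 2 (- cup B 2 (bR B (eta41 xi X Y)) X
      - (- cup B 0 W (bR B (eta2 xi X)))
      - r45_o4 (eta5 xi X - Y ^ 3 * eta3 xi X)
        (B.act (sh 1) (eta5 xi X - Y ^ 3 * eta3 xi X)) (eta41 xi X Y * B.act (sh 1) (xi 1))
        (eta31 xi X ^ 3 * B.act (sh 1) (eta2 xi X))), ?_⟩
  rw [dC_sg ((hs1.neg.sub hs3.neg).sub hs2), sg_mul hu.cube.1 hbv.1,
    sg_mul hbu'.1 hv'.cube.1, map_sub, map_sub, ← hr, ← hl, hom]
  show sg B 3 _ - sg B 3 _ = sg B 3 _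
  rw [← sg_sub (hu.cube.1.cup hbv.1) (hbu'.1.cup hv'.cube.1)]
  congr 1
  ring

/-- `z * d e` is a boundary for a 1-cocycle `z` -/
theorem r45_zd {B : Cos S} [CharP S 3] {z : S} (hz : Coc B 1 z) (e : ↥(Coch B)) :
    sg B 1 z * dC B e = dC B (- (sg B 1 z * e)) := by
  have h := dC_leib B (sg B 1 z) e
  rw [dC_sg hz.1, hz.2, sg_zero, tauC_sg_odd B z (by decide), zero_mul, zero_add, neg_mul] at h
  rw [map_neg, h, neg_neg]

theorem R5a {B : Cos S} [CharP S 3] {xi : ℕ → S} (hxi : IsXi B xi) {X Y W : S}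
    (hX : IsX B xi X) (hY : IsY B xi X Y) (hW : IsW B xi X W) (γ : Hev B)
    (h : bc B (eta31 xi X ^ 3) * γ = 0) :
    AnnH B (eta41 xi X Y ^ 3) (bc B (xi 1) * γ) := by
  obtain ⟨k0, hk0⟩ := R5_exact hxi hX hY hW
  obtain ⟨c, hc, rfl⟩ := (cochDGA B).exists_rep γ
  have hbv := bR_coc (xi1_coc hxi)
  have hbu' := bR_coc (eta31_coc hxi hX).cube
  have hz10 := sg_mem_Z hbv (by decide)
  have hz32 := sg_mem_Z hbu' (by decide)
  have hz2 := (eta2_coc hxi hX).cube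
  have hdc : dC B c = 0 := hc.2
  refine ⟨sg B 2 (bR B (xi 1)) * c, mul_mem hz10 hc, (cochDGA B).cl_mul hz10 hc, ?_⟩
  have h0 : (cochDGA B).cl (sg B 2 (bR B (eta31 xi X ^ 3)) * c) = 0 := by
    rw [(cochDGA B).cl_mul hz32 hc]; exact h
  obtain ⟨e2, he2⟩ := ((cochDGA B).cl_eq_zero_iff (mul_mem hz32 hc)).1 h0
  obtain ⟨e3, he3⟩ := (cochDGA B).central c (sg B 2 (bR B (eta31 xi X ^ 3))) hc.1 hc.2 hz32.2
  have hz2c : dC B (sg B 1 (eta2 xi X ^ 3) * c) = 0 := by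
    rw [dC_leib, dC_sg hz2.1, hz2.2, sg_zero, hdc, zero_mul, mul_zero, add_zero]
  obtain ⟨e1, he1⟩ := (cochDGA B).central (sg B 2 (bR B (eta31 xi X ^ 3)))
    (sg B 1 (eta2 xi X ^ 3) * c) hz32.1 hz32.2 hz2c
  replace he1 : _ = dC B e1 := he1
  replace he2 : _ = dC B e2 := he2
  replace he3 : _ = dC B e3 := he3
  have h5 : dC B k0 * c = dC B (k0 * c) := by
    rw [dC_leib, hdc, mul_zero, add_zero]
  refine ⟨k0 * c + e1 + (- (sg B 1 (eta2 xi X ^ 3) * (e2 + e3))), ?_⟩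
  rw [map_add, map_add, ← r45_zd hz2, map_add, ← h5, ← hk0, ← he1, ← he2, ← he3]
  noncomm_ring

theorem R5b {B : Cos S} [CharP S 3] {xi : ℕ → S} (hxi : IsXi B xi) {X Y W : S}
    (hX : IsX B xi X) (hY : IsY B xi X Y) (hW : IsW B xi X W) (γ : Hev B)
    (h : bc B (xi 1) * γ = 0) :
    AnnH B (eta2 xi X ^ 3) (bc B (eta31 xi X ^ 3) * γ) := by
  obtain ⟨k0, hk0⟩ := R5_exact hxi hX hY hW
  obtain ⟨c, hc, rfl⟩ := (cochDGA B).exists_rep γ
  have hbv := bR_coc (xi1_coc hxi)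
  have hbu' := bR_coc (eta31_coc hxi hX).cube
  have hz10 := sg_mem_Z hbv (by decide)
  have hz32 := sg_mem_Z hbu' (by decide)
  have hz2 := (eta2_coc hxi hX).cube
  have hz41 := (eta41_coc hxi hX hY).cube
  have hdc : dC B c = 0 := hc.2
  refine ⟨sg B 2 (bR B (eta31 xi X ^ 3)) * c, mul_mem hz32 hc, (cochDGA B).cl_mul hz32 hc, ?_⟩
  have h0 : (cochDGA B).cl (sg B 2 (bR B (xi 1)) * c) = 0 := by
    rw [(cochDGA B).cl_mul hz10 hc]; exact h
  obtain ⟨e2, he2⟩ := ((cochDGA B).cl_eq_zero_iff (mul_mem hz10 hc)).1 h0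
  have hz2d : dC B (sg B 1 (eta2 xi X ^ 3)) = 0 := by
    rw [dC_sg hz2.1, hz2.2, sg_zero]
  obtain ⟨e1, he1⟩ := (cochDGA B).central (sg B 2 (bR B (eta31 xi X ^ 3)))
    (sg B 1 (eta2 xi X ^ 3)) hz32.1 hz32.2 hz2d
  replace he1 : _ = dC B e1 := he1
  replace he2 : _ = dC B e2 := he2
  have h5 : dC B k0 * c = dC B (k0 * c) := by
    rw [dC_leib, hdc, mul_zero, add_zero]
  have h6 : dC B e1 * c = dC B (e1 * c) := by
    rw [dC_leib, hdc, mul_zero, add_zero]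
  refine ⟨- (e1 * c) - k0 * c + (- (sg B 1 (eta41 xi X Y ^ 3) * e2)), ?_⟩
  rw [map_add, map_sub, map_neg, ← r45_zd hz41, ← h5, ← h6, ← hk0, ← he1, ← he2]
  noncomm_ring

end P0N
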