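import Pool.Agent.H34.P0.Tower
import Pool.Agent.H34.P0.LemK
import Pool.Agent.H34.P0.R45

/-!
# Nilpotence of `b_42 b_10` and `b_21 b_32`
-/

set_option autoImplicit false

namespace P0N

open Finset Polynomial

variable {S : Type} [CommRing S]

/-- a nilpotent power of an element -/
theorem NIL2_of_pow {M : Type} [CommRing M] {x : M} (n : ℕ) (h : IsNilpotent (x ^ n)) :
    IsNilpotent x := by
  obtain ⟨k, hk⟩ := h
  exact ⟨n * k, by rw [pow_mul]; exact hk⟩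

/-- `b_42 b_10` is nilpotent as soon as `b_33` is -/
theorem nil_b42_b10 {B : Cos S} [CharP S 3] {xi : ℕ → S} (hxi : IsXi B xi) {X0 Y : S}
    (hX : IsX B xi X0) (hY : IsY B xi X0 Y) (h33 : IsNilpotent (bc B (eta31 xi X0 ^ 9))) :
    IsNilpotent (bc B (eta41 xi X0 Y ^ 3) * bc B (xi 1)) := by
  have hz9 : Coc B 1 (eta31 xi X0 ^ 9) := (eta31_coc hxi hX).pow3 2
  have hxi' := hxi.ext (eta31 xi X0 ^ 9) hz9
  have hX' := hX.ext (eta31 xi X0 ^ 9) hz9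
  have hY' := hY.ext (eta31 xi X0 ^ 9) hz9
  have hW' : IsW (Ex B (eta31 xi X0 ^ 9) hz9) (fun n => C (xi n)) (C X0) X := isW_new hz9
  have h1 := b32_b10 hxi' hX' hY'
  have h2 := R5a hxi' hX' hY' hW' _ h1
  have h3 := beta_lemma (eta41_coc hxi' hX' hY').cube h2
  have hc41 : Coc B 1 (eta41 xi X0 Y ^ 3) := (eta41_coc hxi hX hY).cube
  have hc1 : Coc B 1 (xi 1) := xi1_coc hxi
  refine NIL2_of_pow 6 (lemK_nil B (eta31 xi X0 ^ 9) hz9 h33 _ _
    (((bc_hom hc41).mul (bc_hom hc1)).pow 6) ?_)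
  have e41 : (inc B (eta31 xi X0 ^ 9) hz9).H (bc B (eta41 xi X0 Y ^ 3)) =
      bc (Ex B (eta31 xi X0 ^ 9) hz9) (eta41 (fun n => C (xi n)) (C X0) (C Y) ^ 3) := by
    rw [map_bc _ hc41, inc_f, map_pow, map_eta41]
  have e1 : (inc B (eta31 xi X0 ^ 9) hz9).H (bc B (xi 1)) =
      bc (Ex B (eta31 xi X0 ^ 9) hz9) (C (xi 1)) := by
    rw [map_bc _ hc1, inc_f]
  rw [map_pow, map_mul, e41, e1]
  linear_combination bc (Ex B (eta31 xi X0 ^ 9) hz9)
    (eta41 (fun n => C (xi n)) (C X0) (C Y) ^ 3) ^ 5 * h3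

/-- `b_21 b_32` is nilpotent as soon as `b_33` is -/
theorem nil_b21_b32 {B : Cos S} [CharP S 3] {xi : ℕ → S} (hxi : IsXi B xi) {X0 Y : S}
    (hX : IsX B xi X0) (hY : IsY B xi X0 Y) (h33 : IsNilpotent (bc B (eta31 xi X0 ^ 9))) :
    IsNilpotent (bc B (eta2 xi X0 ^ 3) * bc B (eta31 xi X0 ^ 3)) := by
  have hz9 : Coc B 1 (eta31 xi X0 ^ 9) := (eta31_coc hxi hX).pow3 2
  set A3 := Ex B (eta31 xi X0 ^ 9) hz9 with hA3
  have hxi' := hxi.ext (eta31 xi X0 ^ 9) hz9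
  have hX' := hX.ext (eta31 xi X0 ^ 9) hz9
  have hY' := hY.ext (eta31 xi X0 ^ 9) hz9
  have hW' : IsW A3 (fun n => C (xi n)) (C X0) X := isW_new hz9
  have hx1 : Coc A3 1 (C (xi 1)) := xi1_coc hxi'
  set A4 := Ex A3 (C (xi 1)) hx1 with hA4
  have hxi'' := hxi'.ext (C (xi 1)) hx1
  have hX'' := hX'.ext (C (xi 1)) hx1
  have hY'' := hY'.ext (C (xi 1)) hx1
  have hW'' : IsW A4 (fun n => C (C (xi n))) (C (C X0)) (C X) := hW'.map (inc A3 (C (xi 1)) hx1)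
  have h10 : bc A4 (C (C (xi 1))) = 0 := by
    have h1 : d A4 0 X = - (C (C (xi 1))) := by
      rw [d_zero' A4 (Ex_supp_X A3 (C (xi 1)) hx1), hA4, Ex_sh_X]
      ring
    have h2 := bc_of_bdry (Ex_supp_X A3 (C (xi 1)) hx1) h1 0
    rwa [pow_zero, pow_one] at h2
  have h1 := R5b hxi'' hX'' hY'' hW'' 1 (by rw [mul_one]; exact h10)
  have h2 := beta_lemma (eta2_coc hxi'' hX'').cube h1
  -- cocycles
  have hc2 : Coc A3 1 (eta2 (fun n => C (xi n)) (C X0) ^ 3) := (eta2_coc hxi' hX').cube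
  have hc31 : Coc A3 1 (eta31 (fun n => C (xi n)) (C X0) ^ 3) := (eta31_coc hxi' hX').cube
  have e2 : (inc A3 (C (xi 1)) hx1).H (bc A3 (eta2 (fun n => C (xi n)) (C X0) ^ 3)) =
      bc A4 (eta2 (fun n => C (C (xi n))) (C (C X0)) ^ 3) := by
    rw [map_bc _ hc2, inc_f, map_pow, map_eta2]
  have e31 : (inc A3 (C (xi 1)) hx1).H (bc A3 (eta31 (fun n => C (xi n)) (C X0) ^ 3)) =
      bc A4 (eta31 (fun n => C (C (xi n))) (C (C X0)) ^ 3) := by
    rw [map_bc _ hc31, inc_f, map_pow, map_eta31]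
  set b21 := bc A3 (eta2 (fun n => C (xi n)) (C X0) ^ 3) with hb21
  set b32 := bc A3 (eta31 (fun n => C (xi n)) (C X0) ^ 3) with hb32
  obtain ⟨K, l, hKl⟩ := lemK A3 (C (xi 1)) hx1 2 (by norm_num)
    (fun s => if s = 0 then b32 else 1) (by
      intro s
      by_cases hs : s = 0
      · subst hs
        rw [if_pos rfl, pow_zero, pow_one]
        exact b32_b10 hxi' hX' hY'
      · rw [if_neg hs]
        obtain ⟨t, rfl⟩ : ∃ t, s = t + 1 := ⟨s - 1, by omega⟩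
        have h3 : bc A3 ((C (xi 1) ^ 3) ^ (3 ^ t)) = 0 :=
          bc_of_bdry hX'.supp hX'.bdry t
        have h4 : (C (xi 1) : S[X]) ^ 3 ^ (t + 1) = (C (xi 1) ^ 3) ^ (3 ^ t) := by
          rw [← pow_mul, pow_succ']
        rw [h4, h3]
        ring)
    (b32 ^ 2 * b21) (2 * 2 + 2) (((bc_hom hc31).pow 2).mul (bc_hom hc2)) (by
      rw [map_mul, map_pow, e2, e31]
      rw [mul_one] at h2
      exact h2)
  have hprod : b32 * (b32 ^ 2 * b21) ^ l = 0 := by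
    cases K with
    | zero =>
      rw [Finset.prod_range_zero, one_mul] at hKl
      rw [hKl, mul_zero]
    | succ K =>
      rw [Finset.prod_range_succ'] at hKl
      have h5 : ∏ k ∈ range K, (if k + 1 = 0 then b32 else (1 : Hev A3)) = 1 :=
        Finset.prod_eq_one fun k _ => if_neg (Nat.succ_ne_zero k)
      rw [h5, one_mul, if_pos rfl] at hKl
      exact hKl
  have hB2 : Coc B 1 (eta2 xi X0 ^ 3) := (eta2_coc hxi hX).cube
  have hB31 : Coc B 1 (eta31 xi X0 ^ 3) := (eta31_coc hxi hX).cube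
  refine NIL2_of_pow (2 * l + 1) (lemK_nil B (eta31 xi X0 ^ 9) hz9 h33 _ _
    (((bc_hom hB2).mul (bc_hom hB31)).pow (2 * l + 1)) ?_)
  have g2 : (inc B (eta31 xi X0 ^ 9) hz9).H (bc B (eta2 xi X0 ^ 3)) = b21 := by
    rw [map_bc _ hB2, inc_f, map_pow, map_eta2]
  have g31 : (inc B (eta31 xi X0 ^ 9) hz9).H (bc B (eta31 xi X0 ^ 3)) = b32 := by
    rw [map_bc _ hB31, inc_f, map_pow, map_eta31]
  rw [map_pow, map_mul, g2, g31]
  have h6 : (b21 * b32) ^ (2 * l + 1) = (b32 * (b32 ^ 2 * b21) ^ l) * b21 ^ (l + 1) := by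
    rw [mul_pow, mul_pow (b32 ^ 2) b21 l, ← pow_mul]
    ring
  rw [h6, hprod, zero_mul]

end P0N
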