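import Pool.Agent.H34.P0.Nil1
import Pool.Agent.H34.P0.Nil2
import Pool.Agent.H34.P0.Diff2

/-!
# The class `f` is invariant up to nilpotents and powers, and lifts to `A0`
-/

set_option autoImplicit false

namespace P0N

open Finset Polynomial

variable {S : Type} [CommRing S]

theorem finv_add27 {H : Type} [CommRing H] [CharP H 3] (a b : H) :
    (a + b) ^ 27 = a ^ 27 + b ^ 27 := by
  have : Fact (Nat.Prime 3) := ⟨Nat.prime_three⟩
  have := add_pow_char_pow (R := H) (p := 3) (n := 3) a b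
  norm_num at this
  exact this

theorem finv_sub27 {H : Type} [CommRing H] [CharP H 3] (a b : H) :
    (a - b) ^ 27 = a ^ 27 - b ^ 27 := by
  have : Fact (Nat.Prime 3) := ⟨Nat.prime_three⟩
  have := sub_pow_char_pow (R := H) (p := 3) (n := 3) a b
  norm_num at this
  exact this

theorem finv_ring {H : Type} [CommRing H] [CharP H 3]
    {b42 b20 b32 b30 b42' b20' b32' b30' b33 b10 b21' D E : H}
    (h20 : b20 = b20' - D ^ 3 * b10) (h42 : b42 = b42' + D ^ 9 * b33 - D ^ 243 * b32')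
    (h32 : b32 = b32') (h30 : b30 = b30' - D ^ 9 * b20 + D * b21' - E * b10) :
    b42 * b20 ^ 27 - b32 * b30 ^ 27 - (b42' * b20' ^ 27 - b32' * b30' ^ 27) =
      D ^ 9 * b33 * b20 ^ 27 - D ^ 81 * b42' * b10 ^ 27 - D ^ 27 * b32' * b21' ^ 27
        + E ^ 27 * b32' * b10 ^ 27 := by
  have k20 : b20 ^ 27 = b20' ^ 27 - D ^ 81 * b10 ^ 27 := by
    rw [h20, finv_sub27, mul_pow, ← pow_mul]
  have k30 : b30 ^ 27 = b30' ^ 27 - D ^ 243 * b20 ^ 27 + D ^ 27 * b21' ^ 27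
      - E ^ 27 * b10 ^ 27 := by
    rw [h30, finv_sub27, finv_add27, finv_sub27, mul_pow, mul_pow, mul_pow, ← pow_mul]
  linear_combination b20 ^ 27 * h42 + b42' * k20 - b30 ^ 27 * h32 - b32' * k30

/-- the difference of `f` under a change of both primitives -/
theorem fcl_sub {B : Cos S} [CharP S 3] {xi : ℕ → S} (hxi : IsXi B xi) {X0 X' Y Y' : S}
    (hX : IsX B xi X0) (hX' : IsX B xi X') (hY : IsY B xi X0 Y) (hY' : IsY B xi X' Y') :
    fcl B xi X0 Y - fcl B xi X' Y' =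
      c0 B (X0 - X') ^ 9 * bc B (eta31 xi X0 ^ 9) * bc B (eta2 xi X0) ^ 27
      - c0 B (X0 - X') ^ 81 * bc B (eta41 xi X' Y' ^ 3) * bc B (xi 1) ^ 27
      - c0 B (X0 - X') ^ 27 * bc B (eta31 xi X' ^ 3) * bc B (eta2 xi X' ^ 3) ^ 27
      + c0 B (Y - Y' + (X0 - X') ^ 9 * X0 ^ 3) ^ 27 * bc B (eta31 xi X' ^ 3)
        * bc B (xi 1) ^ 27 := by
  unfold fcl
  exact finv_ring (bc_eta2_sub hxi hX hX') (bc_eta41_cube hxi hX hX' hY hY')
    (bc_eta31_cube hxi hX hX' hY hY') (b30_sub hxi hX hX' hY hY')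

theorem finv_b10 {B : Cos S} [CharP S 3] {xi : ℕ → S} (hxi : IsXi B xi) {X Y : S}
    (hX : IsX B xi X) (hY : IsY B xi X Y) :
    bc B (eta31 xi X ^ 3) * bc B (xi 1) ^ 27 = 0 := by
  have h : bc B (xi 1) ^ 27 = bc B (xi 1) ^ 2 * bc B (xi 1) ^ 25 := by rw [← pow_add]
  rw [h, ← mul_assoc, b32_b10 hxi hX hY, zero_mul]

/-- the universal property of `A2` -/
theorem finv_lift {B : Cos S} [CharP S 3] (p : CHom A1 B) {Y : S}
    (hY : IsY B (fun n => p.f (xiA1 n)) (p.f X) Y) :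
    ∃ q : CHom A2 B, (∀ r, q.f (C r) = p.f r) ∧ q.f X = Y := by
  have hrel : B.act (sh 1) Y = Y - p.f (eta2 xiA1 X ^ 9) := by
    rw [map_pow, map_eta2 p.f]
    exact hY.rel
  refine ⟨p.lift (eta2 xiA1 X ^ 9) cx2 Y hY.supp hrel, ?_, ?_⟩
  · intro r
    exact CHom.lift_C p _ cx2 Y hY.supp hrel r
  · exact CHom.lift_X p _ cx2 Y hY.supp hrel

theorem finv_img {B : Cos S} [CharP S 3] (p : CHom A1 B) {Y : S}
    (hY : IsY B (fun n => p.f (xiA1 n)) (p.f X) Y) {c : Hev A1} {e : ℕ}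
    (hc : j12.H c = fcl A2 xiA2 (C X) X ^ (3 ^ e)) :
    p.H c = fcl B (fun n => p.f (xiA1 n)) (p.f X) Y ^ (3 ^ e) := by
  obtain ⟨q, hq1, hq2⟩ := finv_lift p hY
  have h1 : p.H c = q.H (j12.H c) := by
    rw [← CHom.H_comp]
    exact CHom.H_congr _ _ (fun r => (hq1 r).symm) c
  have h2 : q.H (fcl A2 xiA2 (C X) X) = fcl B (fun n => p.f (xiA1 n)) (p.f X) Y := by
    rw [map_fcl q isXi_A2 isX_A2 isY_A2, hq1, hq2]
    congr 1
    funext n
    exact hq1 _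
  rw [h1, hc, map_pow, h2]

/-- the image of a nilpotent class -/
theorem finv_map_nil {R : Type} [CommRing R] {A : Cos R} {B : Cos S} [CharP R 3] [CharP S 3]
    (p : CHom A B) {u : R} (hu : Coc A 1 u) {v : S} (hv : p.f u = v)
    (h : IsNilpotent (bc A u)) : IsNilpotent (bc B v) := by
  rw [← hv, ← map_bc p hu]
  exact h.map p.H

theorem finv_nilf (hQ : HQ) {B : Cos S} [CharP S 3] (P1 P2 : CHom A1 B)
    (hP : ∀ n, P1.f (xiA1 n) = P2.f (xiA1 n)) {Y1 Y2 : S}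
    (hY1 : IsY B (fun n => P1.f (xiA1 n)) (P1.f X) Y1)
    (hY2 : IsY B (fun n => P2.f (xiA1 n)) (P2.f X) Y2) :
    IsNilpotent (fcl B (fun n => P1.f (xiA1 n)) (P1.f X) Y1 -
      fcl B (fun n => P2.f (xiA1 n)) (P2.f X) Y2) := by
  have hxi : IsXi B (fun n => P1.f (xiA1 n)) := isXi_A1.map P1
  have hX1 : IsX B (fun n => P1.f (xiA1 n)) (P1.f X) := isX_A1.map P1
  have hX2 : IsX B (fun n => P2.f (xiA1 n)) (P2.f X) := isX_A1.map P2
  have h33 : IsNilpotent (bc B (eta31 (fun n => P1.f (xiA1 n)) (P1.f X) ^ 9)) := by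
    refine finv_map_nil P1 ((eta31_coc isXi_A1 isX_A1).pow3 2) ?_ (nil_b33 hQ)
    rw [map_pow, map_eta31 P1.f]
    rfl
  have h33' : IsNilpotent (bc B (eta31 (fun n => P2.f (xiA1 n)) (P2.f X) ^ 9)) := by
    refine finv_map_nil P2 ((eta31_coc isXi_A1 isX_A1).pow3 2) ?_ (nil_b33 hQ)
    rw [map_pow, map_eta31 P2.f]
    rfl
  have hfun : (fun n => P2.f (xiA1 n)) = (fun n => P1.f (xiA1 n)) := by
    funext n
    exact (hP n).symm
  rw [hfun] at hX2 hY2 h33' ⊢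
  have k42 := nil_b42_b10 hxi hX2 hY2 h33'
  have k21 := nil_b21_b32 hxi hX2 hY2 h33'
  have k10 := finv_b10 hxi hX2 hY2
  rw [fcl_sub hxi hX1 hX2 hY1 hY2]
  set xi : ℕ → S := fun n => P1.f (xiA1 n) with hxidef
  generalize c0 B (P1.f X - P2.f X) = D
  generalize c0 B (Y1 - Y2 + (P1.f X - P2.f X) ^ 9 * P1.f X ^ 3) = E
  generalize bc B (eta2 xi (P1.f X)) = b20
  generalize bc B (eta31 xi (P1.f X) ^ 9) = b33 at h33 ⊢
  generalize bc B (eta41 xi (P2.f X) Y2 ^ 3) = b42 at k42 ⊢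
  generalize bc B (eta31 xi (P2.f X) ^ 3) = b32 at k21 k10 ⊢
  generalize bc B (eta2 xi (P2.f X) ^ 3) = b21 at k21 ⊢
  generalize bc B (xi 1) = b10 at k42 k10 ⊢
  have e1 : D ^ 9 * b33 * b20 ^ 27 - D ^ 81 * b42 * b10 ^ 27 - D ^ 27 * b32 * b21 ^ 27
      + E ^ 27 * b32 * b10 ^ 27 =
      (D ^ 9 * b20 ^ 27) * b33 - (D ^ 81 * b10 ^ 26) * (b42 * b10)
      - (D ^ 27 * b21 ^ 26) * (b21 * b32) := by
    linear_combination E ^ 27 * k10
  rw [e1]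
  refine Commute.isNilpotent_sub (Commute.all _ _) (Commute.isNilpotent_sub (Commute.all _ _)
    ?_ ?_) ?_
  · exact (Commute.all _ _).isNilpotent_mul_left h33
  · exact (Commute.all _ _).isNilpotent_mul_left k42
  · exact (Commute.all _ _).isNilpotent_mul_left k21

theorem finv_lemK {A : Cos S} [CharP S 3] (x : S) (hx : Coc A 1 x)
    (hb : IsNilpotent (bc A x)) (z : Hev A) (k : ℕ)
    (hz : IsHom A k z) (hz0 : IsNilpotent ((inc A x hx).H z)) : IsNilpotent z := by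
  obtain ⟨m, hm⟩ := hz0
  rw [← map_pow] at hm
  obtain ⟨l, hl⟩ := lemK_nil A x hx hb (z ^ m) (k * m) (hz.pow m) hm
  exact ⟨m * l, by rw [pow_mul, hl]⟩

theorem finv_pow_sub {H : Type} [CommRing H] [CharP H 3] (a b : H) (e : ℕ) :
    (a - b) ^ (3 ^ e) = a ^ (3 ^ e) - b ^ (3 ^ e) := by
  have : Fact (Nat.Prime 3) := ⟨Nat.prime_three⟩
  exact sub_pow_char_pow (R := H) (p := 3) (n := e) a b

theorem finv_nil_pow {H : Type} [CommRing H] [CharP H 3] {a b : H}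
    (h : IsNilpotent (a - b)) (e : ℕ) : IsNilpotent (a ^ (3 ^ e) - b ^ (3 ^ e)) := by
  rw [← finv_pow_sub]
  exact h.pow_of_pos (by positivity)

theorem finv_gen (hQ : HQ) {B : Cos S} [CharP S 3] (p1 p2 : CHom A1 B)
    (hp : ∀ n, p1.f (xiA1 n) = p2.f (xiA1 n)) {c : Hev A1} {e n : ℕ} (hc : IsHom A1 n c)
    (hc2 : j12.H c = fcl A2 xiA2 (C X) X ^ (3 ^ e)) : IsNilpotent (p1.H c - p2.H c) := by
  -- the first extension
  have h1 : Coc B 1 (eta2 (fun n => p1.f (xiA1 n)) (p1.f X) ^ 9) :=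
    (eta2_coc (isXi_A1.map p1) (isX_A1.map p1)).pow3 2
  have n1 : IsNilpotent (bc B (eta2 (fun n => p1.f (xiA1 n)) (p1.f X) ^ 9)) := by
    refine finv_map_nil p1 cx2 ?_ (nil_b22 hQ)
    rw [map_pow, map_eta2 p1.f]
  refine finv_lemK _ h1 n1 _ n ((hc.map p1).sub (hc.map p2)) ?_
  -- the second extension
  rw [map_sub, ← CHom.H_comp, ← CHom.H_comp]
  set i1 : CHom B (Ex B (eta2 (fun n => p1.f (xiA1 n)) (p1.f X) ^ 9) h1) := inc B _ h1 with hi1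
  have h2 : Coc (Ex B (eta2 (fun n => p1.f (xiA1 n)) (p1.f X) ^ 9) h1) 1
      (eta2 (fun n => (i1.comp p2).f (xiA1 n)) ((i1.comp p2).f X) ^ 9) :=
    (eta2_coc (isXi_A1.map (i1.comp p2)) (isX_A1.map (i1.comp p2))).pow3 2
  have n2 : IsNilpotent (bc (Ex B (eta2 (fun n => p1.f (xiA1 n)) (p1.f X) ^ 9) h1)
      (eta2 (fun n => (i1.comp p2).f (xiA1 n)) ((i1.comp p2).f X) ^ 9)) := by
    refine finv_map_nil (i1.comp p2) cx2 ?_ (nil_b22 hQ)
    rw [map_pow, map_eta2 (i1.comp p2).f]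
  refine finv_lemK _ h2 n2 _ n ((hc.map (i1.comp p1)).sub (hc.map (i1.comp p2))) ?_
  rw [map_sub, ← CHom.H_comp, ← CHom.H_comp]
  set i2 := inc (Ex B (eta2 (fun n => p1.f (xiA1 n)) (p1.f X) ^ 9) h1) _ h2 with hi2
  have hY1 : IsY _ (fun n => (i2.comp (i1.comp p1)).f (xiA1 n))
      ((i2.comp (i1.comp p1)).f X) (C X) :=
    (isY_new (A := B) (xi := fun n => p1.f (xiA1 n)) (X0 := p1.f X) h1).ext _ h2
  have hY2 : IsY _ (fun n => (i2.comp (i1.comp p2)).f (xiA1 n))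
      ((i2.comp (i1.comp p2)).f X) X :=
    isY_new (A := Ex B (eta2 (fun n => p1.f (xiA1 n)) (p1.f X) ^ 9) h1)
      (xi := fun n => (i1.comp p2).f (xiA1 n)) (X0 := (i1.comp p2).f X) h2
  rw [finv_img (i2.comp (i1.comp p1)) hY1 hc2, finv_img (i2.comp (i1.comp p2)) hY2 hc2]
  refine finv_nil_pow (finv_nilf hQ _ _ ?_ hY1 hY2) e
  intro n
  show i2.f (i1.f (p1.f (xiA1 n))) = i2.f (i1.f (p2.f (xiA1 n)))
  rw [hp n]

theorem finv_in2_C {R : Type} [CommRing R] (A : Cos R) (x : R) (hx : Coc A 1 x) (r : R) :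
    (in2 A x hx).f (C r) = C (C r) :=
  CHom.lift_C ((in1 A x hx).comp (inc A x hx)) x hx X (Ex_supp_X _ _ _) (Ex_sh_X _ _ _) r

theorem finv_in2_X {R : Type} [CommRing R] (A : Cos R) (x : R) (hx : Coc A 1 x) :
    (in2 A x hx).f X = X :=
  CHom.lift_X ((in1 A x hx).comp (inc A x hx)) x hx X (Ex_supp_X _ _ _) (Ex_sh_X _ _ _)

/-- only `Y` is changed: the class `f` does not change -/
theorem finv_eq {B : Cos S} [CharP S 3] {xi : ℕ → S} (hxi : IsXi B xi) {X0 Y Y' : S}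
    (hX : IsX B xi X0) (hY : IsY B xi X0 Y) (hY' : IsY B xi X0 Y') :
    fcl B xi X0 Y = fcl B xi X0 Y' := by
  rw [← sub_eq_zero, fcl_sub hxi hX hX hY hY', sub_self,
    show c0 B (0 : S) = 0 from cls_zero B 0]
  have h := finv_b10 hxi hX hY'
  generalize c0 B (Y - Y' + 0 ^ 9 * X0 ^ 3) = E
  linear_combination E ^ 27 * h

/-- a power of `f` lifts to `A1` -/
theorem lift_f_A1 (hQ : HQ) : ∃ (e : ℕ) (c : Hev A1), IsHom A1 (56 * 3 ^ e) c ∧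
    j12.H c = fcl A2 xiA2 (C X) X ^ (3 ^ e) := by
  refine thG A1 (eta2 xiA1 X ^ 9) cx2 (nil_b22 hQ) 56 (by norm_num) (fcl A2 xiA2 (C X) X)
    (fcl_hom isXi_A2 isX_A2 isY_A2) ?_
  set p1 := in1 A1 (eta2 xiA1 X ^ 9) cx2 with hp1
  set p2 := in2 A1 (eta2 xiA1 X ^ 9) cx2 with hp2
  have hC : ∀ r, p1.f (C r) = p2.f (C r) := fun r =>
    (finv_in2_C A1 (eta2 xiA1 X ^ 9) cx2 r).symm
  have e1 : p1.H (fcl A2 xiA2 (C X) X) = _ := map_fcl p1 isXi_A2 isX_A2 isY_A2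
  have e2 : p2.H (fcl A2 xiA2 (C X) X) = _ := map_fcl p2 isXi_A2 isX_A2 isY_A2
  have hxi : (fun n => p2.f (xiA2 n)) = (fun n => p1.f (xiA2 n)) := by
    funext n
    exact (hC _).symm
  have hY1 := isY_A2.map p1
  have hY2 := isY_A2.map p2
  rw [e1, e2, hxi, ← hC X]
  rw [hxi, ← hC X] at hY2
  exact finv_eq (isXi_A2.map p1) (isX_A2.map p1) hY1 hY2

/-- a power of `f` lifts to `A0` -/
theorem lift_f_A0 (hQ : HQ) : ∃ (e : ℕ) (c : Hev A0), IsHom A0 (56 * 3 ^ e) c ∧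
    j12.H (j01.H c) = fcl A2 xiA2 (C X) X ^ (3 ^ e) := by
  obtain ⟨e, c, hc, hc2⟩ := lift_f_A1 hQ
  let q1 : CHom A1 (Ex2 A0 (xi0 1 ^ 3) cx1) := in1 A0 (xi0 1 ^ 3) cx1
  let q2 : CHom A1 (Ex2 A0 (xi0 1 ^ 3) cx1) := in2 A0 (xi0 1 ^ 3) cx1
  have hin : ∀ n, q1.f (xiA1 n) = q2.f (xiA1 n) :=
    fun n => (finv_in2_C A0 (xi0 1 ^ 3) cx1 (xi0 n)).symm
  obtain ⟨m, hm⟩ := finv_gen hQ q1 q2 hin hc hc2
  have hm' : (q1.H c - q2.H c) ^ (3 ^ m) = 0 :=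
    pow_eq_zero_of_le (Nat.lt_pow_self (by norm_num)).le hm
  have hm2 : q1.H (c ^ (3 ^ m)) = q2.H (c ^ (3 ^ m)) := by
    rw [map_pow, map_pow, ← sub_eq_zero, ← finv_pow_sub, hm']
  obtain ⟨e', c', hc', hc3⟩ := thG A0 (xi0 1 ^ 3) cx1 (nil_b11 hQ) (56 * 3 ^ e * 3 ^ m)
    (by have : 0 < 56 * 3 ^ e * 3 ^ m := by positivity
        omega) (c ^ (3 ^ m)) (hc.pow _) hm2
  refine ⟨e + m + e', c', ?_, ?_⟩
  · rw [pow_add, pow_add, ← mul_assoc, ← mul_assoc]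
    exact hc'
  · have h4 : j01.H c' = (c ^ (3 ^ m)) ^ (3 ^ e') := hc3
    rw [h4, map_pow, map_pow, hc2, ← pow_mul, ← pow_mul, pow_add, pow_add, mul_assoc]

end P0N
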