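import Pool.Agent.H34.P0.Ext
import Pool.Agent.H34.P0.Cup1

/-!
# The filtration of the free cosimplicial extension, degrees
-/

set_option autoImplicit false

namespace P0N

open Finset

variable {R : Type} [CommRing R]

theorem act_del (A : Cos R) {x : R} (hx : Coc A 1 x) (a : ℕ →o ℕ) (i : ℕ) :
    (Gam A).act a (del A x i) = ∑ l ∈ Finset.Ico (a i) (a (i + 1)), del A x l := by
  have key : ∀ m n : ℕ, m ≤ n → ∑ l ∈ Finset.Ico m n, del A x l =
      MvPolynomial.X m - MvPolynomial.X n - MvPolynomial.C (pv A x m n) := by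
    intro m n h
    induction n, h using Nat.le_induction with
    | base => simp [pv_self A hx]
    | succ n hmn ih =>
      rw [Finset.sum_Ico_succ_top hmn, ih, pv_add A hx hmn (Nat.le_succ n)]
      simp only [del, map_add]
      ring
  rw [key _ _ (a.monotone (Nat.le_succ i))]
  simp only [del, map_sub, Gam_X, Gam_C]
  rw [act_pv A hx a (Nat.le_succ i)]

/-- auxiliary: products of `n` distinct `del`'s with indices in `U` -/
noncomputable def gamf_FilU (A : Cos R) (x : R) (U : Set ℕ) (n : ℕ) :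
    Ideal (MvPolynomial ℕ R) :=
  Ideal.span {p | ∃ s : Finset ℕ, s.card = n ∧ (↑s : Set ℕ) ⊆ U ∧ p = ∏ i ∈ s, del A x i}

theorem gamf_univ (A : Cos R) (x : R) (n : ℕ) : gamf_FilU A x Set.univ n = Fil A x n := by
  unfold gamf_FilU Fil
  congr 1
  ext p
  simp

theorem gamf_prod_mem (A : Cos R) (x : R) {U : Set ℕ} (s : Finset ℕ) (h : (↑s : Set ℕ) ⊆ U) :
    ∏ i ∈ s, del A x i ∈ gamf_FilU A x U s.card :=
  Ideal.subset_span ⟨s, rfl, h, rfl⟩

theorem gamf_mono (A : Cos R) (x : R) {U V : Set ℕ} (h : U ⊆ V) (n : ℕ) :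
    gamf_FilU A x U n ≤ gamf_FilU A x V n := by
  refine Ideal.span_mono ?_
  rintro p ⟨s, hs, hU, rfl⟩
  exact ⟨s, hs, hU.trans h, rfl⟩

theorem gamf_anti (A : Cos R) (x : R) (U : Set ℕ) {m n : ℕ} (h : m ≤ n) :
    gamf_FilU A x U n ≤ gamf_FilU A x U m := by
  refine Ideal.span_le.2 ?_
  rintro p ⟨s, hs, hU, rfl⟩
  obtain ⟨t, hts, ht⟩ := Finset.exists_subset_card_eq (s := s) (n := m) (by omega)
  rw [← Finset.prod_sdiff hts]
  refine Ideal.mul_mem_left _ _ ?_
  rw [← ht]
  exact gamf_prod_mem A x t (fun i hi => hU (hts hi))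

theorem gamf_mul (A : Cos R) (x : R) {U V : Set ℕ} (h : Disjoint U V) {a b : ℕ}
    {p q : MvPolynomial ℕ R} (hp : p ∈ gamf_FilU A x U a) (hq : q ∈ gamf_FilU A x V b) :
    p * q ∈ gamf_FilU A x (U ∪ V) (a + b) := by
  have h1 : gamf_FilU A x U a * gamf_FilU A x V b ≤ gamf_FilU A x (U ∪ V) (a + b) := by
    unfold gamf_FilU
    rw [Ideal.span_mul_span']
    refine Ideal.span_le.2 ?_
    rintro _ ⟨_, ⟨s, hs, hU, rfl⟩, _, ⟨t, ht, hV, rfl⟩, rfl⟩
    have hd : Disjoint s t := by
      rw [← Finset.disjoint_coe]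
      exact h.mono hU hV
    refine Ideal.subset_span ⟨s ∪ t, ?_, ?_, ?_⟩
    · rw [Finset.card_union_of_disjoint hd, hs, ht]
    · rw [Finset.coe_union]
      exact Set.union_subset_union hU hV
    · rw [Finset.prod_union hd]
  exact h1 (Ideal.mul_mem_mul hp hq)

theorem gamf_act_prod (A : Cos R) {x : R} (hx : Coc A 1 x) (a : ℕ →o ℕ) (s : Finset ℕ) :
    (Gam A).act a (∏ i ∈ s, del A x i) ∈
      gamf_FilU A x {l | ∃ i ∈ s, a i ≤ l ∧ l < a (i + 1)} s.card := by
  classical
  induction s using Finset.induction_on with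
  | empty =>
    have := gamf_prod_mem A x (U := {l | ∃ i ∈ (∅ : Finset ℕ), a i ≤ l ∧ l < a (i + 1)}) ∅
      (by simp)
    simpa using this
  | insert i s his ih =>
    rw [Finset.prod_insert his, map_mul, Finset.card_insert_of_notMem his, add_comm s.card 1]
    have h1 : (Gam A).act a (del A x i) ∈
        gamf_FilU A x {l | a i ≤ l ∧ l < a (i + 1)} 1 := by
      rw [act_del A hx]
      refine Ideal.sum_mem _ fun l hl => ?_
      have := gamf_prod_mem A x (U := {l | a i ≤ l ∧ l < a (i + 1)}) {l} (by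
        intro k hk
        simp only [Finset.coe_singleton, Set.mem_singleton_iff] at hk
        subst hk
        exact Finset.mem_Ico.1 hl)
      simpa using this
    have hdis : Disjoint {l | a i ≤ l ∧ l < a (i + 1)}
        {l | ∃ j ∈ s, a j ≤ l ∧ l < a (j + 1)} := by
      rw [Set.disjoint_left]
      rintro l ⟨h2, h3⟩ ⟨j, hj, h4, h5⟩
      have hne : i ≠ j := fun h => his (h ▸ hj)
      rcases lt_or_gt_of_ne hne with h | h
      · have := a.monotone (show i + 1 ≤ j from h)
        omega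
      · have := a.monotone (show j + 1 ≤ i from h)
        omega
    refine gamf_mono A x ?_ _ (gamf_mul A x hdis h1 ih)
    rintro l (⟨h2, h3⟩ | ⟨j, hj, h4, h5⟩)
    · exact ⟨i, Finset.mem_insert_self _ _, h2, h3⟩
    · exact ⟨j, Finset.mem_insert_of_mem hj, h4, h5⟩

theorem gamf_act (A : Cos R) {x : R} (hx : Coc A 1 x) (a : ℕ →o ℕ) {U V : Set ℕ}
    (h : ∀ i ∈ U, ∀ l, a i ≤ l → l < a (i + 1) → l ∈ V) {n : ℕ} {p : MvPolynomial ℕ R}
    (hp : p ∈ gamf_FilU A x U n) : (Gam A).act a p ∈ gamf_FilU A x V n := by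
  have h1 : gamf_FilU A x U n ≤ (gamf_FilU A x V n).comap ((Gam A).act a) := by
    refine Ideal.span_le.2 ?_
    rintro p ⟨s, hs, hU, rfl⟩
    show (Gam A).act a (∏ i ∈ s, del A x i) ∈ gamf_FilU A x V n
    rw [← hs]
    refine gamf_mono A x ?_ _ (gamf_act_prod A hx a s)
    rintro l ⟨i, hi, h2, h3⟩
    exact h i (hU hi) l h2 h3
  exact h1 hp

/-- the map `jump i n` loses at most one `del` outside `[i, i+n)` -/
theorem gamf_jump (A : Cos R) {x : R} (hx : Coc A 1 x) (i n : ℕ) {a : ℕ}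
    {p : MvPolynomial ℕ R} (hp : p ∈ Fil A x a) :
    (Gam A).act (jump i n) p ∈ gamf_FilU A x {l | l < i ∨ i + n ≤ l} (a - 1) := by
  classical
  have h1 : Fil A x a ≤ (gamf_FilU A x {l | l < i ∨ i + n ≤ l} (a - 1)).comap
      ((Gam A).act (jump i n)) := by
    refine Ideal.span_le.2 ?_
    rintro p ⟨s, hs, rfl⟩
    show (Gam A).act (jump i n) (∏ i ∈ s, del A x i) ∈
      gamf_FilU A x {l | l < i ∨ i + n ≤ l} (a - 1)
    have h2 : ∏ j ∈ s.erase i, del A x j ∈ gamf_FilU A x {j | j ≠ i} (a - 1) := by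
      have h3 : (s.erase i).card ≥ a - 1 := by
        have := Finset.pred_card_le_card_erase (s := s) (a := i)
        omega
      refine gamf_anti A x _ h3 (gamf_prod_mem A x _ ?_)
      intro j hj
      simp only [Finset.coe_erase, Set.mem_diff, Set.mem_singleton_iff] at hj
      exact hj.2
    have h4 : (Gam A).act (jump i n) (∏ j ∈ s.erase i, del A x j) ∈
        gamf_FilU A x {l | l < i ∨ i + n ≤ l} (a - 1) := by
      refine gamf_act A hx (jump i n) ?_ h2
      intro j hj l h5 h6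
      simp only [Set.mem_setOf_eq] at hj ⊢
      simp only [jump_apply] at h5 h6
      split_ifs at h5 h6 <;> omega
    by_cases hi : i ∈ s
    · rw [← Finset.mul_prod_erase s _ hi, map_mul]
      exact Ideal.mul_mem_left _ _ h4
    · rwa [Finset.erase_eq_of_notMem hi] at h4
  exact h1 hp

/-- an `m`-cochain of filtration `n` is in the ideal of products with indices below `m` -/
theorem gamf_local (A : Cos R) {x : R} (hx : Coc A 1 x) {m n : ℕ} {p : MvPolynomial ℕ R}
    (hs : Supp (Gam A) m p) (hp : p ∈ Fil A x n) : p ∈ gamf_FilU A x {l | l < m} n := by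
  let tr : ℕ →o ℕ := ⟨fun i => min i m, fun i j h => by
    show min i m ≤ min j m
    omega⟩
  have htr : ∀ i, tr i = min i m := fun _ => rfl
  have h1 : (Gam A).act tr p = p := hs.act_eq tr (fun i hi => by rw [htr]; omega)
  rw [← h1]
  rw [← gamf_univ] at hp
  refine gamf_act A hx tr ?_ hp
  intro i _ l h2 h3
  rw [htr] at h2 h3
  show l < m
  omega

theorem Fil_zero (A : Cos R) (x : R) : Fil A x 0 = ⊤ := by
  rw [Ideal.eq_top_iff_one]
  exact Ideal.subset_span ⟨∅, rfl, by simp⟩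

theorem Fil_anti (A : Cos R) (x : R) {m n : ℕ} (h : m ≤ n) : Fil A x n ≤ Fil A x m := by
  rw [← gamf_univ, ← gamf_univ]
  exact gamf_anti A x _ h

theorem Fil_act (A : Cos R) {x : R} (hx : Coc A 1 x) (a : ℕ →o ℕ) {n : ℕ} {p : MvPolynomial ℕ R}
    (hp : p ∈ Fil A x n) : (Gam A).act a p ∈ Fil A x n := by
  rw [← gamf_univ] at hp ⊢
  exact gamf_act A hx a (fun _ _ _ _ _ => Set.mem_univ _) hp

theorem Fil_d (A : Cos R) {x : R} (hx : Coc A 1 x) {m n : ℕ} {p : MvPolynomial ℕ R}
    (hp : p ∈ Fil A x n) : d (Gam A) m p ∈ Fil A x n := by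
  rw [d_apply]
  exact Ideal.sum_mem _ fun i _ => Ideal.mul_mem_left _ _ (Fil_act A hx _ hp)

/-- the cup-1 product loses at most one `del` -/
theorem Fil_cup1 (A : Cos R) {x : R} (hx : Coc A 1 x) {m n a b : ℕ} {f g : MvPolynomial ℕ R}
    (hf : Supp (Gam A) m f) (hg : Supp (Gam A) n g) (hfa : f ∈ Fil A x a) (hgb : g ∈ Fil A x b)
    (ha : 1 ≤ a) (hb : 1 ≤ b) : cup1 (Gam A) m n f g ∈ Fil A x (a + b - 1) := by
  unfold cup1
  refine Ideal.sum_mem _ fun i _ => Ideal.mul_mem_left _ _ ?_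
  have h1 := gamf_jump A hx i n hfa
  have h2 := gamf_local A hx hg hgb
  have h3 : (Gam A).act (sh i) g ∈ gamf_FilU A x {l | i ≤ l ∧ l < i + n} b := by
    refine gamf_act A hx (sh i) ?_ h2
    intro j hj l h4 h5
    simp only [Set.mem_setOf_eq] at hj ⊢
    simp only [sh_apply] at h4 h5
    omega
  have hd : Disjoint {l | l < i ∨ i + n ≤ l} {l | i ≤ l ∧ l < i + n} := by
    rw [Set.disjoint_left]
    rintro l h4 ⟨h5, h6⟩
    rcases h4 with h4 | h4 <;> omega
  have h4 := gamf_mul A x hd h1 h3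
  rw [← gamf_univ, show a + b - 1 = a - 1 + b by omega]
  exact gamf_mono A x (Set.subset_univ _) _ h4

/-- restriction kills the filtration one part -/
theorem resG_Fil (A : Cos R) {x : R} (hx : Coc A 1 x) {p : MvPolynomial ℕ R}
    (hp : p ∈ Fil A x 1) : (resG A x hx).f p = 0 := by
  have hdel : ∀ i, (resG A x hx).f (del A x i) = 0 := by
    intro i
    show MvPolynomial.eval₂Hom (Polynomial.C : R →+* Polynomial R)
      (fun i => Polynomial.X - Polynomial.C (pv A x 0 i)) (del A x i) = 0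
    simp only [del, map_sub, MvPolynomial.eval₂Hom_X', MvPolynomial.eval₂Hom_C]
    rw [pv_add A hx (Nat.zero_le i) (Nat.le_succ i)]
    simp only [map_add]
    ring
  have h1 : Fil A x 1 ≤ RingHom.ker (resG A x hx).f := by
    refine Ideal.span_le.2 ?_
    rintro p ⟨s, hs, rfl⟩
    obtain ⟨i, rfl⟩ := Finset.card_eq_one.1 hs
    show (resG A x hx).f _ = 0
    rw [Finset.prod_singleton, hdel]
  exact h1 hp

theorem gamf_act_eq (A : Cos R) (a : ℕ →o ℕ) (p : MvPolynomial ℕ R) :
    (Gam A).act a p = MvPolynomial.rename a (MvPolynomial.map (A.act a) p) := by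
  have : (Gam A).act a =
      (MvPolynomial.rename (R := R) a).toRingHom.comp (MvPolynomial.map (A.act a)) := by
    apply MvPolynomial.ringHom_ext
    · intro r; simp
    · intro i; simp
  rw [this]; rfl

theorem totalDegree_act (A : Cos R) (a : ℕ →o ℕ) (p : MvPolynomial ℕ R) :
    ((Gam A).act a p).totalDegree ≤ p.totalDegree := by
  rw [gamf_act_eq]
  refine (MvPolynomial.totalDegree_rename_le _ _).trans ?_
  unfold MvPolynomial.totalDegree
  exact Finset.sup_mono (MvPolynomial.support_map_subset _ _)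

theorem gamf_neg_one (n : ℕ) (p : MvPolynomial ℕ R) :
    ((-1) ^ n * p).totalDegree ≤ p.totalDegree := by
  rcases neg_one_pow_eq_or (MvPolynomial ℕ R) n with h | h
  · rw [h, one_mul]
  · rw [h, neg_one_mul, MvPolynomial.totalDegree_neg]

theorem totalDegree_d (A : Cos R) (n : ℕ) (p : MvPolynomial ℕ R) :
    (d (Gam A) n p).totalDegree ≤ p.totalDegree := by
  rw [d_apply]
  exact MvPolynomial.totalDegree_finsetSum_le fun i _ =>
    (gamf_neg_one _ _).trans (totalDegree_act A _ _)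

theorem totalDegree_cup (A : Cos R) (m : ℕ) (p q : MvPolynomial ℕ R) :
    (cup (Gam A) m p q).totalDegree ≤ p.totalDegree + q.totalDegree := by
  unfold cup
  exact (MvPolynomial.totalDegree_mul _ _).trans
    (Nat.add_le_add_left (totalDegree_act A _ _) _)

theorem totalDegree_cup1 (A : Cos R) (m n : ℕ) (p q : MvPolynomial ℕ R) :
    (cup1 (Gam A) m n p q).totalDegree ≤ p.totalDegree + q.totalDegree := by
  unfold cup1
  refine MvPolynomial.totalDegree_finsetSum_le fun i _ => (gamf_neg_one _ _).trans ?_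
  exact (MvPolynomial.totalDegree_mul _ _).trans
    (Nat.add_le_add (totalDegree_act A _ _) (totalDegree_act A _ _))

end P0N
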