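import Pool.Agent.H34.P0.Ext

/-!
# Milnor's group law and the universal ring `A0`
-/

set_option autoImplicit false

namespace P0N

open Finset Polynomial

variable {R : Type} [CommRing R] {S : Type} [CommRing S]

/-! ### Milnor's group law -/

/-- the product `(g h)_n = ∑ g_{n-i}^{3^i} h_i` -/
def gm (g h : ℕ → S) (n : ℕ) : S := ∑ i ∈ range (n + 1), g (n - i) ^ (3 ^ i) * h i

/-- the unit -/
def g1 : ℕ → S := fun k => if k = 0 then 1 else 0

/-- the polynomial ring in `xi_{k+1}` of the edge `i`, variable `(i, k)` -/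
abbrev R0 : Type := MvPolynomial (ℕ × ℕ) (ZMod 3)

/-- the group element on the edge `i` -/
noncomputable def gen (i : ℕ) : ℕ → R0 := fun k => if k = 0 then 1 else MvPolynomial.X (i, k - 1)

/-- the product of the `n` group elements starting with the edge `i` -/
noncomputable def path (i : ℕ) : ℕ → ℕ → R0
  | 0 => g1
  | n + 1 => gm (path i n) (gen (i + n))

/-- the action of monotone maps on `R0` -/
noncomputable def act0 (a : ℕ →o ℕ) : R0 →+* R0 :=
  MvPolynomial.eval₂Hom MvPolynomial.C
    (fun q : ℕ × ℕ => path (a q.1) (a (q.1 + 1) - a q.1) (q.2 + 1))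

lemma grp_gm (g h : ℕ → S) (n : ℕ) :
    gm g h n = ∑ p ∈ antidiagonal n, g p.1 ^ (3 ^ p.2) * h p.2 := by
  unfold gm
  refine Finset.sum_nbij' (fun i => (n - i, i)) (fun p => p.2) ?_ ?_ ?_ ?_ ?_
  · intro i hi
    rw [mem_range] at hi
    rw [mem_ad]
    dsimp only
    omega
  · rintro ⟨a, b⟩ hp
    rw [mem_ad] at hp
    rw [mem_range]
    dsimp only at hp ⊢
    omega
  · intro i _
    rfl
  · rintro ⟨a, b⟩ hp
    rw [mem_ad] at hp
    dsimp only at hp ⊢
    ext
    · dsimp only; omega
    · rfl
  · intro i _
    rfl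

theorem gm_assoc [CharP S 3] (g h k : ℕ → S) (n : ℕ) : gm (gm g h) k n = gm g (gm h k) n := by
  haveI : Fact (Nat.Prime 3) := ⟨Nat.prime_three⟩
  rw [grp_gm, grp_gm]
  simp only [grp_gm, sum_pow_char_pow, mul_pow, Finset.sum_mul, Finset.mul_sum, Finset.sum_sigma',
    ← pow_mul, ← pow_add]
  refine Finset.sum_nbij' (fun ⟨⟨_i, j⟩, ⟨k, l⟩⟩ ↦ ⟨(k, l + j), (l, j)⟩)
    (fun ⟨⟨i, _j⟩, ⟨k, l⟩⟩ ↦ ⟨(i + k, l), (i, k)⟩) ?_ ?_ ?_ ?_ ?_
  · rintro ⟨⟨i, j⟩, ⟨k, l⟩⟩ h
    simp only [mem_sigma, mem_ad] at h ⊢
    obtain ⟨h1, h2⟩ := h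
    constructor
    · omega
    · trivial
  · rintro ⟨⟨i, j⟩, ⟨k, l⟩⟩ h
    simp only [mem_sigma, mem_ad] at h ⊢
    obtain ⟨h1, h2⟩ := h
    constructor
    · omega
    · trivial
  · rintro ⟨⟨i, j⟩, ⟨k, l⟩⟩ h
    simp only [mem_sigma, mem_ad] at h ⊢
    obtain ⟨rfl, rfl⟩ := h
    rfl
  · rintro ⟨⟨i, j⟩, ⟨k, l⟩⟩ h
    simp only [mem_sigma, mem_ad] at h ⊢
    obtain ⟨rfl, rfl⟩ := h
    rfl
  · rintro ⟨⟨i, j⟩, ⟨k, l⟩⟩ h
    simp only [mem_sigma, mem_ad] at h ⊢
    obtain ⟨rfl, rfl⟩ := h
    simp only [mul_assoc]

lemma grp_gm_one (g : ℕ → S) : gm g g1 = g := by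
  funext n
  rw [grp_gm, Finset.sum_eq_single (n, 0)]
  · simp [g1]
  · rintro ⟨i, j⟩ h hne
    simp only [mem_ad] at h
    have : j ≠ 0 := by rintro rfl; apply hne; simp; omega
    simp [g1, this]
  · intro h; exact absurd (by simp) h

lemma grp_one_gm (g : ℕ → S) : gm g1 g = g := by
  funext n
  rw [grp_gm, Finset.sum_eq_single (0, n)]
  · simp [g1]
  · rintro ⟨i, j⟩ h hne
    simp only [mem_ad] at h
    have : i ≠ 0 := by rintro rfl; apply hne; simp; omega
    simp [g1, this]
  · intro h; exact absurd (by simp) h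

lemma grp_map_gm {S' : Type} [CommRing S'] (φ : S →+* S') (g h : ℕ → S) (n : ℕ) :
    φ (gm g h n) = gm (fun k => φ (g k)) (fun k => φ (h k)) n := by
  unfold gm
  simp [map_sum]

lemma grp_path_add (i m n : ℕ) : path i (m + n) = gm (path i m) (path (i + m) n) := by
  induction n with
  | zero => rw [add_zero, path, grp_gm_one]
  | succ n ih =>
    rw [← add_assoc, path, ih, path]
    funext k
    rw [gm_assoc, add_assoc]

lemma grp_act0_gen (a : ℕ →o ℕ) (i k : ℕ) :
    act0 a (gen i k) = path (a i) (a (i + 1) - a i) k := by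
  have hzero : ∀ (j n : ℕ), path j n 0 = 1 := by
    intro j n
    induction n with
    | zero => rfl
    | succ n ih =>
      rw [path]
      simp [gm, ih, gen]
  rcases k with _ | k
  · rw [hzero]
    simp [gen]
  · simp [gen, act0]

lemma grp_act0_path (a : ℕ →o ℕ) (i n k : ℕ) :
    act0 a (path i n k) = path (a i) (a (i + n) - a i) k := by
  induction n generalizing k with
  | zero =>
    rw [add_zero, Nat.sub_self, path, path]
    unfold g1
    split_ifs <;> simp
  | succ n ih =>
    rw [path, grp_map_gm]
    have e1 : (fun k => act0 a (path i n k)) = path (a i) (a (i + n) - a i) := funext fun k => ih k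
    have e2 : (fun k => act0 a (gen (i + n) k)) = path (a (i + n)) (a (i + n + 1) - a (i + n)) :=
      funext fun k => grp_act0_gen a (i + n) k
    rw [e1, e2]
    have h1 : a i ≤ a (i + n) := a.monotone (by omega)
    have h2 : a (i + n) ≤ a (i + n + 1) := a.monotone (by omega)
    have h3 := grp_path_add (a i) (a (i + n) - a i) (a (i + n + 1) - a (i + n))
    have h4 : a i + (a (i + n) - a i) = a (i + n) := by omega
    rw [h4] at h3
    rw [← h3]
    have h5 : a (i + n) - a i + (a (i + n + 1) - a (i + n)) = a (i + (n + 1)) - a i := by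
      have : i + (n + 1) = i + n + 1 := by omega
      rw [this]
      omega
    rw [h5]

lemma grp_path_one (i : ℕ) : path i 1 = gen i := by
  rw [path, path, grp_one_gm, add_zero]


theorem act0_id (f : R0) : act0 OrderHom.id f = f := by
  have h : act0 OrderHom.id = RingHom.id R0 := by
    apply MvPolynomial.ringHom_ext
    · intro r
      simp [act0]
    · rintro ⟨i, k⟩
      have e1 : (MvPolynomial.X (i, k) : R0) = gen i (k + 1) := by simp [gen]
      rw [e1, grp_act0_gen]
      show path i (i + 1 - i) (k + 1) = gen i (k + 1)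
      rw [Nat.add_sub_cancel_left, grp_path_one]
  rw [h]
  rfl

theorem act0_comp (a b : ℕ →o ℕ) (f : R0) : act0 (a.comp b) f = act0 a (act0 b f) := by
  have h : act0 (a.comp b) = (act0 a).comp (act0 b) := by
    apply MvPolynomial.ringHom_ext
    · intro r
      simp [act0]
    · rintro ⟨i, k⟩
      have e1 : (MvPolynomial.X (i, k) : R0) = gen i (k + 1) := by simp [gen]
      rw [RingHom.comp_apply, e1, grp_act0_gen, grp_act0_gen, grp_act0_path]
      have h1 : b i ≤ b (i + 1) := b.monotone (by omega)
      have h2 : b i + (b (i + 1) - b i) = b (i + 1) := by omega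
      rw [h2]
      rfl
  rw [h]
  rfl

/-- the universal cosimplicial ring: its complex of cochains is the cobar complex of `P_*` -/
noncomputable def A0 : Cos R0 where
  act := act0
  act_id := act0_id
  act_comp := act0_comp

/-- the 1-cochain `xi_n` (`xi_0 = 1`) -/
noncomputable def xi0 (n : ℕ) : R0 := gen 0 n

/-- a family of 1-cochains satisfying Milnor's coproduct formula -/
structure IsXi (B : Cos S) (xi : ℕ → S) : Prop where
  zero : xi 0 = 1
  supp : ∀ n, Supp B 1 (xi n)
  rel : ∀ n, B.act (face 1) (xi n) = gm xi (fun i => B.act (sh 1) (xi i)) n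

theorem isXi_A0 : IsXi A0 xi0 where
  zero := rfl
  supp := by
    intro n a b hab
    show act0 a (gen 0 n) = act0 b (gen 0 n)
    rw [grp_act0_gen, grp_act0_gen, hab 0 (by omega), hab 1 le_rfl]
  rel := by
    intro n
    show act0 (face 1) (gen 0 n) = gm xi0 (fun i => act0 (sh 1) (gen 0 i)) n
    have e1 : (fun i => act0 (sh 1) (gen 0 i)) = gen 1 := by
      funext i
      rw [grp_act0_gen]
      show path 1 (2 - 1) i = gen 1 i
      rw [← grp_path_one]
    rw [e1, grp_act0_gen]
    show path 0 2 n = gm (gen 0) (gen 1) n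
    rw [← grp_path_one, ← grp_path_one]
    have := grp_path_add 0 1 1
    exact congrFun this n

/-- the universal property of `A0` -/
noncomputable def A0lift [CharP S 3] (B : Cos S) (xi : ℕ → S) (_h : IsXi B xi) : R0 →+* S :=
  MvPolynomial.eval₂Hom (ZMod.castHom (dvd_refl 3) S) (fun q : ℕ × ℕ => B.act (sh q.1) (xi (q.2 + 1)))

lemma grp_lift_gen [CharP S 3] (B : Cos S) (xi : ℕ → S) (h : IsXi B xi) (i k : ℕ) :
    A0lift B xi h (gen i k) = B.act (sh i) (xi k) := by
  rcases k with _ | k
  · simp [gen, h.zero]
  · simp [gen, A0lift]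

lemma grp_degen (B : Cos S) (xi : ℕ → S) (h : IsXi B xi) (i k : ℕ) :
    B.act (edge i i) (xi k) = g1 k := by
  induction k using Nat.strong_induction_on with
  | _ k ih =>
    rcases k with _ | k
    · rw [h.zero, map_one]
      rfl
    · have h1 := congrArg (B.act (edge i i)) (h.rel (k + 1))
      rw [grp_map_gm] at h1
      have e1 : B.act (edge i i) (B.act (face 1) (xi (k + 1))) = B.act (edge i i) (xi (k + 1)) := by
        rw [← B.act_comp]
        congr 2
        ext j
        simp [OrderHom.comp]
      have e2 : (fun l => B.act (edge i i) (B.act (sh 1) (xi l)))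
          = fun l => B.act (edge i i) (xi l) := by
        funext l
        rw [← B.act_comp]
        congr 2
        ext j
        simp [OrderHom.comp]
      rw [e1, e2] at h1
      set u : ℕ → S := fun l => B.act (edge i i) (xi l) with hu
      have h2 : gm u u (k + 1) = u (k + 1) + u (k + 1) := by
        rw [grp_gm]
        have hsub : ({(k + 1, 0), (0, k + 1)} : Finset (ℕ × ℕ)) ⊆ antidiagonal (k + 1) := by
          intro p hp
          simp at hp
          rcases hp with rfl | rfl <;> simp
        have hu0 : u 0 = 1 := by rw [hu]; simp only; rw [h.zero, map_one]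
        rw [← Finset.sum_subset hsub, Finset.sum_pair (by simp)]
        · simp [hu0]
        · rintro ⟨a, b⟩ hab hne
          rw [mem_ad] at hab
          simp only [mem_insert, mem_singleton, Prod.mk.injEq, not_or] at hne
          dsimp only at hab ⊢
          have hb : b ≠ 0 := by
            rintro rfl
            exact hne.1 ⟨by omega, rfl⟩
          have ha : a ≠ 0 := by
            rintro rfl
            exact hne.2 ⟨rfl, by omega⟩
          have := ih b (by omega)
          rw [hu]
          dsimp only
          rw [this]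
          simp [g1, hb]
      rw [h2] at h1
      have h3 : u (k + 1) = 0 := by
        have : u (k + 1) + 0 = u (k + 1) + u (k + 1) := by rw [add_zero]; exact h1
        exact (add_left_cancel this).symm
      show u (k + 1) = g1 (k + 1)
      rw [h3]
      simp [g1]

lemma grp_lift_path [CharP S 3] (B : Cos S) (xi : ℕ → S) (h : IsXi B xi) (i n k : ℕ) :
    A0lift B xi h (path i n k) = B.act (edge i (i + n)) (xi k) := by
  induction n generalizing k with
  | zero =>
    rw [add_zero, grp_degen B xi h, path]
    unfold g1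
    split_ifs <;> simp
  | succ n ih =>
    rw [path, grp_map_gm]
    have e1 : (fun k => A0lift B xi h (path i n k)) = fun k => B.act (edge i (i + n)) (xi k) :=
      funext fun k => ih k
    have e2 : (fun k => A0lift B xi h (gen (i + n) k)) = fun k => B.act (sh (i + n)) (xi k) :=
      funext fun k => grp_lift_gen B xi h (i + n) k
    rw [e1, e2]
    have h1 := congrArg (B.act (tri i (i + n) (i + n + 1))) (h.rel k)
    rw [grp_map_gm, ← B.act_comp] at h1
    have e3 : (fun l => B.act (tri i (i + n) (i + n + 1)) (xi l))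
        = fun l => B.act (edge i (i + n)) (xi l) := by
      funext l
      apply h.supp l
      intro j hj
      have : j = 0 ∨ j = 1 := by omega
      rcases this with rfl | rfl <;> simp [tri]
    have e4 : (fun l => B.act (tri i (i + n) (i + n + 1)) (B.act (sh 1) (xi l)))
        = fun l => B.act (sh (i + n)) (xi l) := by
      funext l
      rw [← B.act_comp]
      apply h.supp l
      intro j hj
      have : j = 0 ∨ j = 1 := by omega
      rcases this with rfl | rfl
      · simp [tri, OrderHom.comp]
      · simp [tri, OrderHom.comp]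
        omega
    rw [e3, e4] at h1
    rw [← h1]
    apply h.supp k
    intro j hj
    have : j = 0 ∨ j = 1 := by omega
    rcases this with rfl | rfl
    · simp [tri, OrderHom.comp]
    · simp [tri, OrderHom.comp]
      omega

theorem A0lift_comm [CharP S 3] (B : Cos S) (xi : ℕ → S) (h : IsXi B xi) (a : ℕ →o ℕ) (r : R0) :
    A0lift B xi h (A0.act a r) = B.act a (A0lift B xi h r) := by
  have hh : (A0lift B xi h).comp (act0 a) = (B.act a).comp (A0lift B xi h) := by
    apply MvPolynomial.ringHom_ext'
    · exact RingHom.ext_zmod _ _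
    · rintro ⟨i, k⟩
      have e1 : (MvPolynomial.X (i, k) : R0) = gen i (k + 1) := by simp [gen]
      rw [RingHom.comp_apply, RingHom.comp_apply, e1, grp_act0_gen, grp_lift_gen, grp_lift_path,
        ← B.act_comp]
      apply h.supp (k + 1)
      intro j hj
      have h1 : a i ≤ a (i + 1) := a.monotone (by omega)
      have : j = 0 ∨ j = 1 := by omega
      rcases this with rfl | rfl
      · simp [OrderHom.comp]
      · simp only [edge_apply, OrderHom.comp, OrderHom.coe_mk, Function.comp_apply, sh_apply]
        rw [if_neg (by omega), add_comm 1 i]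
        omega
  exact RingHom.congr_fun hh r

/-- the universal property of `A0` as a morphism -/
noncomputable def A0map [CharP S 3] (B : Cos S) (xi : ℕ → S) (h : IsXi B xi) : CHom A0 B where
  f := A0lift B xi h
  comm := A0lift_comm B xi h

theorem A0map_xi [CharP S 3] (B : Cos S) (xi : ℕ → S) (h : IsXi B xi) (n : ℕ) :
    (A0map B xi h).f (xi0 n) = xi n := by
  show A0lift B xi h (gen 0 n) = xi n
  rw [grp_lift_gen, act_sh_zero]

end P0N
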