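import Pool.Agent.H34.P0.Defs

/-!
# Hirsch formula
-/

set_option autoImplicit false

namespace P0N

open Finset

variable {R : Type} [CommRing R]

lemma hirsch_comp1 (A : Cos R) (p i n : ℕ) (g : R) :
    A.act (jump (p + i) n) (A.act (sh p) g) = A.act (sh p) (A.act (jump i n) g) := by
  rw [← A.act_comp, ← A.act_comp]
  congr 2
  ext j
  simp only [OrderHom.comp_coe, Function.comp_apply, jump_apply, sh_apply]
  split_ifs <;> omega

lemma hirsch_comp2 (A : Cos R) (p i n : ℕ) (hi : i < p) (g : R) :
    A.act (jump i n) (A.act (sh p) g) = A.act (sh (p + n - 1)) g := by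
  rw [← A.act_comp]
  congr 2
  ext j
  simp only [OrderHom.comp_coe, Function.comp_apply, jump_apply, sh_apply]
  split_ifs <;> omega

/-- Hirsch formula (exact) -/
theorem cup_cup1 (A : Cos R) (p q n : ℕ) (f g h : R) (hf : Supp A p f) (hg : Supp A q g)
    (hh : Supp A n h) :
    cup1 A (p + q) n (cup A p f g) h =
      cup A p f (cup1 A q n g h)
        + (-1) ^ (q * (n + 1)) * cup A (p + n - 1) (cup1 A p n f h) g := by
  unfold cup1 cup
  rw [Finset.sum_range_add, add_comm, map_sum, Finset.mul_sum]
  congr 1
  · refine Finset.sum_congr rfl fun i _ => ?_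
    have e1 : A.act (jump (p + i) n) f = f := by
      refine hf.act_eq _ fun j hj => ?_
      rw [jump_apply, if_pos (by omega)]
    have e2 : p + q - (p + i) = q - i := by omega
    rw [map_mul, e1, hirsch_comp1, e2, ← act_sh_sh, map_mul, map_mul, map_pow, map_neg, map_one]
    ring
  · rw [Finset.sum_mul, Finset.mul_sum]
    refine Finset.sum_congr rfl fun i hi => ?_
    have hi' : i < p := Finset.mem_range.1 hi
    have e2 : (p + q - i) * (n + 1) = q * (n + 1) + (p - i) * (n + 1) := by
      have : p + q - i = q + (p - i) := by omega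
      rw [this]
      ring
    rw [map_mul, hirsch_comp2 A p i n hi', e2, pow_add]
    ring

end P0N
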