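import Pool.Agent.H34.P0.Homot
import Pool.Agent.H34.P0.GamF
import Pool.Agent.H34.P0.Dig

/-!
# The filtered homotopy on `Gam A` with one primitive adjoined
-/

set_option autoImplicit false

namespace P0N

open Finset

variable {R : Type} [CommRing R]

/-- `x` is a cocycle of `Gam A` -/
theorem cocG (A : Cos R) {x : R} (hx : Coc A 1 x) : Coc (Gam A) 1 (MvPolynomial.C x) :=
  hx.map (incG A)

/-- `Gam A` with a primitive of `x` adjoined -/
noncomputable abbrev GX (A : Cos R) (x : R) (hx : Coc A 1 x) :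
    Cos (Polynomial (MvPolynomial ℕ R)) :=
  Ex (Gam A) (MvPolynomial.C x) (cocG A hx)

/-- the homotopy operators: `X_i ↦ X_i` for `i ≤ j`, `X_i ↦ Y - x_{0,i-1}` for `i > j`, `Y ↦ Y` -/
noncomputable def hX (A : Cos R) (x : R) (j : ℕ) :
    Polynomial (MvPolynomial ℕ R) →+* Polynomial (MvPolynomial ℕ R) :=
  Polynomial.eval₂RingHom
    (MvPolynomial.eval₂Hom
      (Polynomial.C.comp (MvPolynomial.C.comp (A.act (dg j))))
      (fun i => if i ≤ j then Polynomial.C (MvPolynomial.X i)
        else Polynomial.X - Polynomial.C (MvPolynomial.C (pv A x 0 (i - 1)))))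
    Polynomial.X

/-- cochains with coefficients in `Fil n` and total degree at most `D` -/
def FT (A : Cos R) (x : R) (hx : Coc A 1 x) (D n : ℕ) : AddSubgroup ↥(Coch (GX A x hx)) where
  carrier := {F | ∀ m k, (F.1.c m).coeff k ∈ Fil A x n ∧
    ((F.1.c m).coeff k ≠ 0 → ((F.1.c m).coeff k).totalDegree + k ≤ D)}
  add_mem' := by
    intro F G hF hG m k
    rw [add_c', Polynomial.coeff_add]
    refine ⟨(Fil A x n).add_mem (hF m k).1 (hG m k).1, fun h => ?_⟩
    by_cases h1 : (F.1.c m).coeff k = 0
    · rw [h1, zero_add] at h ⊢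
      exact (hG m k).2 h
    · by_cases h2 : (G.1.c m).coeff k = 0
      · rw [h2, add_zero] at h ⊢
        exact (hF m k).2 h
      · have h3 := (hF m k).2 h1
        have h4 := (hG m k).2 h2
        have h5 := MvPolynomial.totalDegree_add ((F.1.c m).coeff k) ((G.1.c m).coeff k)
        omega
  zero_mem' := by
    intro m k
    rw [zero_c', Polynomial.coeff_zero]
    exact ⟨(Fil A x n).zero_mem, fun h => absurd rfl h⟩
  neg_mem' := by
    intro F hF m k
    rw [neg_c', Polynomial.coeff_neg]
    refine ⟨(Fil A x n).neg_mem (hF m k).1, fun h => ?_⟩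
    rw [MvPolynomial.totalDegree_neg]
    exact (hF m k).2 (neg_ne_zero.1 h)

/-! ### auxiliary: relations of the homotopy operators -/

theorem homx_act_CC (A : Cos R) (x : R) (hx : Coc A 1 x) (a : ℕ →o ℕ) (r : R) :
    (GX A x hx).act a (Polynomial.C (MvPolynomial.C r)) =
      Polynomial.C (MvPolynomial.C (A.act a r)) := by
  rw [Ex_C, Gam_C]

theorem homx_act_CX (A : Cos R) (x : R) (hx : Coc A 1 x) (a : ℕ →o ℕ) (i : ℕ) :
    (GX A x hx).act a (Polynomial.C (MvPolynomial.X i)) =
      Polynomial.C (MvPolynomial.X (a i)) := by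
  rw [Ex_C, Gam_X]

theorem homx_pv (A : Cos R) (x : R) (i j : ℕ) :
    pv (Gam A) (MvPolynomial.C x) i j = MvPolynomial.C (pv A x i j) := by
  unfold pv
  rw [Gam_C]

theorem homx_act_Y (A : Cos R) (x : R) (hx : Coc A 1 x) (a : ℕ →o ℕ) :
    (GX A x hx).act a Polynomial.X =
      Polynomial.X - Polynomial.C (MvPolynomial.C (pv A x 0 (a 0))) := by
  rw [Ex_X, homx_pv]

theorem homx_h_CC (A : Cos R) (x : R) (j : ℕ) (r : R) :
    hX A x j (Polynomial.C (MvPolynomial.C r)) =
      Polynomial.C (MvPolynomial.C (A.act (dg j) r)) := by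
  simp [hX]

theorem homx_h_CX (A : Cos R) (x : R) (j : ℕ) (i : ℕ) :
    hX A x j (Polynomial.C (MvPolynomial.X i)) =
      if i ≤ j then Polynomial.C (MvPolynomial.X i)
        else Polynomial.X - Polynomial.C (MvPolynomial.C (pv A x 0 (i - 1))) := by
  simp [hX]

theorem homx_h_Y (A : Cos R) (x : R) (j : ℕ) :
    hX A x j Polynomial.X = Polynomial.X := by
  simp [hX]

/-- two ring homomorphisms agreeing on the generators agree -/
theorem homx_ext {S : Type} [CommRing S] {φ ψ : Polynomial (MvPolynomial ℕ R) →+* S}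
    (h1 : ∀ r, φ (Polynomial.C (MvPolynomial.C r)) = ψ (Polynomial.C (MvPolynomial.C r)))
    (h2 : ∀ i, φ (Polynomial.C (MvPolynomial.X i)) = ψ (Polynomial.C (MvPolynomial.X i)))
    (h3 : φ Polynomial.X = ψ Polynomial.X) (p : Polynomial (MvPolynomial ℕ R)) :
    φ p = ψ p := by
  have : φ = ψ := by
    apply Polynomial.ringHom_ext'
    · apply MvPolynomial.ringHom_ext
      · exact h1
      · exact h2
    · exact h3
  rw [this]

/-- the operators `X_i ↦ X_i` for `i < j`, `X_i ↦ Y - x_{0i}` for `i ≥ j` -/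
noncomputable def homxG (A : Cos R) (x : R) (j : ℕ) :
    Polynomial (MvPolynomial ℕ R) →+* Polynomial (MvPolynomial ℕ R) :=
  Polynomial.eval₂RingHom
    (MvPolynomial.eval₂Hom
      (Polynomial.C.comp MvPolynomial.C)
      (fun i => if i < j then Polynomial.C (MvPolynomial.X i)
        else Polynomial.X - Polynomial.C (MvPolynomial.C (pv A x 0 i))))
    Polynomial.X

theorem homx_g_CC (A : Cos R) (x : R) (j : ℕ) (r : R) :
    homxG A x j (Polynomial.C (MvPolynomial.C r)) =
      Polynomial.C (MvPolynomial.C r) := by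
  simp [homxG]

theorem homx_g_CX (A : Cos R) (x : R) (j : ℕ) (i : ℕ) :
    homxG A x j (Polynomial.C (MvPolynomial.X i)) =
      if i < j then Polynomial.C (MvPolynomial.X i)
        else Polynomial.X - Polynomial.C (MvPolynomial.C (pv A x 0 i)) := by
  simp [homxG]

theorem homx_g_Y (A : Cos R) (x : R) (j : ℕ) :
    homxG A x j Polynomial.X = Polynomial.X := by
  simp [homxG]

theorem homx_pv_dg (A : Cos R) {x : R} (hx : Coc A 1 x) (j i : ℕ) :
    A.act (dg j) (pv A x 0 i) = pv A x 0 (dg j i) := by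
  rw [act_pv A hx _ (Nat.zero_le i)]
  simp

theorem homx_ha (A : Cos R) (x : R) (hx : Coc A 1 x) (i j : ℕ) (hij : i < j)
    (f : Polynomial (MvPolynomial ℕ R)) :
    hX A x j ((GX A x hx).act (face i) f) = (GX A x hx).act (face i) (hX A x (j - 1) f) := by
  refine homx_ext (φ := (hX A x j).comp ((GX A x hx).act (face i)))
    (ψ := ((GX A x hx).act (face i)).comp (hX A x (j - 1))) ?_ ?_ ?_ f
  · intro r
    simp only [RingHom.comp_apply]
    rw [homx_act_CC, homx_h_CC, homx_h_CC, homx_act_CC, ← A.act_comp, ← A.act_comp]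
    congr 4
    ext l
    show dg j (face i l) = face i (dg (j - 1) l)
    simp only [dg_apply, face_apply]
    split_ifs <;> omega
  · intro l
    simp only [RingHom.comp_apply]
    rw [homx_act_CX, homx_h_CX, homx_h_CX]
    by_cases h : l ≤ j - 1
    · have h1 : face i l ≤ j := by
        simp only [face_apply]; split_ifs <;> omega
      rw [if_pos h, if_pos h1, homx_act_CX]
    · have h1 : ¬ face i l ≤ j := by
        simp only [face_apply]; split_ifs <;> omega
      rw [if_neg h, if_neg h1, map_sub, homx_act_Y, homx_act_CC,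
        act_pv A hx _ (Nat.zero_le _)]
      have h2 : face i l - 1 = face i (l - 1) := by
        simp only [face_apply]; split_ifs <;> omega
      rw [h2, pv_add A hx (Nat.zero_le (face i 0)) ((face i).monotone (Nat.zero_le (l - 1)))]
      simp only [map_add]
      ring
  · simp only [RingHom.comp_apply]
    rw [homx_act_Y, homx_h_Y, map_sub, homx_h_Y, homx_h_CC, homx_act_Y, homx_pv_dg A hx]
    congr 4
    simp only [dg_apply, face_apply]
    split_ifs <;> omega

theorem homx_hb (A : Cos R) (x : R) (hx : Coc A 1 x) (i j : ℕ) (hij : j + 1 < i)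
    (f : Polynomial (MvPolynomial ℕ R)) :
    hX A x j ((GX A x hx).act (face i) f) = (GX A x hx).act (face (i - 1)) (hX A x j f) := by
  refine homx_ext (φ := (hX A x j).comp ((GX A x hx).act (face i)))
    (ψ := ((GX A x hx).act (face (i - 1))).comp (hX A x j)) ?_ ?_ ?_ f
  · intro r
    simp only [RingHom.comp_apply]
    rw [homx_act_CC, homx_h_CC, homx_h_CC, homx_act_CC, ← A.act_comp, ← A.act_comp]
    congr 4
    ext l
    show dg j (face i l) = face (i - 1) (dg j l)
    simp only [dg_apply, face_apply]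
    split_ifs <;> omega
  · intro l
    simp only [RingHom.comp_apply]
    rw [homx_act_CX, homx_h_CX, homx_h_CX]
    by_cases h : l ≤ j
    · have h1 : face i l = l := by
        simp only [face_apply]; split_ifs <;> omega
      have h2 : face (i - 1) l = l := by
        simp only [face_apply]; split_ifs <;> omega
      rw [if_pos h, h1, if_pos h, homx_act_CX, h2]
    · have h1 : ¬ face i l ≤ j := by
        simp only [face_apply]; split_ifs <;> omega
      rw [if_neg h, if_neg h1, map_sub, homx_act_Y, homx_act_CC,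
        act_pv A hx _ (Nat.zero_le _)]
      have h2 : face i l - 1 = face (i - 1) (l - 1) := by
        simp only [face_apply]; split_ifs <;> omega
      rw [h2, pv_add A hx (Nat.zero_le (face (i - 1) 0))
        ((face (i - 1)).monotone (Nat.zero_le (l - 1)))]
      simp only [map_add]
      ring
  · simp only [RingHom.comp_apply]
    rw [homx_act_Y, homx_h_Y, map_sub, homx_h_Y, homx_h_CC, homx_act_Y, homx_pv_dg A hx]
    congr 4
    simp only [dg_apply, face_apply]
    split_ifs <;> omega

theorem homx_hc (A : Cos R) (x : R) (hx : Coc A 1 x) (j : ℕ)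
    (f : Polynomial (MvPolynomial ℕ R)) :
    hX A x j ((GX A x hx).act (face j) f) = homxG A x j f := by
  refine homx_ext (φ := (hX A x j).comp ((GX A x hx).act (face j)))
    (ψ := homxG A x j) ?_ ?_ ?_ f
  · intro r
    simp only [RingHom.comp_apply]
    rw [homx_act_CC, homx_h_CC, homx_g_CC, ← A.act_comp]
    have : (dg j).comp (face j) = OrderHom.id := by
      ext l
      show dg j (face j l) = l
      simp only [dg_apply, face_apply]
      split_ifs <;> omega
    rw [this, A.act_id]
  · intro l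
    simp only [RingHom.comp_apply]
    rw [homx_act_CX, homx_h_CX, homx_g_CX]
    by_cases h : l < j
    · have h1 : face j l = l := by
        simp only [face_apply]; split_ifs <;> omega
      rw [h1, if_pos h, if_pos (by omega)]
    · have h1 : face j l = l + 1 := by
        simp only [face_apply]; split_ifs <;> omega
      rw [h1, if_neg h, if_neg (by omega)]
      rfl
  · simp only [RingHom.comp_apply]
    rw [homx_act_Y, map_sub, homx_h_Y, homx_h_CC, homx_g_Y, homx_pv_dg A hx]
    have : dg j (face j 0) = 0 := by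
      simp only [dg_apply, face_apply]
      split_ifs <;> omega
    rw [this, pv_self A hx]
    simp

theorem homx_hc' (A : Cos R) (x : R) (hx : Coc A 1 x) (j : ℕ)
    (f : Polynomial (MvPolynomial ℕ R)) :
    hX A x j ((GX A x hx).act (face (j + 1)) f) = homxG A x (j + 1) f := by
  refine homx_ext (φ := (hX A x j).comp ((GX A x hx).act (face (j + 1))))
    (ψ := homxG A x (j + 1)) ?_ ?_ ?_ f
  · intro r
    simp only [RingHom.comp_apply]
    rw [homx_act_CC, homx_h_CC, homx_g_CC, ← A.act_comp]
    have : (dg j).comp (face (j + 1)) = OrderHom.id := by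
      ext l
      show dg j (face (j + 1) l) = l
      simp only [dg_apply, face_apply]
      split_ifs <;> omega
    rw [this, A.act_id]
  · intro l
    simp only [RingHom.comp_apply]
    rw [homx_act_CX, homx_h_CX, homx_g_CX]
    by_cases h : l < j + 1
    · have h1 : face (j + 1) l = l := by
        simp only [face_apply]; split_ifs <;> omega
      rw [h1, if_pos h, if_pos (by omega)]
    · have h1 : face (j + 1) l = l + 1 := by
        simp only [face_apply]; split_ifs <;> omega
      rw [h1, if_neg h, if_neg (by omega)]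
      rfl
  · simp only [RingHom.comp_apply]
    rw [homx_act_Y, map_sub, homx_h_Y, homx_h_CC, homx_g_Y, homx_pv_dg A hx]
    have : dg j (face (j + 1) 0) = 0 := by
      simp only [dg_apply, face_apply]
      split_ifs <;> omega
    rw [this, pv_self A hx]
    simp

/-- truncation `l ↦ min l n` -/
def homxTr (n : ℕ) : ℕ →o ℕ := ⟨fun l => min l n, fun _ _ h => min_le_min h le_rfl⟩

theorem homxTr_apply (n l : ℕ) : homxTr n l = min l n := rfl

theorem homx_trunc (A : Cos R) (x : R) (hx : Coc A 1 x) (n : ℕ)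
    (f : Polynomial (MvPolynomial ℕ R)) (hf : Supp (GX A x hx) n f) :
    (GX A x hx).act (homxTr n) f = f :=
  hf.act_eq _ fun i hi => by rw [homxTr_apply]; omega

theorem homx_g_supp (A : Cos R) (x : R) (hx : Coc A 1 x) (n : ℕ)
    (f : Polynomial (MvPolynomial ℕ R)) (hf : Supp (GX A x hx) n f) :
    homxG A x (n + 1) f = f := by
  have key : ∀ p, homxG A x (n + 1) ((GX A x hx).act (homxTr n) p) =
      (GX A x hx).act (homxTr n) p := by
    intro p
    refine homx_ext (φ := (homxG A x (n + 1)).comp ((GX A x hx).act (homxTr n)))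
      (ψ := (GX A x hx).act (homxTr n)) ?_ ?_ ?_ p
    · intro r
      simp only [RingHom.comp_apply]
      rw [homx_act_CC, homx_g_CC]
    · intro l
      simp only [RingHom.comp_apply]
      rw [homx_act_CX, homx_g_CX, if_pos (by rw [homxTr_apply]; omega)]
    · simp only [RingHom.comp_apply]
      rw [homx_act_Y, map_sub, homx_g_Y, homx_g_CC]
  have h := key f
  rw [homx_trunc A x hx n f hf] at h
  exact h

theorem homx_h_supp (A : Cos R) (x : R) (hx : Coc A 1 x) (n j : ℕ) (hj : j ≤ n)
    (f : Polynomial (MvPolynomial ℕ R)) (hf : Supp (GX A x hx) (n + 1) f) :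
    Supp (GX A x hx) n (hX A x j f) := by
  intro a b hab
  have key : ∀ p, (GX A x hx).act a (hX A x j ((GX A x hx).act (homxTr (n + 1)) p)) =
      (GX A x hx).act b (hX A x j ((GX A x hx).act (homxTr (n + 1)) p)) := by
    intro p
    refine homx_ext (φ := ((GX A x hx).act a).comp
        ((hX A x j).comp ((GX A x hx).act (homxTr (n + 1)))))
      (ψ := ((GX A x hx).act b).comp
        ((hX A x j).comp ((GX A x hx).act (homxTr (n + 1))))) ?_ ?_ ?_ p
    · intro r
      simp only [RingHom.comp_apply]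
      rw [homx_act_CC, homx_h_CC, homx_act_CC, homx_act_CC]
      simp only [← A.act_comp]
      congr 4
      ext l
      show a (dg j (homxTr (n + 1) l)) = b (dg j (homxTr (n + 1) l))
      apply hab
      simp only [dg_apply, homxTr_apply]
      split_ifs <;> omega
    · intro l
      simp only [RingHom.comp_apply]
      rw [homx_act_CX, homx_h_CX]
      by_cases h : homxTr (n + 1) l ≤ j
      · rw [if_pos h, homx_act_CX, homx_act_CX, hab _ (h.trans hj)]
      · rw [if_neg h, map_sub, map_sub, homx_act_Y, homx_act_CC, homx_act_Y, homx_act_CC,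
          act_pv A hx _ (Nat.zero_le _), act_pv A hx _ (Nat.zero_le _), hab 0 (Nat.zero_le _),
          hab (homxTr (n + 1) l - 1) (by rw [homxTr_apply]; omega)]
    · simp only [RingHom.comp_apply]
      rw [homx_act_Y, map_sub, homx_h_Y, homx_h_CC, map_sub, map_sub, homx_act_Y, homx_act_Y,
        homx_act_CC, homx_act_CC, hab 0 (Nat.zero_le _)]
      have : homxTr (n + 1) 0 = 0 := by rw [homxTr_apply]; omega
      rw [this, pv_self A hx]
      simp
  have h := key f
  rw [homx_trunc A x hx (n + 1) f hf] at h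
  exact h

/-! ### auxiliary: the filtration -/

theorem homx_Fil_succ (A : Cos R) (x : R) (n : ℕ) : Fil A x (n + 1) ≤ Fil A x n := by
  unfold Fil
  rw [Ideal.span_le]
  rintro p ⟨s, hs, rfl⟩
  have hne : s.Nonempty := by
    rw [← Finset.card_pos]; omega
  obtain ⟨i, hi⟩ := hne
  rw [← Finset.mul_prod_erase s _ hi]
  refine Ideal.mul_mem_left _ _ (Ideal.subset_span ⟨s.erase i, ?_, rfl⟩)
  rw [Finset.card_erase_of_mem hi]; omega

/-- a product of `del`s over a set with at least `n` elements -/
theorem homx_prod_mem (A : Cos R) (x : R) (n : ℕ) (s : Finset ℕ) (hs : n ≤ s.card) :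
    ∏ i ∈ s, del A x i ∈ Fil A x n := by
  obtain ⟨t, ht, htn⟩ := Finset.exists_subset_card_eq hs
  rw [← Finset.prod_sdiff ht]
  exact Ideal.mul_mem_left _ _ (Ideal.subset_span ⟨t, htn, rfl⟩)

theorem homx_h_del (A : Cos R) (x : R) (hx : Coc A 1 x) (j i : ℕ) (hij : i ≠ j) :
    hX A x j (Polynomial.C (del A x i)) =
      Polynomial.C (del A x i) * (if i < j then 1 else 0) := by
  unfold del
  simp only [map_sub]
  rw [homx_h_CX, homx_h_CX, homx_h_CC, act_pv A hx _ (Nat.le_succ i)]
  rcases lt_or_gt_of_ne hij with h | h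
  · rw [if_pos (by omega), if_pos (by omega), if_pos h]
    have h1 : dg j i = i := by simp only [dg_apply]; split_ifs <;> omega
    have h2 : dg j (i + 1) = i + 1 := by simp only [dg_apply]; split_ifs <;> omega
    rw [h1, h2, mul_one]
  · rw [if_neg (by omega), if_neg (by omega), if_neg (by omega), mul_zero]
    have h1 : dg j i = i - 1 := by simp only [dg_apply]; split_ifs <;> omega
    have h2 : dg j (i + 1) = i := by simp only [dg_apply]; split_ifs <;> omega
    have h3 : i + 1 - 1 = i := by omega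
    rw [h1, h2, h3, pv_add A hx (Nat.zero_le (i - 1)) (by omega : i - 1 ≤ i)]
    simp only [map_add]
    ring

theorem homx_h_Fil (A : Cos R) (x : R) (hx : Coc A 1 x) (j n : ℕ)
    (p : Polynomial (MvPolynomial ℕ R)) (hp : p ∈ (Fil A x n).map Polynomial.C) :
    hX A x j p ∈ (Fil A x (n - 1)).map Polynomial.C := by
  have h : (Fil A x n).map Polynomial.C ≤
      ((Fil A x (n - 1)).map (Polynomial.C : _ →+* Polynomial (MvPolynomial ℕ R))).comap
        (hX A x j) := by
    rw [Ideal.map_le_iff_le_comap]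
    conv_lhs => unfold Fil
    rw [Ideal.span_le]
    rintro q ⟨s, hs, rfl⟩
    show hX A x j (Polynomial.C (∏ i ∈ s, del A x i)) ∈
      (Fil A x (n - 1)).map Polynomial.C
    have key : ∏ i ∈ s.erase j, hX A x j (Polynomial.C (del A x i)) ∈
        (Fil A x (n - 1)).map (Polynomial.C : _ →+* Polynomial (MvPolynomial ℕ R)) := by
      have : ∏ i ∈ s.erase j, hX A x j (Polynomial.C (del A x i)) =
          (∏ i ∈ s.erase j, (if i < j then (1 : Polynomial (MvPolynomial ℕ R)) else 0)) *
          Polynomial.C (∏ i ∈ s.erase j, del A x i) := by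
        rw [map_prod, ← Finset.prod_mul_distrib]
        refine Finset.prod_congr rfl fun i hi => ?_
        rw [homx_h_del A x hx j i (Finset.ne_of_mem_erase hi), mul_comm]
      rw [this]
      refine Ideal.mul_mem_left _ _ (Ideal.mem_map_of_mem _ (homx_prod_mem A x _ _ ?_))
      rw [← hs]
      exact Finset.pred_card_le_card_erase
    rw [map_prod, map_prod]
    by_cases hj : j ∈ s
    · rw [← Finset.mul_prod_erase s _ hj]
      exact Ideal.mul_mem_left _ _ key
    · rw [Finset.erase_eq_of_notMem hj] at key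
      exact key
  exact h hp

theorem homx_g_Fil (A : Cos R) (x : R) (hx : Coc A 1 x) (n : ℕ) (hn : 0 < n)
    (p : Polynomial (MvPolynomial ℕ R)) (hp : p ∈ (Fil A x n).map Polynomial.C) :
    homxG A x 0 p = 0 := by
  have h : (Fil A x n).map Polynomial.C ≤ RingHom.ker (homxG A x 0) := by
    rw [Ideal.map_le_iff_le_comap]
    unfold Fil
    rw [Ideal.span_le]
    rintro q ⟨s, hs, rfl⟩
    show homxG A x 0 (Polynomial.C (∏ i ∈ s, del A x i)) = 0
    have hne : s.Nonempty := by
      rw [← Finset.card_pos]; omega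
    obtain ⟨i, hi⟩ := hne
    rw [map_prod, map_prod]
    refine Finset.prod_eq_zero hi ?_
    unfold del
    simp only [map_sub]
    rw [homx_g_CX, homx_g_CX, homx_g_CC, if_neg (by omega), if_neg (by omega),
      pv_add A hx (Nat.zero_le i) (Nat.le_succ i)]
    simp only [map_add]
    ring
  exact h hp

/-! ### auxiliary: the total degree -/

/-- polynomials of total degree at most `D` -/
def homxTD (R : Type) [CommRing R] (D : ℕ) : AddSubgroup (Polynomial (MvPolynomial ℕ R)) where
  carrier := {p | ∀ k, p.coeff k ≠ 0 → (p.coeff k).totalDegree + k ≤ D}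
  add_mem' := by
    intro p q hp hq k h
    rw [Polynomial.coeff_add] at h ⊢
    by_cases h1 : p.coeff k = 0
    · rw [h1, zero_add] at h ⊢
      exact hq k h
    · by_cases h2 : q.coeff k = 0
      · rw [h2, add_zero] at h ⊢
        exact hp k h
      · have h3 := hp k h1
        have h4 := hq k h2
        have h5 := MvPolynomial.totalDegree_add (p.coeff k) (q.coeff k)
        omega
  zero_mem' := by
    intro k h
    exact absurd (Polynomial.coeff_zero k) h
  neg_mem' := by
    intro p hp k h
    rw [Polynomial.coeff_neg] at h ⊢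
    rw [MvPolynomial.totalDegree_neg]
    exact hp k (neg_ne_zero.1 h)

theorem homx_mem_TD {D : ℕ} {p : Polynomial (MvPolynomial ℕ R)} :
    p ∈ homxTD R D ↔ ∀ k, p.coeff k ≠ 0 → (p.coeff k).totalDegree + k ≤ D := Iff.rfl

theorem homx_TD_mono {D E : ℕ} (h : D ≤ E) {p : Polynomial (MvPolynomial ℕ R)}
    (hp : p ∈ homxTD R D) : p ∈ homxTD R E := fun k hk => (hp k hk).trans h

theorem homx_TD_mul {D E : ℕ} {p q : Polynomial (MvPolynomial ℕ R)}
    (hp : p ∈ homxTD R D) (hq : q ∈ homxTD R E) : p * q ∈ homxTD R (D + E) := by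
  intro k hk
  rw [Polynomial.coeff_mul] at hk ⊢
  have hle : (∑ y ∈ antidiagonal k, p.coeff y.1 * q.coeff y.2).totalDegree ≤
      D + E - k ∧ k ≤ D + E := by
    obtain ⟨y, hy, hne⟩ := Finset.exists_ne_zero_of_sum_ne_zero hk
    have hyk : y.1 + y.2 = k := mem_ad.1 hy
    have h1 := hp y.1 (left_ne_zero_of_mul hne)
    have h2 := hq y.2 (right_ne_zero_of_mul hne)
    refine ⟨?_, by omega⟩
    refine MvPolynomial.totalDegree_finsetSum_le fun z hz => ?_
    have hzk : z.1 + z.2 = k := mem_ad.1 hz
    by_cases h0 : p.coeff z.1 * q.coeff z.2 = 0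
    · rw [h0, MvPolynomial.totalDegree_zero]
      exact Nat.zero_le _
    · have h3 := hp z.1 (left_ne_zero_of_mul h0)
      have h4 := hq z.2 (right_ne_zero_of_mul h0)
      have h5 := MvPolynomial.totalDegree_mul (p.coeff z.1) (q.coeff z.2)
      omega
  omega

theorem homx_TD_C {D : ℕ} {p : MvPolynomial ℕ R} (hp : p.totalDegree ≤ D) :
    Polynomial.C p ∈ homxTD R D := by
  intro k hk
  rw [Polynomial.coeff_C] at hk ⊢
  split_ifs at hk ⊢ with h
  · omega
  · exact absurd rfl hk

theorem homx_TD_X : (Polynomial.X : Polynomial (MvPolynomial ℕ R)) ∈ homxTD R 1 := by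
  intro k hk
  rw [Polynomial.coeff_X] at hk ⊢
  split_ifs at hk ⊢ with h
  · rw [MvPolynomial.totalDegree_one]; omega
  · exact absurd rfl hk

theorem homx_TD_one : (1 : Polynomial (MvPolynomial ℕ R)) ∈ homxTD R 0 := by
  have : (1 : Polynomial (MvPolynomial ℕ R)) = Polynomial.C 1 := by simp
  rw [this]
  exact homx_TD_C (by rw [MvPolynomial.totalDegree_one])

theorem homx_TD_pow {D : ℕ} {p : Polynomial (MvPolynomial ℕ R)}
    (hp : p ∈ homxTD R D) (k : ℕ) : p ^ k ∈ homxTD R (D * k) := by
  induction k with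
  | zero => rw [pow_zero, mul_zero]; exact homx_TD_one
  | succ k ih => rw [pow_succ, mul_add, mul_one]; exact homx_TD_mul ih hp

theorem homx_TD_prod {ι : Type} (s : Finset ι) (D : ι → ℕ)
    (p : ι → Polynomial (MvPolynomial ℕ R)) (hp : ∀ i ∈ s, p i ∈ homxTD R (D i)) :
    ∏ i ∈ s, p i ∈ homxTD R (∑ i ∈ s, D i) := by
  classical
  induction s using Finset.induction_on with
  | empty => rw [Finset.prod_empty, Finset.sum_empty]; exact homx_TD_one
  | insert i s hi ih =>
    rw [Finset.prod_insert hi, Finset.sum_insert hi]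
    exact homx_TD_mul (hp i (Finset.mem_insert_self i s))
      (ih fun k hk => hp k (Finset.mem_insert_of_mem hk))

/-- ring homomorphisms that do not raise the degree of generators do not raise degrees -/
theorem homx_TD_map (φ : Polynomial (MvPolynomial ℕ R) →+* Polynomial (MvPolynomial ℕ R))
    (h1 : ∀ r, φ (Polynomial.C (MvPolynomial.C r)) ∈ homxTD R 0)
    (h2 : ∀ i, φ (Polynomial.C (MvPolynomial.X i)) ∈ homxTD R 1)
    (h3 : φ Polynomial.X ∈ homxTD R 1) {D : ℕ} {p : Polynomial (MvPolynomial ℕ R)}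
    (hp : p ∈ homxTD R D) : φ p ∈ homxTD R D := by
  rw [p.as_sum_support_C_mul_X_pow, map_sum]
  refine AddSubgroup.sum_mem _ fun k hk => ?_
  have hk0 : p.coeff k ≠ 0 := Polynomial.mem_support_iff.1 hk
  have hkD := hp k hk0
  rw [map_mul, map_pow]
  have hC : φ (Polynomial.C (p.coeff k)) ∈ homxTD R (p.coeff k).totalDegree := by
    have hsum : (p.coeff k) = ∑ v ∈ (p.coeff k).support,
        MvPolynomial.monomial v ((p.coeff k).coeff v) := (p.coeff k).as_sum
    have : φ (Polynomial.C (p.coeff k)) = ∑ v ∈ (p.coeff k).support,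
        φ (Polynomial.C (MvPolynomial.monomial v ((p.coeff k).coeff v))) := by
      conv_lhs => rw [hsum]
      rw [map_sum, map_sum]
    rw [this]
    refine AddSubgroup.sum_mem _ fun v hv => ?_
    have hdeg : (v.sum fun _ e => e) ≤ (p.coeff k).totalDegree :=
      MvPolynomial.le_totalDegree hv
    refine homx_TD_mono hdeg ?_
    rw [MvPolynomial.monomial_eq, map_mul, map_mul]
    have e0 : (v.sum fun _ e => e) = 0 + (v.sum fun _ e => e) := by rw [zero_add]
    rw [e0]
    refine homx_TD_mul (h1 _) ?_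
    rw [Finsupp.prod, map_prod, map_prod, Finsupp.sum]
    refine homx_TD_prod _ _ _ fun i _ => ?_
    rw [map_pow, map_pow]
    have := homx_TD_pow (h2 i) (v i)
    rw [one_mul] at this
    exact this
  have hY := homx_TD_pow h3 k
  rw [one_mul] at hY
  exact homx_TD_mono hkD (homx_TD_mul hC hY)

theorem homx_TD_CC (r : R) : Polynomial.C (MvPolynomial.C r) ∈ homxTD R 0 :=
  homx_TD_C (by rw [MvPolynomial.totalDegree_C])

theorem homx_TD_h (A : Cos R) (x : R) (j : ℕ) {D : ℕ} {p : Polynomial (MvPolynomial ℕ R)}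
    (hp : p ∈ homxTD R D) : hX A x j p ∈ homxTD R D := by
  refine homx_TD_map (hX A x j) ?_ ?_ ?_ hp
  · intro r
    rw [homx_h_CC]
    exact homx_TD_CC _
  · intro i
    rw [homx_h_CX]
    split_ifs
    · refine homx_TD_C ?_
      exact (MvPolynomial.totalDegree_monomial_le _ _).trans (by simp)
    · exact (homxTD R 1).sub_mem homx_TD_X (homx_TD_mono (Nat.zero_le 1) (homx_TD_CC _))
  · rw [homx_h_Y]
    exact homx_TD_X

theorem homx_mem_FT {A : Cos R} {x : R} {hx : Coc A 1 x} {D n : ℕ} {F : ↥(Coch (GX A x hx))} :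
    F ∈ FT A x hx D n ↔ ∀ m, F.1.c m ∈ (Fil A x n).map Polynomial.C ∧ F.1.c m ∈ homxTD R D := by
  constructor
  · intro h m
    exact ⟨Ideal.mem_map_C_iff.2 fun k => (h m k).1, fun k => (h m k).2⟩
  · intro h m k
    exact ⟨Ideal.mem_map_C_iff.1 (h m).1 k, (h m).2 k⟩

/-! ### the statements -/

theorem FT_anti (A : Cos R) (x : R) (hx : Coc A 1 x) (D n : ℕ) :
    FT A x hx D (n + 1) ≤ FT A x hx D n := by
  intro F hF m k
  exact ⟨homx_Fil_succ A x n (hF m k).1, (hF m k).2⟩

theorem FT_hdC (A : Cos R) (x : R) (hx : Coc A 1 x) (D s n : ℕ) (v : ↥(Coch (GX A x hx)))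
    (hv : v ∈ FT A x hx D n) :
    hdC (Gam A) (MvPolynomial.C x) (cocG A hx) s v ∈ FT A x hx D n := by
  intro m k
  rw [hdC_c, Polynomial.hasseDeriv_coeff]
  refine ⟨Ideal.mul_mem_left _ _ (hv m _).1, fun h => ?_⟩
  have h1 : (v.1.c m).coeff (k + 3 ^ s) ≠ 0 := right_ne_zero_of_mul h
  have h2 := (hv m _).2 h1
  have h3 := MvPolynomial.totalDegree_mul
    (((k + 3 ^ s).choose (3 ^ s) : ℕ) : MvPolynomial ℕ R) ((v.1.c m).coeff (k + 3 ^ s))
  have h4 : ((((k + 3 ^ s).choose (3 ^ s) : ℕ) : MvPolynomial ℕ R)).totalDegree = 0 := by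
    rw [← map_natCast (MvPolynomial.C : R →+* MvPolynomial ℕ R), MvPolynomial.totalDegree_C]
  have h5 : 0 < 3 ^ s := by positivity
  omega

/-- cocycles of positive filtration bound in the filtration one lower -/
theorem FT_bound (A : Cos R) (x : R) (hx : Coc A 1 x) (D n : ℕ) (hn : 0 < n)
    (u : ↥(Coch (GX A x hx))) (hu : u ∈ FT A x hx D n) (hdu : dC _ u = 0) :
    ∃ w ∈ FT A x hx D (n - 1), dC _ w = u := by
  rw [homx_mem_FT] at hu
  have hdu' : ∀ m, d (GX A x hx) m (u.1.c m) = 0 := by
    intro m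
    have := congrArg (fun F : ↥(Coch (GX A x hx)) => F.1.c (m + 1)) hdu
    exact this
  have hw : ∀ m, Supp (GX A x hx) m (-sH (hX A x) (m + 1) (u.1.c (m + 1))) := by
    intro m
    refine Supp.neg (Supp.sum fun j hj => ?_)
    refine Supp.mul ((Supp.one _ _).neg.pow _) (homx_h_supp A x hx m j ?_ _ (u.2 (m + 1)))
    rw [Finset.mem_range] at hj
    omega
  refine ⟨⟨⟨fun m => -sH (hX A x) (m + 1) (u.1.c (m + 1))⟩, hw⟩, ?_, ?_⟩
  · rw [homx_mem_FT]
    intro m
    show -sH (hX A x) (m + 1) (u.1.c (m + 1)) ∈ _ ∧ -sH (hX A x) (m + 1) (u.1.c (m + 1)) ∈ _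
    unfold sH
    constructor
    · refine Ideal.neg_mem_iff _ |>.2 (Ideal.sum_mem _ fun j _ => ?_)
      exact Ideal.mul_mem_left _ _ (homx_h_Fil A x hx j n _ (hu (m + 1)).1)
    · refine AddSubgroup.neg_mem _ (AddSubgroup.sum_mem _ fun j _ => ?_)
      have h1 : ((-1 : Polynomial (MvPolynomial ℕ R)) ^ j) ∈ homxTD R (0 * j) :=
        homx_TD_pow (AddSubgroup.neg_mem _ homx_TD_one) j
      have h2 := homx_TD_mul h1 (homx_TD_h A x j (hu (m + 1)).2)
      rw [zero_mul, zero_add] at h2
      exact h2
  · apply coch_ext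
    intro m
    cases m with
    | zero =>
      rw [dC_zero]
      have h0 := homotopy_zero (GX A x hx) (hX A x) (homxG A x) (homx_hc A x hx)
        (homx_hc' A x hx) (u.1.c 0)
      rw [hdu' 0, homx_g_Fil A x hx n hn _ (hu 0).1, homx_g_supp A x hx 0 _ (u.2 0)] at h0
      have h1 : sH (hX A x) 1 (0 : Polynomial (MvPolynomial ℕ R)) = 0 := by
        unfold sH
        simp
      rw [h1] at h0
      have h2 : u.1.c 0 = 0 := by
        have : (0 : Polynomial (MvPolynomial ℕ R)) = 0 - u.1.c 0 := h0
        rw [zero_sub] at this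
        exact neg_eq_zero.1 this.symm
      exact h2.symm
    | succ m =>
      rw [dC_succ]
      show d (GX A x hx) m (-sH (hX A x) (m + 1) (u.1.c (m + 1))) = u.1.c (m + 1)
      have h0 := homotopy (GX A x hx) (hX A x) (homxG A x) (homx_ha A x hx) (homx_hb A x hx)
        (homx_hc A x hx) (homx_hc' A x hx) m (u.1.c (m + 1))
      rw [hdu' (m + 1), homx_g_Fil A x hx n hn _ (hu (m + 1)).1,
        homx_g_supp A x hx (m + 1) _ (u.2 (m + 1))] at h0
      have h1 : sH (hX A x) (m + 2) (0 : Polynomial (MvPolynomial ℕ R)) = 0 := by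
        unfold sH
        simp
      rw [h1, add_zero, zero_sub] at h0
      rw [map_neg, h0, neg_neg]

end P0N
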