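import Pool.Agent.H34.P0.Ext

/-!
# The abstract simplicial homotopy, and the homotopy from `Gam A` to `A`
-/

set_option autoImplicit false

namespace P0N

open Finset

variable {R : Type} [CommRing R] {S : Type} [CommRing S]

/-- alternating sum of the homotopy operators -/
def sH (h : ℕ → S →+* S) (q : ℕ) (f : S) : S := ∑ j ∈ range q, (-1) ^ j * h j f

theorem homotopy (T : Cos S) (h g : ℕ → S →+* S)
    (ha : ∀ i j, i < j → ∀ f, h j (T.act (face i) f) = T.act (face i) (h (j - 1) f))
    (hb : ∀ i j, j + 1 < i → ∀ f, h j (T.act (face i) f) = T.act (face (i - 1)) (h j f))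
    (hc : ∀ j f, h j (T.act (face j) f) = g j f)
    (hc' : ∀ j f, h j (T.act (face (j + 1)) f) = g (j + 1) f) (q : ℕ) (f : S) :
    d T q (sH h (q + 1) f) + sH h (q + 2) (d T (q + 1) f) = g 0 f - g (q + 2) f := by
  -- the two double sums
  have e1 : d T q (sH h (q + 1) f) = ∑ j ∈ range (q + 1),
      (∑ i ∈ range (j + 1), (-1) ^ (i + j) * T.act (face i) (h j f) +
        ∑ x ∈ range (q + 1 - j), (-1) ^ (x + 1) * T.act (face (j + 1 + x)) (h j f)) := by
    rw [d_apply]
    unfold sH
    simp only [map_sum, Finset.mul_sum, map_mul, map_pow, map_neg, map_one]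
    rw [Finset.sum_comm]
    refine Finset.sum_congr rfl fun j hj => ?_
    rw [Finset.mem_range] at hj
    have hq : q + 2 = (j + 1) + (q + 1 - j) := by omega
    rw [hq, Finset.sum_range_add]
    congr 1
    · refine Finset.sum_congr rfl fun i _ => ?_
      rw [pow_add]; ring
    · refine Finset.sum_congr rfl fun i _ => ?_
      have : (-1 : S) ^ (j + 1 + i) * (-1) ^ j = (-1) ^ (i + 1) := by
        rw [← pow_add, show j + 1 + i + j = 2 * j + (i + 1) by ring, pow_add, pow_mul]
        simp
      rw [← this]; ring
  have e2 : sH h (q + 2) (d T (q + 1) f) = ∑ j ∈ range (q + 2),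
      ((∑ i ∈ range j, (-1) ^ (i + j) * T.act (face i) (h (j - 1) f)) +
        (g j f - g (j + 1) f) +
        -(∑ x ∈ range (q + 1 - j), (-1) ^ (x + 1) * T.act (face (j + 1 + x)) (h j f))) := by
    rw [d_apply]
    unfold sH
    refine Finset.sum_congr rfl fun j hj => ?_
    rw [Finset.mem_range] at hj
    simp only [map_sum, Finset.mul_sum, map_mul, map_pow, map_neg, map_one]
    have hq : q + 1 + 2 = j + (2 + (q + 1 - j)) := by omega
    have s1 : ∑ x ∈ range j, (-1 : S) ^ j * ((-1) ^ x * h j (T.act (face x) f)) =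
        ∑ i ∈ range j, (-1) ^ (i + j) * T.act (face i) (h (j - 1) f) := by
      refine Finset.sum_congr rfl fun i hi => ?_
      rw [Finset.mem_range] at hi
      rw [ha i j hi, pow_add]; ring
    have s2 : ∑ x ∈ range 2, (-1 : S) ^ j * ((-1) ^ (j + x) * h j (T.act (face (j + x)) f)) =
        g j f - g (j + 1) f := by
      rw [Finset.sum_range_succ, Finset.sum_range_one, add_zero, hc j f, hc' j f]
      have h1 : (-1 : S) ^ j * (-1) ^ j = 1 := by
        rw [← pow_add, ← two_mul, pow_mul]; simp
      rw [pow_succ]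
      linear_combination (g j f - g (j + 1) f) * h1
    have s3 : ∑ x ∈ range (q + 1 - j),
          (-1 : S) ^ j * ((-1) ^ (j + (2 + x)) * h j (T.act (face (j + (2 + x))) f)) =
        -(∑ x ∈ range (q + 1 - j), (-1) ^ (x + 1) * T.act (face (j + 1 + x)) (h j f)) := by
      rw [← Finset.sum_neg_distrib]
      refine Finset.sum_congr rfl fun i _ => ?_
      rw [hb (j + (2 + i)) j (by omega), show j + (2 + i) - 1 = j + 1 + i by omega]
      have : (-1 : S) ^ j * (-1) ^ (j + (2 + i)) = (-1) ^ i := by
        rw [← pow_add, show j + (j + (2 + i)) = 2 * (j + 1) + i by ring, pow_add, pow_mul]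
        simp
      rw [pow_succ, ← mul_assoc, this]
      ring
    rw [hq, Finset.sum_range_add, Finset.sum_range_add, s1, s2, s3, add_assoc]
  have e3 : ∑ j ∈ range (q + 2), (∑ i ∈ range j, (-1) ^ (i + j) * T.act (face i) (h (j - 1) f)) =
      - ∑ j ∈ range (q + 1), ∑ i ∈ range (j + 1), (-1) ^ (i + j) * T.act (face i) (h j f) := by
    rw [Finset.sum_range_succ', Finset.range_zero, Finset.sum_empty, add_zero,
      ← Finset.sum_neg_distrib]
    refine Finset.sum_congr rfl fun j _ => ?_
    rw [← Finset.sum_neg_distrib, Nat.add_sub_cancel]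
    refine Finset.sum_congr rfl fun i _ => ?_
    rw [← add_assoc, pow_succ]
    ring
  have e4 : ∑ j ∈ range (q + 2),
      -(∑ x ∈ range (q + 1 - j), (-1) ^ (x + 1) * T.act (face (j + 1 + x)) (h j f)) =
      - ∑ j ∈ range (q + 1),
        ∑ x ∈ range (q + 1 - j), (-1) ^ (x + 1) * T.act (face (j + 1 + x)) (h j f) := by
    rw [Finset.sum_range_succ, Nat.sub_self, Finset.range_zero, Finset.sum_empty, neg_zero,
      add_zero, Finset.sum_neg_distrib]
  rw [e1, e2, Finset.sum_add_distrib, Finset.sum_add_distrib, Finset.sum_add_distrib, e3, e4,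
    Finset.sum_range_sub' (fun j => g j f)]
  ring

theorem homotopy_zero (T : Cos S) (h g : ℕ → S →+* S)
    (hc : ∀ j f, h j (T.act (face j) f) = g j f)
    (hc' : ∀ j f, h j (T.act (face (j + 1)) f) = g (j + 1) f) (f : S) :
    sH h 1 (d T 0 f) = g 0 f - g 1 f := by
  rw [d_apply]
  unfold sH
  rw [Finset.sum_range_one, Finset.sum_range_succ, Finset.sum_range_one, map_add, map_mul,
    map_mul, hc 0 f]
  have := hc' 0 f
  rw [zero_add] at this
  rw [this]
  simp
  ring

/-- the homotopy operators contracting `Gam A` to `A` (`X_i ↦ 0` for `i > j`) -/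
noncomputable def hE (A : Cos R) (j : ℕ) : MvPolynomial ℕ R →+* MvPolynomial ℕ R :=
  MvPolynomial.eval₂Hom (MvPolynomial.C.comp (A.act (dg j)))
    (fun i => if i ≤ j then MvPolynomial.X i else 0)

theorem homot_h_C (A : Cos R) (j : ℕ) (r : R) :
    hE A j (MvPolynomial.C r) = MvPolynomial.C (A.act (dg j) r) := by
  simp [hE]

theorem homot_h_X (A : Cos R) (j i : ℕ) :
    hE A j (MvPolynomial.X i) = if i ≤ j then MvPolynomial.X i else 0 := by
  simp [hE]

/-- the operators `X_i ↦ X_i` for `i < j`, `X_i ↦ 0` for `i ≥ j` -/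
noncomputable def homotG (R : Type) [CommRing R] (j : ℕ) :
    MvPolynomial ℕ R →+* MvPolynomial ℕ R :=
  MvPolynomial.eval₂Hom MvPolynomial.C (fun i => if i < j then MvPolynomial.X i else 0)

theorem homot_g_C (j : ℕ) (r : R) :
    homotG R j (MvPolynomial.C r) = MvPolynomial.C r := by
  simp [homotG]

theorem homot_g_X (j i : ℕ) :
    homotG R j (MvPolynomial.X i) = if i < j then MvPolynomial.X i else 0 := by
  simp [homotG]

/-- two ring homomorphisms agreeing on the generators agree -/
theorem homot_ext {U : Type} [CommRing U] {φ ψ : MvPolynomial ℕ R →+* U}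
    (h1 : ∀ r, φ (MvPolynomial.C r) = ψ (MvPolynomial.C r))
    (h2 : ∀ i, φ (MvPolynomial.X i) = ψ (MvPolynomial.X i))
    (p : MvPolynomial ℕ R) : φ p = ψ p := by
  have : φ = ψ := MvPolynomial.ringHom_ext h1 h2
  rw [this]

theorem homot_ha (A : Cos R) (i j : ℕ) (hij : i < j) (f : MvPolynomial ℕ R) :
    hE A j ((Gam A).act (face i) f) = (Gam A).act (face i) (hE A (j - 1) f) := by
  have key := homot_ext (φ := (hE A j).comp ((Gam A).act (face i)))
    (ψ := ((Gam A).act (face i)).comp (hE A (j - 1))) ?_ ?_ f
  · simpa only [RingHom.comp_apply] using key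
  · intro r
    simp only [RingHom.comp_apply]
    rw [Gam_C, homot_h_C, homot_h_C, Gam_C, ← A.act_comp, ← A.act_comp]
    congr 3
    ext l
    show dg j (face i l) = face i (dg (j - 1) l)
    simp only [dg_apply, face_apply]
    split_ifs <;> omega
  · intro l
    simp only [RingHom.comp_apply]
    rw [Gam_X, homot_h_X, homot_h_X]
    by_cases h : l ≤ j - 1
    · have h1 : face i l ≤ j := by
        simp only [face_apply]; split_ifs <;> omega
      rw [if_pos h, if_pos h1, Gam_X]
    · have h1 : ¬ face i l ≤ j := by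
        simp only [face_apply]; split_ifs <;> omega
      rw [if_neg h, if_neg h1, map_zero]

theorem homot_hb (A : Cos R) (i j : ℕ) (hij : j + 1 < i) (f : MvPolynomial ℕ R) :
    hE A j ((Gam A).act (face i) f) = (Gam A).act (face (i - 1)) (hE A j f) := by
  have key := homot_ext (φ := (hE A j).comp ((Gam A).act (face i)))
    (ψ := ((Gam A).act (face (i - 1))).comp (hE A j)) ?_ ?_ f
  · simpa only [RingHom.comp_apply] using key
  · intro r
    simp only [RingHom.comp_apply]
    rw [Gam_C, homot_h_C, homot_h_C, Gam_C, ← A.act_comp, ← A.act_comp]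
    congr 3
    ext l
    show dg j (face i l) = face (i - 1) (dg j l)
    simp only [dg_apply, face_apply]
    split_ifs <;> omega
  · intro l
    simp only [RingHom.comp_apply]
    rw [Gam_X, homot_h_X, homot_h_X]
    by_cases h : l ≤ j
    · have h1 : face i l = l := by
        simp only [face_apply]; split_ifs <;> omega
      have h2 : face (i - 1) l = l := by
        simp only [face_apply]; split_ifs <;> omega
      rw [if_pos h, h1, if_pos h, Gam_X, h2]
    · have h1 : ¬ face i l ≤ j := by
        simp only [face_apply]; split_ifs <;> omega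
      rw [if_neg h, if_neg h1, map_zero]

theorem homot_hc (A : Cos R) (j : ℕ) (f : MvPolynomial ℕ R) :
    hE A j ((Gam A).act (face j) f) = homotG R j f := by
  have key := homot_ext (φ := (hE A j).comp ((Gam A).act (face j))) (ψ := homotG R j) ?_ ?_ f
  · simpa only [RingHom.comp_apply] using key
  · intro r
    simp only [RingHom.comp_apply]
    rw [Gam_C, homot_h_C, homot_g_C, ← A.act_comp]
    have : (dg j).comp (face j) = OrderHom.id := by
      ext l
      show dg j (face j l) = l
      simp only [dg_apply, face_apply]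
      split_ifs <;> omega
    rw [this, A.act_id]
  · intro l
    simp only [RingHom.comp_apply]
    rw [Gam_X, homot_h_X, homot_g_X]
    by_cases h : l < j
    · have h1 : face j l = l := by
        simp only [face_apply]; split_ifs <;> omega
      rw [h1, if_pos h, if_pos (by omega)]
    · have h1 : face j l = l + 1 := by
        simp only [face_apply]; split_ifs <;> omega
      rw [h1, if_neg h, if_neg (by omega)]

theorem homot_hc' (A : Cos R) (j : ℕ) (f : MvPolynomial ℕ R) :
    hE A j ((Gam A).act (face (j + 1)) f) = homotG R (j + 1) f := by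
  have key := homot_ext (φ := (hE A j).comp ((Gam A).act (face (j + 1))))
    (ψ := homotG R (j + 1)) ?_ ?_ f
  · simpa only [RingHom.comp_apply] using key
  · intro r
    simp only [RingHom.comp_apply]
    rw [Gam_C, homot_h_C, homot_g_C, ← A.act_comp]
    have : (dg j).comp (face (j + 1)) = OrderHom.id := by
      ext l
      show dg j (face (j + 1) l) = l
      simp only [dg_apply, face_apply]
      split_ifs <;> omega
    rw [this, A.act_id]
  · intro l
    simp only [RingHom.comp_apply]
    rw [Gam_X, homot_h_X, homot_g_X]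
    by_cases h : l < j + 1
    · have h1 : face (j + 1) l = l := by
        simp only [face_apply]; split_ifs <;> omega
      rw [h1, if_pos h, if_pos (by omega)]
    · have h1 : face (j + 1) l = l + 1 := by
        simp only [face_apply]; split_ifs <;> omega
      rw [h1, if_neg h, if_neg (by omega)]

/-- truncation `l ↦ min l n` -/
def homotTr (n : ℕ) : ℕ →o ℕ := ⟨fun l => min l n, fun _ _ h => min_le_min h le_rfl⟩

theorem homotTr_apply (n l : ℕ) : homotTr n l = min l n := rfl

theorem homot_trunc (A : Cos R) (n : ℕ) (f : MvPolynomial ℕ R) (hf : Supp (Gam A) n f) :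
    (Gam A).act (homotTr n) f = f :=
  hf.act_eq _ fun i hi => by rw [homotTr_apply]; omega

theorem homot_g_supp (A : Cos R) (n : ℕ) (f : MvPolynomial ℕ R) (hf : Supp (Gam A) n f) :
    homotG R (n + 1) f = f := by
  have key : ∀ p, homotG R (n + 1) ((Gam A).act (homotTr n) p) =
      (Gam A).act (homotTr n) p := by
    intro p
    have key := homot_ext (φ := (homotG R (n + 1)).comp ((Gam A).act (homotTr n)))
      (ψ := (Gam A).act (homotTr n)) ?_ ?_ p
    · simpa only [RingHom.comp_apply] using key
    · intro r
      simp only [RingHom.comp_apply]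
      rw [Gam_C, homot_g_C]
    · intro l
      simp only [RingHom.comp_apply]
      rw [Gam_X, homot_g_X, if_pos (by rw [homotTr_apply]; omega)]
  have h := key f
  rw [homot_trunc A n f hf] at h
  exact h

theorem homot_h_supp (A : Cos R) (n j : ℕ) (hj : j ≤ n) (f : MvPolynomial ℕ R)
    (hf : Supp (Gam A) (n + 1) f) : Supp (Gam A) n (hE A j f) := by
  intro a b hab
  have key : ∀ p, (Gam A).act a (hE A j ((Gam A).act (homotTr (n + 1)) p)) =
      (Gam A).act b (hE A j ((Gam A).act (homotTr (n + 1)) p)) := by
    intro p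
    have key := homot_ext (φ := ((Gam A).act a).comp
        ((hE A j).comp ((Gam A).act (homotTr (n + 1)))))
      (ψ := ((Gam A).act b).comp
        ((hE A j).comp ((Gam A).act (homotTr (n + 1))))) ?_ ?_ p
    · simpa only [RingHom.comp_apply] using key
    · intro r
      simp only [RingHom.comp_apply]
      rw [Gam_C, homot_h_C, Gam_C, Gam_C]
      simp only [← A.act_comp]
      congr 3
      ext l
      show a (dg j (homotTr (n + 1) l)) = b (dg j (homotTr (n + 1) l))
      apply hab
      simp only [dg_apply, homotTr_apply]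
      split_ifs <;> omega
    · intro l
      simp only [RingHom.comp_apply]
      rw [Gam_X, homot_h_X]
      by_cases h : homotTr (n + 1) l ≤ j
      · rw [if_pos h, Gam_X, Gam_X, hab _ (h.trans hj)]
      · rw [if_neg h, map_zero, map_zero]
  have h := key f
  rw [homot_trunc A (n + 1) f hf] at h
  exact h

theorem homot_g_zero (A : Cos R) (f : MvPolynomial ℕ R) :
    homotG R 0 f = MvPolynomial.C ((evG A).f f) := by
  have key := homot_ext (φ := homotG R 0) (ψ := (MvPolynomial.C).comp (evG A).f) ?_ ?_ f
  · simpa only [RingHom.comp_apply] using key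
  · intro r
    rw [homot_g_C]
    simp [evG]
  · intro i
    rw [homot_g_X, if_neg (by omega)]
    simp [evG]

/-- every cocycle of `Gam A` is cohomologous to its evaluation at zero -/
theorem evG_homotopy (A : Cos R) (n : ℕ) (f : MvPolynomial ℕ R) (hf : Coc (Gam A) (n + 1) f) :
    ∃ w, Supp (Gam A) n w ∧ d (Gam A) n w = f - MvPolynomial.C ((evG A).f f) := by
  refine ⟨-sH (hE A) (n + 1) f, ?_, ?_⟩
  · refine Supp.neg (Supp.sum fun j hj => ?_)
    refine Supp.mul ((Supp.one _ _).neg.pow _) (homot_h_supp A n j ?_ _ hf.1)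
    rw [Finset.mem_range] at hj
    omega
  · have h0 := homotopy (Gam A) (hE A) (homotG R) (homot_ha A) (homot_hb A)
      (homot_hc A) (homot_hc' A) n f
    rw [hf.2, homot_g_supp A (n + 1) f hf.1, homot_g_zero A f] at h0
    have h1 : sH (hE A) (n + 2) (0 : MvPolynomial ℕ R) = 0 := by
      unfold sH
      simp
    rw [h1, add_zero] at h0
    rw [map_neg, h0, neg_sub]

end P0N
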