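import Pool.Agent.H34.P0.GamF
import Pool.Agent.H34.P0.Cls

/-!
# Lifting invariant cocycles to the free extension
-/

set_option autoImplicit false

namespace P0N

open Finset Polynomial

variable {R : Type} [CommRing R]

/-- `X ↦ X_i + x_{0i}` -/
noncomputable def INV_Ps (A : Cos R) (x : R) (i : ℕ) : R[X] →+* MvPolynomial ℕ R :=
  eval₂RingHom MvPolynomial.C (MvPolynomial.X i + MvPolynomial.C (pv A x 0 i))

/-- `C X ↦ X_i + x_{0i}`, `X ↦ X_j + x_{0j}` -/
noncomputable def INV_Th (A : Cos R) (x : R) (i j : ℕ) : R[X][X] →+* MvPolynomial ℕ R :=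
  eval₂RingHom (INV_Ps A x i) (MvPolynomial.X j + MvPolynomial.C (pv A x 0 j))

theorem INV_Ps_C (A : Cos R) (x : R) (i : ℕ) (r : R) :
    INV_Ps A x i (C r) = MvPolynomial.C r := by simp [INV_Ps]
theorem INV_Ps_X (A : Cos R) (x : R) (i : ℕ) :
    INV_Ps A x i X = MvPolynomial.X i + MvPolynomial.C (pv A x 0 i) := by simp [INV_Ps]
theorem INV_Th_C (A : Cos R) (x : R) (i j : ℕ) (p : R[X]) :
    INV_Th A x i j (C p) = INV_Ps A x i p := by simp [INV_Th]
theorem INV_Th_X (A : Cos R) (x : R) (i j : ℕ) :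
    INV_Th A x i j X = MvPolynomial.X j + MvPolynomial.C (pv A x 0 j) := by simp [INV_Th]

theorem INV_in2_C (A : Cos R) (x : R) (hx : Coc A 1 x) (r : R) :
    (in2 A x hx).f (C r) = C (C r) :=
  CHom.lift_C ((in1 A x hx).comp (inc A x hx)) x hx X (Ex_supp_X _ _ _) (Ex_sh_X _ _ _) r
theorem INV_in2_X (A : Cos R) (x : R) (hx : Coc A 1 x) : (in2 A x hx).f X = X :=
  CHom.lift_X ((in1 A x hx).comp (inc A x hx)) x hx X (Ex_supp_X _ _ _) (Ex_sh_X _ _ _)
theorem INV_dia_C (A : Cos R) (x : R) (hx : Coc A 1 x) (p : R[X]) :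
    (dia A x hx).f (C p) = p :=
  CHom.lift_C (CHom.id (Ex A x hx)) (C x) (hx.map (inc A x hx)) X (Ex_supp_X _ _ _)
    (Ex_sh_X _ _ _) p
theorem INV_dia_X (A : Cos R) (x : R) (hx : Coc A 1 x) : (dia A x hx).f X = X :=
  CHom.lift_X (CHom.id (Ex A x hx)) (C x) (hx.map (inc A x hx)) X (Ex_supp_X _ _ _)
    (Ex_sh_X _ _ _)
theorem INV_Ex2_C (A : Cos R) (x : R) (hx : Coc A 1 x) (a : ℕ →o ℕ) (p : R[X]) :
    (Ex2 A x hx).act a (C p) = C ((Ex A x hx).act a p) :=
  exAct_C (Ex A x hx) (C x) a p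
theorem INV_Ex2_X (A : Cos R) (x : R) (hx : Coc A 1 x) (a : ℕ →o ℕ) :
    (Ex2 A x hx).act a X = X - C (C (pv A x 0 (a 0))) := by
  have h1 : (Ex2 A x hx).act a X = X - C (pv (Ex A x hx) (C x) 0 (a 0)) :=
    exAct_X (Ex A x hx) (C x) a
  have h2 : pv (Ex A x hx) (C x) 0 (a 0) = C (pv A x 0 (a 0)) := Ex_C A x hx _ x
  rw [h1, h2]

theorem INV_Th_in1 (A : Cos R) (x : R) (hx : Coc A 1 x) (i j : ℕ) (p : R[X]) :
    INV_Th A x i j ((in1 A x hx).f p) = INV_Ps A x i p := INV_Th_C A x i j p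

theorem INV_Th_in2 (A : Cos R) (x : R) (hx : Coc A 1 x) (i j : ℕ) (p : R[X]) :
    INV_Th A x i j ((in2 A x hx).f p) = INV_Ps A x j p := by
  have h : (INV_Th A x i j).comp (in2 A x hx).f = INV_Ps A x j := by
    apply Polynomial.ringHom_ext
    · intro r
      rw [RingHom.comp_apply, INV_Ps_C, INV_in2_C, INV_Th_C, INV_Ps_C]
    · rw [RingHom.comp_apply, INV_in2_X, INV_Th_X, INV_Ps_X]
  exact RingHom.congr_fun h p

theorem INV_act_Ps (A : Cos R) (x : R) (hx : Coc A 1 x) (i : ℕ) (a : ℕ →o ℕ) (p : R[X]) :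
    (Gam A).act a (INV_Ps A x i p) = INV_Ps A x (a i) ((Ex A x hx).act a p) := by
  have h : ((Gam A).act a).comp (INV_Ps A x i) =
      (INV_Ps A x (a i)).comp ((Ex A x hx).act a) := by
    apply Polynomial.ringHom_ext
    · intro r
      rw [RingHom.comp_apply, RingHom.comp_apply, INV_Ps_C, Gam_C, Ex_C, INV_Ps_C]
    · rw [RingHom.comp_apply, RingHom.comp_apply, INV_Ps_X, map_add, Gam_C, Gam_X, Ex_X, map_sub,
        INV_Ps_C, INV_Ps_X, act_pv A hx a (Nat.zero_le i),
        pv_add A hx (Nat.zero_le (a 0)) (a.monotone (Nat.zero_le i)), map_add]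
      ring
  exact RingHom.congr_fun h p

theorem INV_act_Th (A : Cos R) (x : R) (hx : Coc A 1 x) (i j : ℕ) (a : ℕ →o ℕ) (p : R[X][X]) :
    (Gam A).act a (INV_Th A x i j p) = INV_Th A x (a i) (a j) ((Ex2 A x hx).act a p) := by
  have h : ((Gam A).act a).comp (INV_Th A x i j) =
      (INV_Th A x (a i) (a j)).comp ((Ex2 A x hx).act a) := by
    apply Polynomial.ringHom_ext
    · intro r
      rw [RingHom.comp_apply, RingHom.comp_apply, INV_Th_C, INV_Ex2_C, INV_Th_C,
        INV_act_Ps A x hx]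
    · rw [RingHom.comp_apply, RingHom.comp_apply, INV_Th_X, map_add, Gam_C, Gam_X, INV_Ex2_X,
        map_sub, INV_Th_C, INV_Th_X, act_pv A hx a (Nat.zero_le j), INV_Ps_C,
        pv_add A hx (Nat.zero_le (a 0)) (a.monotone (Nat.zero_le j)), map_add]
      ring
  exact RingHom.congr_fun h p

theorem INV_resG_Ps (A : Cos R) (x : R) (hx : Coc A 1 x) (i : ℕ) (p : R[X]) :
    (resG A x hx).f (INV_Ps A x i p) = p := by
  have h : ((resG A x hx).f).comp (INV_Ps A x i) = RingHom.id _ := by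
    apply Polynomial.ringHom_ext
    · intro r
      rw [RingHom.comp_apply, INV_Ps_C]
      simp [resG]
    · rw [RingHom.comp_apply, INV_Ps_X]
      simp [resG]
  exact RingHom.congr_fun h p

theorem INV_resG_Th (A : Cos R) (x : R) (hx : Coc A 1 x) (i j : ℕ) (p : R[X][X]) :
    (resG A x hx).f (INV_Th A x i j p) = (dia A x hx).f p := by
  have h : ((resG A x hx).f).comp (INV_Th A x i j) = (dia A x hx).f := by
    apply Polynomial.ringHom_ext
    · intro r
      rw [RingHom.comp_apply, INV_Th_C, INV_resG_Ps, INV_dia_C]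
    · rw [RingHom.comp_apply, INV_Th_X, INV_dia_X]
      simp [resG]
  exact RingHom.congr_fun h p

theorem INV_face0 : face 0 = sh 1 := by
  ext j; simp

theorem INV_d_Ps (A : Cos R) (x : R) (hx : Coc A 1 x) (n : ℕ) (y : R[X])
    (hy : d (Ex A x hx) n y = 0) :
    d (Gam A) n (INV_Ps A x 0 y) = INV_Ps A x 1 ((Ex A x hx).act (sh 1) y)
      - INV_Ps A x 0 ((Ex A x hx).act (sh 1) y) := by
  have h := congrArg (INV_Ps A x 0) hy
  rw [d_apply, map_sum, map_zero, Finset.sum_range_succ'] at h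
  rw [d_apply, Finset.sum_range_succ']
  have h1 : ∀ i ∈ range (n + 1), (-1 : MvPolynomial ℕ R) ^ (i + 1) *
      (Gam A).act (face (i + 1)) (INV_Ps A x 0 y) =
      INV_Ps A x 0 ((-1) ^ (i + 1) * (Ex A x hx).act (face (i + 1)) y) := by
    intro i _
    rw [INV_act_Ps A x hx, map_mul, map_pow, map_neg, map_one]
    rfl
  rw [Finset.sum_congr rfl h1]
  rw [INV_face0, pow_zero, one_mul] at h ⊢
  rw [INV_act_Ps A x hx, show (sh 1) 0 = 1 from rfl]
  linear_combination h

theorem INV_d_Th (A : Cos R) (x : R) (hx : Coc A 1 x) (n : ℕ) (v : R[X][X]) :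
    d (Gam A) (n + 1) (INV_Th A x 0 1 ((Ex2 A x hx).act (sh 1) v)) =
      INV_Th A x 1 2 ((Ex2 A x hx).act (sh 2) v) - INV_Th A x 0 2 ((Ex2 A x hx).act (sh 2) v)
        + INV_Th A x 0 1 ((Ex2 A x hx).act (sh 2) v)
        - INV_Th A x 0 1 ((Ex2 A x hx).act (sh 1) (d (Ex2 A x hx) n v)) := by
  rw [d_apply, d_apply, map_sum, map_sum, Finset.sum_range_succ', Finset.sum_range_succ',
    Finset.sum_range_succ' _ (n + 1)]
  have h1 : ∀ i ∈ range (n + 1), (-1 : MvPolynomial ℕ R) ^ (i + 1 + 1) *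
      (Gam A).act (face (i + 1 + 1)) (INV_Th A x 0 1 ((Ex2 A x hx).act (sh 1) v)) =
      - INV_Th A x 0 1 ((Ex2 A x hx).act (sh 1)
        ((-1) ^ (i + 1) * (Ex2 A x hx).act (face (i + 1)) v)) := by
    intro i _
    rw [INV_act_Th A x hx, ← (Ex2 A x hx).act_comp]
    simp only [map_mul, map_pow, map_neg, map_one]
    rw [← (Ex2 A x hx).act_comp]
    have h2 : (face (i + 1 + 1)).comp (sh 1) = (sh 1).comp (face (i + 1)) := by
      ext j
      simp only [OrderHom.comp_coe, Function.comp_apply, face_apply, sh_apply]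
      split_ifs <;> omega
    rw [h2]
    have h3 : (face (i + 1 + 1)) 0 = 0 := by simp
    have h4 : (face (i + 1 + 1)) 1 = 1 := by simp
    rw [h3, h4]
    ring
  rw [Finset.sum_congr rfl h1, Finset.sum_neg_distrib]
  rw [INV_act_Th A x hx, INV_act_Th A x hx, ← (Ex2 A x hx).act_comp, ← (Ex2 A x hx).act_comp]
  have h5 : (face (0 + 1)).comp (sh 1) = sh 2 := by
    ext j
    simp
  have h6 : (face 0).comp (sh 1) = sh 2 := by
    ext j
    simp
  have h7 : (Ex2 A x hx).act (sh 1) ((-1) ^ 0 * (Ex2 A x hx).act (face 0) v) =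
      (Ex2 A x hx).act (sh 2) v := by
    rw [pow_zero, one_mul, INV_face0, act_sh_sh]
  rw [h5, h6, h7]
  have h8 : (face (0 + 1)) 0 = 0 := by simp
  have h9 : (face (0 + 1)) 1 = 2 := by simp
  have h10 : (face 0) 0 = 1 := by simp
  have h11 : (face 0) 1 = 2 := by simp
  rw [h8, h9, h10, h11]
  ring

theorem INV_Th_diff (A : Cos R) (x : R) (i j : ℕ) :
    INV_Th A x i j (X - C X) = (MvPolynomial.X j + MvPolynomial.C (pv A x 0 j))
      - (MvPolynomial.X i + MvPolynomial.C (pv A x 0 i)) := by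
  rw [map_sub, INV_Th_X, INV_Th_C, INV_Ps_X]

theorem inv_lift (A : Cos R) (x : R) (hx : Coc A 1 x) (k : ℕ) (y : R[X])
    (hy : Coc (Ex A x hx) (k + 1) y) (v : R[X][X]) (hv : Supp (Ex2 A x hx) k v)
    (hvd : d (Ex2 A x hx) k v = (in1 A x hx).f y - (in2 A x hx).f y) :
    ∃ a : MvPolynomial ℕ R, Supp (Gam A) (k + 1) a ∧ (resG A x hx).f a = y ∧
      d (Gam A) (k + 1) a ∈ Fil A x 2 := by
  -- normalisation
  obtain ⟨w, hw, hwd, hwdia⟩ : ∃ w, Supp (Ex2 A x hx) k w ∧
      d (Ex2 A x hx) k w = (in1 A x hx).f y - (in2 A x hx).f y ∧ (dia A x hx).f w = 0 := by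
    have hd1 : ∀ p, (dia A x hx).f ((in1 A x hx).f p) = p := by
      intro p
      exact INV_dia_C A x hx p
    have hd2 : ∀ p, (dia A x hx).f ((in2 A x hx).f p) = p := by
      intro p
      rw [← INV_resG_Th A x hx 0 0, INV_Th_in2, INV_resG_Ps]
    refine ⟨v - (in1 A x hx).f ((dia A x hx).f v), hv.sub ((hv.map (dia A x hx)).map _), ?_, ?_⟩
    · rw [map_sub, ← map_d, ← map_d, hvd, map_sub, hd1, hd2, sub_self, map_zero, sub_zero]
    · rw [map_sub, hd1, sub_self]
  obtain ⟨q, hq⟩ : ∃ q, w = (X - C X) * q := by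
    have h1 : (X - C X : R[X][X]) ∣ w := by
      rw [dvd_iff_isRoot]
      have : (dia A x hx).f w = eval₂ (RingHom.id R[X]) X w := rfl
      rw [this] at hwdia
      exact hwdia
    exact h1
  refine ⟨INV_Ps A x 0 y - INV_Th A x 0 1 ((Ex2 A x hx).act (sh 1) w), ?_, ?_, ?_⟩
  · intro a b hab
    have h0 : a 0 = b 0 := hab 0 (Nat.zero_le _)
    have h1 : a 1 = b 1 := hab 1 (by omega)
    rw [map_sub, map_sub, INV_act_Ps A x hx, INV_act_Ps A x hx, INV_act_Th A x hx,
      INV_act_Th A x hx, h0, h1, hy.1 a b hab, ← (Ex2 A x hx).act_comp,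
      ← (Ex2 A x hx).act_comp, hw (a.comp (sh 1)) (b.comp (sh 1)) (by
        intro i hi
        show a (i + 1) = b (i + 1)
        exact hab _ (by omega))]
  · rw [map_sub, INV_resG_Ps, INV_resG_Th, (dia A x hx).comm, hwdia, map_zero, sub_zero]
  · have hval : d (Gam A) (k + 1) (INV_Ps A x 0 y
        - INV_Th A x 0 1 ((Ex2 A x hx).act (sh 1) w)) =
        INV_Th A x 0 2 ((Ex2 A x hx).act (sh 2) w) - INV_Th A x 0 1 ((Ex2 A x hx).act (sh 2) w)
        - INV_Th A x 1 2 ((Ex2 A x hx).act (sh 2) w) := by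
      rw [map_sub, INV_d_Ps A x hx _ y hy.2, INV_d_Th A x hx, hwd, map_sub, map_sub,
        ← (in1 A x hx).comm, ← (in2 A x hx).comm, INV_Th_in1, INV_Th_in2]
      ring
    rw [hval, hq, map_mul]
    set Q := (Ex2 A x hx).act (sh 2) q with hQ
    have hXC : (Ex2 A x hx).act (sh 2) (X - C X) = X - C X := by
      rw [map_sub, INV_Ex2_X, INV_Ex2_C, Ex_X, map_sub]
      ring
    rw [hXC, map_mul, map_mul, map_mul, INV_Th_diff A x, INV_Th_diff A x,
      INV_Th_diff A x]
    -- differences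
    have hdvd : ∀ (i j i' j' : ℕ) (e : MvPolynomial ℕ R),
        (MvPolynomial.X i + MvPolynomial.C (pv A x 0 i))
          - (MvPolynomial.X i' + MvPolynomial.C (pv A x 0 i')) ∈ Ideal.span {e} →
        (MvPolynomial.X j + MvPolynomial.C (pv A x 0 j))
          - (MvPolynomial.X j' + MvPolynomial.C (pv A x 0 j')) ∈ Ideal.span {e} →
        ∃ c, INV_Th A x i j Q - INV_Th A x i' j' Q = c * e := by
      intro i j i' j' e h1 h2
      have h3 : (Ideal.Quotient.mk (Ideal.span {e})).comp (INV_Th A x i j) =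
          (Ideal.Quotient.mk (Ideal.span {e})).comp (INV_Th A x i' j') := by
        apply Polynomial.ringHom_ext
        · intro p
          have h4 : (Ideal.Quotient.mk (Ideal.span {e})).comp (INV_Ps A x i) =
              (Ideal.Quotient.mk (Ideal.span {e})).comp (INV_Ps A x i') := by
            apply Polynomial.ringHom_ext
            · intro r
              rw [RingHom.comp_apply, RingHom.comp_apply, INV_Ps_C, INV_Ps_C]
            · rw [RingHom.comp_apply, RingHom.comp_apply, INV_Ps_X, INV_Ps_X,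
                Ideal.Quotient.eq]
              exact h1
          rw [RingHom.comp_apply, RingHom.comp_apply, INV_Th_C, INV_Th_C]
          exact RingHom.congr_fun h4 p
        · rw [RingHom.comp_apply, RingHom.comp_apply, INV_Th_X, INV_Th_X, Ideal.Quotient.eq]
          exact h2
      have h5 := RingHom.congr_fun h3 Q
      rw [RingHom.comp_apply, RingHom.comp_apply, Ideal.Quotient.eq,
        Ideal.mem_span_singleton'] at h5
      obtain ⟨c, hc⟩ := h5
      exact ⟨c, hc.symm⟩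
    have hp1 : pv A x 0 2 = pv A x 0 1 + pv A x 1 2 := pv_add A hx (by omega) (by omega)
    have hp0 : pv A x 0 0 = 0 := pv_self A hx 0
    obtain ⟨c1, hc1⟩ := hdvd 0 1 0 2 (del A x 1) (by rw [sub_self]; exact zero_mem _) (by
      rw [Ideal.mem_span_singleton']
      refine ⟨1, ?_⟩
      rw [hp1, map_add, del]
      ring)
    obtain ⟨c2, hc2⟩ := hdvd 1 2 0 2 (del A x 0) (by
      rw [Ideal.mem_span_singleton']
      refine ⟨-1, ?_⟩
      rw [hp0, map_zero, del]
      ring) (by rw [sub_self]; exact zero_mem _)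
    have hfin : (MvPolynomial.X 2 + MvPolynomial.C (pv A x 0 2)
          - (MvPolynomial.X 0 + MvPolynomial.C (pv A x 0 0))) * INV_Th A x 0 2 Q
        - (MvPolynomial.X 1 + MvPolynomial.C (pv A x 0 1)
          - (MvPolynomial.X 0 + MvPolynomial.C (pv A x 0 0))) * INV_Th A x 0 1 Q
        - (MvPolynomial.X 2 + MvPolynomial.C (pv A x 0 2)
          - (MvPolynomial.X 1 + MvPolynomial.C (pv A x 0 1))) * INV_Th A x 1 2 Q
        = (c1 + c2) * ∏ i ∈ ({0, 1} : Finset ℕ), del A x i := by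
      rw [Finset.prod_pair (by norm_num)]
      have e0 : del A x 0 = MvPolynomial.X 0 - MvPolynomial.X 1
        - MvPolynomial.C (pv A x 0 1) := rfl
      have e1 : del A x 1 = MvPolynomial.X 1 - MvPolynomial.X 2
        - MvPolynomial.C (pv A x 1 2) := rfl
      rw [hp0, hp1, map_zero, map_add]
      have g1 : INV_Th A x 0 1 Q = INV_Th A x 0 2 Q + c1 * del A x 1 := by
        rw [← hc1]; ring
      have g2 : INV_Th A x 1 2 Q = INV_Th A x 0 2 Q + c2 * del A x 0 := by
        rw [← hc2]; ring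
      rw [g1, g2, e0, e1]
      ring
    rw [hfin]
    refine Ideal.mul_mem_left _ _ (Ideal.subset_span ⟨{0, 1}, ?_, rfl⟩)
    rfl

end P0N
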