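import Pool.Agent.H34.P0.Cup1
import Pool.Agent.H34.P0.Hirsch
import Pool.Agent.H34.P0.DD

/-!
# Lemma S: the corrected cube of a relative cochain
-/

set_option autoImplicit false

namespace P0N

open Finset

variable {R : Type} [CommRing R]

/-- `a ∪_1 u`, `u = d a`, of degree `2k` -/
def au (A : Cos R) (k : ℕ) (a : R) : R := cup1 A k (k + 1) a (d A k a)

/-- the corrected cube `a^3 - [a, a ∪_1 u] + (a ∪_1 u) ∪_1 u` (`u = d a`), of degree `3 k` -/
def cubeS (A : Cos R) (k : ℕ) (a : R) : R :=
  cup A (k + k) (cup A k a a) a - (cup A k a (au A k a) - cup A (2 * k) (au A k a) a)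
    + cup1 A (2 * k) (k + 1) (au A k a) (d A k a)

theorem lems_supp_au (A : Cos R) (k : ℕ) (a : R) (ha : Supp A k a) :
    Supp A (2 * k) (au A k a) := by
  have h := Supp.cup1 A k (k + 1) a (d A k a) ha ha.d
  rw [show k + (k + 1) - 1 = 2 * k by omega] at h
  exact h

theorem cubeS_supp (A : Cos R) (k : ℕ) (hk : 1 ≤ k) (a : R) (ha : Supp A k a) :
    Supp A (3 * k) (cubeS A k a) := by
  have hα := lems_supp_au A k a ha
  have h1 : Supp A (3 * k) (cup A (k + k) (cup A k a a) a) :=
    ((ha.cup ha).cup ha).mono (by omega)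
  have h2 : Supp A (3 * k) (cup A k a (au A k a)) := (ha.cup hα).mono (by omega)
  have h3 : Supp A (3 * k) (cup A (2 * k) (au A k a) a) := (hα.cup ha).mono (by omega)
  have h4 : Supp A (3 * k) (cup1 A (2 * k) (k + 1) (au A k a) (d A k a)) :=
    (Supp.cup1 A (2 * k) (k + 1) (au A k a) (d A k a) hα ha.d).mono (by omega)
  exact (h1.sub (h2.sub h3)).add h4

theorem lems_cup_assoc (A : Cos R) (m n : ℕ) (f g h : R) :
    cup A (m + n) (cup A m f g) h = cup A m f (cup A n g h) := by
  unfold cup
  rw [map_mul, act_sh_sh]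
  ring

theorem lems_cup_add (A : Cos R) (m : ℕ) (f g h : R) :
    cup A m f (g + h) = cup A m f g + cup A m f h := by
  unfold cup; rw [map_add]; ring

theorem lems_cup_sub (A : Cos R) (m : ℕ) (f g h : R) :
    cup A m f (g - h) = cup A m f g - cup A m f h := by
  unfold cup; rw [map_sub]; ring

theorem lems_add_cup (A : Cos R) (m : ℕ) (f g h : R) :
    cup A m (f + g) h = cup A m f h + cup A m g h := by
  unfold cup; ring

theorem lems_sub_cup (A : Cos R) (m : ℕ) (f g h : R) :
    cup A m (f - g) h = cup A m f h - cup A m g h := by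
  unfold cup; ring

theorem lems_add_cup1 (A : Cos R) (m n : ℕ) (f g h : R) :
    cup1 A m n (f + g) h = cup1 A m n f h + cup1 A m n g h := by
  unfold cup1
  rw [← Finset.sum_add_distrib]
  refine Finset.sum_congr rfl fun i _ => ?_
  rw [map_add]; ring

theorem lems_sub_cup1 (A : Cos R) (m n : ℕ) (f g h : R) :
    cup1 A m n (f - g) h = cup1 A m n f h - cup1 A m n g h := by
  unfold cup1
  rw [← Finset.sum_sub_distrib]
  refine Finset.sum_congr rfl fun i _ => ?_
  rw [map_sub]; ring

theorem lems_cup1_zero (A : Cos R) (m n : ℕ) (f : R) : cup1 A m n f 0 = 0 := by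
  unfold cup1
  exact Finset.sum_eq_zero fun i _ => by rw [map_zero, mul_zero, mul_zero]

/-- for `k` even: `d (cubeS a) = (u ∪_1 u) ∪_1 u` -/
theorem d_cubeS (A : Cos R) [CharP R 3] (k : ℕ) (hk : Even k) (hk1 : 1 ≤ k) (a : R)
    (ha : Supp A k a) :
    d A (3 * k) (cubeS A k a) =
      cup1 A (2 * k + 1) (k + 1) (cup1 A (k + 1) (k + 1) (d A k a) (d A k a)) (d A k a) := by
  have h3 : (3 : R) = 0 := by
    have := CharP.cast_eq_zero R 3
    exact_mod_cast this
  set u := d A k a with hu
  have hus : Supp A (k + 1) u := ha.d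
  have hdu : d A (k + 1) u = 0 := d_d A k a
  set α := au A k a with hα
  have hαs : Supp A (2 * k) α := lems_supp_au A k a ha
  set w := cup1 A (k + 1) (k + 1) u u with hw
  have p1 : (-1 : R) ^ k = 1 := hk.neg_one_pow
  have p2 : (-1 : R) ^ (k * (k + 1)) = 1 := (hk.mul_right _).neg_one_pow
  have p3 : (-1 : R) ^ (k + (k + 1)) = -1 := by
    rw [pow_add, pow_succ, p1]; ring
  have p4 : (-1 : R) ^ ((k + 1) * (k + 1 + 1)) = 1 := by
    have h2 : Even (k + 1 + 1) := by
      obtain ⟨m, rfl⟩ := hk
      exact ⟨m + 1, by ring⟩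
    exact (h2.mul_left _).neg_one_pow
  have p5 : (-1 : R) ^ (k * (k + 1 + 1)) = 1 := (hk.mul_right (k + 1 + 1)).neg_one_pow
  have p6 : (-1 : R) ^ (2 * k) = 1 := (even_two_mul k).neg_one_pow
  have p7 : (-1 : R) ^ (2 * k + (k + 1)) = -1 := by
    rw [pow_add, p6, pow_succ, p1]; ring
  have p8 : (-1 : R) ^ (2 * k * (k + 1)) = 1 := ((even_two_mul k).mul_right _).neg_one_pow
  have p9 : (-1 : R) ^ (k + k) = 1 := by rw [pow_add, p1]; ring
  -- d α
  have dα : d A (2 * k) α = w + (cup A k a u - cup A (k + 1) u a) := by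
    have h := d_cup1 A k (k + 1) a u ha hus (by omega)
    rw [show k + (k + 1) - 1 = 2 * k by omega, hdu, lems_cup1_zero, p3, p2] at h
    change d A (2 * k) (cup1 A k (k + 1) a u) = _
    rw [h]
    ring
  -- d (a^2)
  have dcube : d A (3 * k) (cup A (k + k) (cup A k a a) a) =
      cup A (k + k + 1) (cup A (k + 1) u a) a + cup A (k + k + 1) (cup A k a u) a +
        cup A (k + k) (cup A k a a) u := by
    have h := d_cup A (k + k) k (cup A k a a) a (ha.cup ha)
    have h' := d_cup A k k a a ha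
    rw [h', ← hu, p1, p9, one_mul, one_mul, lems_add_cup, show k + k + k = 3 * k by ring] at h
    exact h
  have d3a : d A (3 * k) (cup A k a α) =
      cup A (k + 1) u α + (cup A k a w + (cup A k a (cup A k a u) -
        cup A k a (cup A (k + 1) u a))) := by
    have h := d_cup A k (2 * k) a α ha
    rw [← hu, dα, p1, one_mul, lems_cup_add, lems_cup_sub, show k + 2 * k = 3 * k by ring] at h
    exact h
  have d3b : d A (3 * k) (cup A (2 * k) α a) =
      cup A (2 * k + 1) w a + (cup A (2 * k + 1) (cup A k a u) a -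
        cup A (2 * k + 1) (cup A (k + 1) u a) a) + cup A (2 * k) α u := by
    have h := d_cup A (2 * k) k α a hαs
    rw [← hu, dα, p6, one_mul, lems_add_cup, lems_sub_cup, show 2 * k + k = 3 * k by ring] at h
    exact h
  have d4 : d A (3 * k) (cup1 A (2 * k) (k + 1) α u) =
      cup1 A (2 * k + 1) (k + 1) w u + (cup1 A (2 * k + 1) (k + 1) (cup A k a u) u -
        cup1 A (2 * k + 1) (k + 1) (cup A (k + 1) u a) u) +
        (cup A (2 * k) α u - cup A (k + 1) u α) := by
    have h := d_cup1 A (2 * k) (k + 1) α u hαs hus (by omega)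
    rw [show 2 * k + (k + 1) - 1 = 3 * k by omega, hdu, lems_cup1_zero, p7, p8, dα,
      lems_add_cup1, lems_sub_cup1] at h
    rw [h]; ring
  have hir1 : cup1 A (2 * k + 1) (k + 1) (cup A k a u) u =
      cup A k a w + cup A (2 * k) α u := by
    have h := cup_cup1 A k (k + 1) (k + 1) a u u ha hus hus
    rw [show k + (k + 1) = 2 * k + 1 by ring, p4, one_mul,
      show 2 * k + 1 - 1 = 2 * k by omega] at h
    exact h
  have hir2 : cup1 A (2 * k + 1) (k + 1) (cup A (k + 1) u a) u =
      cup A (k + 1) u α + cup A (2 * k + 1) w a := by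
    have h := cup_cup1 A (k + 1) k (k + 1) u a u hus ha hus
    rw [show k + 1 + k = 2 * k + 1 by ring, p5, one_mul,
      show k + 1 + (k + 1) - 1 = 2 * k + 1 by omega] at h
    exact h
  -- associativity
  have a1 : cup A (k + k + 1) (cup A (k + 1) u a) a = cup A (2 * k + 1) (cup A (k + 1) u a) a := by
    rw [show k + k + 1 = 2 * k + 1 by ring]
  have a2 : cup A (k + k + 1) (cup A k a u) a = cup A (2 * k + 1) (cup A k a u) a := by
    rw [show k + k + 1 = 2 * k + 1 by ring]
  have a3 : cup A (k + k) (cup A k a a) u = cup A k a (cup A k a u) := lems_cup_assoc A k k a a u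
  have a4 : cup A (2 * k + 1) (cup A k a u) a = cup A k a (cup A (k + 1) u a) := by
    have := lems_cup_assoc A k (k + 1) a u a
    rw [show k + (k + 1) = 2 * k + 1 by ring] at this
    exact this
  have hcube : cubeS A k a = cup A (k + k) (cup A k a a) a -
      (cup A k a α - cup A (2 * k) α a) + cup1 A (2 * k) (k + 1) α u := rfl
  rw [hcube, map_add, map_sub, map_sub, dcube, d3a, d3b, d4, hir1, hir2, a1, a2, a3, a4]
  linear_combination (cup A k a (cup A (k + 1) u a) + cup A (2 * k) α u - cup A (k + 1) u α) * h3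

end P0N
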