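import Pool.Agent.H34.P0.HomX
import Pool.Agent.H34.P0.Digits
import Pool.Agent.H34.P0.Bc

/-!
# Lemma V: cocycles deep in the filtration are boundaries
-/

set_option autoImplicit false

namespace P0N

open Finset

variable {R : Type} [CommRing R]

theorem lemv_gpr {C : Type} [Ring C] (K : ℕ) : gpr (fun _ => (1 : C)) K = 1 := by
  induction K with
  | zero => rfl
  | succ K ih =>
    show gpr (fun _ => (1 : C)) K * 1 = 1
    rw [ih, mul_one]

/-- an odd cochain with boundary the `N`-th power of `bC` -/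
theorem lemv_theta (B : Cos R) [CharP R 3] (z : R) (hz : Coc B 1 z) (N : ℕ)
    (h : bc B z ^ N = 0) : ∃ θ : ↥(Coch B), tauC B θ = - θ ∧ bC B z ^ N = dC B θ := by
  have h1 : bC B z = sg B 2 (bR B z) := (sg_bR hz.1).symm
  have h2 : bC B z ∈ (cochDGA B).Z := by
    rw [h1]
    exact sg_mem_Z (bR_coc hz) (by decide)
  have h3 : (cochDGA B).cl (bC B z ^ N) = 0 := by
    rw [DGA.cl_pow _ h2, h1]
    exact h
  have h4 : bC B z ^ N ∈ (cochDGA B).Z := pow_mem h2 N
  obtain ⟨e, he⟩ := (DGA.cl_eq_zero_iff _ h4).1 h3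
  obtain ⟨θ, hθ, hθ'⟩ := DGA.exists_odd (cochDGA B) h4.1 he
  exact ⟨θ, hθ, hθ'⟩

theorem lemV (A : Cos R) [CharP R 3] (x : R) (hx : Coc A 1 x) (N : ℕ) (hN : 1 ≤ N)
    (hb : bc A x ^ N = 0) (m : ℕ) (u : MvPolynomial ℕ R) (hu : Coc (Gam A) (m + 1) u) (n K : ℕ)
    (huF : u ∈ Fil A x n) (hdeg : u.totalDegree < 3 ^ K) (hn : K * (2 * N - 1) + 2 ≤ n) :
    ∃ η, Supp (Gam A) m η ∧ d (Gam A) m η = u ∧ η ∈ Fil A x 1 := by
  classical
  have hbG : ∀ s, bc (Gam A) (MvPolynomial.C x ^ (3 ^ s)) ^ N = 0 := by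
    intro s
    have h1 := bc_pow3_eq_zero hx hb s
    have h2 := map_bc (incG A) (hx.pow3 s)
    have h3 : (incG A).f (x ^ 3 ^ s) = MvPolynomial.C x ^ 3 ^ s := by
      show MvPolynomial.C (x ^ 3 ^ s) = _
      rw [map_pow]
    rw [h3] at h2
    rw [← h2, ← map_pow, h1, map_zero]
  have hθ : ∀ s, ∃ θ : ↥(Coch (Gam A)), tauC (Gam A) θ = - θ ∧
      bC (Gam A) (MvPolynomial.C x ^ (3 ^ s)) ^ N = dC (Gam A) θ := fun s =>
    lemv_theta (Gam A) _ ((cocG A hx).pow3 s) N (hbG s)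
  choose θ hθ1 hθ2 using hθ
  -- the element of the extended ring
  have hsupp : Supp (GX A x hx) (m + 1) (Polynomial.C u) :=
    (Ex_supp_C (Gam A) _ (cocG A hx) (m + 1) u).2 hu.1
  have huF' : (inc (Gam A) (MvPolynomial.C x) (cocG A hx)).D.f (sg (Gam A) (m + 1) u) ∈
      FT A x hx u.totalDegree n := by
    intro j k
    rw [CHom.D_c, sg_c hu.1, inc_f]
    split_ifs with h
    · rw [Polynomial.coeff_C]
      split_ifs with h0
      · exact ⟨huF, fun _ => by omega⟩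
      · exact ⟨(Fil A x n).zero_mem, fun h => absurd rfl h⟩
    · rw [map_zero, Polynomial.coeff_zero]
      exact ⟨(Fil A x n).zero_mem, fun h => absurd rfl h⟩
  have hdu : dC (GX A x hx)
      ((inc (Gam A) (MvPolynomial.C x) (cocG A hx)).D.f (sg (Gam A) (m + 1) u)) = 0 := by
    have h1 := (inc (Gam A) (MvPolynomial.C x) (cocG A hx)).D.comm_d (sg (Gam A) (m + 1) u)
    have h2 : (cochDGA (Gam A)).d (sg (Gam A) (m + 1) u) = 0 := by
      show dC (Gam A) (sg (Gam A) (m + 1) u) = 0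
      rw [dC_sg hu.1, hu.2, sg_zero]
    rw [h2, map_zero] at h1
    exact h1.symm
  have hS : FT A x hx u.totalDegree 1 ≤
      SK (Gam A) (MvPolynomial.C x) (cocG A hx) (Fil A x 1) K := by
    intro F hF j
    refine ⟨?_, fun k => (hF j k).1⟩
    by_cases h0 : F.1.c j = 0
    · rw [h0, Polynomial.natDegree_zero]; positivity
    · have h1 := (hF j (F.1.c j).natDegree).2
        (by rw [Polynomial.coeff_natDegree]; exact Polynomial.leadingCoeff_ne_zero.2 h0)
      omega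
  have hsolv := climb (q := 2 * N) (by omega) K (dC (GX A x hx))
    (hdC (Gam A) (MvPolynomial.C x) (cocG A hx)) (hdC_ops _ _ _) (FT A x hx u.totalDegree)
    (FT_anti A x hx _) (fun s n v hv => FT_hdC A x hx _ s n v hv) 0 1
    (fun n hn u hu hdu => FT_bound A x hx _ n hn u hu hdu)
    (SK (Gam A) (MvPolynomial.C x) (cocG A hx) (Fil A x 1) K) hS
    ((inc (Gam A) (MvPolynomial.C x) (cocG A hx)).D.f (sg (Gam A) (m + 1) u)) n huF' hdu
    (fun s => hdC_inc _ _ _ s _) (by omega) (by omega)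
  obtain ⟨η, hη1, hη2⟩ := digits N hN K (Gam A) (MvPolynomial.C x) (cocG A hx) (fun _ => 1) θ
    (fun s _ => one_mem _) (fun s _ => hθ1 s)
    (fun s _ => by rw [one_mul]; exact hθ2 s) (Fil A x 1)
    (fun a r hr => Fil_act A hx a hr) (sg (Gam A) (m + 1) u) hsolv
  rw [lemv_gpr, one_mul] at hη2
  refine ⟨η.1.c m, η.2 m, ?_, hη1 m⟩
  rw [← dC_succ, hη2, sg_c hu.1, if_pos rfl]

end P0N
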