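import Pool.Agent.H34.P0.Finv
import Pool.Agent.H34.P0.Det2

/-!
# Main theorem, cosimplicial form
-/

set_option autoImplicit false

namespace P0N

theorem not_HQ : ¬ HQ := by
  intro hQ
  obtain ⟨e, c, hc, h⟩ := lift_f_A0 hQ
  have h2 : IsHom A0 (2 * (28 * 3 ^ e)) c := by
    have : 56 * 3 ^ e = 2 * (28 * 3 ^ e) := by ring
    rw [← this]; exact hc
  have h3 : 0 < 3 ^ e := by positivity
  exact det e c h (hQ (28 * 3 ^ e) (by omega) c h2)

end P0N
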