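import Pool.Agent.H34.P0.LemV
import Pool.Agent.H34.P0.Inv
import Pool.Agent.H34.P0.LemS
import Pool.Agent.H34.P0.Homot

/-!
# Theorem G: powers of invariant classes lift
-/

set_option autoImplicit false

namespace P0N

open Finset Polynomial

variable {R : Type} [CommRing R]

/-- cubes of homogeneous cochains -/
theorem thg_cube {B : Cos R} [CharP R 3] {k : ℕ} (hk : Even k) {f : R} (hf : Coc B k f) :
    Coc B (k + k + k) (cup B (k + k) (cup B k f f) f) ∧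
      cls B (k + k + k) (cup B (k + k) (cup B k f f) f) = cls B k f ^ 3 := by
  refine ⟨(hf.cup hf).cup hf, ?_⟩
  rw [cls_mul (hk.add hk) hk (hf.cup hf) hf, cls_mul hk hk hf hf]
  ring

theorem thg_cup1_zero (B : Cos R) (m n : ℕ) (f : R) : cup1 B m n f 0 = 0 := by
  unfold cup1
  simp

theorem thg_resG_cubeS (A : Cos R) [CharP R 3] {x : R} (hx : Coc A 1 x) (k : ℕ)
    (a : MvPolynomial ℕ R) (h : d (Gam A) k a ∈ Fil A x 1) :
    (resG A x hx).f (cubeS (Gam A) k a) =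
      cup (Ex A x hx) (k + k) (cup (Ex A x hx) k ((resG A x hx).f a) ((resG A x hx).f a))
        ((resG A x hx).f a) := by
  have h1 : (resG A x hx).f (d (Gam A) k a) = 0 := resG_Fil A hx h
  unfold cubeS au
  simp only [map_add, map_sub, map_cup, map_cup1, h1, thg_cup1_zero]
  simp [cup]

theorem thg_deg (A : Cos R) (k : ℕ) (a : MvPolynomial ℕ R) :
    (cubeS (Gam A) k a).totalDegree ≤ 3 * a.totalDegree := by
  have hd : (d (Gam A) k a).totalDegree ≤ a.totalDegree := totalDegree_d A k a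
  have hau : (au (Gam A) k a).totalDegree ≤ 2 * a.totalDegree := by
    have := totalDegree_cup1 A k (k + 1) a (d (Gam A) k a)
    unfold au
    omega
  have h1 : (cup (Gam A) (k + k) (cup (Gam A) k a a) a).totalDegree ≤ 3 * a.totalDegree := by
    have h1 := totalDegree_cup A (k + k) (cup (Gam A) k a a) a
    have h2 := totalDegree_cup A k a a
    omega
  have h2 : (cup (Gam A) k a (au (Gam A) k a) -
      cup (Gam A) (2 * k) (au (Gam A) k a) a).totalDegree ≤ 3 * a.totalDegree := by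
    have h1 := totalDegree_cup A k a (au (Gam A) k a)
    have h2 := totalDegree_cup A (2 * k) (au (Gam A) k a) a
    refine (MvPolynomial.totalDegree_sub _ _).trans (max_le ?_ ?_) <;> omega
  have h3 : (cup1 (Gam A) (2 * k) (k + 1) (au (Gam A) k a) (d (Gam A) k a)).totalDegree ≤
      3 * a.totalDegree := by
    have h1 := totalDegree_cup1 A (2 * k) (k + 1) (au (Gam A) k a) (d (Gam A) k a)
    omega
  unfold cubeS
  refine (MvPolynomial.totalDegree_add _ _).trans (max_le ?_ h3)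
  exact (MvPolynomial.totalDegree_sub _ _).trans (max_le h1 h2)

/-- the iterated corrected cubes -/
theorem thg_iter (A : Cos R) [CharP R 3] (x : R) (hx : Coc A 1 x) (k : ℕ) (hk : Even k)
    (hk1 : 1 ≤ k) (a0 : MvPolynomial ℕ R) (h0 : Supp (Gam A) k a0)
    (hy : Coc (Ex A x hx) k ((resG A x hx).f a0))
    (hd : d (Gam A) k a0 ∈ Fil A x 2) (e : ℕ) :
    ∃ a : MvPolynomial ℕ R, Supp (Gam A) (k * 3 ^ e) a ∧
      Coc (Ex A x hx) (k * 3 ^ e) ((resG A x hx).f a) ∧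
      cls (Ex A x hx) (k * 3 ^ e) ((resG A x hx).f a) =
        cls (Ex A x hx) k ((resG A x hx).f a0) ^ (3 ^ e) ∧
      d (Gam A) (k * 3 ^ e) a ∈ Fil A x (3 ^ e + 1) ∧
      a.totalDegree ≤ 3 ^ e * a0.totalDegree := by
  induction e with
  | zero =>
    refine ⟨a0, ?_, ?_, ?_, ?_, ?_⟩
    · simpa using h0
    · simpa using hy
    · simp
    · simpa using hd
    · simp
  | succ e ih =>
    obtain ⟨a, h1, h2, h3, h4, h5⟩ := ih
    have hK : Even (k * 3 ^ e) := hk.mul_right _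
    have hK1 : 1 ≤ k * 3 ^ e := Nat.mul_pos hk1 (by positivity)
    have h3e : 0 < 3 ^ e := by positivity
    have e3 : k * 3 ^ (e + 1) = 3 * (k * 3 ^ e) := by ring
    have e3' : k * 3 ^ (e + 1) = k * 3 ^ e + k * 3 ^ e + k * 3 ^ e := by ring
    have hF1 : d (Gam A) (k * 3 ^ e) a ∈ Fil A x 1 := Fil_anti A x (by omega) h4
    obtain ⟨h6, h7⟩ := thg_cube hK h2
    refine ⟨cubeS (Gam A) (k * 3 ^ e) a, ?_, ?_, ?_, ?_, ?_⟩
    · rw [e3]
      exact cubeS_supp _ _ hK1 _ h1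
    · rw [thg_resG_cubeS A hx _ a hF1, e3']
      exact h6
    · rw [thg_resG_cubeS A hx _ a hF1, e3', h7, h3, ← pow_mul, pow_succ]
    · rw [e3, d_cubeS _ _ hK hK1 _ h1]
      have hs : Supp (Gam A) (k * 3 ^ e + 1) (d (Gam A) (k * 3 ^ e) a) := h1.d
      have h8 := Fil_cup1 A hx hs hs h4 h4 (by omega) (by omega)
      have hs2 := Supp.cup1 (Gam A) _ _ _ _ hs hs
      rw [show k * 3 ^ e + 1 + (k * 3 ^ e + 1) - 1 = 2 * (k * 3 ^ e) + 1 by omega] at hs2
      have h9 := Fil_cup1 A hx hs2 hs h8 h4 (by omega) (by omega)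
      rw [show 3 ^ (e + 1) + 1 = 3 ^ e + 1 + (3 ^ e + 1) - 1 + (3 ^ e + 1) - 1 by
        rw [pow_succ]; omega]
      exact h9
    · refine (thg_deg A _ a).trans ?_
      calc 3 * a.totalDegree ≤ 3 * (3 ^ e * a0.totalDegree) := by omega
        _ = 3 ^ (e + 1) * a0.totalDegree := by ring

theorem thg_exp (M k0 : ℕ) (hM : 1 ≤ M) : ∃ e : ℕ, (e + k0) * M + 2 ≤ 3 ^ e + 1 := by
  refine ⟨2 * (2 * M + k0 * M), ?_⟩
  have h1 : 2 * M + k0 * M < 3 ^ (2 * M + k0 * M) := Nat.lt_pow_self (by norm_num)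
  have h2 : 3 ^ (2 * (2 * M + k0 * M)) = 3 ^ (2 * M + k0 * M) * 3 ^ (2 * M + k0 * M) := by
    rw [two_mul, pow_add]
  rw [h2]
  have h3 : (2 * M + k0 * M + 1) * (2 * M + k0 * M + 1) ≤
      3 ^ (2 * M + k0 * M) * 3 ^ (2 * M + k0 * M) := Nat.mul_le_mul h1 h1
  nlinarith [Nat.zero_le (k0 * M), Nat.zero_le (k0 * M * (k0 * M)),
    Nat.zero_le (k0 * M * M), Nat.mul_le_mul hM hM]

theorem thG (A : Cos R) [CharP R 3] (x : R) (hx : Coc A 1 x) (hb : IsNilpotent (bc A x))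
    (k : ℕ) (hk : 1 ≤ k) (y : Hev (Ex A x hx)) (hy : IsHom (Ex A x hx) k y)
    (hinv : (in1 A x hx).H y = (in2 A x hx).H y) :
    ∃ (e : ℕ) (c : Hev A), IsHom A (k * 3 ^ e) c ∧ (inc A x hx).H c = y ^ (3 ^ e) := by
  obtain ⟨hkE, y0, hy0, rfl⟩ := hy
  obtain ⟨k', rfl⟩ : ∃ k', k = k' + 1 := ⟨k - 1, by omega⟩
  rw [map_cls _ hkE hy0, map_cls _ hkE hy0,
    cls_eq_iff hkE (hy0.map _) (hy0.map _)] at hinv
  obtain ⟨v, hv, hvd⟩ := hinv
  obtain ⟨a0, ha0, hres, hda0⟩ := inv_lift A x hx k' y0 hy0 v hv hvd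
  obtain ⟨N0, hN0⟩ := hb
  obtain ⟨N, hN, hbN⟩ : ∃ N, 1 ≤ N ∧ bc A x ^ N = 0 :=
    ⟨N0 + 1, by omega, by rw [pow_succ, hN0, zero_mul]⟩
  have hk0 : a0.totalDegree < 3 ^ a0.totalDegree := Nat.lt_pow_self (by norm_num)
  obtain ⟨e, he⟩ := thg_exp (2 * N - 1) a0.totalDegree (by omega)
  obtain ⟨a, h1, h2, h3, h4, h5⟩ := thg_iter A x hx (k' + 1) hkE hk a0 ha0
    (by rw [hres]; exact hy0) hda0 e
  have hKE : Even ((k' + 1) * 3 ^ e) := hkE.mul_right _
  have hdeg : (d (Gam A) ((k' + 1) * 3 ^ e) a).totalDegree < 3 ^ (e + a0.totalDegree) := by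
    have h6 := totalDegree_d A ((k' + 1) * 3 ^ e) a
    have h7 : 3 ^ e * a0.totalDegree < 3 ^ e * 3 ^ a0.totalDegree :=
      Nat.mul_lt_mul_of_pos_left hk0 (by positivity)
    rw [pow_add]
    omega
  obtain ⟨η, hη1, hη2, hη3⟩ := lemV A x hx N hN hbN ((k' + 1) * 3 ^ e) _ (Coc.bdry h1) (3 ^ e + 1)
    (e + a0.totalDegree) h4 hdeg he
  have hc : Coc (Gam A) ((k' + 1) * 3 ^ e) (a - η) :=
    ⟨h1.sub hη1, by rw [map_sub, hη2, sub_self]⟩
  have hresc : (resG A x hx).f (a - η) = (resG A x hx).f a := by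
    rw [map_sub, resG_Fil A hx hη3, sub_zero]
  obtain ⟨K, hK⟩ : ∃ K, (k' + 1) * 3 ^ e = K + 1 :=
    ⟨(k' + 1) * 3 ^ e - 1, by
      have : 0 < (k' + 1) * 3 ^ e := by positivity
      omega⟩
  rw [hK] at hc h2 h3 hKE
  obtain ⟨w, hw, hw'⟩ := evG_homotopy A K _ hc
  refine ⟨e, cls A (K + 1) ((evG A).f (a - η)), ?_, ?_⟩
  · rw [hK]
    exact IsHom.cls hKE (hc.map (evG A))
  · rw [map_cls _ hKE (hc.map (evG A)), ← hres, ← h3, eq_comm,
      cls_eq_iff hKE h2 ((hc.map (evG A)).map (inc A x hx))]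
    refine ⟨(resG A x hx).f w, hw.map _, ?_⟩
    rw [← map_d, hw', map_sub, hresc, inc_f]
    congr 1
    show MvPolynomial.eval₂Hom (C : R →+* R[X]) (fun i => X - C (pv A x 0 i))
      (MvPolynomial.C _) = _
    rw [MvPolynomial.eval₂Hom_C]

end P0N
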