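import Pool.Agent.H34.P0.Tower
import Pool.Agent.H34.P0.ThG
import Pool.Agent.H34.P0.Diff

/-!
# Nilpotence of `b_11`, `b_22`, `b_33` under the hypothesis `HQ`
-/

set_option autoImplicit false

namespace P0N

open Finset Polynomial

/-- `b_11` -/
theorem nil_b11 (hQ : HQ) : IsNilpotent (bc A0 (xi0 1 ^ 3)) := by
  rw [bc_cube (xi1_coc isXi_A0)]
  exact hQ 1 le_rfl _ (bc_hom (xi1_coc isXi_A0))

theorem nil1_of_pow {T : Type} [CommRing T] {a : T} {n : ℕ}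
    (h : IsNilpotent (a ^ n)) : IsNilpotent a := by
  obtain ⟨k, hk⟩ := h
  exact ⟨n * k, by rw [pow_mul, hk]⟩

theorem nil1_pow9 {T : Type} [CommRing T] (a : T) : a ^ 9 = (a ^ 3) ^ 3 := by
  rw [← pow_mul]

theorem nil1_alg {T T' : Type} [CommRing T] [CommRing T'] (F : T →+* T') {u a b c p q : T}
    (h : u = a + b * p - c * q) (hp : IsNilpotent p) (hq : IsNilpotent (F q)) :
    IsNilpotent (F u - F a) := by
  have e : F u - F a = F b * F p - F c * F q := by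
    rw [h, map_sub, map_add, map_mul, map_mul]; ring
  rw [e]
  exact (Commute.all _ _).isNilpotent_sub
    ((Commute.all _ _).isNilpotent_mul_left (hp.map F))
    ((Commute.all _ _).isNilpotent_mul_left hq)

theorem nil1_alg0 {T T' : Type} [CommRing T] [CommRing T'] (F : T →+* T') {u a b q : T}
    (h : u = a - b * q) (hq : F q = 0) : F u = F a := by
  rw [h, map_sub, map_mul, hq, mul_zero, sub_zero]

theorem nil1_sub_pow {T : Type} [CommRing T] [CharP T 3] {a b : T} (h : IsNilpotent (a - b)) :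
    ∃ k : ℕ, a ^ (3 ^ k) = b ^ (3 ^ k) := by
  obtain ⟨k, hk⟩ := h
  have hk' : (a - b) ^ (3 ^ k) = 0 :=
    pow_eq_zero_of_le (Nat.lt_pow_self (by norm_num)).le hk
  haveI : Fact (Nat.Prime 3) := ⟨Nat.prime_three⟩
  rw [sub_pow_char_pow, sub_eq_zero] at hk'
  exact ⟨k, hk'⟩

/-- Frobenius of an invariant class is nilpotent. -/
theorem nil1_step (hQ : HQ) (k : ℕ) (hk : 1 ≤ k) (y : Hev A1) (hy : IsHom A1 k y)
    (hinv : (in1 A0 (xi0 1 ^ 3) cx1).H y = (in2 A0 (xi0 1 ^ 3) cx1).H y) :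
    IsNilpotent ((frob A1).H y) := by
  obtain ⟨e, c, hc, he⟩ := thG A0 (xi0 1 ^ 3) cx1 (nil_b11 hQ) k hk y hy hinv
  have h3 : 0 < 3 ^ e := by positivity
  obtain ⟨r, hr⟩ := hc.1
  have hr' : k * 3 ^ e = 2 * r := by omega
  have hr1 : 1 ≤ r := by
    have : 0 < k * 3 ^ e := Nat.mul_pos hk h3
    omega
  rw [hr'] at hc
  have h1 := hQ r hr1 c hc
  have h2 : IsNilpotent ((inc A0 (xi0 1 ^ 3) cx1).H ((frob A0).H c)) :=
    h1.map (inc A0 (xi0 1 ^ 3) cx1).H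
  rw [CHom.H_frob, he, map_pow] at h2
  exact nil1_of_pow h2

/-- the `xi_n` in the twice extended ring -/
noncomputable def nil1_xi : ℕ → R0[X][X] := fun n => C (C (xi0 n))

/-- the twice extended ring -/
noncomputable abbrev nil1_B : Cos R0[X][X] := Ex2 A0 (xi0 1 ^ 3) cx1

theorem nil1_isXi : IsXi nil1_B nil1_xi := (isXi_A0.ext _ cx1).ext _ _

theorem nil1_isX1 : IsX nil1_B nil1_xi (C X) :=
  (isX_new cx1).ext _ ((cx1).map (inc A0 (xi0 1 ^ 3) cx1))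

theorem nil1_isX2 : IsX nil1_B nil1_xi X where
  supp := Ex_supp_X _ _ _
  rel := by
    have h := Ex_sh_X (Ex A0 (xi0 1 ^ 3) cx1) (C (xi0 1 ^ 3)) (cx1.map (inc A0 (xi0 1 ^ 3) cx1))
    refine h.trans ?_
    simp only [nil1_xi, map_pow]

theorem nil1_in1_eta2 : (in1 A0 (xi0 1 ^ 3) cx1).f (eta2 xiA1 X) = eta2 nil1_xi (C X) := by
  rw [map_eta2]; rfl

theorem nil1_in2_eta2 : (in2 A0 (xi0 1 ^ 3) cx1).f (eta2 xiA1 X) = eta2 nil1_xi X := by
  rw [map_eta2]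
  congr 1
  · funext n
    exact CHom.lift_C _ _ _ _ _ _ _
  · exact CHom.lift_X _ _ _ _ _ _

theorem nil1_in1_eta31 : (in1 A0 (xi0 1 ^ 3) cx1).f (eta31 xiA1 X) = eta31 nil1_xi (C X) := by
  rw [map_eta31]; rfl

theorem nil1_in2_eta31 : (in2 A0 (xi0 1 ^ 3) cx1).f (eta31 xiA1 X) = eta31 nil1_xi X := by
  rw [map_eta31]
  congr 1
  · funext n
    exact CHom.lift_C _ _ _ _ _ _ _
  · exact CHom.lift_X _ _ _ _ _ _

theorem nil1_b11_zero : (frob nil1_B).H (bc nil1_B (nil1_xi 1)) = 0 := by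
  rw [← bc_cube (xi1_coc nil1_isXi)]
  have h := bc_of_bdry (u := nil1_xi 1 ^ 3) nil1_isX2.supp nil1_isX2.bdry 0
  rwa [pow_zero, pow_one] at h

/-- `b_22` -/
theorem nil_b22 (hQ : HQ) : IsNilpotent (bc A1 (eta2 xiA1 X ^ 9)) := by
  have hc : Coc A1 1 (eta2 xiA1 X) := eta2_coc isXi_A1 isX_A1
  rw [nil1_pow9, bc_cube hc.cube]
  refine nil1_step hQ 2 (by norm_num) _ (bc_hom hc.cube) ?_
  have h1 := map_bc (in1 A0 (xi0 1 ^ 3) cx1) (u := eta2 xiA1 X ^ 3) hc.cube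
  have h2 := map_bc (in2 A0 (xi0 1 ^ 3) cx1) (u := eta2 xiA1 X ^ 3) hc.cube
  rw [map_pow, nil1_in1_eta2] at h1
  rw [map_pow, nil1_in2_eta2] at h2
  refine h1.trans (Eq.trans ?_ h2.symm)
  rw [bc_cube (eta2_coc nil1_isXi nil1_isX1), bc_cube (eta2_coc nil1_isXi nil1_isX2)]
  exact nil1_alg0 (frob nil1_B).H (bc_eta2_sub nil1_isXi nil1_isX1 nil1_isX2) nil1_b11_zero

/-- `b_33` -/
theorem nil_b33 (hQ : HQ) : IsNilpotent (bc A1 (eta31 xiA1 X ^ 9)) := by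
  have hc : Coc A1 1 (eta31 xiA1 X) := eta31_coc isXi_A1 isX_A1
  have hc2 : Coc A1 1 (eta2 xiA1 X) := eta2_coc isXi_A1 isX_A1
  rw [nil1_pow9, bc_cube hc.cube]
  set y : Hev A1 := bc A1 (eta31 xiA1 X ^ 3) with hy
  have h1 : (in1 A0 (xi0 1 ^ 3) cx1).H y = bc nil1_B (eta31 nil1_xi (C X) ^ 3) := by
    have h := map_bc (in1 A0 (xi0 1 ^ 3) cx1) (u := eta31 xiA1 X ^ 3) hc.cube
    rwa [map_pow, nil1_in1_eta31] at h
  have h2 : (in2 A0 (xi0 1 ^ 3) cx1).H y = bc nil1_B (eta31 nil1_xi X ^ 3) := by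
    have h := map_bc (in2 A0 (xi0 1 ^ 3) cx1) (u := eta31 xiA1 X ^ 3) hc.cube
    rwa [map_pow, nil1_in2_eta31] at h
  have n1 : IsNilpotent (bc nil1_B (eta2 nil1_xi (C X) ^ 9)) := by
    have h := (nil_b22 hQ).map (in1 A0 (xi0 1 ^ 3) cx1).H
    have h' := map_bc (in1 A0 (xi0 1 ^ 3) cx1) (u := eta2 xiA1 X ^ 9) (hc2.pow3 2)
    rw [map_pow, nil1_in1_eta2] at h'
    rw [← h']
    exact h
  have n2 : IsNilpotent (bc nil1_B (eta2 nil1_xi X ^ 9)) := by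
    have h := (nil_b22 hQ).map (in2 A0 (xi0 1 ^ 3) cx1).H
    have h' := map_bc (in2 A0 (xi0 1 ^ 3) cx1) (u := eta2 xiA1 X ^ 9) (hc2.pow3 2)
    rw [map_pow, nil1_in2_eta2] at h'
    rw [← h']
    exact h
  have hd : IsNilpotent ((in1 A0 (xi0 1 ^ 3) cx1).H y - (in2 A0 (xi0 1 ^ 3) cx1).H y) := by
    have hcoc2 : Coc nil1_B 1 (eta2 nil1_xi X) := eta2_coc nil1_isXi nil1_isX2
    have e2 : (frob nil1_B).H (bc nil1_B (eta2 nil1_xi X ^ 3)) =
        bc nil1_B (eta2 nil1_xi X ^ 9) := by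
      rw [← bc_cube hcoc2.cube, ← nil1_pow9]
    rw [h1, h2, bc_cube (eta31_coc nil1_isXi nil1_isX1), bc_cube (eta31_coc nil1_isXi nil1_isX2)]
    exact nil1_alg (frob nil1_B).H (bc_eta31_sub nil1_isXi nil1_isX1 nil1_isX2) n1
      (by rw [e2]; exact n2)
  obtain ⟨k, hk'⟩ := nil1_sub_pow hd
  rw [← map_pow, ← map_pow] at hk'
  have h3 : 0 < 3 ^ k := by positivity
  have hfin := nil1_step hQ (2 * 3 ^ k) (by omega) (y ^ (3 ^ k)) ((bc_hom hc.cube).pow _) hk'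
  rw [map_pow] at hfin
  exact nil1_of_pow hfin

end P0N
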