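import Pool.Agent.H34.P0.Cobar
import Pool.Agent.H34.P0.Tower

/-!
# From the cosimplicial form to the cobar complex
-/

set_option autoImplicit false

namespace P0N

open Finset

/-! ### dictionary -/

lemma wrap_path_one (i k : ℕ) : path i 1 (k + 1) = MvPolynomial.X (i, k) := by
  rw [grp_path_one]
  simp [gen]

lemma wrap_xi (i n : ℕ) : CobarP.xi 3 i n = gen i n := rfl

lemma wrap_act0_X (a : ℕ →o ℕ) (q : ℕ × ℕ) :
    act0 a (MvPolynomial.X q) = path (a q.1) (a (q.1 + 1) - a q.1) (q.2 + 1) := by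
  simp [act0]

/-- dictionary: coface maps -/
theorem cface_eq (j : ℕ) (f : R0) : CobarP.cface 3 j f = A0.act (face j) f := by
  have h : (CobarP.cface 3 j : R0 →+* R0) = act0 (face j) := by
    apply MvPolynomial.ringHom_ext
    · intro r
      simp [CobarP.cface, act0]
    · rintro ⟨i, k⟩
      rw [wrap_act0_X]
      show CobarP.cface 3 j (MvPolynomial.X (i, k)) = _
      unfold CobarP.cface
      rw [MvPolynomial.aeval_X]
      dsimp only
      by_cases h1 : i + 1 < j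
      · rw [if_pos h1, face_apply, face_apply, if_pos h1, if_pos (by omega),
          Nat.add_sub_cancel_left, wrap_path_one]
      · rw [if_neg h1]
        by_cases h2 : i + 1 = j
        · rw [if_pos h2, face_apply, face_apply, if_neg h1, if_pos (by omega)]
          have e : i + 1 + 1 - i = 2 := by omega
          rw [e]
          show _ = gm (path i 1) (gen (i + 1)) (k + 1)
          rw [grp_path_one]
          rfl
        · rw [if_neg h2, face_apply, face_apply, if_neg h1, if_neg (by omega)]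
          have e : i + 1 + 1 - (i + 1) = 1 := by omega
          rw [e, wrap_path_one]
  exact RingHom.congr_fun h f

/-- dictionary: shifts -/
theorem cshift_eq (m : ℕ) (f : R0) : CobarP.cshift 3 m f = A0.act (sh m) f := by
  have h : (CobarP.cshift 3 m : R0 →+* R0) = act0 (sh m) := by
    apply MvPolynomial.ringHom_ext
    · intro r
      simp [CobarP.cshift, act0]
    · rintro ⟨i, k⟩
      rw [wrap_act0_X]
      show CobarP.cshift 3 m (MvPolynomial.X (i, k)) = _
      unfold CobarP.cshift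
      rw [MvPolynomial.aeval_X, sh_apply, sh_apply]
      have e : i + 1 + m - (i + m) = 1 := by omega
      rw [e, wrap_path_one]
  exact RingHom.congr_fun h f

/-- constant from the vertex `n` on -/
def wrapTr (n : ℕ) : ℕ →o ℕ := ⟨fun i => min i n, fun _ _ h => min_le_min_right n h⟩

@[simp] lemma wrapTr_apply (n i : ℕ) : wrapTr n i = min i n := rfl

lemma wrap_tr_mem (n : ℕ) (f : R0) :
    act0 (wrapTr n) f ∈ MvPolynomial.supported (ZMod 3) {q : ℕ × ℕ | q.1 < n} := by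
  induction f using MvPolynomial.induction_on with
  | C r =>
    have : act0 (wrapTr n) (MvPolynomial.C r) = MvPolynomial.C r := by simp [act0]
    rw [this]
    exact Subalgebra.algebraMap_mem _ r
  | add p q hp hq => rw [map_add]; exact add_mem hp hq
  | mul_X p q hp =>
    rw [map_mul]
    refine mul_mem hp ?_
    obtain ⟨i, k⟩ := q
    rw [wrap_act0_X]
    by_cases h : i < n
    · have e1 : wrapTr n i = i := by simp; omega
      have e2 : wrapTr n (i + 1) = i + 1 := by simp; omega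
      dsimp only
      rw [e1, e2, Nat.add_sub_cancel_left, wrap_path_one]
      exact MvPolynomial.X_mem_supported.2 h
    · have e1 : wrapTr n i = n := by simp; omega
      have e2 : wrapTr n (i + 1) = n := by simp; omega
      dsimp only
      rw [e1, e2, Nat.sub_self, path]
      simp [g1]

/-- dictionary: cochains -/
theorem supp_iff (n : ℕ) (f : R0) :
    Supp A0 n f ↔ f ∈ MvPolynomial.supported (ZMod 3) {q : ℕ × ℕ | q.1 < n} := by
  constructor
  · intro h
    have h1 : A0.act (wrapTr n) f = f := h.act_eq _ fun i hi => by simp; omega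
    rw [← h1]
    exact wrap_tr_mem n f
  · intro h a b hab
    have h2 : ∀ g ∈ Algebra.adjoin (ZMod 3)
        ((MvPolynomial.X : ℕ × ℕ → R0) '' {q : ℕ × ℕ | q.1 < n}), act0 a g = act0 b g := by
      intro g hg
      induction hg using Algebra.adjoin_induction with
      | mem x hx =>
        obtain ⟨q, hq, rfl⟩ := hx
        have hq' : q.1 < n := hq
        rw [wrap_act0_X, wrap_act0_X, hab q.1 (by omega), hab (q.1 + 1) (by omega)]
      | algebraMap r =>
        have e1 : act0 a (algebraMap (ZMod 3) R0 r) = algebraMap (ZMod 3) R0 r := by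
          simp [act0, MvPolynomial.algebraMap_eq]
        have e2 : act0 b (algebraMap (ZMod 3) R0 r) = algebraMap (ZMod 3) R0 r := by
          simp [act0, MvPolynomial.algebraMap_eq]
        rw [e1, e2]
      | add x y _ _ hx hy => rw [map_add, map_add, hx, hy]
      | mul x y _ _ hx hy => rw [map_mul, map_mul, hx, hy]
    exact h2 f h

/-- dictionary: differential -/
theorem cd_eq (n : ℕ) (f : R0) : CobarP.cd 3 n f = d A0 n f := by
  unfold CobarP.cd
  rw [d_apply, LinearMap.sum_apply]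
  refine Finset.sum_congr rfl fun j _ => ?_
  rw [LinearMap.smul_apply, ← cface_eq]
  show (-1 : ZMod 3) ^ j • CobarP.cface 3 j f = _
  rw [Algebra.smul_def, map_pow, map_neg, map_one]

lemma cmul_eq (n : ℕ) (f g : R0) : CobarP.cmul 3 n f g = cup A0 n f g := by
  unfold CobarP.cmul cup
  rw [cshift_eq]

/-! ### weights -/

section weights

open MvPolynomial

lemma wrap_aeval_wh {σ τ : Type*} {R : Type*} [CommRing R] (w : σ → ℕ) (w' : τ → ℕ)
    (g : σ → MvPolynomial τ R) (hg : ∀ i, IsWeightedHomogeneous w' (g i) (w i))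
    {φ : MvPolynomial σ R} {t : ℕ} (hφ : IsWeightedHomogeneous w φ t) :
    IsWeightedHomogeneous w' (aeval g φ) t := by
  rw [aeval_def, eval₂_eq]
  refine IsWeightedHomogeneous.sum _ _ _ fun d hd => ?_
  have h1 : Finsupp.weight w d = t := hφ (mem_support_iff.1 hd)
  have h2 := IsWeightedHomogeneous.prod (w := w') d.support (fun i => g i ^ d i)
    (fun i => d i • w i) fun i _ => (hg i).pow (d i)
  have h3 : ∑ i ∈ d.support, d i • w i = t := by
    rw [← h1, Finsupp.weight_apply]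
    rfl
  rw [h3] at h2
  rw [algebraMap_eq]
  exact h2.C_mul _

/-- the weights -/
def wrapW (q : ℕ × ℕ) : ℕ := CobarP.xiDeg 3 q.2

lemma wrap_xiDeg (k : ℕ) : CobarP.xiDeg 3 k = 2 * (3 ^ (k + 1) - 1) := by
  unfold CobarP.xiDeg
  rw [if_neg (by norm_num)]

lemma wrap_xi_wh (i n : ℕ) :
    IsWeightedHomogeneous wrapW (CobarP.xi 3 i n) (2 * (3 ^ n - 1)) := by
  unfold CobarP.xi
  rcases n with _ | n
  · simpa using isWeightedHomogeneous_one (ZMod 3) wrapW
  · rw [if_neg (Nat.succ_ne_zero n)]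
    have := isWeightedHomogeneous_X (ZMod 3) wrapW (i, n + 1 - 1)
    have e : wrapW (i, n + 1 - 1) = 2 * (3 ^ (n + 1) - 1) := by
      unfold wrapW
      rw [wrap_xiDeg]
      rfl
    rwa [e] at this

lemma wrap_cop_wh (i n : ℕ) :
    IsWeightedHomogeneous wrapW (CobarP.cop 3 i n) (2 * (3 ^ n - 1)) := by
  unfold CobarP.cop
  refine IsWeightedHomogeneous.sum _ _ _ fun l hl => ?_
  have hl' : l ≤ n := Nat.lt_succ_iff.1 (Finset.mem_range.1 hl)
  have h1 := ((wrap_xi_wh i (n - l)).pow (3 ^ l)).mul (wrap_xi_wh (i + 1) l)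
  have e : 3 ^ l • (2 * (3 ^ (n - l) - 1)) + 2 * (3 ^ l - 1) = 2 * (3 ^ n - 1) := by
    obtain ⟨m, rfl⟩ : ∃ m, n = l + m := ⟨n - l, by omega⟩
    have e1 : l + m - l = m := by omega
    rw [e1, smul_eq_mul, pow_add]
    have a1 : 1 ≤ 3 ^ l := Nat.one_le_pow _ _ (by norm_num)
    have a2 : 1 ≤ 3 ^ m := Nat.one_le_pow _ _ (by norm_num)
    obtain ⟨x, hx⟩ : ∃ x, 3 ^ l = x + 1 := ⟨3 ^ l - 1, by omega⟩
    obtain ⟨y, hy⟩ : ∃ y, 3 ^ m = y + 1 := ⟨3 ^ m - 1, by omega⟩
    rw [hx, hy]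
    have e2 : (x + 1) * (y + 1) - 1 = x * y + x + y := by
      have : (x + 1) * (y + 1) = x * y + x + y + 1 := by ring
      omega
    rw [e2, Nat.add_sub_cancel, Nat.add_sub_cancel]
    ring
  rwa [e] at h1

lemma wrap_cface_wh (j : ℕ) {f : R0} {t : ℕ} (hf : IsWeightedHomogeneous wrapW f t) :
    IsWeightedHomogeneous wrapW (CobarP.cface 3 j f) t := by
  refine wrap_aeval_wh wrapW wrapW _ ?_ hf
  rintro ⟨i, k⟩
  dsimp only
  split_ifs with h1 h2
  · exact isWeightedHomogeneous_X (ZMod 3) wrapW (i, k)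
  · have := wrap_cop_wh i (k + 1)
    have e : wrapW (i, k) = 2 * (3 ^ (k + 1) - 1) := wrap_xiDeg k
    rw [e]
    exact this
  · exact isWeightedHomogeneous_X (ZMod 3) wrapW (i + 1, k)

lemma wrap_cd_wh (n : ℕ) {f : R0} {t : ℕ} (hf : IsWeightedHomogeneous wrapW f t) :
    IsWeightedHomogeneous wrapW (CobarP.cd 3 n f) t := by
  have h : CobarP.cd 3 n f ∈ weightedHomogeneousSubmodule (ZMod 3) wrapW t := by
    unfold CobarP.cd
    rw [LinearMap.sum_apply]
    refine Submodule.sum_mem _ fun j _ => ?_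
    rw [LinearMap.smul_apply]
    exact Submodule.smul_mem _ _ (wrap_cface_wh j hf)
  exact h

/-- the components -/
noncomputable def wrapC (t : ℕ) (f : R0) : R0 := weightedHomogeneousComponent wrapW t f

lemma wrapC_wh (t : ℕ) (f : R0) : IsWeightedHomogeneous wrapW (wrapC t f) t :=
  weightedHomogeneousComponent_isWeightedHomogeneous t f

lemma wrapC_sum (f : R0) : ∃ T : Finset ℕ, f = ∑ t ∈ T, wrapC t f ∧
    ∀ t, t ∉ T → wrapC t f = 0 := by
  refine ⟨(weightedHomogeneousComponent_finsupp (w := wrapW) f).toFinset, ?_, ?_⟩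
  · have := sum_weightedHomogeneousComponent wrapW f
    rw [finsum_eq_sum _ (weightedHomogeneousComponent_finsupp f)] at this
    exact this.symm
  · intro t ht
    by_contra h
    exact ht ((Set.Finite.mem_toFinset _).2 h)

lemma wrapC_cd (n t : ℕ) (f : R0) : wrapC t (CobarP.cd 3 n f) = CobarP.cd 3 n (wrapC t f) := by
  obtain ⟨T, hT, hT0⟩ := wrapC_sum f
  have h1 : CobarP.cd 3 n f = ∑ s ∈ T, CobarP.cd 3 n (wrapC s f) := by
    conv_lhs => rw [hT]
    rw [map_sum]
  have h2 : ∀ s, wrapC t (CobarP.cd 3 n (wrapC s f)) =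
      if t = s then CobarP.cd 3 n (wrapC s f) else 0 := fun s =>
    weightedHomogeneousComponent_of_mem (wrap_cd_wh n (wrapC_wh s f))
  have h3 : wrapC t (∑ s ∈ T, CobarP.cd 3 n (wrapC s f)) =
      ∑ s ∈ T, wrapC t (CobarP.cd 3 n (wrapC s f)) := by
    unfold wrapC
    rw [map_sum]
  rw [h1, h3, Finset.sum_congr rfl fun s _ => h2 s, Finset.sum_ite_eq]
  split_ifs with ht
  · rfl
  · rw [hT0 t ht, map_zero]

lemma wrapC_supported (n t : ℕ) {f : R0}
    (hf : f ∈ supported (ZMod 3) {q : ℕ × ℕ | q.1 < n}) :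
    wrapC t f ∈ supported (ZMod 3) {q : ℕ × ℕ | q.1 < n} := by
  classical
  rw [mem_supported] at hf ⊢
  intro q hq
  apply hf
  have hq' : q ∈ (wrapC t f).vars := hq
  have : q ∈ f.vars := by
    rw [vars_eq_support_biUnion_support, Finset.mem_biUnion] at hq' ⊢
    obtain ⟨d, hd, hq⟩ := hq'
    refine ⟨d, ?_, hq⟩
    unfold wrapC at hd
    rw [support_weightedHomogeneousComponent, Finset.mem_filter] at hd
    exact hd.1
  exact this

lemma wrap_mem_Zn {n t : ℕ} {f : R0} (hf : Coc A0 n f) : wrapC t f ∈ CobarP.Zn 3 n t := by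
  refine Submodule.mem_inf.2 ⟨Submodule.mem_inf.2 ⟨?_, wrapC_wh t f⟩, ?_⟩
  · exact wrapC_supported n t ((supp_iff n f).1 hf.1)
  · rw [LinearMap.mem_ker, ← wrapC_cd, cd_eq, hf.2]
    exact map_zero _

lemma wrap_coc_of_mem {n t : ℕ} {f : R0} (hf : f ∈ CobarP.Zn 3 n t) : Coc A0 n f := by
  obtain ⟨h1, h2⟩ := Submodule.mem_inf.1 hf
  obtain ⟨h3, _⟩ := Submodule.mem_inf.1 h1
  refine ⟨(supp_iff n f).2 h3, ?_⟩
  rw [← cd_eq]
  exact h2

end weights

/-! ### powers in `Ext` -/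

/-- the powers of a cochain -/
noncomputable def wrapPow (s : ℕ) (g : R0) : ℕ → R0
  | 0 => 1
  | m + 1 => CobarP.cmul 3 (s * m) (wrapPow s g m) g

lemma wrap_pow_mk {s t : ℕ} (g : ↥(CobarP.Zn 3 s t)) (m : ℕ) :
    ∃ h : wrapPow s g.1 m ∈ CobarP.Zn 3 (s * m) (t * m),
      CobarP.ExtP.pow 3 (CobarP.ExtP.mk 3 g) m = CobarP.ExtP.mk 3 ⟨wrapPow s g.1 m, h⟩ := by
  induction m with
  | zero => exact ⟨CobarP.one_mem_Zn 3, rfl⟩
  | succ m ih =>
    obtain ⟨h, e⟩ := ih
    refine ⟨CobarP.cmul_mem 3 h g.2, ?_⟩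
    show CobarP.ExtP.mul 3 (CobarP.ExtP.pow 3 (CobarP.ExtP.mk 3 g) m) (CobarP.ExtP.mk 3 g) = _
    rw [e]
    rfl

lemma wrap_mk_zero {s t : ℕ} (f : ↥(CobarP.Zn 3 s t)) (h : CobarP.ExtP.mk 3 f = 0) :
    f.1 ∈ CobarP.Bn 3 s t :=
  (Submodule.Quotient.mk_eq_zero ((CobarP.Bn 3 s t).submoduleOf (CobarP.Zn 3 s t))).1 h

lemma wrap_pow_coc {s : ℕ} {g : R0} (hs : Even s) (hg : Coc A0 s g) (m : ℕ) :
    Coc A0 (s * m) (wrapPow s g m) ∧ cls A0 (s * m) (wrapPow s g m) = cls A0 s g ^ m := by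
  induction m with
  | zero => exact ⟨Coc.one A0, by rw [pow_zero]; exact cls_one A0⟩
  | succ m ih =>
    show Coc A0 (s * m + s) (CobarP.cmul 3 (s * m) (wrapPow s g m) g) ∧
      cls A0 (s * m + s) (CobarP.cmul 3 (s * m) (wrapPow s g m) g) = _
    rw [cmul_eq]
    exact ⟨ih.1.cup hg, by rw [cls_mul (hs.mul_right m) hs ih.1 hg, ih.2, pow_succ]⟩

lemma wrap_cls_sum {n : ℕ} (hn : Even n) {ι : Type*} (T : Finset ι) (f : ι → R0)
    (hf : ∀ i, Coc A0 n (f i)) :
    Coc A0 n (∑ i ∈ T, f i) ∧ cls A0 n (∑ i ∈ T, f i) = ∑ i ∈ T, cls A0 n (f i) := by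
  classical
  induction T using Finset.induction_on with
  | empty =>
    rw [Finset.sum_empty, Finset.sum_empty]
    exact ⟨Coc.zero A0 n, cls_zero A0 n⟩
  | insert a T ha ih =>
    rw [Finset.sum_insert ha, Finset.sum_insert ha]
    exact ⟨(hf a).add ih.1, by rw [cls_add hn (hf a) ih.1, ih.2]⟩

/-- the translation of the negation of `HQ` -/
theorem wrap (h : ¬ HQ) :
    ∃ s t : ℕ, 0 < s ∧ ∃ z : CobarP.ExtP 3 s t,
      ¬ CobarP.ExtP.IsNilp 3 (CobarP.ExtP.P0 3 z) := by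
  by_contra hcon
  apply h
  rintro k hk _ ⟨hev, f, hf, rfl⟩
  obtain ⟨T, hT, -⟩ := wrapC_sum f
  have hco : ∀ t, Coc A0 (2 * k) (wrapC t f) := fun t => wrap_coc_of_mem (wrap_mem_Zn hf)
  have hcl : cls A0 (2 * k) f = ∑ t ∈ T, cls A0 (2 * k) (wrapC t f) := by
    conv_lhs => rw [hT]
    exact (wrap_cls_sum hev T (fun t => wrapC t f) hco).2
  rw [hcl, map_sum]
  refine isNilpotent_sum fun t _ => ?_
  have hz := wrap_mem_Zn (t := t) hf
  have hnil : CobarP.ExtP.IsNilp 3 (CobarP.ExtP.P0 3 (CobarP.ExtP.mk 3 ⟨wrapC t f, hz⟩)) := by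
    by_contra h'
    exact hcon ⟨2 * k, t, by omega, _, h'⟩
  obtain ⟨m, hm, hpow⟩ := hnil
  have hP : CobarP.ExtP.P0 3 (CobarP.ExtP.mk 3 ⟨wrapC t f, hz⟩) =
      CobarP.ExtP.mk 3 ⟨wrapC t f ^ 3, CobarP.frob_mem_Zn 3 hz⟩ := rfl
  rw [hP] at hpow
  obtain ⟨hmem, hpk⟩ := wrap_pow_mk (⟨wrapC t f ^ 3, CobarP.frob_mem_Zn 3 hz⟩ :
    ↥(CobarP.Zn 3 (2 * k) (3 * t))) m
  rw [hpk] at hpow
  have hB := wrap_mk_zero _ hpow
  have hcub : Coc A0 (2 * k) (wrapC t f ^ 3) := (hco t).cube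
  obtain ⟨hc1, hc2⟩ := wrap_pow_coc hev hcub m
  obtain ⟨r, hr⟩ : ∃ r, 2 * k * m = r + 1 := ⟨2 * k * m - 1, by
    have : 0 < 2 * k * m := by positivity
    omega⟩
  have hzero : cls A0 (2 * k * m) (wrapPow (2 * k) (wrapC t f ^ 3) m) = 0 := by
    have hev2 : Even (2 * k * m) := hev.mul_right m
    have hB' : wrapPow (2 * k) (wrapC t f ^ 3) m ∈ CobarP.Bn 3 (2 * k * m) (3 * t * m) := hB
    rw [hr] at hB' hev2 ⊢
    obtain ⟨g, hg, hgd⟩ := hB'
    obtain ⟨hg1, _⟩ := Submodule.mem_inf.1 hg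
    rw [← hgd, cd_eq]
    exact cls_bdry hev2 ((supp_iff r g).2 hg1)
  refine ⟨m, ?_⟩
  rw [map_cls (frob A0) hev (hco t), frob_f, ← hc2]
  exact hzero

end P0N
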